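import Mathlib

namespace Pool.Agent.MP_a07d0e_nt

structure St where
  c : ℝ
  W : ℝ
  r : ℝ

noncomputable def St.f (s : St) (t : ℝ) : ℝ := s.c + s.W * t / (1 + s.r * t)

noncomputable def St.D (s : St) (t : ℝ) : ℝ := |s.W| / (1 + s.r * t) ^ 2

noncomputable def St.L (s : St) : ℝ := s.D (57 / 100)

noncomputable def step (d : ℝ) (s : St) : St :=
  ⟨s.c + s.W / (d + s.r), -s.W / (d + s.r) ^ 2, 1 / (d + s.r)⟩

noncomputable def dg (b : Bool) : ℝ := if b then 2 else 1

noncomputable def child : List Bool → St → St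
  | [], s => s
  | b :: l, s => child l (step (dg b) s)

noncomputable def wd : List Bool → ℝ → ℝ
  | [], t => t
  | b :: l, t => 1 / (dg b + wd l t)

noncomputable def den : List Bool → ℝ → ℝ
  | [], _ => 1
  | b :: l, t => (dg b + wd l t) * den l t

lemma dg_ge (b : Bool) : 1 ≤ dg b := by cases b <;> simp [dg]

lemma wd_nonneg (l : List Bool) {t : ℝ} (ht : 0 ≤ t) : 0 ≤ wd l t := by
  induction l with
  | nil => exact ht
  | cons b l ih => have := dg_ge b; simp only [wd]; positivity

lemma den_pos (l : List Bool) {t : ℝ} (ht : 0 ≤ t) : 0 < den l t := by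
  induction l with
  | nil => simp [den]
  | cons b l ih => have := dg_ge b; have := wd_nonneg l ht; simp only [den]; positivity

lemma step_r_nonneg {d : ℝ} (hd : 1 ≤ d) {s : St} (hr : 0 ≤ s.r) : 0 ≤ (step d s).r := by
  simp only [step]; positivity

lemma f_step {d : ℝ} (hd : 1 ≤ d) {s : St} (hr : 0 ≤ s.r) {t : ℝ} (ht : 0 ≤ t) :
    (step d s).f t = s.f (1 / (d + t)) := by
  simp only [step, St.f]
  have h1 : d + s.r ≠ 0 := by positivity
  have h2 : d + t ≠ 0 := by positivity
  have h3 : d + s.r + t ≠ 0 := by positivity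
  have h4 : d + t + s.r ≠ 0 := by positivity
  field_simp
  ring

lemma D_step {d : ℝ} (hd : 1 ≤ d) {s : St} (hr : 0 ≤ s.r) {t : ℝ} (ht : 0 ≤ t) :
    (step d s).D t = s.D (1 / (d + t)) / (d + t) ^ 2 := by
  simp only [step, St.D]
  have h1 : 0 < d + s.r := by positivity
  have h2 : d + t ≠ 0 := by positivity
  have h3 : d + s.r + t ≠ 0 := by positivity
  have h4 : d + t + s.r ≠ 0 := by positivity
  rw [abs_div, abs_neg, abs_of_pos (pow_pos h1 2)]
  field_simp
  ring

lemma child_r_nonneg (l : List Bool) {s : St} (hr : 0 ≤ s.r) : 0 ≤ (child l s).r := by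
  induction l generalizing s with
  | nil => exact hr
  | cons b l ih => exact ih (step_r_nonneg (dg_ge b) hr)

lemma f_child (l : List Bool) {s : St} (hr : 0 ≤ s.r) {t : ℝ} (ht : 0 ≤ t) :
    (child l s).f t = s.f (wd l t) := by
  induction l generalizing s with
  | nil => rfl
  | cons b l ih =>
    simp only [child, wd]
    rw [ih (step_r_nonneg (dg_ge b) hr), f_step (dg_ge b) hr (wd_nonneg l ht)]

lemma D_child (l : List Bool) {s : St} (hr : 0 ≤ s.r) {t : ℝ} (ht : 0 ≤ t) :
    (child l s).D t = s.D (wd l t) / (den l t) ^ 2 := by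
  induction l generalizing s with
  | nil => simp [child, wd, den]
  | cons b l ih =>
    simp only [child, wd, den]
    rw [ih (step_r_nonneg (dg_ge b) hr), D_step (dg_ge b) hr (wd_nonneg l ht), div_div, mul_pow]

/-- sign of a state: `true` means negative -/
def Sg (b : Bool) (s : St) : Prop := if b then s.W < 0 else 0 < s.W

lemma Sg_step {d : ℝ} (hd : 1 ≤ d) {s : St} (hr : 0 ≤ s.r) {b : Bool} (h : Sg b s) :
    Sg (!b) (step d s) := by
  have h1 : 0 < (d + s.r) ^ 2 := by positivity
  cases b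
  · simp only [Sg, step, Bool.not_false, if_true, Bool.false_eq_true, if_false] at h ⊢
    exact div_neg_of_neg_of_pos (by linarith) h1
  · simp only [Sg, step, Bool.not_true, if_true, Bool.false_eq_true, if_false] at h ⊢
    exact div_pos (by linarith) h1

lemma Sg_child (l : List Bool) {s : St} (hr : 0 ≤ s.r) {b : Bool} (h : Sg b s) :
    Sg (xor b l.length.bodd) (child l s) := by
  induction l generalizing s b with
  | nil => simpa [child] using h
  | cons a l ih =>
    have := ih (step_r_nonneg (dg_ge a) hr) (Sg_step (dg_ge a) hr h)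
    simp only [child, List.length_cons, Nat.bodd_succ]
    convert this using 1
    cases b <;> cases l.length.bodd <;> rfl

/-- range of `r` -/
def InI (r : ℝ) : Prop := 3660 / 10000 ≤ r ∧ r ≤ 7321 / 10000

def InX (r : ℝ) : Prop := InI r ∧ (r ≤ 4227 / 10000 ∨ 5773 / 10000 ≤ r)

lemma InI.nonneg {r : ℝ} (h : InI r) : 0 ≤ r := by have := h.1; linarith

lemma InX_T (b : Bool) {r : ℝ} (h : InI r) : InX (1 / (dg b + r)) := by
  obtain ⟨h1, h2⟩ := h
  cases b
  · simp only [dg, Bool.false_eq_true, if_false]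
    have hp : 0 < 1 + r := by linarith
    refine ⟨⟨?_, ?_⟩, Or.inr ?_⟩
    · rw [le_div_iff₀ hp]; linarith
    · rw [div_le_iff₀ hp]; linarith
    · rw [le_div_iff₀ hp]; linarith
  · simp only [dg, if_true]
    have hp : 0 < 2 + r := by linarith
    refine ⟨⟨?_, ?_⟩, Or.inl ?_⟩
    · rw [le_div_iff₀ hp]; linarith
    · rw [div_le_iff₀ hp]; linarith
    · rw [div_le_iff₀ hp]; linarith

lemma InX_child (l : List Bool) {s : St} (h : InX s.r) : InX (child l s).r := by
  induction l generalizing s with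
  | nil => exact h
  | cons b l ih => exact ih (InX_T b h.1)

lemma InI_child (l : List Bool) {s : St} (h : InI s.r) : InI (child l s).r := by
  induction l generalizing s with
  | nil => exact h
  | cons b l ih => exact ih (InX_T b h).1

lemma L_nonneg (s : St) : 0 ≤ s.L := by simp only [St.L, St.D]; positivity

lemma L_step (b : Bool) {s : St} (h : InI s.r) : (step (dg b) s).L ≤ s.L / 2 := by
  have hd := dg_ge b
  have hr := h.nonneg
  simp only [St.L]
  rw [D_step hd hr (by norm_num)]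
  simp only [St.D]
  have h2 : 0 < dg b + 57 / 100 := by positivity
  have e : (1 + s.r * (1 / (dg b + 57 / 100))) ^ 2 * (dg b + 57 / 100) ^ 2
      = (dg b + 57 / 100 + s.r) ^ 2 := by
    field_simp
  rw [div_div, e, div_div]
  apply div_le_div_of_nonneg_left (abs_nonneg _) (by positivity)
  have := h.1; have := h.2
  nlinarith

lemma L_child (l : List Bool) {s : St} (h : InI s.r) : (child l s).L ≤ s.L := by
  induction l generalizing s with
  | nil => exact le_rfl
  | cons b l ih =>
    have h1 := ih (s := step (dg b) s) (InX_T b h).1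
    have h2 := L_step b h
    have := L_nonneg s
    simp only [child]; linarith

lemma L_child_ne {l : List Bool} (hl : l ≠ []) {s : St} (h : InI s.r) :
    (child l s).L ≤ s.L / 2 := by
  cases l with
  | nil => exact absurd rfl hl
  | cons b l =>
    have h1 := L_child l (s := step (dg b) s) (InX_T b h).1
    have h2 := L_step b h
    simp only [child]; linarith

noncomputable def F (r p : ℝ) : ℝ := (1 + r * (57 / 100)) / (1 + r * p)

lemma F_pos {r p : ℝ} (hr : 0 ≤ r) (hp : 0 ≤ p) : 0 < F r p := by simp only [F]; positivity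

lemma F_anti {a r p : ℝ} (ha : 0 ≤ a) (h : a ≤ r) (hp : 57 / 100 ≤ p) : F r p ≤ F a p := by
  have hr : 0 ≤ r := ha.trans h
  have hp0 : 0 ≤ p := by linarith
  simp only [F]
  rw [div_le_div_iff₀ (by positivity) (by positivity)]
  nlinarith [mul_nonneg (sub_nonneg.2 h) (sub_nonneg.2 hp)]

lemma F_mono {a r p : ℝ} (ha : 0 ≤ a) (h : a ≤ r) (hp0 : 0 ≤ p) (hp : p ≤ 57 / 100) :
    F a p ≤ F r p := by
  have hr : 0 ≤ r := ha.trans h
  simp only [F]
  rw [div_le_div_iff₀ (by positivity) (by positivity)]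
  nlinarith [mul_nonneg (sub_nonneg.2 h) (sub_nonneg.2 hp)]

lemma f_sub {s : St} (hr : 0 ≤ s.r) {p q : ℝ} (hp : 0 ≤ p) (hq : 0 ≤ q) :
    s.f p - s.f q = s.W * (p - q) / ((1 + s.r * p) * (1 + s.r * q)) := by
  simp only [St.f]
  have h1 : 1 + s.r * p ≠ 0 := by positivity
  have h2 : 1 + s.r * q ≠ 0 := by positivity
  field_simp
  ring

lemma f_sub_pos {s : St} (hr : 0 ≤ s.r) (h : Sg false s) {p q : ℝ} (hp : 0 ≤ p) (hq : 0 ≤ q) :
    s.f p - s.f q = s.L * ((p - q) * F s.r p * F s.r q) := by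
  rw [f_sub hr hp hq]
  have hW : 0 < s.W := by simpa [Sg] using h
  simp only [St.L, St.D, F, abs_of_pos hW]
  have h1 : 1 + s.r * p ≠ 0 := by positivity
  have h2 : 1 + s.r * q ≠ 0 := by positivity
  have h3 : 1 + s.r * (57 / 100) ≠ 0 := by positivity
  field_simp

lemma f_sub_neg {s : St} (hr : 0 ≤ s.r) (h : Sg true s) {p q : ℝ} (hp : 0 ≤ p) (hq : 0 ≤ q) :
    s.f p - s.f q = s.L * ((q - p) * F s.r q * F s.r p) := by
  rw [f_sub hr hp hq]
  have hW : s.W < 0 := by simpa [Sg] using h
  simp only [St.L, St.D, F, abs_of_neg hW]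
  have h1 : 1 + s.r * p ≠ 0 := by positivity
  have h2 : 1 + s.r * q ≠ 0 := by positivity
  have h3 : 1 + s.r * (57 / 100) ≠ 0 := by positivity
  field_simp
  ring

lemma L_child_eq (l : List Bool) {s : St} (hr : 0 ≤ s.r) :
    (child l s).L = s.L * (F s.r (wd l (57 / 100)) / den l (57 / 100)) ^ 2 := by
  simp only [St.L]
  rw [D_child l hr (by norm_num)]
  have h0 := wd_nonneg l (t := 57 / 100) (by norm_num)
  have h1 := den_pos l (t := 57 / 100) (by norm_num)
  simp only [St.D, F]
  have h3 : 1 + s.r * (57 / 100) ≠ 0 := by positivity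
  have h4 : 1 + s.r * wd l (57 / 100) ≠ 0 := by positivity
  field_simp

noncomputable def St.lo (s : St) : ℝ := if s.W < 0 then s.f (67 / 100) else s.f (46 / 100)
noncomputable def St.hi (s : St) : ℝ := if s.W < 0 then s.f (46 / 100) else s.f (67 / 100)

structure Good (s1 s2 s3 : St) (τ : ℝ) : Prop where
  x1 : InX s1.r
  x2 : InX s2.r
  x3 : InX s3.r
  w1 : s1.W ≠ 0
  w2 : s2.W ≠ 0
  w3 : s3.W ≠ 0
  r12 : 33 * s1.L ≤ 100 * s2.L
  r21 : 33 * s2.L ≤ 100 * s1.L
  r13 : 33 * s1.L ≤ 100 * s3.L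
  r31 : 33 * s3.L ≤ 100 * s1.L
  r23 : 33 * s2.L ≤ 100 * s3.L
  r32 : 33 * s3.L ≤ 100 * s2.L
  lo : s1.lo + s2.lo + s3.lo ≤ τ
  hi : τ ≤ s1.hi + s2.hi + s3.hi

end Pool.Agent.MP_a07d0e_nt
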