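import Mathlib

namespace Pool.Agent.MP_a07d0e_nt

/-- The Gauss map `x ↦ {1/x}`. -/
noncomputable def gauss (x : ℝ) : ℝ := Int.fract x⁻¹

/-- The `k`-th quotient `a_k(x)` (`k ≥ 1`) of the continued fraction `x = [a_1, a_2, ...]`. -/
noncomputable def quot (x : ℝ) (k : ℕ) : ℤ := ⌊(gauss^[k - 1] x)⁻¹⌋

/-- The set `B_{B,j}`. -/
def Bset (B j : ℕ) : Set ℝ :=
  {x | Irrational x ∧ 0 < x ∧ x < 1 ∧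
    (∀ k, 1 ≤ k → k ≤ j → quot x k ≤ B + 1) ∧ (∀ k, j < k → quot x k ≤ B)}

/-- The set `S_j`. -/
def Sset (j : ℕ) : Set (ℝ × ℝ × ℝ) :=
  {p | p.1 ∈ Bset 2 j ∧ p.2.1 ∈ Bset 2 j ∧ p.2.2 ∈ Bset 2 j ∧
    p.1 ≤ p.2.1 ∧ p.2.1 ≤ p.2.2 ∧ p.1 + p.2.1 + p.2.2 = 1}

end Pool.Agent.MP_a07d0e_nt
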