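import Pool.Agent.MP_a07d0e_nt.Basic
import Pool.Agent.MP_a07d0e_nt.Defs

namespace Pool.Agent.MP_a07d0e_nt

noncomputable def T (b : Bool) (t : ℝ) : ℝ := 1 / (dg b + t)

def En : ℕ → Set ℝ
  | 0 => Set.Icc (3660 / 10000) (7321 / 10000)
  | n + 1 => T false '' En n ∪ T true '' En n

def E : Set ℝ := ⋂ n, En n

lemma En_sub {n : ℕ} {t : ℝ} (h : t ∈ En n) : InI t := by
  induction n generalizing t with
  | zero => exact h
  | succ n ih =>
    rcases h with ⟨u, hu, rfl⟩ | ⟨u, hu, rfl⟩
    · exact (InX_T false (ih hu)).1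
    · exact (InX_T true (ih hu)).1

lemma En_compact (n : ℕ) : IsCompact (En n) := by
  induction n with
  | zero => exact isCompact_Icc
  | succ n ih =>
    have : ∀ b, ContinuousOn (T b) (En n) := by
      intro b
      apply ContinuousOn.div continuousOn_const (by fun_prop)
      intro t ht
      have := (En_sub ht).nonneg
      have := dg_ge b
      positivity
    exact (ih.image_of_continuousOn (this false)).union (ih.image_of_continuousOn (this true))

lemma E_compact : IsCompact E :=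
  (En_compact 0).of_isClosed_subset (isClosed_iInter fun n => (En_compact n).isClosed)
    (Set.iInter_subset _ 0)

lemma E_InI {t : ℝ} (h : t ∈ E) : InI t := En_sub (Set.mem_iInter.1 h 0)

lemma T_mem {t : ℝ} (h : t ∈ E) (b : Bool) : T b t ∈ E := by
  refine Set.mem_iInter.2 fun n => ?_
  cases n with
  | zero => exact (InX_T b (E_InI h)).1
  | succ n =>
    cases b
    · exact Or.inl ⟨t, Set.mem_iInter.1 h n, rfl⟩
    · exact Or.inr ⟨t, Set.mem_iInter.1 h n, rfl⟩

lemma wd_mem (l : List Bool) {t : ℝ} (h : t ∈ E) : wd l t ∈ E := by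
  induction l with
  | nil => exact h
  | cons b l ih => exact T_mem ih b

lemma E_nonempty : E.Nonempty := by
  have h5 : Real.sqrt 5 * Real.sqrt 5 = 5 := Real.mul_self_sqrt (by norm_num)
  have h0 : 0 ≤ Real.sqrt 5 := Real.sqrt_nonneg 5
  have h1 : 2 ≤ Real.sqrt 5 := by nlinarith
  have h2 : Real.sqrt 5 ≤ 23 / 10 := by nlinarith
  refine ⟨(Real.sqrt 5 - 1) / 2, Set.mem_iInter.2 fun n => ?_⟩
  induction n with
  | zero => constructor <;> linarith
  | succ n ih =>
    refine Or.inl ⟨_, ih, ?_⟩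
    simp only [T, dg, Bool.false_eq_true, if_false]
    rw [div_eq_iff (by linarith)]
    nlinarith

lemma gauss_T (d : ℤ) {t : ℝ} (h0 : 0 ≤ t) (h1 : t < 1) :
    gauss (1 / (d + t)) = t ∧ ⌊(1 / ((d : ℝ) + t))⁻¹⌋ = d := by
  simp only [gauss, one_div, inv_inv]
  refine ⟨by rw [Int.fract_intCast_add, Int.fract_eq_self.2 ⟨h0, h1⟩], ?_⟩
  rw [Int.floor_eq_iff]; constructor <;> linarith

lemma InI.lt_one {t : ℝ} (h : InI t) : t < 1 := by have := h.2; linarith

lemma gauss_Tb (b : Bool) {t : ℝ} (h : InI t) :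
    gauss (T b t) = t ∧ ⌊(T b t)⁻¹⌋ ≤ 2 := by
  cases b
  · have := gauss_T 1 h.nonneg h.lt_one
    simp only [T, dg, Bool.false_eq_true, if_false]
    push_cast at this
    exact ⟨this.1, by rw [this.2]; norm_num⟩
  · have := gauss_T 2 h.nonneg h.lt_one
    simp only [T, dg, if_true]
    push_cast at this
    exact ⟨this.1, by rw [this.2]⟩

lemma E_gauss {t : ℝ} (h : t ∈ E) : gauss t ∈ E ∧ ⌊t⁻¹⌋ ≤ 2 ∧ ∃ b, t = T b (gauss t) := by
  have key : ∀ n, gauss t ∈ En n ∧ ⌊t⁻¹⌋ ≤ 2 ∧ ∃ b, t = T b (gauss t) := by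
    intro n
    rcases Set.mem_iInter.1 h (n + 1) with ⟨u, hu, rfl⟩ | ⟨u, hu, rfl⟩
    · have := gauss_Tb false (En_sub hu)
      rw [this.1]; exact ⟨hu, this.2, false, rfl⟩
    · have := gauss_Tb true (En_sub hu)
      rw [this.1]; exact ⟨hu, this.2, true, rfl⟩
  exact ⟨Set.mem_iInter.2 fun n => (key n).1, (key 0).2⟩

lemma E_iter {t : ℝ} (h : t ∈ E) (n : ℕ) : gauss^[n] t ∈ E := by
  induction n with
  | zero => exact h
  | succ n ih => rw [Function.iterate_succ_apply']; exact (E_gauss ih).1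

lemma E_not_rat (b : ℕ) : ∀ a : ℤ, ((a : ℝ) / b) ∉ E := by
  induction b using Nat.strong_induction_on with
  | _ b ih =>
    intro a h
    have hI := E_InI h
    have hb : (0 : ℝ) < b := by
      rcases Nat.eq_zero_or_pos b with rfl | hb
      · have := hI.1; norm_num at this
      · exact_mod_cast hb
    have h0 : (0 : ℝ) < a := by
      have := hI.1
      rw [le_div_iff₀ hb] at this; linarith
    have h1 : (a : ℝ) < b := by
      have := hI.lt_one
      rwa [div_lt_one hb] at this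
    have h0' : 0 < a := by exact_mod_cast h0
    have h1' : a < b := by exact_mod_cast h1
    obtain ⟨hg, -, c, hc⟩ := E_gauss h
    have hn := (E_InI hg).nonneg
    have hd := dg_ge c
    have e : gauss ((a : ℝ) / b) = (((b : ℤ) - (cond c 2 1) * a : ℤ) : ℝ) / (a.toNat : ℕ) := by
      have e1 : ((a.toNat : ℕ) : ℝ) = a := by
        have : ((a.toNat : ℕ) : ℤ) = a := Int.toNat_of_nonneg h0'.le
        exact_mod_cast this
      have e2 : ((cond c 2 1 : ℤ) : ℝ) = dg c := by cases c <;> simp [dg]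
      rw [e1]; push_cast; rw [e2]
      simp only [T] at hc
      generalize gauss ((a : ℝ) / b) = g at hc hn ⊢
      have h3 : dg c + g ≠ 0 := by positivity
      field_simp at hc ⊢
      linarith
    rw [e] at hg
    exact ih a.toNat (by omega) _ hg

lemma E_irr {t : ℝ} (h : t ∈ E) : Irrational t := by
  rintro ⟨q, rfl⟩
  apply E_not_rat q.den q.num
  rwa [Rat.cast_def] at h

lemma mem_Bset {t : ℝ} (h : t ∈ E) (d e : ℤ) (hd : 1 ≤ d) (hd3 : d ≤ 3) (he : 1 ≤ e) (he3 : e ≤ 3)
    {j : ℕ} (hj : 2 ≤ j) : 1 / (d + 1 / (e + t)) ∈ Bset 2 j := by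
  have hI := E_InI h
  have hn := hI.nonneg
  have hp : 0 < t := by have := hI.1; linarith
  have hd' : (1 : ℝ) ≤ d := by exact_mod_cast hd
  have he' : (1 : ℝ) ≤ e := by exact_mod_cast he
  have k1 : 0 < 1 / (e + t) := by positivity
  have k2 : 1 / (e + t) < 1 := by rw [div_lt_one (by positivity)]; linarith
  obtain ⟨g1, g2⟩ := gauss_T d k1.le k2
  obtain ⟨g3, g4⟩ := gauss_T e hn hI.lt_one
  have hq : ∀ k, quot (1 / (d + 1 / (e + t))) (k + 3) ≤ 2 := by
    intro k
    simp only [quot]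
    have : k + 3 - 1 = k + 1 + 1 := by omega
    rw [this, Function.iterate_succ_apply, Function.iterate_succ_apply, g1, g3]
    exact (E_gauss (E_iter h k)).2.1
  have hq1 : quot (1 / (d + 1 / (e + t))) 1 = d := by simpa [quot] using g2
  have hq2 : quot (1 / (d + 1 / (e + t))) 2 = e := by
    simp only [quot]
    have : 2 - 1 = 1 := rfl
    rw [this, Function.iterate_one, g1, g4]
  refine ⟨?_, by positivity, ?_, ?_, ?_⟩
  · have := (E_irr h).intCast_add e
    have := this.inv.intCast_add d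
    simpa only [one_div] using this.inv
  · rw [div_lt_one (by positivity)]; linarith
  · intro k hk _
    rcases (by omega : k = 1 ∨ k = 2 ∨ 3 ≤ k) with rfl | rfl | hk3
    · rw [hq1]; push_cast; omega
    · rw [hq2]; push_cast; omega
    · obtain ⟨m, rfl⟩ := Nat.exists_eq_add_of_le' hk3
      have := hq m; push_cast; omega
  · intro k hk
    obtain ⟨m, rfl⟩ := Nat.exists_eq_add_of_le' (by omega : 3 ≤ k)
    have := hq m; push_cast; omega

end Pool.Agent.MP_a07d0e_nt
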