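import Pool.Agent.MP_a07d0e_nt.Basic

namespace Pool.Agent.MP_a07d0e_nt

structure Pt where
  n : ℕ
  d : ℕ

noncomputable def Pt.v (p : Pt) : ℝ := (p.n : ℝ) / p.d

lemma Pt.v_nonneg (p : Pt) : 0 ≤ p.v := by simp only [Pt.v]; positivity

def nd : List Bool → Pt → Pt
  | [], p => p
  | b :: l, p => ⟨(nd l p).d, cond b 2 1 * (nd l p).d + (nd l p).n⟩

lemma nd_spec (l : List Bool) (p : Pt) (hp : 0 < p.d) :
    0 < (nd l p).d ∧ wd l p.v = (nd l p).v ∧ den l p.v = ((nd l p).d : ℝ) / p.d := by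
  have hp' : (0 : ℝ) < p.d := by exact_mod_cast hp
  induction l with
  | nil => exact ⟨hp, rfl, by simp only [den, nd]; field_simp⟩
  | cons b l ih =>
    obtain ⟨h1, h2, h3⟩ := ih
    have h1' : (0 : ℝ) < (nd l p).d := by exact_mod_cast h1
    have hn : (0 : ℝ) ≤ (nd l p).n := by positivity
    have e : ((cond b 2 1 : ℕ) : ℝ) = dg b := by cases b <;> simp [dg]
    have hd := dg_ge b
    refine ⟨?_, ?_, ?_⟩
    · simp only [nd]; cases b <;> simp <;> omega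
    · rw [wd, h2]; simp only [nd, Pt.v]; push_cast; rw [e]
      have : dg b * (nd l p).d + (nd l p).n ≠ 0 := by positivity
      field_simp
    · rw [den, h2, h3]; simp only [nd, Pt.v]; push_cast; rw [e]
      field_simp

structure Wd where
  pa : Pt
  pb : Pt
  pz : Pt
  odd : Bool
  l : List Bool
  h : nd l ⟨46, 100⟩ = pa ∧ nd l ⟨67, 100⟩ = pb ∧ nd l ⟨57, 100⟩ = pz ∧ l.length.bodd = odd

def lowR (a b n d : ℕ) : ℕ := cond (Nat.ble (Nat.mul 57 d) (Nat.mul 100 n)) b a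
def uppR (a b n d : ℕ) : ℕ := cond (Nat.ble (Nat.mul 57 d) (Nat.mul 100 n)) a b

def KK (a : ℕ) : ℕ := Nat.add 1000000 (Nat.mul 57 a)
def DD (a n d : ℕ) : ℕ := Nat.add (Nat.mul 10000 d) (Nat.mul a n)

def quo (e u v pn pd qn qd : ℕ) : ℕ :=
  Nat.div (Nat.mul (Nat.mul (Nat.mul 1099511627776 e) (KK u)) (KK v))
    (Nat.mul (Nat.mul 10000 (DD u pn pd)) (DD v qn qd))

def posB (a b pn pd qn qd : ℕ) : ℕ :=
  cond (Nat.ble (Nat.mul pn qd) (Nat.mul qn pd)) 0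
    (quo (Nat.sub (Nat.mul pn qd) (Nat.mul qn pd)) (lowR a b pn pd) (lowR a b qn qd) pn pd qn qd)

def negB (a b pn pd qn qd : ℕ) : ℕ :=
  cond (Nat.ble (Nat.mul qn pd) (Nat.mul pn qd)) 0
    (Nat.succ
      (quo (Nat.sub (Nat.mul qn pd) (Nat.mul pn qd)) (uppR a b pn pd) (uppR a b qn qd) pn pd qn qd))

noncomputable def posP (a b : ℕ) (p q : Pt) : ℕ :=
  Pt.rec (fun pn pd => Pt.rec (fun qn qd => posB a b pn pd qn qd) q) p
noncomputable def negP (a b : ℕ) (p q : Pt) : ℕ :=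
  Pt.rec (fun pn pd => Pt.rec (fun qn qd => negB a b pn pd qn qd) q) p

noncomputable def posS (s : Bool) (a b : ℕ) (p q : Pt) : ℕ := cond s (posP a b q p) (posP a b p q)
noncomputable def negS (s : Bool) (a b : ℕ) (p q : Pt) : ℕ := cond s (negP a b q p) (negP a b p q)

lemma F_nat (u : ℕ) (p : Pt) (hp : 0 < p.d) :
    F ((u : ℝ) / 10000) p.v = (KK u : ℝ) * p.d / (100 * DD u p.n p.d) := by
  have hp' : (0 : ℝ) < p.d := by exact_mod_cast hp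
  simp only [F, Pt.v, KK, DD, Nat.add_eq, Nat.mul_eq]
  push_cast
  have : (10000 : ℝ) * p.d + u * p.n ≠ 0 := by positivity
  field_simp
  ring

lemma F_low {a b : ℕ} {r : ℝ} (ha : (a : ℝ) ≤ 10000 * r) (hb : 10000 * r ≤ b) (p : Pt)
    (hp : 0 < p.d) : F ((lowR a b p.n p.d : ℝ) / 10000) p.v ≤ F r p.v := by
  have hp' : (0 : ℝ) < p.d := by exact_mod_cast hp
  have ha0 : (0 : ℝ) ≤ a := by positivity
  have hr : 0 ≤ r := by linarith
  simp only [lowR, Nat.mul_eq]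
  by_cases h : 57 * p.d ≤ 100 * p.n
  · rw [Nat.ble_eq_true_of_le h, cond_true]
    apply F_anti hr (by linarith)
    have : (57 : ℝ) * p.d ≤ 100 * p.n := by exact_mod_cast h
    simp only [Pt.v]; rw [le_div_iff₀ hp']; linarith
  · have h' : Nat.ble (57 * p.d) (100 * p.n) = false := by
      rw [← Bool.not_eq_true, Nat.ble_eq]; exact h
    rw [h', cond_false]
    apply F_mono (by positivity) (by linarith) p.v_nonneg
    have : (100 : ℝ) * p.n ≤ 57 * p.d := by exact_mod_cast (not_le.1 h).le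
    simp only [Pt.v]; rw [div_le_iff₀ hp']; linarith

lemma F_upp {a b : ℕ} {r : ℝ} (ha : (a : ℝ) ≤ 10000 * r) (hb : 10000 * r ≤ b) (p : Pt)
    (hp : 0 < p.d) : F r p.v ≤ F ((uppR a b p.n p.d : ℝ) / 10000) p.v := by
  have hp' : (0 : ℝ) < p.d := by exact_mod_cast hp
  have ha0 : (0 : ℝ) ≤ a := by positivity
  have hr : 0 ≤ r := by linarith
  simp only [uppR, Nat.mul_eq]
  by_cases h : 57 * p.d ≤ 100 * p.n
  · rw [Nat.ble_eq_true_of_le h, cond_true]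
    apply F_anti (by positivity) (by linarith)
    have : (57 : ℝ) * p.d ≤ 100 * p.n := by exact_mod_cast h
    simp only [Pt.v]; rw [le_div_iff₀ hp']; linarith
  · have h' : Nat.ble (57 * p.d) (100 * p.n) = false := by
      rw [← Bool.not_eq_true, Nat.ble_eq]; exact h
    rw [h', cond_false]
    apply F_mono hr (by linarith) p.v_nonneg
    have : (100 : ℝ) * p.n ≤ 57 * p.d := by exact_mod_cast (not_le.1 h).le
    simp only [Pt.v]; rw [div_le_iff₀ hp']; linarith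

lemma DD_pos (u : ℕ) (p : Pt) (hp : 0 < p.d) : 0 < DD u p.n p.d := by
  simp only [DD, Nat.add_eq, Nat.mul_eq]; omega

lemma quo_real (e u v : ℕ) (p q : Pt) (hp : 0 < p.d) (hq : 0 < q.d) :
    (((1099511627776 * e * KK u * KK v : ℕ) : ℝ)) /
      ((10000 * DD u p.n p.d * DD v q.n q.d : ℕ) : ℝ)
      = 1099511627776 * (((e : ℝ) / (p.d * q.d)) * F ((u : ℝ) / 10000) p.v *
        F ((v : ℝ) / 10000) q.v) := by
  have hp' : (0 : ℝ) < p.d := by exact_mod_cast hp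
  have hq' : (0 : ℝ) < q.d := by exact_mod_cast hq
  have h1 : (0 : ℝ) < DD u p.n p.d := by exact_mod_cast DD_pos u p hp
  have h2 : (0 : ℝ) < DD v q.n q.d := by exact_mod_cast DD_pos v q hq
  rw [F_nat u p hp, F_nat v q hq]
  push_cast
  field_simp
  ring

lemma quo_le (e u v : ℕ) (p q : Pt) (hp : 0 < p.d) (hq : 0 < q.d) :
    (quo e u v p.n p.d q.n q.d : ℝ) ≤ 1099511627776 * (((e : ℝ) / (p.d * q.d)) *
      F ((u : ℝ) / 10000) p.v * F ((v : ℝ) / 10000) q.v) := by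
  rw [← quo_real e u v p q hp hq]
  exact Nat.cast_div_le

lemma cast_lt_div_succ (m n : ℕ) (hn : 0 < n) : (m : ℝ) / n ≤ ((m / n : ℕ) : ℝ) + 1 := by
  have hn' : (0 : ℝ) < n := by exact_mod_cast hn
  rw [div_le_iff₀ hn']
  have := Nat.lt_div_mul_add (a := m) hn
  have h : (m : ℝ) ≤ ((m / n : ℕ) : ℝ) * n + n := by exact_mod_cast this.le
  linarith

lemma quo_ge (e u v : ℕ) (p q : Pt) (hp : 0 < p.d) (hq : 0 < q.d) :
    1099511627776 * (((e : ℝ) / (p.d * q.d)) *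
      F ((u : ℝ) / 10000) p.v * F ((v : ℝ) / 10000) q.v) ≤ (quo e u v p.n p.d q.n q.d : ℝ) + 1 := by
  rw [← quo_real e u v p q hp hq]
  apply cast_lt_div_succ
  have := DD_pos u p hp
  have := DD_pos v q hq
  positivity

lemma bound_P {a b : ℕ} {r : ℝ} (ha : (a : ℝ) ≤ 10000 * r) (hb : 10000 * r ≤ b) (p q : Pt)
    (hp : 0 < p.d) (hq : 0 < q.d) :
    (posP a b p q : ℝ) - negP a b p q ≤ 1099511627776 * ((p.v - q.v) * F r p.v * F r q.v) := by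
  have hp' : (0 : ℝ) < p.d := by exact_mod_cast hp
  have hq' : (0 : ℝ) < q.d := by exact_mod_cast hq
  have ha0 : (0 : ℝ) ≤ a := by positivity
  have hr : 0 ≤ r := by linarith
  have e0 : p.v - q.v = ((p.n : ℝ) * q.d - q.n * p.d) / (p.d * q.d) := by
    simp only [Pt.v]; field_simp
  have Fp := F_pos hr p.v_nonneg
  have Fq := F_pos hr q.v_nonneg
  change (posB a b p.n p.d q.n q.d : ℝ) - negB a b p.n p.d q.n q.d ≤ _
  simp only [posB, negB, Nat.mul_eq, Nat.sub_eq, Nat.succ_eq_add_one]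
  rcases lt_trichotomy (p.n * q.d) (q.n * p.d) with h | h | h
  · have h1 : Nat.ble (q.n * p.d) (p.n * q.d) = false := by
      rw [← Bool.not_eq_true, Nat.ble_eq]; omega
    rw [Nat.ble_eq_true_of_le h.le, h1, cond_true, cond_false]
    have h2 := quo_ge (q.n * p.d - p.n * q.d) (uppR a b p.n p.d) (uppR a b q.n q.d) p q hp hq
    rw [Nat.cast_sub h.le] at h2
    have h3 := F_upp ha hb p hp
    have h4 := F_upp ha hb q hq
    have h5 : (0 : ℝ) ≤ ((q.n * p.d : ℕ) - (p.n * q.d : ℕ) : ℝ) / (p.d * q.d) := by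
      apply div_nonneg _ (by positivity)
      have : ((p.n * q.d : ℕ) : ℝ) ≤ (q.n * p.d : ℕ) := by exact_mod_cast h.le
      linarith
    have h6 : ((q.n * p.d : ℕ) - (p.n * q.d : ℕ) : ℝ) / (p.d * q.d) * F r p.v * F r q.v ≤
        ((q.n * p.d : ℕ) - (p.n * q.d : ℕ) : ℝ) / (p.d * q.d) *
          F ((uppR a b p.n p.d : ℝ) / 10000) p.v * F ((uppR a b q.n q.d : ℝ) / 10000) q.v := by
      apply mul_le_mul (mul_le_mul_of_nonneg_left h3 h5) h4 Fq.le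
      exact mul_nonneg h5 (Fp.le.trans h3)
    have e1 : p.v - q.v = -(((q.n * p.d : ℕ) - (p.n * q.d : ℕ) : ℝ) / (p.d * q.d)) := by
      rw [e0]; push_cast; ring
    rw [e1]; push_cast at h2 h6 ⊢; linarith
  · rw [Nat.ble_eq_true_of_le h.le, Nat.ble_eq_true_of_le h.ge, cond_true, cond_true]
    have : (p.n : ℝ) * q.d = q.n * p.d := by exact_mod_cast h
    rw [e0, this]; simp
  · have h1 : Nat.ble (p.n * q.d) (q.n * p.d) = false := by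
      rw [← Bool.not_eq_true, Nat.ble_eq]; omega
    rw [Nat.ble_eq_true_of_le h.le, h1, cond_true, cond_false]
    have h2 := quo_le (p.n * q.d - q.n * p.d) (lowR a b p.n p.d) (lowR a b q.n q.d) p q hp hq
    rw [Nat.cast_sub h.le] at h2
    have h3 := F_low ha hb p hp
    have h4 := F_low ha hb q hq
    have h5 : (0 : ℝ) ≤ ((p.n * q.d : ℕ) - (q.n * p.d : ℕ) : ℝ) / (p.d * q.d) := by
      apply div_nonneg _ (by positivity)
      have : ((q.n * p.d : ℕ) : ℝ) ≤ (p.n * q.d : ℕ) := by exact_mod_cast h.le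
      linarith
    have h6 : ((p.n * q.d : ℕ) - (q.n * p.d : ℕ) : ℝ) / (p.d * q.d) *
          F ((lowR a b p.n p.d : ℝ) / 10000) p.v * F ((lowR a b q.n q.d : ℝ) / 10000) q.v ≤
        ((p.n * q.d : ℕ) - (q.n * p.d : ℕ) : ℝ) / (p.d * q.d) * F r p.v * F r q.v := by
      apply mul_le_mul (mul_le_mul_of_nonneg_left h3 h5) h4
        (F_pos (by positivity) q.v_nonneg).le
      exact mul_nonneg h5 Fp.le
    have e1 : p.v - q.v = (((p.n * q.d : ℕ) - (q.n * p.d : ℕ) : ℝ) / (p.d * q.d)) := by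
      rw [e0]; push_cast; ring
    rw [e1]; push_cast at h2 h6 ⊢; linarith

lemma bound_S {sb : Bool} {s : St} (hs : Sg sb s) {a b : ℕ} (ha : (a : ℝ) ≤ 10000 * s.r)
    (hb : 10000 * s.r ≤ b) (p q : Pt) (hp : 0 < p.d) (hq : 0 < q.d) :
    s.L * ((posS sb a b p q : ℝ) - negS sb a b p q) ≤ 1099511627776 * (s.f p.v - s.f q.v) := by
  have ha0 : (0 : ℝ) ≤ a := by positivity
  have hr : 0 ≤ s.r := by linarith
  have hL := L_nonneg s
  cases sb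
  · rw [f_sub_pos hr hs p.v_nonneg q.v_nonneg]
    have := mul_le_mul_of_nonneg_left (bound_P ha hb p q hp hq) hL
    simp only [posS, negS, cond_false]; linarith
  · rw [f_sub_neg hr hs p.v_nonneg q.v_nonneg]
    have := mul_le_mul_of_nonneg_left (bound_P ha hb q p hq hp) hL
    simp only [posS, negS, cond_true]; linarith

noncomputable def ge3 (s2 s3 : Bool) (x0 x1 y0 y1 a1 b1 a2 b2 a3 b3 : ℕ)
    (p1 p2 p3 q1 q2 q3 : Pt) : Bool :=
  Nat.ble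
    (Nat.add (Nat.add (Nat.mul (negP a1 b1 p1 q1) 102400) (Nat.mul (negS s2 a2 b2 p2 q2) x1))
      (Nat.mul (negS s3 a3 b3 p3 q3) y1))
    (Nat.add (Nat.add (Nat.mul (posP a1 b1 p1 q1) 102400) (Nat.mul (posS s2 a2 b2 p2 q2) x0))
      (Nat.mul (posS s3 a3 b3 p3 q3) y0))

structure InBox (u1 u2 u3 : St) (s2 s3 : Bool) (x0 x1 y0 y1 a1 b1 a2 b2 a3 b3 : ℕ) : Prop where
  g1 : Sg false u1
  g2 : Sg s2 u2
  g3 : Sg s3 u3
  hx0 : x0 * u1.L ≤ 102400 * u2.L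
  hx1 : 102400 * u2.L ≤ x1 * u1.L
  hy0 : y0 * u1.L ≤ 102400 * u3.L
  hy1 : 102400 * u3.L ≤ y1 * u1.L
  ha1 : (a1 : ℝ) ≤ 10000 * u1.r
  hb1 : 10000 * u1.r ≤ b1
  ha2 : (a2 : ℝ) ≤ 10000 * u2.r
  hb2 : 10000 * u2.r ≤ b2
  ha3 : (a3 : ℝ) ≤ 10000 * u3.r
  hb3 : 10000 * u3.r ≤ b3

lemma ge3_sound {u1 u2 u3 : St} {s2 s3 : Bool} {x0 x1 y0 y1 a1 b1 a2 b2 a3 b3 : ℕ}
    (H : InBox u1 u2 u3 s2 s3 x0 x1 y0 y1 a1 b1 a2 b2 a3 b3) {p1 p2 p3 q1 q2 q3 : Pt}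
    (hp1 : 0 < p1.d) (hp2 : 0 < p2.d) (hp3 : 0 < p3.d)
    (hq1 : 0 < q1.d) (hq2 : 0 < q2.d) (hq3 : 0 < q3.d)
    (h : ge3 s2 s3 x0 x1 y0 y1 a1 b1 a2 b2 a3 b3 p1 p2 p3 q1 q2 q3 = true) :
    u1.f q1.v + u2.f q2.v + u3.f q3.v ≤ u1.f p1.v + u2.f p2.v + u3.f p3.v := by
  simp only [ge3, Nat.ble_eq, Nat.add_eq, Nat.mul_eq] at h
  have h' : (negP a1 b1 p1 q1 : ℝ) * 102400 + negS s2 a2 b2 p2 q2 * x1 + negS s3 a3 b3 p3 q3 * y1
      ≤ posP a1 b1 p1 q1 * 102400 + posS s2 a2 b2 p2 q2 * x0 + posS s3 a3 b3 p3 q3 * y0 := by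
    exact_mod_cast h
  have k1 := bound_S H.g1 H.ha1 H.hb1 p1 q1 hp1 hq1
  have k2 := bound_S H.g2 H.ha2 H.hb2 p2 q2 hp2 hq2
  have k3 := bound_S H.g3 H.ha3 H.hb3 p3 q3 hp3 hq3
  simp only [posS, negS, cond_false] at k1
  have m1 := mul_le_mul_of_nonneg_left h' (L_nonneg u1)
  have m2 := mul_le_mul_of_nonneg_left H.hx0 (Nat.cast_nonneg (α := ℝ) (posS s2 a2 b2 p2 q2))
  have m3 := mul_le_mul_of_nonneg_left H.hx1 (Nat.cast_nonneg (α := ℝ) (negS s2 a2 b2 p2 q2))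
  have m4 := mul_le_mul_of_nonneg_left H.hy0 (Nat.cast_nonneg (α := ℝ) (posS s3 a3 b3 p3 q3))
  have m5 := mul_le_mul_of_nonneg_left H.hy1 (Nat.cast_nonneg (α := ℝ) (negS s3 a3 b3 p3 q3))
  nlinarith

def muL (a b n d : ℕ) : ℕ :=
  Nat.div (Nat.mul (Nat.mul 1099511627776 (KK (lowR a b n d))) (KK (lowR a b n d)))
    (Nat.mul (DD (lowR a b n d) n d) (DD (lowR a b n d) n d))

def muH (a b n d : ℕ) : ℕ :=
  Nat.succ (Nat.div (Nat.mul (Nat.mul 1099511627776 (KK (uppR a b n d))) (KK (uppR a b n d)))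
    (Nat.mul (DD (uppR a b n d) n d) (DD (uppR a b n d) n d)))

noncomputable def muLP (a b : ℕ) (p : Pt) : ℕ := Pt.rec (fun n d => muL a b n d) p
noncomputable def muHP (a b : ℕ) (p : Pt) : ℕ := Pt.rec (fun n d => muH a b n d) p

lemma Wd.facts (w : Wd) : 0 < w.pa.d ∧ 0 < w.pb.d ∧ 0 < w.pz.d ∧ wd w.l (46 / 100) = w.pa.v ∧
    wd w.l (67 / 100) = w.pb.v ∧ wd w.l (57 / 100) = w.pz.v ∧
    den w.l (57 / 100) = (w.pz.d : ℝ) / 100 := by
  obtain ⟨h1, h2, h3, -⟩ := w.h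
  have a := nd_spec w.l ⟨46, 100⟩ (by norm_num)
  have b := nd_spec w.l ⟨67, 100⟩ (by norm_num)
  have c := nd_spec w.l ⟨57, 100⟩ (by norm_num)
  rw [h1] at a; rw [h2] at b; rw [h3] at c
  simp only [Pt.v, Nat.cast_ofNat] at a b c ⊢
  exact ⟨a.1, b.1, c.1, a.2.1, b.2.1, c.2.1, c.2.2⟩

lemma mu_real (u : ℕ) (p : Pt) (hp : 0 < p.d) :
    (((1099511627776 * KK u * KK u : ℕ) : ℝ)) / ((DD u p.n p.d * DD u p.n p.d : ℕ) : ℝ)
      = 1099511627776 * (F ((u : ℝ) / 10000) p.v / ((p.d : ℝ) / 100)) ^ 2 := by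
  have hp' : (0 : ℝ) < p.d := by exact_mod_cast hp
  have h1 : (0 : ℝ) < DD u p.n p.d := by exact_mod_cast DD_pos u p hp
  rw [F_nat u p hp]
  push_cast
  field_simp

lemma mu_sound {s : St} {a b : ℕ} (ha : (a : ℝ) ≤ 10000 * s.r) (hb : 10000 * s.r ≤ b) (w : Wd) :
    s.L * muLP a b w.pz ≤ 1099511627776 * (child w.l s).L ∧
      1099511627776 * (child w.l s).L ≤ s.L * muHP a b w.pz := by
  have ha0 : (0 : ℝ) ≤ a := by positivity
  have hr : 0 ≤ s.r := by linarith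
  obtain ⟨-, -, hz, -, -, e1, e2⟩ := w.facts
  have hz' : (0 : ℝ) < w.pz.d := by exact_mod_cast hz
  rw [L_child_eq w.l hr, e1, e2]
  have hL := L_nonneg s
  have Fp := F_pos hr w.pz.v_nonneg
  constructor
  · have h1 : (muLP a b w.pz : ℝ) ≤ 1099511627776 *
        (F ((lowR a b w.pz.n w.pz.d : ℝ) / 10000) w.pz.v / ((w.pz.d : ℝ) / 100)) ^ 2 := by
      rw [← mu_real _ _ hz]; exact Nat.cast_div_le
    have h2 := F_low ha hb w.pz hz
    have h3 := F_pos (r := (lowR a b w.pz.n w.pz.d : ℝ) / 10000) (by positivity) w.pz.v_nonneg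
    have h4 : (F ((lowR a b w.pz.n w.pz.d : ℝ) / 10000) w.pz.v / ((w.pz.d : ℝ) / 100)) ^ 2 ≤
        (F s.r w.pz.v / ((w.pz.d : ℝ) / 100)) ^ 2 := by gcongr
    have := mul_le_mul_of_nonneg_left (h1.trans (mul_le_mul_of_nonneg_left h4 (by norm_num))) hL
    linarith
  · have h1 : 1099511627776 *
        (F ((uppR a b w.pz.n w.pz.d : ℝ) / 10000) w.pz.v / ((w.pz.d : ℝ) / 100)) ^ 2 ≤
        (muHP a b w.pz : ℝ) := by
      rw [← mu_real _ _ hz]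
      change _ ≤ ((muH a b w.pz.n w.pz.d : ℕ) : ℝ)
      simp only [muH, Nat.succ_eq_add_one, Nat.cast_add, Nat.cast_one]
      apply cast_lt_div_succ
      have := DD_pos (uppR a b w.pz.n w.pz.d) w.pz hz
      positivity
    have h2 := F_upp ha hb w.pz hz
    have h4 : (F s.r w.pz.v / ((w.pz.d : ℝ) / 100)) ^ 2 ≤
        (F ((uppR a b w.pz.n w.pz.d : ℝ) / 10000) w.pz.v / ((w.pz.d : ℝ) / 100)) ^ 2 := by gcongr
    have := mul_le_mul_of_nonneg_left ((mul_le_mul_of_nonneg_left h4 (by norm_num)).trans h1) hL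
    linarith

def rat6 (l1 l2 l3 h1 h2 h3 : ℕ) : Bool :=
  Nat.ble h1 l2 && Nat.ble h2 l1 && Nat.ble h1 l3 && Nat.ble h3 l1 && Nat.ble h2 l3 &&
    Nat.ble h3 l2

noncomputable def ratChk (x0 x1 y0 y1 a1 b1 a2 b2 a3 b3 : ℕ) (w1 w2 w3 : Wd) : Bool :=
  Nat.blt 100 w1.pz.d &&
  rat6 (Nat.mul (muLP a1 b1 w1.pz) 10240000) (Nat.mul (muLP a2 b2 w2.pz) (Nat.mul 100 x0))
    (Nat.mul (muLP a3 b3 w3.pz) (Nat.mul 100 y0))
    (Nat.mul (muHP a1 b1 w1.pz) 3379200) (Nat.mul (muHP a2 b2 w2.pz) (Nat.mul 33 x1))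
    (Nat.mul (muHP a3 b3 w3.pz) (Nat.mul 33 y1))

lemma rat_aux {L1 Li Lj Li' Lj' mh ml xh xl : ℝ} (hL : 0 ≤ L1) (hmh : 0 ≤ mh) (hml : 0 ≤ ml)
    (h1 : 1099511627776 * Li' ≤ Li * mh) (h2 : Lj * ml ≤ 1099511627776 * Lj')
    (h3 : 102400 * Li ≤ xh * L1) (h4 : xl * L1 ≤ 102400 * Lj)
    (h5 : mh * (33 * xh) ≤ ml * (100 * xl)) : 33 * Li' ≤ 100 * Lj' := by
  have m1 := mul_le_mul_of_nonneg_left h5 hL
  have m2 := mul_le_mul_of_nonneg_left h3 hmh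
  have m3 := mul_le_mul_of_nonneg_left h4 hml
  nlinarith

lemma ratChk_sound {u1 u2 u3 : St} {s2 s3 : Bool} {x0 x1 y0 y1 a1 b1 a2 b2 a3 b3 : ℕ}
    (H : InBox u1 u2 u3 s2 s3 x0 x1 y0 y1 a1 b1 a2 b2 a3 b3) {w1 w2 w3 : Wd}
    (h : ratChk x0 x1 y0 y1 a1 b1 a2 b2 a3 b3 w1 w2 w3 = true) :
    w1.l ≠ [] ∧
    33 * (child w1.l u1).L ≤ 100 * (child w2.l u2).L ∧
    33 * (child w2.l u2).L ≤ 100 * (child w1.l u1).L ∧
    33 * (child w1.l u1).L ≤ 100 * (child w3.l u3).L ∧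
    33 * (child w3.l u3).L ≤ 100 * (child w1.l u1).L ∧
    33 * (child w2.l u2).L ≤ 100 * (child w3.l u3).L ∧
    33 * (child w3.l u3).L ≤ 100 * (child w2.l u2).L := by
  simp only [ratChk, rat6, Bool.and_eq_true, Nat.ble_eq, Nat.blt_eq, Nat.mul_eq] at h
  obtain ⟨h0, ⟨⟨⟨⟨h1, h2⟩, h3⟩, h4⟩, h5⟩, h6⟩ := h
  obtain ⟨l1, u1'⟩ := mu_sound H.ha1 H.hb1 w1
  obtain ⟨l2, u2'⟩ := mu_sound H.ha2 H.hb2 w2
  obtain ⟨l3, u3'⟩ := mu_sound H.ha3 H.hb3 w3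
  have hL := L_nonneg u1
  have t1 : 102400 * u1.L ≤ (102400 : ℝ) * u1.L := le_rfl
  refine ⟨?_, ?_, ?_, ?_, ?_, ?_, ?_⟩
  · intro hl
    have := w1.h.2.2.1
    rw [hl] at this
    rw [← this] at h0
    simp [nd] at h0
  · refine rat_aux hL (by positivity) (by positivity) u1' l2 t1 H.hx0 ?_
    have : ((muHP a1 b1 w1.pz * 3379200 : ℕ) : ℝ) ≤ (muLP a2 b2 w2.pz * (100 * x0) : ℕ) := by
      exact_mod_cast h1
    push_cast at this; linarith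
  · refine rat_aux hL (by positivity) (by positivity) u2' l1 H.hx1 t1 ?_
    have : ((muHP a2 b2 w2.pz * (33 * x1) : ℕ) : ℝ) ≤ (muLP a1 b1 w1.pz * 10240000 : ℕ) := by
      exact_mod_cast h2
    push_cast at this; linarith
  · refine rat_aux hL (by positivity) (by positivity) u1' l3 t1 H.hy0 ?_
    have : ((muHP a1 b1 w1.pz * 3379200 : ℕ) : ℝ) ≤ (muLP a3 b3 w3.pz * (100 * y0) : ℕ) := by
      exact_mod_cast h3
    push_cast at this; linarith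
  · refine rat_aux hL (by positivity) (by positivity) u3' l1 H.hy1 t1 ?_
    have : ((muHP a3 b3 w3.pz * (33 * y1) : ℕ) : ℝ) ≤ (muLP a1 b1 w1.pz * 10240000 : ℕ) := by
      exact_mod_cast h4
    push_cast at this; linarith
  · refine rat_aux hL (by positivity) (by positivity) u2' l3 H.hx1 H.hy0 ?_
    exact_mod_cast h5
  · refine rat_aux hL (by positivity) (by positivity) u3' l2 H.hy1 H.hx0 ?_
    exact_mod_cast h6

def loP (s : Bool) (w : Wd) : Pt := cond (xor s w.odd) w.pb w.pa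
def hiP (s : Bool) (w : Wd) : Pt := cond (xor s w.odd) w.pa w.pb

lemma loP_d (s : Bool) (w : Wd) : 0 < (loP s w).d := by
  obtain ⟨h1, h2, -⟩ := w.facts
  simp only [loP]; cases xor s w.odd <;> simpa

lemma hiP_d (s : Bool) (w : Wd) : 0 < (hiP s w).d := by
  obtain ⟨h1, h2, -⟩ := w.facts
  simp only [hiP]; cases xor s w.odd <;> simpa

lemma lo_child {sb : Bool} {s : St} (hs : Sg sb s) (hr : 0 ≤ s.r) (w : Wd) :
    (child w.l s).lo = s.f (loP sb w).v ∧ (child w.l s).hi = s.f (hiP sb w).v ∧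
      (child w.l s).W ≠ 0 := by
  obtain ⟨-, -, -, e1, e2, -⟩ := w.facts
  have h := Sg_child w.l hr hs
  rw [w.h.2.2.2] at h
  simp only [St.lo, St.hi, loP, hiP]
  rw [f_child w.l hr (by norm_num), f_child w.l hr (by norm_num), e1, e2]
  revert h
  cases xor sb w.odd
  · intro h
    have h' : 0 < (child w.l s).W := by simpa [Sg] using h
    simp [not_lt.2 h'.le, h'.ne']
  · intro h
    have h' : (child w.l s).W < 0 := by simpa [Sg] using h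
    simp [h', h'.ne]

inductive Ch where
  | last (w1 w2 w3 : Wd)
  | cons (w1 w2 w3 : Wd) (r : Ch)

def pA : Pt := ⟨46, 100⟩
def pB : Pt := ⟨67, 100⟩

noncomputable def chChk (s2 s3 : Bool) (x0 x1 y0 y1 a1 b1 a2 b2 a3 b3 : ℕ) (c : Ch) :
    Pt → Pt → Pt → Bool :=
  Ch.rec
    (fun w1 w2 w3 p1 p2 p3 =>
      ratChk x0 x1 y0 y1 a1 b1 a2 b2 a3 b3 w1 w2 w3 &&
      ge3 s2 s3 x0 x1 y0 y1 a1 b1 a2 b2 a3 b3 p1 p2 p3 (loP false w1) (loP s2 w2) (loP s3 w3) &&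
      ge3 s2 s3 x0 x1 y0 y1 a1 b1 a2 b2 a3 b3 (hiP false w1) (hiP s2 w2) (hiP s3 w3)
        pB (cond s2 pA pB) (cond s3 pA pB))
    (fun w1 w2 w3 _ k p1 p2 p3 =>
      ratChk x0 x1 y0 y1 a1 b1 a2 b2 a3 b3 w1 w2 w3 &&
      ge3 s2 s3 x0 x1 y0 y1 a1 b1 a2 b2 a3 b3 p1 p2 p3 (loP false w1) (loP s2 w2) (loP s3 w3) &&
      k (hiP false w1) (hiP s2 w2) (hiP s3 w3))
    c

def Next (u1 u2 u3 : St) (τ : ℝ) : Prop :=
  ∃ l1 l2 l3 : List Bool, l1 ≠ [] ∧ Good (child l1 u1) (child l2 u2) (child l3 u3) τ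

lemma lo_hi_root {sb : Bool} {s : St} (hs : Sg sb s) :
    s.lo = s.f (cond sb pB pA).v ∧ s.hi = s.f (cond sb pA pB).v := by
  cases sb
  · have h' : 0 < s.W := by simpa [Sg] using hs
    simp [St.lo, St.hi, not_lt.2 h'.le, pA, pB, Pt.v]
  · have h' : s.W < 0 := by simpa [Sg] using hs
    simp [St.lo, St.hi, h', pA, pB, Pt.v]

lemma cond_d (sb : Bool) : 0 < (cond sb pA pB).d ∧ 0 < (cond sb pB pA).d := by
  cases sb <;> simp [pA, pB]

lemma link_sound {u1 u2 u3 : St} {s2 s3 : Bool} {x0 x1 y0 y1 a1 b1 a2 b2 a3 b3 : ℕ} {τ : ℝ}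
    (H : InBox u1 u2 u3 s2 s3 x0 x1 y0 y1 a1 b1 a2 b2 a3 b3) (G : Good u1 u2 u3 τ)
    {w1 w2 w3 : Wd} (h : ratChk x0 x1 y0 y1 a1 b1 a2 b2 a3 b3 w1 w2 w3 = true)
    (hlo : u1.f (loP false w1).v + u2.f (loP s2 w2).v + u3.f (loP s3 w3).v ≤ τ)
    (hhi : τ ≤ u1.f (hiP false w1).v + u2.f (hiP s2 w2).v + u3.f (hiP s3 w3).v) :
    Next u1 u2 u3 τ := by
  obtain ⟨h0, h1, h2, h3, h4, h5, h6⟩ := ratChk_sound H h
  obtain ⟨e1, f1, g1⟩ := lo_child H.g1 G.x1.1.nonneg w1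
  obtain ⟨e2, f2, g2⟩ := lo_child H.g2 G.x2.1.nonneg w2
  obtain ⟨e3, f3, g3⟩ := lo_child H.g3 G.x3.1.nonneg w3
  refine ⟨w1.l, w2.l, w3.l, h0, InX_child _ G.x1, InX_child _ G.x2, InX_child _ G.x3,
    g1, g2, g3, h1, h2, h3, h4, h5, h6, ?_, ?_⟩
  · rw [e1, e2, e3]; exact hlo
  · rw [f1, f2, f3]; exact hhi

lemma chChk_sound {u1 u2 u3 : St} {s2 s3 : Bool} {x0 x1 y0 y1 a1 b1 a2 b2 a3 b3 : ℕ} {τ : ℝ}
    (H : InBox u1 u2 u3 s2 s3 x0 x1 y0 y1 a1 b1 a2 b2 a3 b3) (G : Good u1 u2 u3 τ) (c : Ch) :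
    ∀ p1 p2 p3 : Pt, 0 < p1.d → 0 < p2.d → 0 < p3.d →
      chChk s2 s3 x0 x1 y0 y1 a1 b1 a2 b2 a3 b3 c p1 p2 p3 = true →
      u1.f p1.v + u2.f p2.v + u3.f p3.v ≤ τ → Next u1 u2 u3 τ := by
  induction c with
  | last w1 w2 w3 =>
    intro p1 p2 p3 h1 h2 h3 h hτ
    simp only [chChk, Bool.and_eq_true] at h
    obtain ⟨⟨k1, k2⟩, k3⟩ := h
    have m2 := ge3_sound H h1 h2 h3 (loP_d _ _) (loP_d _ _) (loP_d _ _) k2
    have m3 := ge3_sound H (hiP_d _ _) (hiP_d _ _) (hiP_d _ _) (by simp [pB]) (cond_d s2).1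
      (cond_d s3).1 k3
    refine link_sound H G k1 (m2.trans hτ) (le_trans ?_ m3)
    have := G.hi
    rw [(lo_hi_root H.g1).2, (lo_hi_root H.g2).2, (lo_hi_root H.g3).2] at this
    exact this
  | cons w1 w2 w3 r ih =>
    intro p1 p2 p3 h1 h2 h3 h hτ
    simp only [chChk, Bool.and_eq_true] at h
    obtain ⟨⟨k1, k2⟩, k3⟩ := h
    have m2 := ge3_sound H h1 h2 h3 (loP_d _ _) (loP_d _ _) (loP_d _ _) k2
    rcases le_total τ (u1.f (hiP false w1).v + u2.f (hiP s2 w2).v + u3.f (hiP s3 w3).v) with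
      hh | hh
    · exact link_sound H G k1 (m2.trans hτ) hh
    · exact ih _ _ _ (hiP_d _ _) (hiP_d _ _) (hiP_d _ _) k3 hh

inductive Tr where
  | lf (c : Ch)
  | nx (m : ℕ) (l r : Tr)
  | ny (m : ℕ) (l r : Tr)
  | n1 (m : ℕ) (l r : Tr)
  | n2 (m : ℕ) (l r : Tr)
  | n3 (m : ℕ) (l r : Tr)

noncomputable def trChk (s2 s3 : Bool) (t : Tr) :
    ℕ → ℕ → ℕ → ℕ → ℕ → ℕ → ℕ → ℕ → ℕ → ℕ → Bool :=
  Tr.rec
    (fun c x0 x1 y0 y1 a1 b1 a2 b2 a3 b3 =>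
      chChk s2 s3 (cond (Nat.ble x0 y0) y0 x0) x1 y0 (cond (Nat.ble x1 y1) x1 y1)
        a1 b1 a2 b2 a3 b3 c pA (cond s2 pB pA) (cond s3 pB pA))
    (fun m _ _ L R x0 x1 y0 y1 a1 b1 a2 b2 a3 b3 =>
      L x0 m y0 y1 a1 b1 a2 b2 a3 b3 && R m x1 y0 y1 a1 b1 a2 b2 a3 b3)
    (fun m _ _ L R x0 x1 y0 y1 a1 b1 a2 b2 a3 b3 =>
      L x0 x1 y0 m a1 b1 a2 b2 a3 b3 && R x0 x1 m y1 a1 b1 a2 b2 a3 b3)
    (fun m _ _ L R x0 x1 y0 y1 a1 b1 a2 b2 a3 b3 =>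
      L x0 x1 y0 y1 a1 m a2 b2 a3 b3 && R x0 x1 y0 y1 m b1 a2 b2 a3 b3)
    (fun m _ _ L R x0 x1 y0 y1 a1 b1 a2 b2 a3 b3 =>
      L x0 x1 y0 y1 a1 b1 a2 m a3 b3 && R x0 x1 y0 y1 a1 b1 m b2 a3 b3)
    (fun m _ _ L R x0 x1 y0 y1 a1 b1 a2 b2 a3 b3 =>
      L x0 x1 y0 y1 a1 b1 a2 b2 a3 m && R x0 x1 y0 y1 a1 b1 a2 b2 m b3)
    t

lemma trChk_sound {u1 u2 u3 : St} {s2 s3 : Bool} {τ : ℝ} (G : Good u1 u2 u3 τ)
    (h32 : u3.L ≤ u2.L) (t : Tr) :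
    ∀ x0 x1 y0 y1 a1 b1 a2 b2 a3 b3 : ℕ, InBox u1 u2 u3 s2 s3 x0 x1 y0 y1 a1 b1 a2 b2 a3 b3 →
      trChk s2 s3 t x0 x1 y0 y1 a1 b1 a2 b2 a3 b3 = true → Next u1 u2 u3 τ := by
  induction t with
  | lf c =>
    intro x0 x1 y0 y1 a1 b1 a2 b2 a3 b3 H h
    simp only [trChk] at h
    have H' : InBox u1 u2 u3 s2 s3 (cond (Nat.ble x0 y0) y0 x0) x1 y0
        (cond (Nat.ble x1 y1) x1 y1) a1 b1 a2 b2 a3 b3 := by
      refine { H with hx0 := ?_, hy1 := ?_ }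
      · cases Nat.ble x0 y0
        · exact H.hx0
        · have := H.hy0; simp only [cond_true]; linarith
      · cases Nat.ble x1 y1
        · exact H.hy1
        · have := H.hx1; simp only [cond_true]; linarith
    refine chChk_sound H' G c _ _ _ (by simp [pA]) (cond_d s2).2 (cond_d s3).2 h ?_
    have := G.lo
    rw [(lo_hi_root H.g1).1, (lo_hi_root H.g2).1, (lo_hi_root H.g3).1] at this
    exact this
  | nx m l r ihl ihr =>
    intro x0 x1 y0 y1 a1 b1 a2 b2 a3 b3 H h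
    simp only [trChk, Bool.and_eq_true] at h
    rcases le_total (102400 * u2.L) (m * u1.L) with k | k
    · exact ihl _ _ _ _ _ _ _ _ _ _ { H with hx1 := k } h.1
    · exact ihr _ _ _ _ _ _ _ _ _ _ { H with hx0 := k } h.2
  | ny m l r ihl ihr =>
    intro x0 x1 y0 y1 a1 b1 a2 b2 a3 b3 H h
    simp only [trChk, Bool.and_eq_true] at h
    rcases le_total (102400 * u3.L) (m * u1.L) with k | k
    · exact ihl _ _ _ _ _ _ _ _ _ _ { H with hy1 := k } h.1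
    · exact ihr _ _ _ _ _ _ _ _ _ _ { H with hy0 := k } h.2
  | n1 m l r ihl ihr =>
    intro x0 x1 y0 y1 a1 b1 a2 b2 a3 b3 H h
    simp only [trChk, Bool.and_eq_true] at h
    rcases le_total (10000 * u1.r) m with k | k
    · exact ihl _ _ _ _ _ _ _ _ _ _ { H with hb1 := k } h.1
    · exact ihr _ _ _ _ _ _ _ _ _ _ { H with ha1 := k } h.2
  | n2 m l r ihl ihr =>
    intro x0 x1 y0 y1 a1 b1 a2 b2 a3 b3 H h
    simp only [trChk, Bool.and_eq_true] at h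
    rcases le_total (10000 * u2.r) m with k | k
    · exact ihl _ _ _ _ _ _ _ _ _ _ { H with hb2 := k } h.1
    · exact ihr _ _ _ _ _ _ _ _ _ _ { H with ha2 := k } h.2
  | n3 m l r ihl ihr =>
    intro x0 x1 y0 y1 a1 b1 a2 b2 a3 b3 H h
    simp only [trChk, Bool.and_eq_true] at h
    rcases le_total (10000 * u3.r) m with k | k
    · exact ihl _ _ _ _ _ _ _ _ _ _ { H with hb3 := k } h.1
    · exact ihr _ _ _ _ _ _ _ _ _ _ { H with ha3 := k } h.2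

end Pool.Agent.MP_a07d0e_nt
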