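import Pool.Agent.MP_a07d0e_nt.Check

namespace Pool.Agent.MP_a07d0e_nt

def Cov (s2 s3 : Bool) (x0 x1 y0 y1 a1 b1 a2 b2 a3 b3 : ℕ) : Prop :=
  ∀ (u1 u2 u3 : St) (τ : ℝ), Good u1 u2 u3 τ → u3.L ≤ u2.L →
    InBox u1 u2 u3 s2 s3 x0 x1 y0 y1 a1 b1 a2 b2 a3 b3 → Next u1 u2 u3 τ

variable {s2 s3 : Bool} {x0 x1 y0 y1 a1 b1 a2 b2 a3 b3 : ℕ}

lemma Cov.chk (t : Tr) (h : trChk s2 s3 t x0 x1 y0 y1 a1 b1 a2 b2 a3 b3 = true) :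
    Cov s2 s3 x0 x1 y0 y1 a1 b1 a2 b2 a3 b3 :=
  fun _ _ _ _ G h32 H => trChk_sound G h32 t _ _ _ _ _ _ _ _ _ _ H h

lemma Cov.nx (m : ℕ) (l : Cov s2 s3 x0 m y0 y1 a1 b1 a2 b2 a3 b3)
    (r : Cov s2 s3 m x1 y0 y1 a1 b1 a2 b2 a3 b3) : Cov s2 s3 x0 x1 y0 y1 a1 b1 a2 b2 a3 b3 := by
  intro u1 u2 u3 τ G h32 H
  rcases le_total (102400 * u2.L) (m * u1.L) with k | k
  · exact l _ _ _ _ G h32 { H with hx1 := k }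
  · exact r _ _ _ _ G h32 { H with hx0 := k }

lemma Cov.ny (m : ℕ) (l : Cov s2 s3 x0 x1 y0 m a1 b1 a2 b2 a3 b3)
    (r : Cov s2 s3 x0 x1 m y1 a1 b1 a2 b2 a3 b3) : Cov s2 s3 x0 x1 y0 y1 a1 b1 a2 b2 a3 b3 := by
  intro u1 u2 u3 τ G h32 H
  rcases le_total (102400 * u3.L) (m * u1.L) with k | k
  · exact l _ _ _ _ G h32 { H with hy1 := k }
  · exact r _ _ _ _ G h32 { H with hy0 := k }

lemma Cov.n1 (m : ℕ) (l : Cov s2 s3 x0 x1 y0 y1 a1 m a2 b2 a3 b3)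
    (r : Cov s2 s3 x0 x1 y0 y1 m b1 a2 b2 a3 b3) : Cov s2 s3 x0 x1 y0 y1 a1 b1 a2 b2 a3 b3 := by
  intro u1 u2 u3 τ G h32 H
  rcases le_total (10000 * u1.r) m with k | k
  · exact l _ _ _ _ G h32 { H with hb1 := k }
  · exact r _ _ _ _ G h32 { H with ha1 := k }

lemma Cov.n2 (m : ℕ) (l : Cov s2 s3 x0 x1 y0 y1 a1 b1 a2 m a3 b3)
    (r : Cov s2 s3 x0 x1 y0 y1 a1 b1 m b2 a3 b3) : Cov s2 s3 x0 x1 y0 y1 a1 b1 a2 b2 a3 b3 := by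
  intro u1 u2 u3 τ G h32 H
  rcases le_total (10000 * u2.r) m with k | k
  · exact l _ _ _ _ G h32 { H with hb2 := k }
  · exact r _ _ _ _ G h32 { H with ha2 := k }

lemma Cov.n3 (m : ℕ) (l : Cov s2 s3 x0 x1 y0 y1 a1 b1 a2 b2 a3 m)
    (r : Cov s2 s3 x0 x1 y0 y1 a1 b1 a2 b2 m b3) : Cov s2 s3 x0 x1 y0 y1 a1 b1 a2 b2 a3 b3 := by
  intro u1 u2 u3 τ G h32 H
  rcases le_total (10000 * u3.r) m with k | k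
  · exact l _ _ _ _ G h32 { H with hb3 := k }
  · exact r _ _ _ _ G h32 { H with ha3 := k }

end Pool.Agent.MP_a07d0e_nt
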