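import Pool.Agent.MP_a07d0e_nt.Words
import Pool.Agent.MP_a07d0e_nt.Cov

set_option maxRecDepth 100000

namespace Pool.Agent.MP_a07d0e_nt

noncomputable def t0 : Tr :=
(.nx 44585 (.nx 38815 (.ny 36217 (.lf (.cons w3 w2 w1 (.cons w4 w3 w3 (.cons w32 w7 w7 (.cons w65 w14 w14 (.cons w18 w6 w9 (.cons w9 w3 w4 (.last w2 w1 w1))))))))
 (.lf (.cons w3 w1 w2 (.cons w8 w3 w3 (.cons w32 w7 w14 (.cons w65 w14 w14 (.cons w18 w18 w13 (.cons w9 w9 w6 (.cons w4 w1 w1 (.last w2 w2 w2)))))))))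
) (.ny 38815 (.nx 41600 (.ny 36217 (.nx 40183 (.lf (.cons w3 w2 w1 (.cons w8 w3 w3 (.cons w32 w14 w7 (.cons w18 w6 w9 (.cons w9 w3 w4 (.last w2 w1 w1)))))))
 (.lf (.cons w3 w2 w1 (.cons w8 w3 w3 (.cons w32 w14 w7 (.cons w65 w28 w29 (.cons w18 w24 w9 (.cons w9 w3 w4 (.last w2 w1 w1))))))))
) (.lf (.cons w3 w2 w1 (.cons w8 w3 w3 (.cons w32 w7 w14 (.cons w18 w13 w9 (.cons w9 w6 w9 (.cons w4 w1 w1 (.last w2 w2 w2))))))))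
) (.ny 36217 (.nx 43067 (.lf (.cons w3 w2 w1 (.cons w8 w3 w3 (.cons w32 w7 w7 (.cons w65 w28 w14 (.cons w18 w12 w9 (.cons w9 w3 w4 (.last w2 w1 w1))))))))
 (.lf (.cons w3 w2 w1 (.cons w7 w5 w4 (.cons w16 w7 w7 (.cons w18 w12 w9 (.cons w9 w3 w4 (.last w2 w1 w1)))))))
) (.nx 43067 (.ny 37494 (.lf (.cons w3 w2 w1 (.cons w7 w5 w4 (.cons w16 w7 w7 (.cons w9 w6 w9 (.cons w4 w1 w1 (.last w2 w2 w2)))))))
 (.lf (.cons w3 w2 w1 (.cons w7 w5 w4 (.cons w14 w10 w8 (.cons w28 w21 w17 (.cons w18 w6 w9 (.cons w9 w3 w4 (.last w2 w1 w1))))))))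
) (.lf (.cons w3 w2 w1 (.cons w7 w5 w4 (.cons w14 w10 w8 (.cons w28 w21 w17 (.cons w9 w12 w9 (.cons w4 w1 w1 (.last w2 w2 w2))))))))
))) (.ny 41600 (.nx 41600 (.nx 40183 (.lf (.cons w3 w1 w2 (.cons w8 w3 w3 (.cons w32 w7 w14 (.cons w65 w28 w29 (.cons w37 w13 w18 (.cons w18 w13 w9 (.cons w9 w6 w9 (.last w2 w1 w1)))))))))
 (.nx 40885 (.nx 40532 (.ny 39664 (.lf (.cons w3 w2 w1 (.cons w7 w5 w8 (.cons w14 w10 w17 (.cons w32 w14 w14 (.cons w18 w13 w9 (.cons w9 w6 w9 (.last w2 w1 w1))))))))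
 (.n1 3943 (.lf (.cons w3 w2 w1 (.cons w7 w5 w8 (.cons w14 w10 w17 (.cons w117 w81 w69 (.cons w18 w13 w18 (.cons w9 w6 w9 (.last w2 w1 w1))))))))
 (.ny 40096 (.nx 40357 (.lf (.cons w3 w2 w1 (.cons w7 w5 w8 (.cons w14 w17 w10 (.cons w37 w13 w18 (.cons w18 w13 w9 (.cons w9 w9 w6 (.last w2 w1 w1))))))))
 (.lf (.cons w3 w2 w1 (.cons w7 w5 w8 (.cons w14 w10 w17 (.cons w18 w13 w18 (.cons w9 w6 w9 (.last w2 w1 w1)))))))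
) (.lf (.cons w3 w2 w1 (.cons w7 w5 w8 (.cons w14 w17 w10 (.cons w117 w69 w81 (.cons w18 w13 w18 (.cons w9 w6 w9 (.last w2 w1 w1))))))))
))) (.lf (.cons w3 w2 w1 (.cons w7 w5 w8 (.cons w14 w10 w17 (.cons w18 w13 w9 (.cons w9 w6 w9 (.last w2 w1 w1)))))))
) (.lf (.cons w3 w2 w1 (.cons w7 w5 w4 (.cons w14 w10 w17 (.cons w18 w13 w9 (.cons w9 w6 w9 (.last w2 w1 w1)))))))
)) (.lf (.cons w3 w2 w1 (.cons w7 w5 w4 (.cons w14 w20 w17 (.cons w56 w21 w17 (.cons w9 w6 w9 (.cons w4 w1 w1 (.last w2 w2 w2))))))))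
) (.lf (.cons w3 w1 w2 (.cons w7 w8 w5 (.cons w14 w17 w10 (.cons w9 w9 w6 (.last w2 w1 w1))))))
))) (.ny 44585 (.nx 51212 (.lf (.cons w3 w2 w1 (.cons w7 w5 w4 (.cons w9 w6 w4 (.cons w4 w3 w2 (.last w2 w1 w1))))))
 (.lf (.cons w3 w2 w1 (.cons w7 w5 w4 (.last w2 w1 w1))))
) (.nx 51212 (.lf (.cons w3 w1 w2 (.cons w6 w5 w5 (.last w2 w1 w1))))
 (.ny 51212 (.lf (.cons w3 w2 w1 (.last w2 w1 w1)))
 (.lf (.cons w3 w2 w3 (.cons w12 w10 w7 (.cons w7 w5 w6 (.cons w4 w3 w3 (.cons w3 w2 w2 (.last w2 w1 w1)))))))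
))))

theorem c0 : Cov false false 33792 58824 33792 102400 3660 4227 3660 4227 3660 4227 :=
  Cov.chk t0 (by decide +kernel)

noncomputable def t2 : Tr :=
(.nx 58824 (.nx 44585 (.nx 38815 (.lf (.cons w3 w1 w2 (.cons w6 w3 w5 (.cons w4 w2 w3 (.last w2 w1 w1)))))
 (.lf (.cons w3 w1 w1 (.cons w3 w3 w2 (.cons w4 w4 w3 (.last w2 w1 w1)))))
) (.ny 44585 (.nx 51212 (.lf (.cons w3 w1 w1 (.cons w3 w3 w2 (.last w2 w1 w1))))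
 (.ny 38815 (.lf (.cons w3 w4 w2 (.cons w14 w9 w8 (.cons w7 w8 w5 (.cons w9 w5 w3 (.cons w19 w20 w7 (.cons w18 w11 w14 (.cons w7 w6 w3 (.cons w15 w26 w14 (.cons w6 w3 w4 (.cons w3 w3 w2 (.last w2 w1 w1))))))))))))
 (.nx 54886 (.lf (.cons w3 w4 w2 (.cons w9 w5 w3 (.cons w7 w6 w3 (.cons w7 w4 w5 (.cons w14 w9 w5 (.cons w3 w3 w2 (.last w2 w1 w1))))))))
 (.lf (.cons w3 w4 w2 (.cons w3 w3 w3 (.cons w7 w6 w3 (.cons w8 w5 w3 (.cons w4 w4 w3 (.last w2 w1 w1)))))))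
))) (.nx 51212 (.lf (.cons w3 w1 w2 (.cons w3 w3 w2 (.last w2 w1 w1))))
 (.lf (.cons w3 w2 w2 (.cons w12 w9 w10 (.cons w25 w18 w20 (.cons w50 w37 w40 (.cons w15 w16 w11 (.cons w7 w4 w5 (.cons w7 w9 w10 (.cons w3 w3 w2 (.last w2 w1 w1))))))))))
))) (.ny 58824 (.nx 77612 (.ny 44585 (.nx 67568 (.ny 38815 (.lf (.cons w3 w4 w2 (.cons w6 w3 w3 (.cons w14 w7 w12 (.cons w15 w14 w7 (.cons w24 w13 w14 (.cons w96 w53 w29 (.cons w97 w104 w58 (.cons w100 w27 w30 (.cons w50 w27 w15 (.cons w51 w52 w15 (.cons w25 w13 w7 (.cons w14 w7 w7 (.cons w7 w6 w3 (.cons w6 w3 w4 (.last w2 w1 w1))))))))))))))))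
 (.lf (.cons w3 w4 w2 (.cons w3 w3 w3 (.cons w7 w6 w3 (.cons w9 w8 w3 (.cons w4 w2 w1 (.last w2 w1 w1)))))))
) (.lf (.cons w3 w2 w2 (.cons w7 w9 w8 (.cons w6 w3 w3 (.cons w8 w5 w3 (.cons w9 w8 w6 (.cons w4 w4 w3 (.last w2 w1 w1))))))))
) (.nx 67568 (.ny 51212 (.nx 63045 (.lf (.cons w3 w2 w2 (.cons w3 w3 w3 (.cons w8 w5 w3 (.cons w17 w10 w7 (.cons w4 w4 w3 (.last w2 w1 w1)))))))
 (.lf (.cons w3 w2 w2 (.cons w3 w3 w3 (.cons w7 w6 w3 (.cons w15 w13 w7 (.cons w4 w4 w3 (.last w2 w1 w1)))))))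
) (.lf (.cons w3 w2 w2 (.cons w8 w5 w3 (.cons w32 w11 w7 (.cons w4 w4 w3 (.last w2 w1 w1))))))
) (.lf (.cons w3 w2 w2 (.cons w3 w3 w3 (.cons w7 w6 w6 (.cons w14 w13 w12 (.cons w4 w4 w3 (.last w2 w1 w1)))))))
)) (.ny 44585 (.nx 89149 (.lf (.cons w3 w2 w2 (.cons w7 w8 w5 (.cons w4 w5 w3 (.cons w6 w3 w3 (.cons w9 w8 w3 (.cons w2 w2 w1 (.last w2 w1 w1))))))))
 (.nx 95545 (.lf (.cons w3 w2 w2 (.cons w4 w5 w3 (.cons w6 w7 w3 (.cons w6 w3 w3 (.last w2 w1 w1))))))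
 (.ny 38815 (.ny 36217 (.lf (.cons w3 w4 w2 (.cons w8 w5 w3 (.cons w32 w22 w7 (.cons w65 w44 w29 (.cons w65 w45 w56 (.cons w18 w40 w9 (.cons w9 w5 w4 (.cons w2 w2 w1 (.cons w5 w4 w2 (.last w4 w3 w1)))))))))))
 (.lf (.cons w3 w2 w2 (.cons w8 w5 w3 (.cons w32 w11 w7 (.cons w18 w21 w9 (.cons w9 w10 w9 (.cons w4 w2 w1 (.last w2 w1 w1))))))))
) (.ny 41600 (.lf (.cons w3 w2 w2 (.cons w7 w8 w5 (.cons w14 w16 w10 (.cons w29 w33 w20 (.cons w16 w11 w7 (.cons w32 w22 w14 (.cons w65 w45 w28 (.cons w13 w7 w6 (.cons w6 w7 w3 (.cons w2 w2 w1 (.last w2 w1 w1))))))))))))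
 (.lf (.cons w3 w2 w2 (.cons w7 w8 w5 (.cons w14 w16 w10 (.cons w28 w33 w21 (.cons w6 w7 w3 (.cons w2 w2 w1 (.last w2 w1 w1))))))))
)))) (.nx 89149 (.lf (.cons w3 w2 w2 (.cons w6 w3 w3 (.cons w3 w3 w3 (.cons w2 w2 w1 (.last w2 w1 w1))))))
 (.ny 51212 (.lf (.cons w3 w2 w2 (.cons w7 w8 w5 (.cons w9 w8 w6 (.cons w2 w2 w1 (.last w2 w1 w1))))))
 (.lf (.cons w3 w2 w2 (.cons w7 w8 w5 (.cons w2 w2 w1 (.last w2 w1 w1)))))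
)))) (.nx 77612 (.lf (.cons w6 w5 w8 (.cons w3 w2 w2 (.cons w4 w4 w3 (.last w2 w1 w1)))))
 (.ny 77612 (.nx 89149 (.ny 67568 (.lf (.cons w3 w2 w2 (.cons w4 w4 w3 (.last w2 w1 w1))))
 (.lf (.cons w12 w5 w8 (.cons w3 w2 w2 (.cons w2 w2 w1 (.last w2 w1 w1)))))
) (.lf (.cons w3 w5 w4 (.cons w3 w2 w2 (.cons w4 w4 w3 (.last w2 w1 w1)))))
) (.nx 89149 (.lf (.cons w6 w5 w4 (.cons w3 w2 w2 (.last w2 w1 w1))))
 (.ny 89149 (.lf (.cons w3 w5 w4 (.cons w3 w2 w2 (.last w2 w1 w1))))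
 (.lf (.cons w3 w5 w4 (.cons w2 w2 w3 (.last w2 w1 w1))))
))))))

theorem c2 : Cov true false 33792 102400 33792 102400 3660 4227 3660 4227 3660 4227 :=
  Cov.chk t2 (by decide +kernel)

noncomputable def t3 : Tr :=
(.nx 58824 (.nx 44585 (.nx 38815 (.lf (.cons w3 w2 w1 (.cons w6 w5 w3 (.cons w4 w3 w2 (.last w2 w1 w1)))))
 (.lf (.cons w3 w2 w1 (.cons w6 w5 w3 (.cons w4 w3 w2 (.last w2 w1 w1)))))
) (.ny 44585 (.lf (.cons w3 w2 w1 (.cons w4 w3 w2 (.last w2 w1 w1))))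
 (.nx 51212 (.lf (.cons w3 w2 w1 (.cons w3 w2 w3 (.last w2 w1 w1))))
 (.lf (.cons w3 w2 w2 (.cons w12 w10 w9 (.cons w4 w3 w2 (.last w2 w1 w1)))))
))) (.ny 58824 (.nx 77612 (.ny 44585 (.nx 67568 (.lf (.cons w3 w2 w2 (.cons w3 w2 w1 (.cons w7 w8 w3 (.last w2 w1 w1)))))
 (.ny 38815 (.lf (.cons w7 w6 w3 (.cons w14 w12 w6 (.cons w29 w48 w13 (.cons w28 w25 w26 (.cons w15 w14 w7 (.cons w14 w7 w7 (.cons w3 w2 w2 (.cons w3 w2 w1 (.last w2 w1 w1))))))))))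
 (.lf (.cons w3 w3 w3 (.cons w3 w2 w2 (.cons w3 w2 w1 (.last w2 w1 w1)))))
)) (.nx 67568 (.lf (.cons w3 w2 w2 (.cons w4 w3 w2 (.last w2 w1 w1))))
 (.lf (.cons w3 w3 w3 (.cons w3 w2 w2 (.cons w8 w3 w4 (.last w2 w1 w1)))))
)) (.ny 44585 (.nx 89149 (.ny 38815 (.nx 83181 (.lf (.cons w12 w9 w5 (.cons w13 w16 w5 (.cons w3 w4 w2 (.cons w4 w3 w1 (.last w2 w1 w1))))))
 (.nx 86113 (.lf (.cons w12 w9 w5 (.cons w13 w16 w5 (.cons w3 w2 w2 (.last w2 w1 w1)))))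
 (.lf (.cons w6 w9 w5 (.cons w13 w16 w10 (.cons w3 w4 w2 (.cons w2 w3 w1 (.last w2 w1 w1))))))
)) (.lf (.cons w3 w3 w3 (.cons w7 w7 w7 (.cons w6 w4 w2 (.cons w3 w2 w1 (.last w2 w1 w1))))))
) (.nx 95545 (.ny 38815 (.lf (.cons w13 w9 w5 (.cons w6 w9 w5 (.cons w7 w7 w3 (.cons w14 w14 w13 (.cons w9 w6 w5 (.cons w3 w2 w2 (.last w2 w1 w1))))))))
 (.lf (.cons w6 w9 w5 (.cons w9 w13 w5 (.cons w9 w6 w5 (.cons w3 w2 w2 (.last w2 w1 w1))))))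
) (.ny 38815 (.nx 98913 (.lf (.cons w13 w9 w5 (.cons w6 w9 w5 (.cons w9 w6 w5 (.cons w6 w4 w2 (.cons w2 w3 w1 (.last w2 w1 w1)))))))
 (.nx 100641 (.lf (.cons w26 w18 w10 (.cons w13 w9 w5 (.cons w6 w9 w5 (.cons w9 w12 w5 (.cons w38 w48 w11 (.cons w6 w4 w2 (.cons w2 w3 w1 (.last w2 w1 w1)))))))))
 (.ny 36217 (.ny 34983 (.lf (.cons w7 w7 w3 (.cons w9 w6 w5 (.cons w19 w25 w10 (.cons w9 w13 w8 (.cons w4 w3 w1 (.cons w2 w3 w1 (.cons w10 w7 w4 (.cons w5 w6 w3 (.cons w2 w4 w1 (.last w2 w2 w1)))))))))))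
 (.lf (.cons w14 w7 w7 (.cons w7 w7 w6 (.cons w9 w12 w5 (.cons w18 w26 w17 (.cons w9 w13 w8 (.cons w2 w3 w2 (.last w2 w1 w1))))))))
) (.ny 37494 (.lf (.cons w7 w7 w7 (.cons w7 w7 w3 (.cons w9 w12 w5 (.cons w18 w26 w17 (.cons w9 w13 w8 (.cons w2 w3 w2 (.last w2 w1 w1))))))))
 (.ny 38149 (.lf (.cons w7 w7 w7 (.cons w9 w6 w5 (.cons w19 w48 w11 (.cons w33 w26 w10 (.cons w4 w6 w2 (.cons w2 w3 w1 (.last w2 w1 w1))))))))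
 (.lf (.cons w13 w18 w10 (.cons w9 w13 w5 (.cons w9 w6 w5 (.cons w19 w48 w11 (.cons w18 w26 w17 (.cons w4 w6 w2 (.cons w2 w3 w1 (.last w2 w1 w1)))))))))
))))) (.nx 98913 (.lf (.cons w3 w3 w3 (.cons w29 w25 w13 (.cons w7 w7 w7 (.cons w7 w7 w3 (.cons w6 w4 w2 (.cons w2 w3 w1 (.last w2 w1 w1))))))))
 (.lf (.cons w13 w9 w10 (.cons w6 w9 w5 (.cons w7 w7 w3 (.cons w14 w14 w13 (.cons w113 w117 w53 (.cons w29 w29 w27 (.cons w29 w29 w13 (.cons w6 w4 w2 (.cons w2 w3 w1 (.last w2 w1 w1)))))))))))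
)))) (.nx 89149 (.lf (.cons w3 w3 w3 (.cons w3 w4 w2 (.cons w3 w2 w2 (.cons w6 w5 w4 (.last w2 w1 w1))))))
 (.ny 51212 (.nx 95545 (.lf (.cons w3 w3 w3 (.cons w7 w7 w7 (.cons w3 w4 w2 (.cons w3 w2 w1 (.last w2 w1 w1))))))
 (.ny 47784 (.lf (.cons w3 w3 w3 (.cons w7 w7 w7 (.cons w7 w7 w3 (.cons w2 w3 w2 (.last w2 w1 w1))))))
 (.lf (.cons w3 w3 w3 (.cons w7 w7 w7 (.cons w6 w4 w2 (.cons w3 w2 w1 (.last w2 w1 w1))))))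
)) (.lf (.cons w3 w3 w3 (.cons w14 w7 w7 (.cons w3 w2 w2 (.last w2 w1 w1)))))
)))) (.nx 77612 (.lf (.cons w6 w8 w5 (.cons w3 w2 w2 (.cons w4 w3 w4 (.last w2 w1 w1)))))
 (.ny 77612 (.nx 89149 (.ny 67568 (.nx 83181 (.lf (.cons w6 w4 w5 (.cons w3 w2 w2 (.last w2 w1 w1))))
 (.lf (.cons w12 w9 w5 (.cons w13 w32 w10 (.cons w6 w8 w5 (.cons w3 w2 w2 (.last w2 w1 w1))))))
) (.lf (.cons w6 w4 w5 (.cons w3 w2 w2 (.last w2 w1 w1))))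
) (.lf (.cons w6 w9 w5 (.cons w13 w16 w10 (.cons w6 w8 w5 (.cons w3 w2 w2 (.last w2 w1 w1))))))
) (.nx 89149 (.lf (.cons w6 w4 w5 (.cons w3 w2 w2 (.last w2 w1 w1))))
 (.ny 89149 (.lf (.cons w9 w6 w5 (.cons w4 w6 w5 (.cons w2 w3 w2 (.last w2 w1 w1)))))
 (.lf (.cons w3 w4 w5 (.cons w2 w3 w2 (.last w2 w1 w1))))
))))))

theorem c3 : Cov false true 33792 102400 33792 102400 3660 4227 3660 4227 3660 4227 :=
  Cov.chk t3 (by decide +kernel)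

noncomputable def t6 : Tr :=
(.ny 36217 (.lf (.cons w3 w2 w1 (.cons w4 w3 w3 (.cons w32 w7 w7 (.cons w65 w14 w14 (.cons w18 w6 w9 (.cons w9 w3 w4 (.last w2 w1 w1))))))))
 (.nx 37494 (.lf (.cons w3 w1 w2 (.cons w4 w3 w3 (.cons w32 w7 w7 (.cons w18 w9 w13 (.cons w9 w9 w6 (.last w2 w1 w1)))))))
 (.lf (.cons w3 w2 w1 (.cons w8 w3 w3 (.cons w32 w14 w7 (.cons w65 w14 w14 (.cons w18 w13 w9 (.cons w9 w6 w9 (.cons w4 w1 w1 (.last w2 w2 w2)))))))))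
))

theorem c6 : Cov false false 33792 38815 33792 102400 5773 7321 3660 4227 3660 4227 :=
  Cov.chk t6 (by decide +kernel)

noncomputable def t10 : Tr :=
(.nx 40885 (.nx 40532 (.lf (.cons w3 w1 w2 (.cons w7 w8 w5 (.cons w32 w7 w7 (.cons w32 w14 w14 (.cons w65 w28 w29 (.cons w37 w18 w13 (.cons w18 w9 w13 (.cons w9 w9 w6 (.last w2 w1 w1))))))))))
 (.n1 6160 (.ny 40532 (.n1 5966 (.n2 3943 (.lf (.cons w3 w2 w1 (.cons w7 w5 w8 (.cons w14 w10 w17 (.cons w117 w81 w69 (.cons w37 w26 w18 (.cons w18 w13 w9 (.cons w9 w9 w6 (.last w2 w1 w1)))))))))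
 (.lf (.cons w3 w2 w1 (.cons w7 w5 w8 (.cons w14 w10 w17 (.cons w37 w13 w18 (.cons w18 w13 w9 (.cons w9 w9 w6 (.last w2 w1 w1))))))))
) (.n2 3943 (.nx 40708 (.n2 3801 (.lf (.cons w3 w2 w1 (.cons w7 w5 w8 (.cons w32 w14 w7 (.cons w65 w29 w28 (.cons w37 w18 w13 (.cons w18 w9 w13 (.cons w9 w9 w6 (.last w2 w1 w1)))))))))
 (.lf (.cons w3 w2 w1 (.cons w7 w5 w8 (.cons w14 w10 w17 (.cons w117 w81 w69 (.cons w37 w13 w18 (.cons w18 w13 w9 (.cons w9 w9 w6 (.last w2 w1 w1)))))))))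
) (.lf (.cons w3 w2 w1 (.cons w7 w5 w8 (.cons w14 w10 w17 (.cons w37 w13 w18 (.cons w18 w13 w9 (.cons w9 w9 w6 (.last w2 w1 w1))))))))
) (.n2 4085 (.lf (.cons w3 w2 w1 (.cons w7 w5 w8 (.cons w14 w10 w17 (.cons w37 w26 w18 (.cons w18 w13 w9 (.cons w9 w9 w6 (.last w2 w1 w1))))))))
 (.lf (.cons w3 w2 w1 (.cons w7 w5 w8 (.cons w14 w10 w17 (.cons w37 w13 w18 (.cons w18 w13 w9 (.cons w9 w9 w6 (.last w2 w1 w1))))))))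
))) (.n1 5966 (.lf (.cons w3 w1 w2 (.cons w7 w8 w5 (.cons w14 w17 w10 (.cons w117 w69 w81 (.cons w37 w13 w18 (.cons w18 w13 w9 (.cons w9 w9 w6 (.last w2 w1 w1)))))))))
 (.n2 3943 (.lf (.cons w3 w2 w1 (.cons w7 w5 w8 (.cons w14 w10 w17 (.cons w117 w81 w69 (.cons w119 w86 w71 (.cons w37 w18 w26 (.cons w18 w9 w13 (.cons w9 w6 w9 (.last w2 w1 w1))))))))))
 (.lf (.cons w3 w1 w2 (.cons w7 w8 w5 (.cons w14 w17 w10 (.cons w37 w13 w18 (.cons w18 w13 w9 (.cons w9 w9 w6 (.last w2 w1 w1))))))))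
))) (.ny 40532 (.n3 3943 (.lf (.cons w3 w2 w1 (.cons w7 w5 w8 (.cons w32 w14 w7 (.cons w65 w29 w28 (.cons w37 w13 w18 (.cons w18 w13 w9 (.cons w9 w9 w6 (.last w2 w1 w1)))))))))
 (.lf (.cons w3 w2 w1 (.cons w7 w5 w8 (.cons w32 w14 w7 (.cons w65 w29 w28 (.cons w37 w13 w18 (.cons w18 w13 w9 (.cons w9 w9 w6 (.last w2 w1 w1)))))))))
) (.ny 40708 (.n1 6353 (.n2 3943 (.n3 3943 (.nx 40708 (.nx 40620 (.lf (.cons w3 w2 w1 (.cons w7 w5 w8 (.cons w14 w17 w10 (.cons w37 w26 w37 (.cons w37 w13 w18 (.cons w18 w13 w9 (.cons w9 w9 w6 (.last w2 w1 w1)))))))))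
 (.lf (.cons w3 w2 w1 (.cons w7 w5 w8 (.cons w14 w10 w17 (.cons w117 w81 w69 (.cons w37 w26 w18 (.cons w18 w13 w9 (.cons w9 w9 w6 (.last w2 w1 w1)))))))))
) (.lf (.cons w3 w2 w1 (.cons w7 w5 w8 (.cons w14 w10 w17 (.cons w37 w13 w18 (.cons w18 w13 w9 (.cons w9 w9 w6 (.last w2 w1 w1))))))))
) (.lf (.cons w3 w2 w1 (.cons w7 w5 w8 (.cons w14 w10 w17 (.cons w37 w18 w26 (.cons w18 w9 w13 (.cons w9 w6 w9 (.last w2 w1 w1))))))))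
) (.lf (.cons w3 w2 w1 (.cons w7 w5 w8 (.cons w14 w17 w10 (.cons w117 w69 w81 (.cons w37 w26 w18 (.cons w18 w13 w9 (.cons w9 w9 w6 (.last w2 w1 w1)))))))))
) (.n2 3943 (.nx 40708 (.n2 3801 (.lf (.cons w3 w2 w1 (.cons w7 w5 w8 (.cons w14 w10 w17 (.cons w117 w81 w69 (.cons w37 w26 w37 (.cons w37 w13 w18 (.cons w18 w13 w9 (.cons w9 w6 w9 (.last w2 w1 w1))))))))))
 (.lf (.cons w3 w2 w1 (.cons w7 w5 w8 (.cons w14 w10 w17 (.cons w117 w81 w69 (.cons w37 w26 w37 (.cons w37 w13 w18 (.cons w18 w13 w9 (.cons w9 w6 w9 (.last w2 w1 w1))))))))))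
) (.lf (.cons w3 w2 w1 (.cons w7 w5 w8 (.cons w14 w10 w17 (.cons w117 w81 w69 (.cons w37 w26 w18 (.cons w18 w13 w9 (.cons w9 w9 w6 (.last w2 w1 w1)))))))))
) (.nx 40708 (.nx 40620 (.lf (.cons w3 w1 w2 (.cons w7 w8 w5 (.cons w14 w17 w10 (.cons w37 w26 w37 (.cons w37 w13 w18 (.cons w18 w9 w13 (.cons w9 w9 w6 (.last w2 w1 w1)))))))))
 (.lf (.cons w3 w1 w2 (.cons w7 w8 w5 (.cons w14 w17 w10 (.cons w118 w71 w43 (.cons w117 w69 w81 (.cons w37 w26 w18 (.cons w18 w13 w9 (.cons w9 w9 w6 (.last w2 w1 w1))))))))))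
) (.lf (.cons w3 w2 w1 (.cons w7 w5 w8 (.cons w14 w10 w17 (.cons w37 w13 w18 (.cons w18 w13 w9 (.cons w9 w9 w6 (.last w2 w1 w1))))))))
))) (.lf (.cons w3 w1 w2 (.cons w7 w8 w5 (.cons w14 w17 w10 (.cons w117 w69 w81 (.cons w37 w26 w18 (.cons w18 w13 w9 (.cons w9 w9 w6 (.last w2 w1 w1)))))))))
)))) (.nx 41241 (.n1 6160 (.n2 3943 (.nx 41063 (.lf (.cons w3 w2 w1 (.cons w7 w5 w8 (.cons w14 w17 w10 (.cons w37 w13 w18 (.cons w18 w13 w9 (.cons w9 w9 w6 (.last w2 w1 w1))))))))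
 (.lf (.cons w3 w2 w1 (.cons w7 w5 w8 (.cons w14 w10 w17 (.cons w18 w13 w9 (.cons w9 w6 w9 (.last w2 w1 w1)))))))
) (.lf (.cons w3 w2 w1 (.cons w7 w5 w8 (.cons w14 w10 w17 (.cons w117 w81 w69 (.cons w18 w13 w18 (.cons w9 w6 w9 (.last w2 w1 w1))))))))
) (.lf (.cons w3 w2 w1 (.cons w7 w5 w8 (.cons w14 w10 w17 (.cons w117 w81 w69 (.cons w37 w13 w18 (.cons w18 w13 w9 (.cons w9 w6 w9 (.last w2 w1 w1)))))))))
) (.lf (.cons w3 w2 w1 (.cons w7 w5 w8 (.cons w14 w10 w17 (.cons w18 w13 w18 (.cons w9 w6 w9 (.last w2 w1 w1)))))))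
))

theorem c10 : Cov false false 40183 41600 40183 102400 5773 6547 3660 4227 3660 4227 :=
  Cov.chk t10 (by decide +kernel)

noncomputable def t12 : Tr :=
(.nx 43067 (.ny 40886 (.n1 6547 (.lf (.cons w3 w2 w1 (.cons w7 w5 w4 (.cons w14 w10 w8 (.cons w29 w20 w17 (.cons w18 w13 w9 (.cons w9 w6 w9 (.cons w4 w1 w1 (.last w2 w2 w2)))))))))
 (.nx 42327 (.ny 39837 (.lf (.cons w3 w2 w1 (.cons w7 w5 w4 (.cons w16 w7 w7 (.cons w32 w14 w14 (.cons w18 w13 w9 (.cons w9 w6 w9 (.last w2 w1 w1))))))))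
 (.lf (.cons w3 w2 w1 (.cons w7 w5 w4 (.cons w14 w17 w10 (.cons w29 w20 w17 (.cons w58 w40 w34 (.cons w113 w42 w69 (.cons w18 w13 w18 (.cons w9 w6 w9 (.last w2 w1 w1))))))))))
) (.lf (.cons w3 w2 w1 (.cons w7 w5 w4 (.cons w14 w10 w8 (.cons w29 w20 w17 (.cons w36 w13 w9 (.cons w9 w6 w9 (.cons w4 w1 w1 (.last w2 w2 w2)))))))))
)) (.ny 41962 (.lf (.cons w3 w2 w1 (.cons w7 w5 w4 (.cons w14 w17 w10 (.cons w18 w13 w9 (.cons w9 w6 w9 (.last w2 w1 w1)))))))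
 (.lf (.cons w3 w1 w2 (.cons w7 w8 w5 (.cons w14 w17 w10 (.cons w117 w69 w81 (.cons w18 w6 w9 (.cons w4 w1 w1 (.last w2 w2 w2))))))))
)) (.lf (.cons w3 w2 w1 (.cons w7 w5 w4 (.cons w14 w10 w8 (.cons w29 w20 w17 (.cons w9 w6 w9 (.cons w4 w1 w1 (.last w2 w2 w2))))))))
)

theorem c12 : Cov false false 41600 44585 38815 102400 5773 7321 3660 4227 3660 4227 :=
  Cov.chk t12 (by decide +kernel)

noncomputable def t15 : Tr :=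
(.nx 58824 (.nx 44585 (.nx 38815 (.lf (.cons w3 w1 w2 (.cons w6 w3 w2 (.cons w7 w3 w4 (.cons w4 w2 w3 (.last w2 w1 w1))))))
 (.lf (.cons w3 w1 w1 (.cons w3 w3 w2 (.cons w4 w4 w3 (.last w2 w1 w1)))))
) (.ny 44585 (.nx 51212 (.lf (.cons w3 w1 w1 (.cons w3 w3 w2 (.cons w2 w2 w1 (.last w2 w1 w1)))))
 (.ny 38815 (.lf (.cons w3 w4 w2 (.cons w14 w9 w8 (.cons w7 w8 w5 (.cons w9 w5 w6 (.cons w9 w10 w7 (.cons w19 w20 w14 (.cons w7 w6 w3 (.cons w6 w3 w4 (.cons w3 w3 w2 (.last w2 w1 w1)))))))))))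
 (.lf (.cons w3 w4 w2 (.cons w3 w3 w3 (.cons w7 w6 w3 (.cons w14 w24 w14 (.cons w29 w24 w14 (.cons w13 w7 w8 (.cons w6 w3 w2 (.last w2 w1 w1)))))))))
)) (.nx 51212 (.lf (.cons w3 w1 w2 (.cons w3 w3 w2 (.last w2 w1 w1))))
 (.ny 51212 (.lf (.cons w3 w4 w2 (.cons w7 w6 w3 (.cons w7 w6 w7 (.cons w14 w13 w14 (.cons w8 w5 w6 (.cons w8 w5 w3 (.cons w4 w4 w3 (.last w2 w1 w1)))))))))
 (.lf (.cons w3 w2 w2 (.cons w12 w9 w10 (.cons w4 w2 w3 (.last w2 w1 w1)))))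
)))) (.ny 58824 (.nx 77612 (.ny 44585 (.nx 67568 (.ny 38815 (.nx 63045 (.lf (.cons w3 w4 w2 (.cons w6 w6 w3 (.cons w9 w5 w3 (.cons w19 w20 w7 (.cons w18 w11 w14 (.cons w33 w20 w13 (.cons w16 w5 w6 (.cons w8 w5 w3 (.cons w3 w3 w2 (.last w2 w1 w1)))))))))))
 (.ny 36217 (.lf (.cons w3 w4 w2 (.cons w6 w3 w3 (.cons w14 w7 w6 (.cons w15 w14 w14 (.cons w7 w9 w5 (.cons w16 w10 w6 (.cons w8 w5 w3 (.cons w9 w8 w3 (.cons w2 w2 w1 (.last w2 w1 w1)))))))))))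
 (.lf (.cons w3 w4 w2 (.cons w6 w6 w3 (.cons w14 w7 w12 (.cons w15 w14 w7 (.cons w7 w7 w7 (.cons w7 w6 w3 (.cons w3 w3 w2 (.last w2 w1 w1)))))))))
)) (.lf (.cons w3 w4 w2 (.cons w3 w3 w3 (.cons w7 w6 w3 (.cons w8 w5 w3 (.cons w9 w8 w3 (.cons w4 w2 w1 (.last w2 w1 w1))))))))
) (.lf (.cons w3 w4 w2 (.cons w7 w8 w5 (.cons w6 w3 w3 (.cons w12 w6 w3 (.cons w8 w5 w6 (.cons w8 w5 w3 (.cons w9 w8 w6 (.cons w4 w4 w3 (.last w2 w1 w1))))))))))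
) (.nx 67568 (.ny 51212 (.lf (.cons w3 w2 w2 (.cons w3 w3 w3 (.cons w7 w6 w3 (.cons w15 w13 w7 (.cons w9 w8 w6 (.cons w4 w4 w3 (.last w2 w1 w1))))))))
 (.lf (.cons w3 w2 w2 (.cons w8 w5 w3 (.cons w32 w11 w7 (.cons w4 w4 w3 (.last w2 w1 w1))))))
) (.lf (.cons w3 w2 w2 (.cons w3 w3 w3 (.cons w7 w6 w6 (.cons w14 w13 w12 (.cons w7 w12 w7 (.cons w4 w4 w3 (.last w2 w1 w1))))))))
)) (.ny 44585 (.nx 89149 (.lf (.cons w3 w2 w2 (.cons w12 w9 w10 (.cons w7 w8 w5 (.cons w4 w5 w3 (.cons w6 w3 w3 (.cons w12 w6 w3 (.cons w9 w8 w3 (.cons w2 w2 w1 (.last w2 w1 w1))))))))))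
 (.nx 95545 (.lf (.cons w3 w2 w2 (.cons w4 w5 w3 (.cons w6 w7 w3 (.cons w6 w3 w3 (.last w2 w1 w1))))))
 (.ny 38815 (.nx 98913 (.lf (.cons w3 w4 w2 (.cons w4 w5 w3 (.cons w16 w11 w7 (.cons w6 w7 w3 (.cons w4 w2 w1 (.last w2 w1 w1)))))))
 (.lf (.cons w3 w4 w2 (.cons w8 w5 w3 (.cons w32 w11 w7 (.cons w13 w7 w6 (.cons w6 w7 w3 (.cons w2 w2 w1 (.cons w5 w4 w2 (.cons w4 w6 w3 (.last w2 w3 w1))))))))))
) (.nx 98913 (.lf (.cons w3 w2 w2 (.cons w7 w8 w5 (.cons w14 w16 w10 (.cons w29 w33 w20 (.cons w6 w7 w3 (.cons w3 w3 w3 (.last w2 w1 w1))))))))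
 (.ny 41600 (.nx 100641 (.lf (.cons w3 w2 w2 (.cons w8 w5 w3 (.cons w32 w11 w7 (.cons w6 w7 w3 (.cons w2 w2 w1 (.last w2 w1 w1)))))))
 (.lf (.cons w3 w2 w2 (.cons w8 w5 w3 (.cons w32 w11 w7 (.cons w13 w7 w6 (.cons w6 w7 w3 (.cons w2 w2 w1 (.last w2 w1 w1))))))))
) (.lf (.cons w3 w2 w2 (.cons w7 w8 w5 (.cons w6 w7 w6 (.cons w3 w3 w3 (.last w2 w1 w1))))))
))))) (.nx 89149 (.lf (.cons w3 w2 w2 (.cons w3 w3 w3 (.cons w4 w4 w3 (.last w2 w1 w1)))))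
 (.ny 51212 (.nx 95545 (.lf (.cons w3 w2 w2 (.cons w7 w8 w5 (.cons w3 w3 w3 (.last w2 w1 w1)))))
 (.lf (.cons w3 w2 w2 (.cons w7 w8 w5 (.cons w14 w16 w10 (.cons w28 w33 w21 (.cons w56 w66 w42 (.cons w9 w8 w6 (.cons w2 w2 w1 (.last w2 w1 w1)))))))))
) (.lf (.cons w3 w2 w2 (.cons w12 w9 w5 (.cons w3 w3 w3 (.last w2 w1 w1)))))
)))) (.nx 77612 (.lf (.cons w12 w5 w8 (.cons w3 w2 w2 (.cons w6 w4 w5 (.cons w12 w9 w10 (.cons w4 w4 w3 (.last w2 w1 w1)))))))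
 (.ny 77612 (.nx 89149 (.lf (.cons w3 w2 w2 (.cons w3 w3 w3 (.cons w4 w4 w3 (.last w2 w1 w1)))))
 (.lf (.cons w3 w2 w2 (.cons w4 w4 w3 (.last w2 w1 w1))))
) (.nx 89149 (.lf (.cons w6 w5 w8 (.cons w3 w2 w2 (.last w2 w1 w1))))
 (.ny 89149 (.lf (.cons w3 w5 w4 (.cons w3 w2 w2 (.last w2 w1 w1))))
 (.lf (.cons w3 w5 w4 (.cons w3 w2 w2 (.last w2 w1 w1))))
))))))

theorem c15 : Cov true false 33792 102400 33792 102400 5773 7321 3660 4227 3660 4227 :=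
  Cov.chk t15 (by decide +kernel)

noncomputable def t29 : Tr :=
(.lf (.cons w3 w2 w1 (.cons w8 w3 w3 (.cons w32 w7 w7 (.cons w18 w13 w9 (.cons w36 w26 w19 (.cons w72 w27 w19 (.cons w37 w24 w18 (.cons w9 w12 w9 (.cons w4 w1 w1 (.last w2 w2 w2)))))))))))


theorem c29 : Cov false false 38815 41600 36217 38815 5773 7321 5773 7321 3660 4227 :=
  Cov.chk t29 (by decide +kernel)

noncomputable def t30 : Tr :=
(.ny 37494 (.ny 36850 (.lf (.cons w3 w2 w1 (.cons w8 w3 w3 (.cons w32 w7 w7 (.cons w65 w28 w29 (.cons w18 w24 w9 (.cons w9 w3 w4 (.last w2 w1 w1))))))))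
 (.lf (.cons w3 w2 w1 (.cons w7 w5 w4 (.cons w14 w10 w8 (.cons w17 w7 w6 (.cons w32 w14 w14 (.cons w65 w29 w28 (.cons w37 w24 w18 (.cons w9 w12 w9 (.cons w4 w1 w1 (.last w2 w2 w2)))))))))))
) (.n1 6547 (.lf (.cons w3 w2 w1 (.cons w7 w5 w4 (.cons w16 w7 w7 (.cons w36 w13 w9 (.cons w73 w52 w19 (.cons w72 w27 w38 (.cons w37 w24 w18 (.cons w9 w12 w9 (.cons w4 w1 w1 (.last w2 w2 w2)))))))))))
 (.lf (.cons w3 w2 w1 (.cons w7 w5 w4 (.cons w17 w7 w6 (.cons w18 w13 w9 (.cons w37 w49 w37 (.cons w72 w27 w19 (.cons w37 w24 w18 (.cons w9 w12 w9 (.cons w4 w1 w1 (.last w2 w2 w2)))))))))))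
))

theorem c30 : Cov false false 41600 43067 36217 38815 5773 7321 5773 7321 3660 4227 :=
  Cov.chk t30 (by decide +kernel)

noncomputable def t31 : Tr :=
(.ny 37494 (.n1 6547 (.nx 43819 (.lf (.cons w3 w2 w1 (.cons w7 w5 w4 (.cons w16 w7 w7 (.cons w65 w28 w14 (.cons w65 w29 w28 (.cons w18 w24 w9 (.cons w9 w3 w4 (.last w2 w1 w1)))))))))
 (.lf (.cons w3 w2 w1 (.cons w7 w5 w4 (.cons w14 w10 w8 (.cons w29 w20 w17 (.cons w18 w24 w9 (.cons w9 w6 w4 (.last w2 w1 w1))))))))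
) (.lf (.cons w3 w2 w1 (.cons w7 w5 w4 (.cons w16 w7 w7 (.cons w65 w28 w14 (.cons w65 w29 w28 (.cons w18 w24 w18 (.cons w9 w6 w4 (.last w2 w1 w1)))))))))
) (.n1 6547 (.nx 43819 (.nx 43441 (.ny 38149 (.n1 6160 (.n2 6547 (.lf (.cons w3 w2 w1 (.cons w7 w5 w4 (.cons w14 w10 w8 (.cons w29 w20 w17 (.cons w58 w40 w34 (.cons w113 w84 w69 (.cons w116 w81 w69 (.cons w18 w24 w18 (.cons w9 w3 w4 (.last w2 w1 w1)))))))))))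
 (.lf (.cons w3 w2 w1 (.cons w7 w5 w4 (.cons w28 w10 w17 (.cons w29 w40 w17 (.cons w18 w24 w9 (.cons w9 w3 w4 (.last w2 w1 w1))))))))
) (.ny 37820 (.lf (.cons w3 w2 w1 (.cons w7 w5 w4 (.cons w32 w14 w7 (.cons w65 w28 w29 (.cons w37 w24 w18 (.cons w9 w12 w9 (.cons w4 w1 w1 (.last w2 w2 w2)))))))))
 (.n2 6547 (.n2 6160 (.lf (.cons w3 w2 w1 (.cons w7 w5 w4 (.cons w14 w10 w8 (.cons w29 w20 w17 (.cons w58 w40 w34 (.cons w113 w84 w69 (.cons w116 w81 w69 (.cons w18 w24 w18 (.cons w9 w3 w4 (.last w2 w1 w1)))))))))))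
 (.lf (.cons w3 w2 w1 (.cons w7 w5 w4 (.cons w28 w10 w17 (.cons w29 w40 w17 (.cons w18 w24 w18 (.cons w9 w3 w4 (.last w2 w1 w1))))))))
) (.lf (.cons w3 w2 w1 (.cons w7 w5 w4 (.cons w28 w10 w17 (.cons w29 w40 w17 (.cons w113 w42 w69 (.cons w18 w24 w18 (.cons w9 w3 w4 (.last w2 w1 w1)))))))))
))) (.n2 6547 (.lf (.cons w3 w2 w1 (.cons w7 w5 w4 (.cons w28 w10 w17 (.cons w29 w40 w17 (.cons w58 w40 w34 (.cons w113 w42 w69 (.cons w113 w85 w69 (.cons w59 w43 w35 (.cons w18 w24 w18 (.cons w9 w3 w4 (.last w2 w1 w1))))))))))))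
 (.lf (.cons w3 w2 w1 (.cons w7 w5 w4 (.cons w28 w10 w17 (.cons w29 w40 w17 (.cons w18 w24 w18 (.cons w9 w3 w4 (.last w2 w1 w1))))))))
)) (.lf (.cons w3 w2 w1 (.cons w7 w5 w4 (.cons w14 w10 w8 (.cons w29 w20 w17 (.cons w58 w40 w34 (.cons w113 w84 w69 (.cons w116 w81 w69 (.cons w113 w85 w69 (.cons w59 w43 w35 (.cons w18 w24 w9 (.cons w9 w3 w4 (.last w2 w1 w1)))))))))))))
) (.lf (.cons w3 w2 w1 (.cons w7 w5 w4 (.cons w14 w10 w8 (.cons w29 w20 w17 (.cons w9 w12 w9 (.cons w4 w1 w1 (.last w2 w2 w2))))))))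
) (.nx 43819 (.ny 38149 (.n1 6934 (.nx 43441 (.lf (.cons w3 w2 w1 (.cons w7 w5 w4 (.cons w32 w7 w7 (.cons w65 w28 w29 (.cons w65 w29 w56 (.cons w37 w24 w18 (.cons w9 w12 w9 (.cons w4 w1 w1 (.last w2 w2 w2))))))))))
 (.n2 6547 (.lf (.cons w3 w2 w1 (.cons w7 w5 w4 (.cons w14 w10 w8 (.cons w29 w20 w17 (.cons w58 w40 w34 (.cons w18 w24 w18 (.cons w9 w3 w4 (.last w2 w1 w1)))))))))
 (.lf (.cons w3 w2 w1 (.cons w7 w5 w4 (.cons w14 w10 w8 (.cons w29 w20 w17 (.cons w18 w12 w9 (.cons w9 w3 w4 (.last w2 w1 w1))))))))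
)) (.lf (.cons w3 w2 w1 (.cons w7 w5 w4 (.cons w32 w7 w7 (.cons w65 w28 w29 (.cons w65 w29 w56 (.cons w37 w24 w18 (.cons w9 w12 w9 (.cons w4 w1 w1 (.last w2 w2 w2))))))))))
) (.n1 6934 (.n2 6547 (.n2 6160 (.lf (.cons w3 w2 w1 (.cons w7 w5 w4 (.cons w14 w10 w8 (.cons w29 w20 w17 (.cons w58 w40 w34 (.cons w113 w84 w69 (.cons w116 w81 w69 (.cons w113 w85 w69 (.cons w59 w43 w35 (.cons w18 w24 w18 (.cons w9 w3 w4 (.last w2 w1 w1)))))))))))))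
 (.lf (.cons w3 w2 w1 (.cons w7 w5 w4 (.cons w28 w10 w17 (.cons w29 w40 w17 (.cons w113 w42 w69 (.cons w113 w85 w69 (.cons w18 w24 w18 (.cons w9 w3 w4 (.last w2 w1 w1))))))))))
) (.lf (.cons w3 w2 w1 (.cons w7 w5 w4 (.cons w28 w10 w17 (.cons w29 w40 w17 (.cons w113 w42 w69 (.cons w113 w85 w69 (.cons w59 w43 w35 (.cons w18 w24 w18 (.cons w9 w3 w4 (.last w2 w1 w1)))))))))))
) (.n2 6547 (.nx 43441 (.ny 38481 (.n2 6160 (.lf (.cons w3 w2 w1 (.cons w7 w5 w4 (.cons w28 w10 w17 (.cons w9 w6 w9 (.cons w4 w1 w1 (.last w2 w2 w2)))))))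
 (.lf (.cons w3 w2 w1 (.cons w7 w5 w4 (.cons w28 w10 w17 (.cons w29 w40 w17 (.cons w37 w24 w18 (.cons w9 w12 w9 (.cons w4 w1 w1 (.last w2 w2 w2)))))))))
) (.lf (.cons w3 w2 w1 (.cons w7 w5 w4 (.cons w28 w10 w17 (.cons w9 w6 w9 (.cons w4 w1 w1 (.last w2 w2 w2)))))))
) (.lf (.cons w3 w2 w1 (.cons w7 w5 w4 (.cons w14 w10 w8 (.cons w29 w20 w17 (.cons w58 w40 w34 (.cons w113 w84 w69 (.cons w116 w81 w69 (.cons w18 w24 w18 (.cons w9 w3 w4 (.last w2 w1 w1)))))))))))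
) (.nx 43441 (.nx 43254 (.lf (.cons w3 w2 w1 (.cons w7 w5 w4 (.cons w28 w10 w17 (.cons w29 w40 w17 (.cons w37 w24 w18 (.cons w9 w12 w9 (.cons w4 w1 w1 (.last w2 w2 w2)))))))))
 (.lf (.cons w3 w2 w1 (.cons w7 w5 w4 (.cons w28 w10 w17 (.cons w29 w40 w17 (.cons w113 w42 w69 (.cons w113 w85 w69 (.cons w59 w43 w35 (.cons w18 w12 w18 (.cons w9 w3 w4 (.last w2 w1 w1)))))))))))
) (.lf (.cons w3 w2 w1 (.cons w7 w5 w4 (.cons w28 w10 w17 (.cons w29 w40 w17 (.cons w18 w12 w9 (.cons w9 w3 w4 (.last w2 w1 w1))))))))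
)))) (.lf (.cons w3 w2 w1 (.cons w7 w5 w4 (.cons w14 w10 w8 (.cons w29 w20 w17 (.cons w58 w40 w34 (.cons w113 w84 w69 (.cons w116 w81 w69 (.cons w18 w24 w9 (.cons w9 w6 w4 (.last w2 w1 w1)))))))))))
)))

theorem c31 : Cov false false 43067 44585 36217 38815 5773 7321 5773 7321 3660 4227 :=
  Cov.chk t31 (by decide +kernel)

noncomputable def t32 : Tr :=
(.ny 41600 (.nx 41600 (.nx 40183 (.lf (.cons w3 w1 w2 (.cons w8 w3 w3 (.cons w32 w7 w7 (.cons w32 w14 w14 (.cons w65 w29 w28 (.cons w65 w29 w56 (.cons w18 w13 w18 (.cons w9 w6 w9 (.cons w4 w1 w1 (.last w2 w2 w2)))))))))))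
 (.ny 40183 (.lf (.cons w3 w2 w1 (.cons w7 w5 w4 (.cons w28 w10 w17 (.cons w29 w20 w34 (.cons w16 w7 w7 (.cons w32 w14 w14 (.cons w18 w13 w9 (.cons w9 w6 w9 (.cons w4 w1 w1 (.last w2 w2 w2)))))))))))
 (.nx 40885 (.lf (.cons w3 w1 w2 (.cons w7 w4 w5 (.cons w16 w7 w7 (.cons w32 w14 w14 (.cons w37 w13 w18 (.cons w18 w13 w9 (.cons w9 w6 w9 (.last w2 w1 w1)))))))))
 (.n1 6547 (.lf (.cons w3 w1 w2 (.cons w7 w4 w5 (.cons w14 w17 w10 (.cons w18 w13 w9 (.cons w9 w6 w9 (.last w2 w1 w1)))))))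
 (.ny 40885 (.ny 40532 (.lf (.cons w3 w1 w2 (.cons w7 w8 w5 (.cons w32 w14 w7 (.cons w65 w29 w28 (.cons w18 w13 w9 (.cons w9 w6 w9 (.last w2 w1 w1))))))))
 (.lf (.cons w3 w1 w2 (.cons w7 w5 w8 (.cons w14 w10 w17 (.cons w29 w17 w40 (.cons w113 w69 w42 (.cons w59 w35 w43 (.cons w18 w13 w18 (.cons w9 w6 w9 (.last w2 w1 w1))))))))))
) (.lf (.cons w3 w1 w2 (.cons w7 w4 w5 (.cons w14 w10 w17 (.cons w29 w17 w20 (.cons w18 w13 w18 (.cons w9 w6 w9 (.last w2 w1 w1))))))))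
))))) (.nx 43067 (.ny 40183 (.nx 42327 (.lf (.cons w3 w2 w1 (.cons w7 w5 w4 (.cons w14 w17 w10 (.cons w29 w20 w17 (.cons w58 w40 w34 (.cons w113 w42 w69 (.cons w113 w85 w69 (.cons w59 w43 w35 (.cons w119 w86 w71 (.cons w18 w13 w9 (.cons w9 w6 w9 (.cons w4 w1 w1 (.last w2 w2 w2))))))))))))))
 (.ny 39493 (.lf (.cons w3 w2 w1 (.cons w7 w5 w4 (.cons w28 w10 w17 (.cons w29 w40 w17 (.cons w113 w84 w69 (.cons w113 w42 w69 (.cons w29 w17 w21 (.cons w9 w6 w9 (.cons w4 w1 w1 (.last w2 w2 w2)))))))))))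
 (.lf (.cons w3 w2 w1 (.cons w7 w5 w4 (.cons w14 w17 w10 (.cons w29 w20 w17 (.cons w58 w40 w34 (.cons w113 w42 w69 (.cons w59 w86 w70 (.cons w59 w43 w35 (.cons w18 w6 w9 (.cons w9 w3 w4 (.last w2 w1 w1))))))))))))
)) (.nx 42327 (.n1 6547 (.ny 40885 (.nx 41962 (.lf (.cons w3 w1 w2 (.cons w7 w8 w5 (.cons w14 w17 w10 (.cons w36 w13 w9 (.cons w9 w6 w9 (.last w2 w1 w1)))))))
 (.lf (.cons w3 w2 w1 (.cons w7 w5 w8 (.cons w14 w10 w17 (.cons w18 w6 w9 (.cons w4 w1 w1 (.last w2 w2 w2)))))))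
) (.lf (.cons w3 w1 w2 (.cons w7 w8 w5 (.cons w14 w17 w10 (.cons w9 w6 w9 (.last w2 w1 w1))))))
) (.lf (.cons w3 w1 w2 (.cons w7 w8 w5 (.cons w14 w17 w10 (.cons w118 w71 w43 (.cons w117 w69 w81 (.cons w36 w13 w9 (.cons w9 w6 w9 (.cons w4 w1 w1 (.last w2 w2 w2))))))))))
) (.lf (.cons w3 w2 w1 (.cons w7 w8 w5 (.cons w14 w17 w10 (.cons w9 w6 w9 (.cons w4 w1 w1 (.last w2 w2 w2)))))))
)) (.ny 40183 (.n1 6547 (.lf (.cons w3 w2 w1 (.cons w7 w5 w4 (.cons w14 w10 w8 (.cons w29 w20 w17 (.cons w58 w40 w34 (.cons w29 w17 w21 (.cons w58 w69 w42 (.cons w18 w24 w9 (.cons w9 w6 w4 (.last w2 w1 w1)))))))))))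
 (.nx 43819 (.n2 6547 (.lf (.cons w3 w2 w1 (.cons w7 w5 w4 (.cons w28 w10 w17 (.cons w9 w6 w9 (.cons w4 w1 w1 (.last w2 w2 w2)))))))
 (.lf (.cons w3 w2 w1 (.cons w7 w5 w4 (.cons w28 w10 w17 (.cons w29 w40 w17 (.cons w113 w42 w69 (.cons w29 w17 w21 (.cons w58 w69 w42 (.cons w18 w12 w18 (.cons w9 w3 w4 (.last w2 w1 w1)))))))))))
) (.lf (.cons w3 w2 w1 (.cons w7 w5 w4 (.cons w14 w10 w8 (.cons w29 w20 w17 (.cons w18 w12 w9 (.cons w9 w6 w4 (.last w2 w1 w1))))))))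
)) (.lf (.cons w3 w2 w1 (.cons w7 w5 w4 (.cons w14 w17 w10 (.cons w9 w6 w9 (.cons w4 w1 w1 (.last w2 w2 w2)))))))
))) (.lf (.cons w3 w1 w2 (.cons w7 w4 w5 (.cons w14 w17 w10 (.cons w9 w6 w9 (.cons w4 w1 w1 (.last w2 w2 w2)))))))
)

theorem c32 : Cov false false 38815 44585 38815 102400 5773 7321 5773 7321 3660 4227 :=
  Cov.chk t32 (by decide +kernel)

noncomputable def t39 : Tr :=
(.nx 95545 (.ny 38815 (.nx 92292 (.ny 36217 (.nx 90707 (.ny 34983 (.lf (.cons w7 w7 w3 (.cons w13 w9 w8 (.cons w3 w2 w2 (.last w2 w1 w1)))))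
 (.lf (.cons w14 w15 w7 (.cons w7 w7 w3 (.cons w6 w4 w2 (.cons w2 w3 w1 (.last w2 w1 w1))))))
) (.lf (.cons w14 w7 w7 (.cons w7 w7 w6 (.cons w28 w14 w13 (.cons w29 w28 w26 (.cons w9 w6 w5 (.cons w3 w2 w1 (.last w2 w1 w1))))))))
) (.ny 37494 (.lf (.cons w7 w7 w7 (.cons w7 w7 w3 (.cons w3 w4 w2 (.cons w2 w3 w1 (.last w2 w1 w1))))))
 (.nx 90707 (.n1 6547 (.n2 6547 (.lf (.cons w24 w18 w10 (.cons w12 w9 w5 (.cons w7 w7 w3 (.cons w3 w4 w1 (.last w2 w1 w1))))))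
 (.n1 6160 (.lf (.cons w14 w25 w13 (.cons w29 w25 w26 (.cons w7 w7 w7 (.cons w7 w7 w3 (.cons w3 w4 w1 (.last w2 w1 w1)))))))
 (.lf (.cons w12 w18 w10 (.cons w12 w9 w5 (.cons w7 w7 w3 (.cons w3 w4 w1 (.last w2 w1 w1))))))
)) (.lf (.cons w12 w9 w10 (.cons w14 w7 w7 (.cons w7 w7 w3 (.cons w3 w4 w1 (.last w2 w1 w1))))))
) (.n1 6547 (.nx 91496 (.ny 38149 (.n2 6547 (.n1 6160 (.lf (.cons w6 w9 w5 (.cons w7 w7 w3 (.cons w3 w4 w1 (.last w2 w1 w1)))))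
 (.n2 6160 (.lf (.cons w24 w18 w10 (.cons w12 w9 w5 (.cons w7 w7 w3 (.cons w3 w4 w1 (.last w2 w1 w1))))))
 (.lf (.cons w7 w7 w7 (.cons w7 w7 w3 (.cons w3 w4 w1 (.last w2 w1 w1)))))
)) (.lf (.cons w7 w7 w7 (.cons w7 w7 w3 (.cons w3 w4 w1 (.last w2 w1 w1)))))
) (.lf (.cons w14 w25 w13 (.cons w29 w25 w26 (.cons w7 w7 w7 (.cons w7 w7 w3 (.cons w3 w4 w1 (.last w2 w1 w1)))))))
) (.lf (.cons w6 w9 w5 (.cons w7 w7 w3 (.cons w3 w4 w2 (.cons w2 w3 w1 (.last w2 w1 w1))))))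
) (.ny 38149 (.lf (.cons w7 w7 w7 (.cons w7 w7 w3 (.cons w3 w2 w2 (.last w2 w1 w1)))))
 (.n2 6547 (.lf (.cons w14 w25 w13 (.cons w29 w25 w26 (.cons w7 w7 w7 (.cons w7 w7 w3 (.cons w3 w4 w1 (.last w2 w1 w1)))))))
 (.nx 91496 (.lf (.cons w12 w18 w10 (.cons w12 w9 w5 (.cons w7 w7 w3 (.cons w3 w4 w1 (.last w2 w1 w1))))))
 (.n1 6934 (.lf (.cons w49 w36 w21 (.cons w12 w18 w5 (.cons w7 w7 w3 (.cons w3 w4 w1 (.last w2 w1 w1))))))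
 (.lf (.cons w24 w18 w10 (.cons w12 w9 w5 (.cons w9 w6 w5 (.cons w3 w2 w1 (.last w2 w1 w1))))))
)))))))) (.ny 36217 (.lf (.cons w14 w7 w7 (.cons w7 w7 w6 (.cons w28 w14 w13 (.cons w9 w6 w5 (.cons w3 w2 w2 (.last w2 w1 w1)))))))
 (.nx 93904 (.ny 37494 (.lf (.cons w7 w7 w7 (.cons w7 w7 w3 (.cons w9 w6 w5 (.cons w3 w4 w1 (.last w2 w1 w1))))))
 (.n1 6547 (.lf (.cons w6 w9 w5 (.cons w9 w6 w5 (.cons w3 w4 w1 (.last w2 w1 w1)))))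
 (.ny 38149 (.lf (.cons w7 w7 w7 (.cons w7 w7 w3 (.cons w3 w4 w2 (.cons w2 w3 w1 (.last w2 w1 w1))))))
 (.lf (.cons w26 w19 w11 (.cons w49 w37 w20 (.cons w12 w9 w5 (.cons w9 w6 w5 (.cons w3 w2 w1 (.last w2 w1 w1)))))))
))) (.lf (.cons w6 w9 w5 (.cons w9 w6 w5 (.cons w3 w4 w1 (.last w2 w1 w1)))))
))) (.lf (.cons w3 w3 w3 (.cons w14 w25 w13 (.cons w29 w25 w26 (.cons w7 w7 w7 (.cons w7 w7 w3 (.cons w3 w4 w2 (.cons w2 w3 w1 (.last w2 w1 w1)))))))))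
) (.ny 38815 (.ny 36217 (.nx 98913 (.lf (.cons w7 w7 w3 (.cons w9 w6 w5 (.cons w6 w4 w2 (.cons w2 w3 w1 (.last w2 w1 w1))))))
 (.nx 100641 (.lf (.cons w7 w7 w3 (.cons w9 w6 w5 (.cons w19 w25 w10 (.cons w9 w13 w8 (.cons w2 w3 w2 (.last w2 w1 w1)))))))
 (.n1 6547 (.lf (.cons w7 w7 w3 (.cons w6 w9 w5 (.cons w26 w33 w10 (.cons w6 w4 w2 (.cons w2 w3 w1 (.cons w10 w7 w4 (.cons w5 w6 w3 (.cons w8 w9 w5 (.last w2 w2 w1))))))))))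
 (.n2 6547 (.lf (.cons w7 w7 w3 (.cons w9 w6 w5 (.cons w19 w25 w10 (.cons w9 w13 w8 (.cons w2 w3 w2 (.cons w2 w3 w1 (.cons w9 w9 w5 (.cons w6 w5 w3 (.cons w8 w9 w5 (.cons w2 w2 w2 (.last w2 w2 w1))))))))))))
 (.ny 34983 (.n1 6934 (.lf (.cons w7 w7 w3 (.cons w14 w28 w13 (.cons w29 w56 w13 (.cons w117 w113 w104 (.cons w58 w113 w53 (.cons w59 w59 w27 (.cons w24 w18 w10 (.cons w9 w12 w5 (.cons w9 w13 w8 (.cons w2 w3 w2 (.cons w2 w3 w1 (.cons w10 w7 w4 (.cons w5 w6 w3 (.cons w8 w9 w5 (.last w2 w2 w1))))))))))))))))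
 (.lf (.cons w7 w7 w3 (.cons w14 w14 w6 (.cons w29 w28 w13 (.cons w58 w56 w26 (.cons w117 w113 w104 (.cons w116 w113 w53 (.cons w24 w18 w10 (.cons w12 w9 w5 (.cons w13 w9 w8 (.cons w3 w2 w2 (.cons w2 w3 w1 (.cons w10 w7 w4 (.cons w5 w6 w3 (.cons w8 w9 w5 (.last w2 w2 w1))))))))))))))))
) (.lf (.cons w7 w7 w3 (.cons w9 w6 w5 (.cons w33 w26 w10 (.cons w4 w6 w2 (.cons w2 w3 w1 (.last w2 w1 w1)))))))
))))) (.lf (.cons w7 w7 w7 (.cons w7 w7 w3 (.cons w9 w6 w5 (.cons w19 w25 w20 (.cons w33 w26 w10 (.cons w16 w13 w5 (.cons w2 w3 w2 (.last w2 w1 w1)))))))))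
) (.ny 41600 (.ny 40183 (.lf (.cons w13 w9 w5 (.cons w6 w9 w5 (.cons w9 w6 w5 (.cons w36 w25 w11 (.cons w33 w26 w20 (.cons w16 w13 w5 (.cons w4 w3 w1 (.last w2 w1 w1)))))))))
 (.lf (.cons w13 w9 w5 (.cons w6 w9 w5 (.cons w7 w7 w3 (.cons w14 w14 w13 (.cons w6 w4 w2 (.cons w2 w3 w1 (.last w2 w1 w1))))))))
) (.lf (.cons w3 w3 w3 (.cons w9 w13 w5 (.cons w9 w6 w5 (.cons w7 w7 w3 (.cons w6 w4 w2 (.cons w2 w3 w1 (.last w2 w1 w1))))))))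
)))

theorem c39 : Cov false true 89149 102400 33792 44585 5773 7321 5773 7321 3660 4227 :=
  Cov.chk t39 (by decide +kernel)

noncomputable def t40 : Tr :=
(.nx 89149 (.lf (.cons w3 w3 w3 (.cons w7 w7 w7 (.cons w3 w2 w2 (.cons w2 w3 w2 (.last w2 w1 w1))))))
 (.ny 51212 (.nx 95545 (.lf (.cons w3 w3 w3 (.cons w7 w7 w7 (.cons w3 w4 w2 (.cons w3 w2 w1 (.last w2 w1 w1))))))
 (.ny 47784 (.lf (.cons w3 w3 w3 (.cons w7 w7 w7 (.cons w7 w7 w3 (.cons w3 w2 w2 (.last w2 w1 w1))))))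
 (.lf (.cons w3 w3 w3 (.cons w7 w7 w7 (.cons w15 w15 w12 (.cons w6 w4 w2 (.cons w2 w3 w1 (.last w2 w1 w1)))))))
)) (.lf (.cons w3 w3 w3 (.cons w14 w7 w7 (.cons w3 w2 w2 (.last w2 w1 w1)))))
))

theorem c40 : Cov false true 77612 102400 44585 58824 5773 7321 5773 7321 3660 4227 :=
  Cov.chk t40 (by decide +kernel)

noncomputable def t41 : Tr :=
(.nx 77612 (.lf (.cons w6 w8 w5 (.cons w3 w2 w2 (.cons w4 w3 w2 (.last w2 w1 w1)))))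
 (.ny 77612 (.nx 89149 (.ny 67568 (.nx 83181 (.lf (.cons w6 w4 w5 (.cons w3 w2 w2 (.last w2 w1 w1))))
 (.lf (.cons w6 w3 w3 (.cons w3 w2 w2 (.last w2 w1 w1))))
) (.lf (.cons w6 w4 w5 (.cons w3 w2 w2 (.last w2 w1 w1))))
) (.ny 67568 (.lf (.cons w3 w3 w3 (.cons w2 w3 w2 (.last w2 w1 w1))))
 (.lf (.cons w12 w9 w10 (.cons w12 w9 w5 (.cons w13 w32 w10 (.cons w6 w8 w5 (.cons w3 w2 w2 (.last w2 w1 w1)))))))
)) (.nx 89149 (.lf (.cons w6 w8 w5 (.cons w3 w2 w2 (.last w2 w1 w1))))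
 (.ny 89149 (.lf (.cons w6 w4 w5 (.cons w3 w2 w2 (.last w2 w1 w1))))
 (.lf (.cons w3 w4 w5 (.cons w2 w3 w2 (.last w2 w1 w1))))
))))

theorem c41 : Cov false true 58824 102400 58824 102400 5773 7321 5773 7321 3660 4227 :=
  Cov.chk t41 (by decide +kernel)

noncomputable def t42 : Tr :=
(.nx 36217 (.nx 34983 (.ny 34382 (.n1 6547 (.n1 6160 (.lf (.cons w3 w1 w1 (.cons w12 w7 w7 (.cons w6 w3 w3 (.cons w24 w13 w13 (.cons w50 w26 w24 (.cons w18 w8 w10 (.cons w8 w5 w5 (.last w2 w1 w1)))))))))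
 (.nx 34382 (.nx 34086 (.lf (.cons w3 w1 w1 (.cons w6 w3 w3 (.cons w24 w13 w13 (.cons w50 w26 w24 (.cons w101 w52 w49 (.cons w101 w49 w53 (.cons w36 w17 w10 (.cons w9 w5 w4 (.cons w2 w1 w2 (.last w2 w1 w1)))))))))))
 (.lf (.cons w3 w1 w1 (.cons w12 w7 w7 (.cons w6 w3 w3 (.cons w24 w13 w13 (.cons w50 w26 w24 (.cons w18 w8 w10 (.cons w8 w5 w5 (.last w2 w1 w1)))))))))
) (.lf (.cons w3 w1 w1 (.cons w12 w7 w7 (.cons w6 w3 w3 (.cons w24 w13 w13 (.cons w50 w26 w24 (.cons w9 w8 w5 (.cons w4 w1 w2 (.last w2 w1 w1)))))))))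
)) (.n1 6934 (.nx 34382 (.ny 34086 (.n2 6547 (.nx 34086 (.n3 3943 (.lf (.cons w3 w1 w1 (.cons w6 w3 w3 (.cons w15 w7 w7 (.cons w30 w15 w15 (.cons w63 w31 w31 (.cons w36 w17 w10 (.cons w9 w5 w4 (.cons w2 w1 w2 (.last w2 w1 w1))))))))))
 (.n1 6740 (.lf (.cons w3 w1 w1 (.cons w6 w3 w3 (.cons w15 w7 w7 (.cons w50 w13 w24 (.cons w100 w53 w49 (.cons w36 w17 w10 (.cons w9 w5 w4 (.cons w2 w1 w2 (.last w2 w1 w1))))))))))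
 (.lf (.cons w3 w1 w1 (.cons w6 w3 w3 (.cons w15 w7 w7 (.cons w30 w15 w15 (.cons w63 w31 w31 (.cons w36 w17 w10 (.cons w9 w5 w4 (.cons w2 w1 w2 (.last w2 w1 w1))))))))))
)) (.lf (.cons w3 w1 w1 (.cons w6 w3 w3 (.cons w15 w7 w7 (.cons w50 w13 w24 (.cons w101 w52 w49 (.cons w36 w17 w10 (.cons w9 w5 w4 (.cons w2 w1 w2 (.last w2 w1 w1))))))))))
) (.lf (.cons w3 w1 w1 (.cons w6 w3 w3 (.cons w24 w13 w13 (.cons w50 w13 w24 (.cons w101 w52 w49 (.cons w36 w17 w10 (.cons w9 w5 w4 (.cons w2 w1 w2 (.last w2 w1 w1))))))))))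
) (.lf (.cons w3 w1 w1 (.cons w6 w3 w3 (.cons w24 w13 w13 (.cons w50 w26 w24 (.cons w9 w8 w10 (.cons w4 w2 w2 (.last w2 w1 w1))))))))
) (.lf (.cons w3 w1 w1 (.cons w12 w7 w7 (.cons w6 w3 w3 (.cons w24 w13 w13 (.cons w50 w13 w24 (.cons w18 w8 w10 (.cons w8 w5 w5 (.last w2 w1 w1)))))))))
) (.nx 34382 (.ny 34086 (.n2 6547 (.ny 33939 (.n1 7127 (.nx 34086 (.n2 6160 (.lf (.cons w3 w1 w1 (.cons w6 w3 w3 (.cons w15 w7 w7 (.cons w30 w15 w15 (.cons w37 w20 w17 (.cons w9 w8 w10 (.cons w4 w2 w2 (.last w2 w1 w1)))))))))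
 (.lf (.cons w3 w1 w1 (.cons w6 w3 w3 (.cons w15 w7 w7 (.cons w30 w15 w15 (.cons w37 w20 w17 (.cons w9 w8 w5 (.cons w4 w1 w2 (.last w2 w1 w1)))))))))
) (.lf (.cons w3 w1 w1 (.cons w6 w3 w3 (.cons w15 w7 w7 (.cons w30 w15 w15 (.cons w36 w17 w10 (.cons w9 w5 w4 (.cons w2 w1 w2 (.last w2 w1 w1)))))))))
) (.nx 34086 (.lf (.cons w3 w1 w1 (.cons w6 w3 w3 (.cons w15 w7 w7 (.cons w30 w15 w15 (.cons w63 w31 w31 (.cons w36 w17 w21 (.cons w9 w8 w10 (.cons w4 w2 w2 (.last w2 w1 w1))))))))))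
 (.n3 3943 (.lf (.cons w3 w1 w1 (.cons w6 w3 w3 (.cons w15 w7 w7 (.cons w30 w15 w15 (.cons w36 w17 w10 (.cons w9 w5 w4 (.cons w2 w1 w2 (.last w2 w1 w1)))))))))
 (.lf (.cons w3 w1 w1 (.cons w6 w3 w3 (.cons w15 w7 w7 (.cons w30 w15 w15 (.cons w36 w17 w10 (.cons w9 w5 w4 (.cons w2 w1 w2 (.last w2 w1 w1)))))))))
))) (.lf (.cons w3 w1 w1 (.cons w6 w3 w3 (.cons w15 w7 w7 (.cons w30 w15 w15 (.cons w18 w10 w17 (.cons w9 w5 w4 (.cons w2 w1 w2 (.last w2 w1 w1)))))))))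
) (.nx 34086 (.ny 33939 (.n2 6934 (.lf (.cons w3 w1 w1 (.cons w6 w3 w3 (.cons w15 w7 w7 (.cons w30 w15 w15 (.cons w63 w31 w31 (.cons w37 w20 w17 (.cons w9 w8 w5 (.cons w4 w2 w2 (.last w2 w1 w1))))))))))
 (.n1 7127 (.lf (.cons w3 w1 w1 (.cons w6 w3 w3 (.cons w15 w7 w7 (.cons w50 w13 w24 (.cons w101 w52 w49 (.cons w36 w17 w10 (.cons w9 w5 w4 (.cons w2 w1 w2 (.last w2 w1 w1))))))))))
 (.n3 3943 (.lf (.cons w3 w1 w1 (.cons w6 w3 w3 (.cons w15 w7 w7 (.cons w50 w13 w24 (.cons w101 w52 w49 (.cons w37 w20 w17 (.cons w9 w8 w5 (.cons w4 w2 w2 (.last w2 w1 w1))))))))))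
 (.lf (.cons w3 w1 w1 (.cons w6 w3 w3 (.cons w15 w7 w7 (.cons w50 w13 w24 (.cons w101 w52 w49 (.cons w36 w17 w10 (.cons w9 w5 w4 (.cons w2 w1 w2 (.last w2 w1 w1))))))))))
))) (.lf (.cons w3 w1 w1 (.cons w6 w3 w3 (.cons w15 w7 w7 (.cons w50 w13 w24 (.cons w18 w10 w17 (.cons w9 w5 w4 (.cons w2 w1 w2 (.last w2 w1 w1)))))))))
) (.lf (.cons w3 w1 w1 (.cons w6 w3 w3 (.cons w24 w13 w13 (.cons w50 w13 w24 (.cons w101 w52 w49 (.cons w36 w17 w10 (.cons w9 w5 w4 (.cons w2 w1 w2 (.last w2 w1 w1))))))))))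
)) (.lf (.cons w3 w1 w1 (.cons w6 w3 w3 (.cons w24 w13 w13 (.cons w50 w13 w24 (.cons w100 w53 w49 (.cons w18 w10 w17 (.cons w9 w5 w4 (.cons w2 w1 w2 (.last w2 w1 w1))))))))))
) (.n2 6547 (.nx 34681 (.lf (.cons w3 w1 w1 (.cons w6 w3 w3 (.cons w15 w7 w7 (.cons w50 w13 w24 (.cons w101 w52 w49 (.cons w36 w17 w10 (.cons w9 w5 w4 (.cons w2 w1 w2 (.last w2 w1 w1))))))))))
 (.lf (.cons w3 w1 w1 (.cons w6 w3 w3 (.cons w24 w13 w13 (.cons w50 w13 w24 (.cons w18 w8 w5 (.cons w4 w2 w2 (.last w2 w1 w1))))))))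
) (.lf (.cons w3 w1 w1 (.cons w6 w3 w3 (.cons w24 w13 w13 (.cons w50 w13 w24 (.cons w18 w8 w10 (.cons w8 w5 w5 (.last w2 w1 w1))))))))
)))) (.lf (.cons w3 w1 w1 (.cons w12 w7 w7 (.cons w6 w3 w3 (.cons w24 w13 w13 (.cons w50 w26 w24 (.cons w9 w8 w5 (.cons w4 w2 w2 (.last w2 w1 w1)))))))))
) (.lf (.cons w3 w1 w1 (.cons w13 w6 w7 (.cons w6 w3 w3 (.cons w24 w13 w13 (.cons w50 w13 w24 (.cons w9 w8 w5 (.cons w4 w2 w2 (.last w2 w1 w1)))))))))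
) (.lf (.cons w3 w1 w1 (.cons w7 w6 w4 (.cons w13 w6 w7 (.cons w6 w3 w3 (.cons w12 w6 w6 (.cons w9 w4 w5 (.cons w2 w1 w2 (.last w2 w1 w1)))))))))
)

theorem c42 : Cov true true 33792 38815 33792 102400 5773 7321 5773 7321 3660 4227 :=
  Cov.chk t42 (by decide +kernel)

noncomputable def t56 : Tr :=
(.nx 43067 (.ny 40183 (.nx 42327 (.n1 6547 (.lf (.cons w3 w2 w1 (.cons w7 w5 w4 (.cons w14 w10 w8 (.cons w29 w20 w17 (.cons w58 w40 w34 (.cons w18 w13 w18 (.cons w9 w6 w9 (.last w2 w1 w1)))))))))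
 (.n2 3943 (.lf (.cons w3 w2 w1 (.cons w7 w5 w4 (.cons w14 w10 w8 (.cons w29 w20 w17 (.cons w58 w40 w34 (.cons w113 w84 w69 (.cons w116 w81 w69 (.cons w113 w85 w69 (.cons w59 w43 w35 (.cons w119 w86 w71 (.cons w18 w13 w18 (.cons w9 w6 w9 (.last w2 w1 w1))))))))))))))
 (.lf (.cons w3 w2 w1 (.cons w7 w5 w4 (.cons w14 w10 w8 (.cons w29 w20 w17 (.cons w58 w40 w34 (.cons w113 w84 w69 (.cons w116 w81 w69 (.cons w113 w85 w69 (.cons w59 w43 w35 (.cons w18 w13 w9 (.cons w9 w6 w9 (.last w2 w1 w1)))))))))))))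
)) (.lf (.cons w3 w2 w1 (.cons w7 w5 w4 (.cons w14 w10 w8 (.cons w29 w20 w17 (.cons w18 w13 w9 (.cons w9 w6 w9 (.last w2 w1 w1))))))))
) (.n1 6547 (.lf (.cons w3 w2 w1 (.cons w7 w5 w4 (.cons w28 w10 w17 (.cons w29 w40 w17 (.cons w18 w9 w13 (.cons w9 w9 w6 (.last w2 w1 w1))))))))
 (.lf (.cons w3 w2 w1 (.cons w7 w5 w4 (.cons w28 w10 w17 (.cons w29 w40 w17 (.cons w58 w40 w34 (.cons w113 w42 w69 (.cons w59 w43 w35 (.cons w18 w13 w9 (.cons w9 w6 w9 (.last w2 w1 w1)))))))))))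
)) (.lf (.cons w3 w2 w1 (.cons w7 w5 w4 (.cons w14 w10 w8 (.cons w29 w20 w17 (.cons w9 w6 w9 (.cons w4 w1 w1 (.last w2 w2 w2))))))))
)

theorem c56 : Cov false false 41600 44585 38815 41600 5773 7321 3660 4227 5773 7321 :=
  Cov.chk t56 (by decide +kernel)

noncomputable def t64 : Tr :=
(.nx 36217 (.lf (.cons w3 w1 w2 (.cons w4 w3 w3 (.cons w16 w7 w7 (.cons w7 w5 w5 (.cons w28 w21 w21 (.cons w58 w21 w40 (.cons w18 w6 w9 (.cons w9 w3 w4 (.last w2 w1 w1))))))))))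
 (.nx 37494 (.lf (.cons w3 w2 w1 (.cons w4 w3 w3 (.cons w16 w7 w7 (.cons w65 w14 w14 (.cons w18 w9 w13 (.cons w9 w9 w6 (.cons w4 w1 w1 (.last w2 w2 w1)))))))))
 (.ny 36217 (.ny 34983 (.lf (.cons w3 w2 w1 (.cons w8 w3 w3 (.cons w32 w14 w7 (.cons w65 w28 w29 (.cons w18 w12 w9 (.cons w9 w3 w4 (.last w2 w1 w1))))))))
 (.ny 35595 (.lf (.cons w3 w2 w1 (.cons w8 w3 w3 (.cons w32 w14 w7 (.cons w65 w28 w29 (.cons w69 w29 w25 (.cons w69 w58 w50 (.cons w37 w18 w13 (.cons w18 w9 w13 (.cons w9 w9 w6 (.last w2 w1 w1)))))))))))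
 (.lf (.cons w3 w2 w1 (.cons w8 w3 w3 (.cons w32 w14 w7 (.cons w9 w6 w9 (.cons w4 w1 w1 (.last w2 w2 w2)))))))
)) (.lf (.cons w3 w2 w1 (.cons w8 w3 w3 (.cons w32 w7 w7 (.cons w32 w14 w14 (.cons w65 w29 w28 (.cons w18 w13 w18 (.cons w9 w6 w9 (.cons w4 w1 w1 (.last w2 w2 w2))))))))))
)))

theorem c64 : Cov false false 33792 38815 33792 102400 3660 4227 5773 7321 5773 7321 :=
  Cov.chk t64 (by decide +kernel)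

noncomputable def t73 : Tr :=
(.nx 58824 (.nx 44585 (.lf (.cons w3 w1 w1 (.cons w3 w3 w2 (.cons w4 w2 w3 (.last w2 w1 w1)))))
 (.ny 44585 (.nx 51212 (.lf (.cons w3 w1 w1 (.cons w3 w3 w2 (.last w2 w1 w1))))
 (.ny 38815 (.lf (.cons w3 w4 w2 (.cons w3 w3 w3 (.cons w7 w6 w3 (.cons w15 w13 w14 (.cons w6 w3 w4 (.cons w3 w3 w2 (.last w2 w1 w1))))))))
 (.ny 41600 (.lf (.cons w3 w4 w2 (.cons w9 w5 w3 (.cons w14 w8 w5 (.cons w29 w32 w21 (.cons w7 w6 w6 (.cons w7 w6 w3 (.cons w15 w13 w14 (.cons w13 w7 w8 (.cons w6 w3 w2 (.last w2 w1 w1)))))))))))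
 (.lf (.cons w3 w4 w2 (.cons w3 w3 w3 (.cons w7 w6 w3 (.cons w15 w13 w7 (.cons w60 w53 w29 (.cons w31 w52 w29 (.cons w56 w27 w15 (.cons w113 w54 w31 (.cons w28 w26 w15 (.cons w8 w5 w6 (.cons w8 w5 w3 (.cons w4 w4 w3 (.last w2 w1 w1))))))))))))))
))) (.nx 51212 (.lf (.cons w3 w1 w1 (.cons w3 w3 w2 (.last w2 w1 w1))))
 (.ny 51212 (.lf (.cons w3 w2 w2 (.cons w12 w9 w10 (.cons w25 w18 w10 (.cons w15 w17 w10 (.cons w7 w4 w5 (.cons w4 w2 w3 (.last w2 w1 w1))))))))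
 (.lf (.cons w3 w2 w2 (.cons w4 w2 w3 (.last w2 w1 w1))))
)))) (.ny 58824 (.nx 77612 (.ny 44585 (.nx 67568 (.ny 38815 (.lf (.cons w3 w4 w2 (.cons w3 w3 w3 (.cons w7 w6 w3 (.cons w6 w3 w4 (.last w2 w1 w1))))))
 (.lf (.cons w3 w4 w2 (.cons w3 w3 w3 (.cons w7 w6 w3 (.cons w15 w13 w7 (.cons w15 w26 w14 (.cons w13 w7 w8 (.cons w6 w3 w4 (.last w2 w1 w1)))))))))
) (.lf (.cons w3 w2 w2 (.cons w7 w9 w8 (.cons w6 w3 w3 (.cons w3 w3 w3 (.cons w7 w6 w3 (.cons w2 w2 w1 (.last w2 w1 w1))))))))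
) (.nx 67568 (.ny 51212 (.lf (.cons w3 w2 w2 (.cons w3 w3 w3 (.cons w8 w5 w3 (.cons w32 w11 w7 (.cons w4 w4 w3 (.last w2 w1 w1)))))))
 (.lf (.cons w3 w2 w2 (.cons w4 w2 w3 (.last w2 w1 w1))))
) (.lf (.cons w3 w2 w2 (.cons w3 w3 w3 (.cons w7 w6 w6 (.cons w4 w4 w3 (.last w2 w1 w1))))))
)) (.ny 44585 (.nx 89149 (.lf (.cons w3 w2 w2 (.cons w7 w8 w5 (.cons w4 w5 w3 (.cons w3 w3 w3 (.last w2 w1 w1))))))
 (.nx 95545 (.lf (.cons w3 w2 w2 (.cons w4 w5 w3 (.cons w6 w7 w6 (.cons w3 w3 w3 (.last w2 w1 w1))))))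
 (.ny 38815 (.nx 98913 (.ny 36217 (.lf (.cons w3 w4 w2 (.cons w8 w5 w3 (.cons w32 w22 w7 (.cons w18 w10 w9 (.cons w9 w5 w4 (.last w2 w1 w1)))))))
 (.lf (.cons w3 w2 w2 (.cons w8 w5 w3 (.cons w32 w11 w7 (.cons w18 w17 w13 (.cons w6 w7 w3 (.cons w2 w2 w1 (.last w2 w1 w1))))))))
) (.ny 36217 (.ny 34983 (.lf (.cons w3 w4 w2 (.cons w8 w5 w3 (.cons w32 w22 w7 (.cons w65 w44 w29 (.cons w18 w20 w9 (.cons w9 w5 w4 (.cons w2 w2 w1 (.cons w5 w4 w2 (.cons w4 w6 w3 (.last w2 w3 w1)))))))))))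
 (.lf (.cons w3 w4 w2 (.cons w8 w5 w3 (.cons w32 w22 w7 (.cons w9 w10 w9 (.cons w4 w2 w1 (.last w2 w1 w1)))))))
) (.lf (.cons w3 w4 w1 (.cons w8 w5 w3 (.cons w32 w11 w7 (.cons w32 w22 w14 (.cons w65 w45 w28 (.cons w18 w21 w18 (.cons w9 w10 w9 (.cons w4 w2 w1 (.last w2 w1 w1))))))))))
)) (.ny 41600 (.lf (.cons w3 w2 w2 (.cons w8 w5 w3 (.cons w32 w11 w7 (.cons w32 w22 w14 (.cons w18 w17 w13 (.cons w73 w35 w26 (.cons w37 w34 w24 (.cons w9 w17 w12 (.cons w4 w2 w1 (.last w2 w1 w1)))))))))))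
 (.nx 98913 (.lf (.cons w3 w2 w2 (.cons w7 w8 w5 (.cons w6 w7 w6 (.cons w3 w3 w3 (.last w2 w1 w1))))))
 (.lf (.cons w3 w2 w2 (.cons w7 w8 w5 (.cons w13 w7 w6 (.cons w6 w7 w3 (.cons w2 w2 w1 (.last w2 w1 w1)))))))
))))) (.nx 89149 (.lf (.cons w3 w2 w2 (.cons w12 w9 w5 (.cons w3 w3 w3 (.cons w2 w2 w1 (.last w2 w1 w1))))))
 (.ny 51212 (.lf (.cons w3 w2 w2 (.cons w7 w8 w5 (.cons w9 w8 w6 (.cons w4 w4 w3 (.last w2 w1 w1))))))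
 (.lf (.cons w3 w2 w2 (.cons w7 w8 w5 (.cons w2 w2 w1 (.last w2 w1 w1)))))
)))) (.nx 77612 (.lf (.cons w6 w5 w8 (.cons w3 w2 w2 (.cons w4 w4 w3 (.last w2 w1 w1)))))
 (.ny 77612 (.nx 89149 (.lf (.cons w12 w5 w8 (.cons w3 w2 w2 (.cons w4 w4 w3 (.last w2 w1 w1)))))
 (.lf (.cons w3 w5 w4 (.cons w3 w2 w2 (.cons w4 w4 w3 (.last w2 w1 w1)))))
) (.nx 89149 (.lf (.cons w6 w5 w4 (.cons w3 w2 w2 (.last w2 w1 w1))))
 (.ny 89149 (.lf (.cons w3 w5 w4 (.cons w3 w2 w2 (.last w2 w1 w1))))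
 (.lf (.cons w6 w5 w4 (.cons w3 w2 w2 (.last w2 w1 w1))))
))))))

theorem c73 : Cov true false 33792 102400 33792 102400 3660 4227 5773 7321 5773 7321 :=
  Cov.chk t73 (by decide +kernel)

noncomputable def t77 : Tr :=
(.nx 77612 (.nx 67568 (.nx 63045 (.lf (.cons w3 w4 w4 (.cons w7 w8 w9 (.cons w14 w16 w18 (.cons w24 w10 w7 (.cons w6 w5 w3 (.cons w3 w2 w3 (.last w2 w1 w1))))))))
 (.ny 63045 (.lf (.cons w3 w4 w4 (.cons w7 w9 w8 (.cons w6 w5 w3 (.cons w3 w2 w3 (.last w2 w1 w1))))))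
 (.nx 65267 (.lf (.cons w3 w4 w4 (.cons w7 w8 w9 (.cons w14 w16 w18 (.cons w12 w10 w7 (.cons w6 w5 w3 (.cons w3 w2 w3 (.last w2 w1 w1))))))))
 (.lf (.cons w3 w4 w4 (.cons w7 w9 w8 (.cons w14 w18 w16 (.cons w13 w7 w11 (.cons w6 w3 w5 (.cons w3 w3 w2 (.last w2 w1 w1))))))))
))) (.ny 67568 (.lf (.cons w3 w4 w4 (.cons w7 w9 w8 (.cons w14 w18 w16 (.cons w12 w5 w7 (.cons w6 w5 w3 (.cons w3 w2 w3 (.last w2 w1 w1))))))))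
 (.nx 72416 (.ny 69950 (.lf (.cons w3 w4 w4 (.cons w7 w16 w9 (.cons w14 w18 w16 (.cons w56 w37 w66 (.cons w13 w11 w7 (.cons w6 w5 w3 (.cons w3 w3 w2 (.last w2 w1 w1)))))))))
 (.lf (.cons w3 w4 w4 (.cons w7 w16 w9 (.cons w14 w16 w18 (.cons w56 w66 w37 (.cons w9 w10 w10 (.cons w9 w5 w5 (.cons w6 w5 w3 (.cons w3 w3 w2 (.last w2 w1 w1))))))))))
) (.lf (.cons w3 w4 w4 (.cons w7 w9 w8 (.cons w14 w18 w16 (.cons w9 w10 w10 (.cons w9 w5 w5 (.cons w12 w7 w5 (.cons w13 w24 w10 (.cons w6 w6 w5 (.cons w3 w3 w2 (.last w2 w1 w1)))))))))))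
))) (.ny 77612 (.nx 89149 (.ny 67568 (.nx 83181 (.lf (.cons w3 w4 w4 (.cons w7 w9 w8 (.cons w6 w5 w3 (.cons w14 w20 w7 (.cons w15 w22 w14 (.cons w13 w17 w7 (.cons w52 w35 w15 (.cons w27 w34 w30 (.cons w14 w11 w7 (.cons w13 w16 w7 (.cons w7 w5 w6 (.cons w3 w4 w3 (.last w2 w1 w1))))))))))))))
 (.ny 63045 (.lf (.cons w3 w4 w4 (.cons w6 w5 w3 (.cons w9 w5 w5 (.cons w7 w9 w9 (.cons w14 w18 w18 (.cons w29 w37 w36 (.cons w13 w17 w7 (.cons w14 w11 w7 (.cons w7 w5 w6 (.cons w3 w4 w3 (.last w2 w1 w1))))))))))))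
 (.lf (.cons w3 w4 w4 (.cons w6 w5 w3 (.cons w12 w5 w6 (.cons w25 w22 w24 (.cons w24 w11 w13 (.cons w13 w17 w7 (.cons w16 w5 w5 (.cons w9 w5 w8 (.cons w2 w2 w2 (.last w2 w1 w1)))))))))))
)) (.lf (.cons w3 w4 w4 (.cons w7 w9 w8 (.cons w9 w5 w5 (.cons w12 w5 w7 (.cons w6 w5 w3 (.cons w3 w2 w3 (.last w2 w1 w1))))))))
) (.lf (.cons w3 w4 w4 (.cons w14 w16 w9 (.cons w6 w5 w3 (.cons w3 w5 w3 (.cons w7 w5 w6 (.cons w6 w8 w3 (.cons w2 w2 w1 (.last w2 w1 w1)))))))))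
) (.nx 89149 (.nx 83181 (.lf (.cons w3 w4 w4 (.cons w9 w5 w5 (.cons w4 w5 w5 (.cons w6 w5 w3 (.cons w4 w2 w2 (.last w2 w1 w1)))))))
 (.lf (.cons w3 w4 w4 (.cons w7 w9 w16 (.cons w4 w5 w5 (.cons w6 w5 w3 (.cons w4 w2 w2 (.last w2 w1 w1)))))))
) (.ny 89149 (.lf (.cons w3 w4 w4 (.cons w4 w5 w5 (.cons w3 w5 w3 (.cons w2 w2 w1 (.last w2 w1 w1))))))
 (.nx 95545 (.lf (.cons w3 w4 w4 (.cons w4 w5 w5 (.cons w6 w5 w7 (.cons w3 w5 w3 (.last w2 w1 w1))))))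
 (.ny 95545 (.lf (.cons w3 w4 w4 (.cons w8 w5 w5 (.cons w6 w5 w7 (.cons w3 w5 w3 (.last w2 w1 w1))))))
 (.nx 98913 (.lf (.cons w3 w4 w4 (.cons w8 w5 w5 (.cons w32 w11 w22 (.cons w18 w17 w21 (.cons w6 w7 w5 (.cons w2 w2 w2 (.last w2 w1 w1))))))))
 (.nx 100641 (.lf (.cons w3 w4 w4 (.cons w8 w5 w5 (.cons w32 w11 w11 (.cons w13 w7 w10 (.cons w6 w7 w5 (.cons w2 w1 w2 (.last w2 w1 w1))))))))
 (.lf (.cons w3 w4 w4 (.cons w8 w5 w5 (.cons w32 w11 w11 (.cons w32 w22 w22 (.cons w65 w45 w44 (.cons w18 w21 w17 (.cons w9 w10 w17 (.cons w4 w2 w2 (.last w2 w1 w1))))))))))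
))))))))

theorem c77 : Cov true true 58824 102400 58824 102400 3660 4227 5773 7321 5773 7321 :=
  Cov.chk t77 (by decide +kernel)

noncomputable def t78 : Tr :=
(.nx 36217 (.nx 34983 (.lf (.cons w3 w2 w1 (.cons w4 w3 w3 (.cons w32 w7 w7 (.cons w18 w9 w6 (.cons w4 w1 w1 (.last w2 w1 w1)))))))
 (.lf (.cons w3 w2 w1 (.cons w4 w3 w3 (.cons w16 w7 w7 (.cons w7 w5 w5 (.cons w28 w21 w21 (.cons w29 w21 w40 (.cons w116 w85 w81 (.cons w18 w6 w9 (.cons w9 w3 w4 (.last w2 w1 w1)))))))))))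
) (.ny 36217 (.ny 34983 (.n2 6547 (.lf (.cons w3 w2 w1 (.cons w4 w3 w3 (.cons w16 w7 w7 (.cons w7 w5 w5 (.cons w28 w21 w21 (.cons w29 w21 w40 (.cons w116 w85 w81 (.cons w9 w6 w4 (.last w2 w1 w1))))))))))
 (.lf (.cons w3 w2 w1 (.cons w4 w3 w3 (.cons w16 w7 w7 (.cons w7 w5 w5 (.cons w28 w21 w21 (.cons w29 w21 w40 (.cons w9 w6 w4 (.last w2 w1 w1)))))))))
) (.lf (.cons w3 w2 w1 (.cons w4 w3 w3 (.cons w16 w7 w7 (.cons w36 w13 w9 (.cons w72 w27 w19 (.cons w37 w48 w18 (.cons w9 w12 w9 (.cons w4 w1 w1 (.last w2 w2 w2))))))))))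
) (.nx 37494 (.lf (.cons w3 w1 w2 (.cons w4 w3 w3 (.cons w16 w7 w7 (.cons w32 w14 w14 (.cons w18 w9 w13 (.cons w9 w9 w6 (.cons w4 w1 w1 (.last w2 w2 w2)))))))))
 (.nx 38149 (.lf (.cons w3 w2 w1 (.cons w8 w3 w3 (.cons w32 w7 w7 (.cons w32 w14 w14 (.cons w18 w13 w9 (.cons w9 w6 w9 (.cons w4 w1 w1 (.last w2 w2 w2)))))))))
 (.lf (.cons w3 w2 w1 (.cons w8 w3 w3 (.cons w32 w7 w7 (.cons w32 w14 w14 (.cons w65 w29 w28 (.cons w18 w13 w18 (.cons w9 w6 w9 (.cons w4 w1 w1 (.last w2 w2 w2))))))))))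
))))

theorem c78 : Cov false false 33792 38815 33792 102400 5773 7321 5773 7321 5773 7321 :=
  Cov.chk t78 (by decide +kernel)

noncomputable def t84 : Tr :=
(.nx 43819 (.n1 6160 (.ny 36850 (.nx 43441 (.lf (.cons w3 w2 w1 (.cons w7 w5 w4 (.cons w32 w7 w7 (.cons w65 w28 w29 (.cons w37 w24 w18 (.cons w9 w12 w9 (.cons w9 w3 w4 (.last w2 w1 w1)))))))))
 (.n2 6547 (.lf (.cons w3 w2 w1 (.cons w7 w5 w4 (.cons w14 w10 w8 (.cons w29 w20 w17 (.cons w18 w24 w18 (.cons w9 w3 w4 (.last w2 w1 w1))))))))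
 (.lf (.cons w3 w2 w1 (.cons w7 w5 w4 (.cons w14 w10 w8 (.cons w29 w20 w17 (.cons w18 w12 w9 (.cons w9 w3 w4 (.last w2 w1 w1))))))))
)) (.n2 6547 (.n2 6160 (.lf (.cons w3 w2 w1 (.cons w7 w5 w4 (.cons w14 w10 w8 (.cons w29 w20 w17 (.cons w58 w40 w34 (.cons w113 w84 w69 (.cons w116 w81 w69 (.cons w113 w85 w69 (.cons w59 w43 w35 (.cons w18 w24 w9 (.cons w9 w3 w4 (.last w2 w1 w1)))))))))))))
 (.lf (.cons w3 w2 w1 (.cons w7 w5 w4 (.cons w14 w10 w8 (.cons w29 w20 w17 (.cons w58 w40 w34 (.cons w113 w84 w69 (.cons w116 w81 w69 (.cons w18 w24 w18 (.cons w9 w3 w4 (.last w2 w1 w1)))))))))))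
) (.lf (.cons w3 w2 w1 (.cons w7 w5 w4 (.cons w14 w10 w8 (.cons w29 w20 w17 (.cons w58 w40 w34 (.cons w113 w84 w69 (.cons w116 w81 w69 (.cons w113 w85 w69 (.cons w59 w43 w70 (.cons w18 w24 w18 (.cons w9 w3 w4 (.last w2 w1 w1)))))))))))))
)) (.ny 36850 (.lf (.cons w3 w2 w1 (.cons w7 w5 w4 (.cons w32 w7 w7 (.cons w65 w28 w29 (.cons w65 w29 w56 (.cons w37 w48 w18 (.cons w9 w12 w9 (.cons w9 w3 w4 (.last w2 w1 w1))))))))))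
 (.n2 6547 (.nx 43441 (.n2 6160 (.lf (.cons w3 w2 w1 (.cons w7 w5 w4 (.cons w14 w10 w8 (.cons w29 w20 w17 (.cons w37 w24 w18 (.cons w9 w12 w9 (.cons w4 w1 w1 (.last w2 w2 w2)))))))))
 (.ny 37171 (.lf (.cons w3 w2 w1 (.cons w7 w5 w4 (.cons w14 w10 w8 (.cons w29 w20 w17 (.cons w37 w24 w18 (.cons w9 w12 w9 (.cons w4 w1 w1 (.last w2 w2 w2)))))))))
 (.lf (.cons w3 w2 w1 (.cons w7 w5 w4 (.cons w14 w10 w8 (.cons w29 w20 w17 (.cons w58 w40 w34 (.cons w116 w81 w69 (.cons w113 w85 w69 (.cons w59 w43 w35 (.cons w18 w24 w18 (.cons w9 w3 w4 (.last w2 w1 w1))))))))))))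
)) (.lf (.cons w3 w2 w1 (.cons w7 w5 w4 (.cons w14 w10 w8 (.cons w29 w20 w17 (.cons w58 w40 w34 (.cons w18 w24 w18 (.cons w9 w3 w4 (.last w2 w1 w1)))))))))
) (.n2 6934 (.lf (.cons w3 w2 w1 (.cons w7 w5 w4 (.cons w14 w10 w8 (.cons w29 w20 w17 (.cons w58 w40 w34 (.cons w116 w81 w69 (.cons w113 w85 w69 (.cons w59 w86 w70 (.cons w59 w43 w35 (.cons w18 w24 w18 (.cons w9 w3 w4 (.last w2 w1 w1)))))))))))))
 (.lf (.cons w3 w2 w1 (.cons w7 w5 w4 (.cons w14 w10 w8 (.cons w29 w20 w17 (.cons w58 w40 w34 (.cons w116 w81 w69 (.cons w18 w24 w18 (.cons w9 w3 w4 (.last w2 w1 w1))))))))))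
)))) (.lf (.cons w3 w2 w1 (.cons w7 w5 w4 (.cons w14 w10 w8 (.cons w29 w20 w17 (.cons w58 w40 w34 (.cons w113 w84 w69 (.cons w116 w81 w69 (.cons w18 w12 w9 (.cons w9 w6 w4 (.last w2 w1 w1)))))))))))
)

theorem c84 : Cov false false 43067 44585 36217 37494 5773 6547 5773 7321 5773 7321 :=
  Cov.chk t84 (by decide +kernel)

noncomputable def t89 : Tr :=
(.n1 6934 (.lf (.cons w3 w2 w1 (.cons w7 w5 w4 (.cons w14 w10 w8 (.cons w29 w20 w17 (.cons w18 w24 w9 (.cons w9 w6 w4 (.last w2 w1 w1))))))))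
 (.lf (.cons w3 w2 w1 (.cons w7 w5 w4 (.cons w14 w10 w8 (.cons w29 w20 w17 (.cons w58 w40 w34 (.cons w113 w84 w69 (.cons w116 w81 w69 (.cons w113 w85 w69 (.cons w59 w43 w70 (.cons w18 w24 w9 (.cons w9 w6 w4 (.last w2 w1 w1)))))))))))))
)

theorem c89 : Cov false false 43819 44585 37494 38815 6547 7321 5773 7321 5773 7321 :=
  Cov.chk t89 (by decide +kernel)

noncomputable def t94 : Tr :=
(.ny 40885 (.n1 6934 (.n2 6547 (.nx 41241 (.nx 41063 (.lf (.cons w3 w2 w1 (.cons w7 w8 w5 (.cons w14 w17 w10 (.cons w29 w40 w34 (.cons w37 w13 w18 (.cons w18 w13 w9 (.cons w9 w6 w9 (.last w2 w1 w1)))))))))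
 (.lf (.cons w3 w2 w1 (.cons w7 w8 w5 (.cons w14 w17 w10 (.cons w29 w40 w17 (.cons w113 w42 w69 (.cons w116 w81 w69 (.cons w59 w43 w35 (.cons w18 w13 w18 (.cons w9 w6 w9 (.last w2 w1 w1)))))))))))
) (.lf (.cons w3 w2 w1 (.cons w7 w5 w4 (.cons w14 w17 w10 (.cons w29 w40 w17 (.cons w18 w13 w9 (.cons w9 w6 w9 (.last w2 w1 w1))))))))
) (.lf (.cons w3 w2 w1 (.cons w7 w8 w5 (.cons w14 w17 w10 (.cons w29 w20 w34 (.cons w113 w42 w69 (.cons w113 w85 w69 (.cons w59 w43 w35 (.cons w117 w81 w69 (.cons w18 w13 w18 (.cons w9 w6 w9 (.last w2 w1 w1))))))))))))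
) (.n2 6547 (.nx 41241 (.n2 6160 (.lf (.cons w3 w2 w1 (.cons w7 w8 w5 (.cons w14 w17 w10 (.cons w29 w40 w17 (.cons w37 w13 w18 (.cons w18 w13 w9 (.cons w9 w6 w9 (.last w2 w1 w1)))))))))
 (.lf (.cons w3 w2 w1 (.cons w7 w8 w5 (.cons w28 w10 w17 (.cons w29 w20 w34 (.cons w37 w13 w18 (.cons w18 w13 w9 (.cons w9 w6 w9 (.last w2 w1 w1)))))))))
) (.lf (.cons w3 w2 w1 (.cons w7 w5 w4 (.cons w14 w17 w10 (.cons w29 w40 w17 (.cons w113 w42 w69 (.cons w113 w85 w69 (.cons w59 w43 w35 (.cons w18 w13 w9 (.cons w9 w6 w9 (.last w2 w1 w1)))))))))))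
) (.n2 6934 (.lf (.cons w3 w2 w1 (.cons w7 w8 w5 (.cons w28 w10 w17 (.cons w29 w20 w34 (.cons w58 w40 w34 (.cons w116 w81 w69 (.cons w59 w43 w35 (.cons w117 w81 w69 (.cons w18 w13 w18 (.cons w9 w6 w9 (.last w2 w1 w1))))))))))))
 (.lf (.cons w3 w2 w1 (.cons w7 w8 w5 (.cons w28 w10 w17 (.cons w29 w20 w34 (.cons w58 w40 w34 (.cons w116 w81 w69 (.cons w18 w13 w18 (.cons w9 w6 w9 (.last w2 w1 w1))))))))))
))) (.n2 6547 (.n1 6934 (.lf (.cons w3 w2 w1 (.cons w7 w5 w8 (.cons w14 w10 w17 (.cons w118 w43 w71 (.cons w117 w81 w69 (.cons w18 w18 w13 (.cons w9 w9 w6 (.last w2 w1 w1)))))))))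
 (.n3 6547 (.nx 41241 (.lf (.cons w3 w1 w2 (.cons w7 w5 w8 (.cons w28 w17 w10 (.cons w29 w34 w20 (.cons w37 w13 w18 (.cons w18 w13 w9 (.cons w9 w9 w6 (.last w2 w1 w1)))))))))
 (.lf (.cons w3 w2 w1 (.cons w7 w5 w8 (.cons w14 w17 w10 (.cons w18 w13 w9 (.cons w9 w6 w9 (.last w2 w1 w1)))))))
) (.lf (.cons w3 w2 w1 (.cons w7 w5 w8 (.cons w28 w10 w17 (.cons w29 w20 w34 (.cons w18 w18 w13 (.cons w9 w9 w6 (.last w2 w1 w1))))))))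
)) (.lf (.cons w3 w1 w2 (.cons w7 w8 w5 (.cons w28 w17 w10 (.cons w29 w34 w20 (.cons w113 w69 w42 (.cons w113 w69 w85 (.cons w59 w35 w43 (.cons w18 w13 w18 (.cons w9 w6 w9 (.last w2 w1 w1)))))))))))
))

theorem c94 : Cov false false 40885 41600 40183 102400 6547 7321 5773 7321 5773 7321 :=
  Cov.chk t94 (by decide +kernel)

noncomputable def t96 : Tr :=
(.ny 44585 (.nx 51212 (.ny 38815 (.n2 6547 (.lf (.cons w3 w2 w1 (.cons w7 w5 w4 (.cons w14 w10 w8 (.cons w28 w21 w17 (.cons w56 w42 w34 (.cons w9 w6 w4 (.cons w4 w3 w2 (.last w2 w1 w1)))))))))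
 (.lf (.cons w3 w2 w1 (.cons w7 w5 w4 (.cons w14 w10 w8 (.cons w28 w21 w17 (.cons w9 w6 w4 (.cons w4 w3 w2 (.last w2 w1 w1))))))))
) (.lf (.cons w3 w2 w1 (.cons w7 w5 w4 (.cons w14 w10 w8 (.cons w28 w21 w17 (.cons w9 w6 w4 (.last w2 w1 w1)))))))
) (.lf (.cons w3 w2 w1 (.cons w12 w5 w5 (.cons w7 w5 w8 (.cons w4 w3 w2 (.last w2 w1 w1))))))
) (.nx 51212 (.lf (.cons w3 w1 w1 (.cons w6 w5 w5 (.cons w25 w10 w10 (.cons w9 w4 w6 (.last w2 w1 w1))))))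
 (.ny 51212 (.lf (.cons w3 w2 w1 (.cons w6 w5 w5 (.last w2 w1 w1))))
 (.lf (.cons w3 w3 w2 (.cons w12 w7 w10 (.cons w7 w6 w5 (.cons w14 w12 w10 (.cons w4 w3 w3 (.cons w3 w2 w2 (.last w2 w1 w1))))))))
)))

theorem c96 : Cov false false 44585 58824 33792 102400 5773 7321 5773 7321 5773 7321 :=
  Cov.chk t96 (by decide +kernel)

noncomputable def t103 : Tr :=
(.nx 98913 (.lf (.cons w2 w3 w3 (.cons w5 w3 w3 (.cons w11 w7 w7 (.last w2 w1 w1)))))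
 (.lf (.cons w2 w3 w3 (.cons w5 w3 w3 (.cons w7 w7 w5 (.cons w14 w14 w21 (.cons w12 w18 w9 (.last w2 w1 w1)))))))
)

theorem c103 : Cov false false 95545 102400 89149 95545 5773 7321 5773 7321 5773 7321 :=
  Cov.chk t103 (by decide +kernel)

noncomputable def t105 : Tr :=
(.lf (.cons w2 w3 w3 (.cons w5 w3 w3 (.cons w9 w13 w9 (.cons w9 w6 w9 (.last w2 w1 w1))))))


theorem c105 : Cov false false 98913 102400 95545 98913 5773 7321 5773 7321 5773 7321 :=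
  Cov.chk t105 (by decide +kernel)

noncomputable def t108 : Tr :=
(.nx 101517 (.lf (.cons w2 w3 w3 (.cons w5 w3 w3 (.cons w42 w50 w29 (.cons w42 w50 w58 (.cons w18 w26 w18 (.cons w9 w13 w9 (.last w2 w1 w1))))))))
 (.n2 6547 (.ny 101517 (.lf (.cons w2 w3 w3 (.cons w5 w3 w3 (.cons w42 w50 w58 (.cons w18 w13 w18 (.cons w11 w7 w7 (.last w2 w1 w1)))))))
 (.n2 6160 (.lf (.cons w2 w3 w3 (.cons w5 w3 w3 (.cons w42 w50 w29 (.cons w42 w50 w58 (.cons w11 w7 w7 (.last w2 w1 w1)))))))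
 (.n1 6160 (.lf (.cons w2 w3 w3 (.cons w5 w3 w3 (.cons w42 w50 w29 (.cons w45 w61 w57 (.cons w11 w7 w7 (.last w2 w1 w1)))))))
 (.n3 6547 (.n3 6160 (.lf (.cons w2 w3 w3 (.cons w5 w3 w3 (.cons w18 w26 w18 (.cons w11 w7 w7 (.last w2 w1 w1))))))
 (.lf (.cons w2 w3 w3 (.cons w5 w3 w3 (.cons w42 w50 w58 (.cons w18 w26 w18 (.cons w11 w7 w7 (.last w2 w1 w1)))))))
) (.lf (.cons w2 w3 w3 (.cons w3 w3 w5 (.cons w58 w50 w42 (.cons w37 w26 w37 (.cons w75 w105 w74 (.cons w72 w53 w37 (.cons w9 w13 w18 (.last w2 w1 w1)))))))))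
)))) (.ny 101517 (.lf (.cons w2 w3 w3 (.cons w5 w3 w3 (.cons w18 w26 w18 (.cons w13 w9 w9 (.last w2 w1 w1))))))
 (.n3 6547 (.nx 101958 (.lf (.cons w2 w3 w3 (.cons w5 w3 w3 (.cons w9 w13 w18 (.last w2 w1 w1)))))
 (.lf (.cons w3 w2 w3 (.cons w5 w3 w3 (.cons w18 w26 w18 (.cons w11 w7 w7 (.last w2 w1 w1))))))
) (.nx 101958 (.lf (.cons w2 w3 w3 (.cons w5 w3 w3 (.cons w42 w50 w58 (.cons w18 w26 w18 (.cons w11 w7 w7 (.last w2 w1 w1)))))))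
 (.n1 6160 (.ny 101958 (.lf (.cons w3 w2 w3 (.cons w5 w3 w3 (.cons w18 w26 w18 (.cons w11 w7 w7 (.last w2 w1 w1))))))
 (.n2 6934 (.lf (.cons w3 w3 w2 (.cons w3 w3 w5 (.cons w50 w58 w42 (.cons w26 w37 w37 (.cons w105 w75 w74 (.cons w53 w72 w37 (.cons w13 w9 w18 (.last w2 w1 w1)))))))))
 (.n3 6934 (.lf (.cons w3 w2 w3 (.cons w5 w3 w3 (.cons w18 w13 w18 (.last w2 w1 w1)))))
 (.lf (.cons w3 w3 w2 (.cons w5 w3 w3 (.cons w42 w50 w58 (.cons w18 w26 w18 (.cons w13 w9 w9 (.last w2 w1 w1)))))))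
))) (.n2 6934 (.ny 101958 (.lf (.cons w2 w3 w3 (.cons w5 w3 w3 (.cons w42 w50 w58 (.cons w18 w26 w18 (.cons w11 w7 w7 (.last w2 w1 w1)))))))
 (.n3 6934 (.nx 102179 (.lf (.cons w2 w3 w3 (.cons w5 w3 w3 (.cons w42 w50 w58 (.cons w18 w13 w18 (.last w2 w1 w1))))))
 (.lf (.cons w3 w2 w3 (.cons w5 w3 w3 (.cons w42 w29 w50 (.cons w72 w37 w53 (.cons w9 w18 w13 (.last w2 w1 w1)))))))
) (.lf (.cons w3 w3 w2 (.cons w3 w3 w5 (.cons w15 w15 w23 (.cons w23 w15 w15 (.cons w18 w18 w26 (.cons w11 w7 w7 (.last w2 w1 w1))))))))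
)) (.n3 6934 (.lf (.cons w3 w2 w3 (.cons w3 w5 w3 (.cons w15 w23 w15 (.cons w23 w15 w15 (.cons w18 w26 w18 (.cons w11 w7 w7 (.last w2 w1 w1))))))))
 (.nx 102179 (.lf (.cons w2 w3 w3 (.cons w5 w3 w3 (.cons w23 w15 w15 (.cons w18 w26 w18 (.cons w11 w7 w7 (.last w2 w1 w1)))))))
 (.lf (.cons w3 w2 w3 (.cons w3 w5 w3 (.cons w15 w23 w15 (.cons w26 w37 w37 (.cons w18 w13 w18 (.last w2 w1 w1)))))))
)))))))))

theorem c108 : Cov false false 100641 102400 100641 102400 5773 6547 5773 7321 5773 7321 :=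
  Cov.chk t108 (by decide +kernel)

noncomputable def t112 : Tr :=
(.nx 58824 (.nx 44585 (.lf (.cons w3 w1 w1 (.cons w6 w3 w2 (.cons w7 w3 w4 (.cons w4 w2 w3 (.last w2 w1 w1))))))
 (.ny 44585 (.nx 51212 (.lf (.cons w3 w1 w1 (.cons w3 w3 w2 (.cons w2 w2 w1 (.last w2 w1 w1)))))
 (.ny 38815 (.lf (.cons w3 w4 w2 (.cons w14 w9 w8 (.cons w7 w8 w5 (.cons w28 w33 w21 (.cons w9 w5 w6 (.cons w9 w5 w3 (.cons w19 w20 w7 (.cons w18 w11 w14 (.cons w7 w6 w3 (.cons w6 w3 w4 (.cons w3 w3 w2 (.last w2 w1 w1)))))))))))))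
 (.nx 54886 (.lf (.cons w3 w1 w1 (.cons w3 w3 w2 (.last w2 w1 w1))))
 (.lf (.cons w3 w4 w2 (.cons w3 w3 w3 (.cons w7 w6 w3 (.cons w8 w5 w3 (.cons w4 w4 w3 (.last w2 w1 w1)))))))
))) (.nx 51212 (.lf (.cons w3 w1 w1 (.cons w3 w3 w2 (.last w2 w1 w1))))
 (.ny 51212 (.lf (.cons w3 w4 w2 (.cons w12 w9 w10 (.cons w25 w18 w10 (.cons w25 w18 w21 (.cons w50 w37 w42 (.cons w15 w17 w10 (.cons w7 w4 w5 (.cons w4 w2 w3 (.last w2 w1 w1))))))))))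
 (.lf (.cons w3 w2 w2 (.cons w12 w9 w10 (.cons w4 w2 w3 (.last w2 w1 w1)))))
)))) (.ny 58824 (.nx 77612 (.ny 44585 (.nx 67568 (.ny 38815 (.nx 63045 (.lf (.cons w3 w4 w2 (.cons w6 w6 w3 (.cons w9 w5 w3 (.cons w19 w20 w7 (.cons w18 w11 w14 (.cons w73 w45 w56 (.cons w73 w44 w29 (.cons w73 w88 w58 (.cons w76 w23 w30 (.cons w32 w21 w13 (.cons w8 w5 w6 (.cons w9 w8 w3 (.cons w4 w2 w1 (.last w2 w1 w1)))))))))))))))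
 (.lf (.cons w3 w4 w2 (.cons w6 w3 w3 (.cons w14 w7 w12 (.cons w15 w14 w7 (.cons w24 w13 w7 (.cons w48 w26 w14 (.cons w97 w52 w29 (.cons w97 w104 w58 (.cons w100 w27 w30 (.cons w50 w27 w15 (.cons w51 w52 w15 (.cons w25 w13 w7 (.cons w14 w7 w7 (.cons w7 w6 w3 (.cons w3 w3 w2 (.last w2 w1 w1)))))))))))))))))
) (.lf (.cons w3 w4 w2 (.cons w3 w3 w3 (.cons w7 w6 w3 (.cons w15 w13 w7 (.cons w12 w7 w9 (.cons w6 w3 w2 (.last w2 w1 w1))))))))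
) (.lf (.cons w3 w4 w2 (.cons w7 w8 w5 (.cons w6 w3 w3 (.cons w12 w12 w7 (.cons w25 w24 w14 (.cons w8 w5 w3 (.cons w9 w8 w6 (.cons w4 w4 w3 (.last w2 w1 w1))))))))))
) (.nx 67568 (.ny 51212 (.lf (.cons w3 w2 w2 (.cons w3 w3 w3 (.cons w7 w6 w6 (.cons w8 w5 w3 (.cons w32 w11 w7 (.cons w4 w4 w3 (.last w2 w1 w1))))))))
 (.lf (.cons w3 w2 w2 (.cons w4 w2 w3 (.last w2 w1 w1))))
) (.lf (.cons w3 w2 w2 (.cons w3 w3 w3 (.cons w7 w6 w6 (.cons w14 w13 w12 (.cons w4 w4 w3 (.last w2 w1 w1)))))))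
)) (.ny 44585 (.nx 89149 (.lf (.cons w3 w2 w2 (.cons w12 w9 w5 (.cons w7 w8 w5 (.cons w4 w5 w3 (.cons w6 w3 w3 (.cons w6 w6 w3 (.cons w25 w24 w7 (.cons w14 w7 w7 (.cons w4 w2 w1 (.last w2 w1 w1)))))))))))
 (.nx 95545 (.ny 38815 (.lf (.cons w3 w4 w2 (.cons w4 w5 w3 (.cons w6 w7 w3 (.cons w6 w3 w3 (.last w2 w1 w1))))))
 (.nx 92292 (.lf (.cons w3 w2 w2 (.cons w4 w5 w3 (.cons w6 w3 w3 (.last w2 w1 w1)))))
 (.lf (.cons w3 w2 w2 (.cons w8 w5 w3 (.cons w6 w7 w3 (.cons w3 w3 w3 (.last w2 w1 w1))))))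
)) (.ny 38815 (.nx 98913 (.lf (.cons w3 w4 w2 (.cons w4 w5 w3 (.cons w16 w11 w7 (.cons w6 w7 w3 (.cons w4 w2 w1 (.last w2 w1 w1)))))))
 (.lf (.cons w3 w4 w2 (.cons w8 w5 w3 (.cons w32 w11 w7 (.cons w32 w22 w14 (.cons w13 w7 w6 (.cons w6 w7 w3 (.cons w2 w2 w1 (.cons w5 w4 w2 (.cons w11 w9 w5 (.last w4 w3 w1)))))))))))
) (.ny 41600 (.lf (.cons w3 w2 w2 (.cons w8 w5 w3 (.cons w32 w11 w7 (.cons w32 w22 w14 (.cons w65 w44 w29 (.cons w18 w17 w13 (.cons w6 w7 w3 (.cons w4 w2 w1 (.last w2 w1 w1))))))))))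
 (.lf (.cons w3 w2 w2 (.cons w7 w8 w5 (.cons w14 w16 w10 (.cons w29 w33 w20 (.cons w6 w7 w6 (.cons w3 w3 w3 (.last w2 w1 w1))))))))
)))) (.nx 89149 (.lf (.cons w3 w2 w2 (.cons w12 w9 w5 (.cons w3 w3 w3 (.cons w4 w4 w3 (.last w2 w1 w1))))))
 (.ny 51212 (.nx 95545 (.lf (.cons w3 w2 w2 (.cons w7 w8 w5 (.cons w3 w3 w3 (.last w2 w1 w1)))))
 (.lf (.cons w3 w2 w2 (.cons w7 w8 w5 (.cons w14 w16 w10 (.cons w28 w33 w21 (.cons w56 w66 w42 (.cons w9 w8 w6 (.cons w2 w2 w1 (.last w2 w1 w1)))))))))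
) (.lf (.cons w3 w2 w2 (.cons w12 w9 w5 (.cons w3 w3 w3 (.last w2 w1 w1)))))
)))) (.nx 77612 (.lf (.cons w6 w5 w8 (.cons w3 w2 w2 (.cons w4 w2 w3 (.last w2 w1 w1)))))
 (.ny 77612 (.nx 89149 (.ny 67568 (.lf (.cons w3 w2 w2 (.cons w4 w4 w3 (.last w2 w1 w1))))
 (.lf (.cons w12 w5 w8 (.cons w3 w2 w2 (.cons w2 w2 w1 (.last w2 w1 w1)))))
) (.ny 67568 (.lf (.cons w3 w2 w2 (.cons w4 w4 w3 (.last w2 w1 w1))))
 (.nx 95545 (.lf (.cons w12 w5 w8 (.cons w3 w2 w2 (.cons w2 w2 w1 (.last w2 w1 w1)))))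
 (.lf (.cons w3 w2 w2 (.last w2 w1 w1)))
))) (.nx 89149 (.lf (.cons w6 w5 w4 (.cons w3 w2 w2 (.last w2 w1 w1))))
 (.ny 89149 (.lf (.cons w6 w5 w8 (.cons w3 w2 w2 (.last w2 w1 w1))))
 (.lf (.cons w6 w5 w4 (.cons w3 w2 w2 (.last w2 w1 w1))))
))))))

theorem c112 : Cov true false 33792 102400 33792 102400 5773 7321 5773 7321 5773 7321 :=
  Cov.chk t112 (by decide +kernel)

noncomputable def t113 : Tr :=
(.nx 44585 (.lf (.cons w3 w1 w1 (.cons w6 w2 w3 (.cons w7 w4 w3 (.cons w4 w3 w2 (.last w2 w1 w1))))))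
 (.ny 44585 (.lf (.cons w3 w2 w1 (.cons w4 w3 w2 (.last w2 w1 w1))))
 (.nx 51212 (.lf (.cons w3 w1 w1 (.cons w3 w2 w3 (.last w2 w1 w1))))
 (.ny 51212 (.lf (.cons w3 w2 w1 (.cons w3 w2 w3 (.last w2 w1 w1))))
 (.lf (.cons w3 w2 w2 (.cons w12 w10 w9 (.cons w4 w3 w2 (.last w2 w1 w1)))))
))))

theorem c113 : Cov false true 33792 58824 33792 102400 5773 7321 5773 7321 5773 7321 :=
  Cov.chk t113 (by decide +kernel)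

noncomputable def t117 : Tr :=
(.nx 44585 (.nx 38815 (.nx 36217 (.n1 6547 (.lf (.cons w3 w1 w1 (.cons w13 w6 w7 (.cons w6 w3 w3 (.cons w24 w13 w13 (.cons w50 w24 w26 (.cons w28 w14 w14 (.cons w9 w4 w5 (.cons w4 w1 w1 (.last w2 w1 w1))))))))))
 (.nx 34983 (.n1 6934 (.lf (.cons w3 w1 w1 (.cons w12 w7 w7 (.cons w6 w3 w3 (.cons w24 w13 w13 (.cons w50 w24 w26 (.cons w101 w49 w52 (.cons w28 w14 w14 (.cons w9 w4 w5 (.cons w4 w1 w1 (.last w2 w1 w1)))))))))))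
 (.nx 34382 (.n2 6547 (.n3 6547 (.n1 7127 (.lf (.cons w3 w1 w1 (.cons w12 w7 w7 (.cons w6 w3 w3 (.cons w24 w13 w13 (.cons w50 w24 w26 (.cons w101 w49 w52 (.cons w101 w98 w104 (.cons w31 w15 w15 (.cons w9 w8 w10 (.cons w4 w2 w2 (.last w2 w1 w1))))))))))))
 (.nx 34086 (.lf (.cons w3 w1 w1 (.cons w6 w3 w3 (.cons w24 w13 w13 (.cons w50 w24 w26 (.cons w101 w49 w52 (.cons w57 w29 w28 (.cons w28 w7 w7 (.cons w9 w4 w5 (.cons w2 w1 w2 (.last w2 w1 w1)))))))))))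
 (.lf (.cons w3 w1 w1 (.cons w6 w3 w3 (.cons w24 w13 w13 (.cons w50 w26 w24 (.cons w36 w10 w17 (.cons w9 w4 w5 (.cons w2 w1 w2 (.last w2 w1 w1)))))))))
)) (.lf (.cons w3 w1 w1 (.cons w12 w7 w7 (.cons w6 w3 w3 (.cons w24 w13 w13 (.cons w50 w24 w26 (.cons w101 w49 w52 (.cons w28 w14 w14 (.cons w9 w4 w5 (.cons w2 w2 w1 (.last w2 w1 w1)))))))))))
) (.lf (.cons w3 w1 w1 (.cons w12 w7 w7 (.cons w6 w3 w3 (.cons w24 w13 w13 (.cons w50 w26 w24 (.cons w101 w52 w49 (.cons w28 w14 w14 (.cons w9 w5 w4 (.cons w4 w1 w1 (.last w2 w1 w1)))))))))))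
) (.lf (.cons w3 w1 w1 (.cons w12 w7 w7 (.cons w6 w3 w3 (.cons w24 w13 w13 (.cons w50 w26 w24 (.cons w101 w52 w49 (.cons w18 w10 w8 (.cons w8 w5 w5 (.last w2 w1 w1))))))))))
)) (.lf (.cons w3 w1 w1 (.cons w13 w6 w7 (.cons w6 w3 w3 (.cons w24 w13 w13 (.cons w9 w5 w8 (.cons w4 w2 w2 (.last w2 w1 w1))))))))
)) (.lf (.cons w3 w1 w1 (.cons w7 w6 w4 (.cons w14 w12 w9 (.cons w13 w6 w7 (.cons w6 w3 w3 (.cons w9 w5 w4 (.cons w2 w2 w1 (.last w2 w1 w1)))))))))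
) (.ny 38815 (.lf (.cons w3 w1 w1 (.cons w7 w6 w4 (.cons w14 w12 w9 (.cons w12 w7 w7 (.cons w6 w3 w3 (.cons w12 w6 w6 (.cons w4 w2 w2 (.last w2 w1 w1)))))))))
 (.lf (.cons w3 w1 w1 (.cons w7 w6 w4 (.cons w14 w12 w9 (.cons w29 w24 w18 (.cons w59 w49 w37 (.cons w28 w13 w9 (.cons w14 w13 w9 (.cons w29 w26 w18 (.cons w13 w12 w7 (.cons w6 w3 w3 (.cons w4 w1 w1 (.last w2 w1 w1)))))))))))))
)) (.ny 44585 (.nx 51212 (.ny 38815 (.lf (.cons w3 w1 w1 (.cons w7 w6 w4 (.cons w12 w7 w7 (.cons w6 w3 w3 (.last w2 w1 w1))))))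
 (.lf (.cons w3 w1 w1 (.cons w7 w6 w4 (.cons w14 w24 w9 (.cons w29 w24 w18 (.cons w9 w5 w4 (.cons w2 w2 w1 (.last w2 w1 w1))))))))
) (.lf (.cons w3 w2 w1 (.cons w6 w4 w3 (.cons w3 w3 w2 (.cons w7 w6 w4 (.cons w4 w2 w1 (.last w2 w1 w1)))))))
) (.nx 51212 (.nx 47784 (.lf (.cons w3 w1 w1 (.cons w8 w5 w5 (.cons w2 w2 w2 (.last w2 w1 w1)))))
 (.lf (.cons w3 w1 w1 (.cons w9 w4 w5 (.last w2 w1 w1))))
) (.ny 51212 (.lf (.cons w3 w2 w1 (.cons w3 w3 w2 (.cons w7 w6 w4 (.cons w2 w2 w1 (.last w2 w1 w1))))))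
 (.lf (.cons w7 w4 w4 (.cons w12 w5 w7 (.cons w6 w5 w6 (.cons w3 w2 w3 (.cons w7 w4 w6 (.last w2 w1 w1)))))))
))))

theorem c117 : Cov true true 33792 58824 33792 102400 5773 7321 5773 7321 5773 7321 :=
  Cov.chk t117 (by decide +kernel)

end Pool.Agent.MP_a07d0e_nt
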