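import Pool.Agent.MP_a07d0e_nt.Words
import Pool.Agent.MP_a07d0e_nt.Cov

set_option maxRecDepth 100000

namespace Pool.Agent.MP_a07d0e_nt

noncomputable def t1 : Tr :=
(.ny 58824 (.nx 77612 (.ny 44585 (.lf (.cons w6 w8 w3 (.cons w3 w2 w1 (.cons w4 w3 w2 (.last w2 w1 w1)))))
 (.lf (.cons w3 w4 w3 (.cons w7 w8 w6 (.cons w6 w5 w6 (.cons w6 w5 w3 (.cons w12 w10 w7 (.cons w4 w3 w3 (.cons w6 w4 w4 (.cons w3 w2 w2 (.last w2 w1 w1))))))))))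
) (.ny 44585 (.nx 89149 (.lf (.cons w6 w4 w3 (.cons w3 w2 w1 (.last w2 w1 w1))))
 (.nx 95545 (.lf (.cons w12 w9 w6 (.cons w6 w4 w3 (.cons w3 w2 w1 (.last w2 w1 w1)))))
 (.ny 38815 (.lf (.cons w6 w9 w3 (.cons w6 w4 w3 (.cons w3 w2 w1 (.cons w5 w3 w2 (.cons w4 w4 w1 (.last w2 w2 w1)))))))
 (.lf (.cons w9 w6 w3 (.cons w4 w3 w3 (.cons w2 w3 w1 (.last w2 w1 w1)))))
))) (.nx 89149 (.lf (.cons w3 w4 w3 (.cons w4 w3 w3 (.cons w6 w5 w3 (.cons w12 w10 w7 (.cons w3 w4 w2 (.last w2 w1 w1)))))))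
 (.ny 51212 (.lf (.cons w9 w6 w6 (.cons w4 w3 w3 (.cons w3 w2 w1 (.last w2 w1 w1)))))
 (.lf (.cons w3 w4 w3 (.cons w4 w3 w3 (.cons w8 w7 w6 (.cons w17 w14 w12 (.cons w16 w14 w7 (.cons w32 w14 w14 (.cons w65 w29 w28 (.cons w35 w15 w28 (.cons w17 w7 w7 (.cons w3 w5 w3 (.cons w3 w2 w2 (.last w2 w1 w1)))))))))))))
)))) (.nx 77612 (.nx 67568 (.lf (.cons w3 w3 w2 (.cons w4 w3 w3 (.cons w3 w4 w4 (.cons w3 w2 w2 (.last w2 w1 w1))))))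
 (.ny 67568 (.lf (.cons w3 w3 w2 (.cons w4 w3 w3 (.cons w17 w14 w12 (.cons w16 w7 w7 (.cons w3 w4 w4 (.last w2 w1 w1)))))))
 (.nx 72416 (.lf (.cons w3 w2 w3 (.cons w8 w3 w3 (.cons w17 w12 w14 (.cons w33 w15 w14 (.cons w8 w7 w7 (.cons w3 w2 w2 (.last w2 w1 w2))))))))
 (.nx 74969 (.lf (.cons w3 w2 w3 (.cons w8 w3 w3 (.cons w7 w10 w12 (.cons w29 w21 w48 (.cons w56 w21 w25 (.cons w113 w84 w101 (.cons w15 w22 w14 (.cons w16 w7 w7 (.cons w7 w7 w5 (.cons w3 w4 w4 (.last w2 w1 w1))))))))))))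
 (.lf (.cons w3 w2 w3 (.cons w8 w3 w3 (.cons w7 w10 w6 (.cons w8 w7 w7 (.cons w7 w5 w7 (.cons w3 w4 w2 (.last w2 w1 w1))))))))
)))) (.ny 77612 (.nx 89149 (.ny 67568 (.lf (.cons w3 w4 w3 (.cons w8 w3 w3 (.cons w6 w5 w3 (.cons w12 w10 w7 (.cons w7 w10 w6 (.cons w3 w4 w4 (.last w2 w1 w1))))))))
 (.lf (.cons w3 w3 w2 (.cons w8 w3 w3 (.cons w6 w5 w3 (.cons w7 w5 w6 (.cons w14 w10 w12 (.cons w29 w21 w48 (.cons w56 w21 w25 (.cons w15 w11 w14 (.cons w14 w11 w7 (.cons w5 w6 w6 (.cons w5 w3 w3 (.last w2 w1 w1)))))))))))))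
) (.ny 67568 (.lf (.cons w3 w4 w3 (.cons w4 w3 w3 (.cons w17 w7 w12 (.cons w16 w7 w7 (.cons w32 w14 w14 (.cons w65 w29 w28 (.cons w11 w13 w12 (.cons w5 w6 w6 (.cons w5 w3 w3 (.last w2 w1 w1)))))))))))
 (.lf (.cons w4 w3 w3 (.cons w17 w7 w12 (.cons w34 w56 w25 (.cons w32 w15 w15 (.cons w8 w7 w7 (.cons w5 w3 w3 (.last w2 w1 w1))))))))
)) (.nx 89149 (.nx 83181 (.lf (.cons w4 w3 w3 (.cons w6 w5 w7 (.cons w7 w10 w12 (.cons w8 w7 w7 (.cons w5 w3 w6 (.last w2 w1 w1)))))))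
 (.lf (.cons w3 w2 w3 (.cons w3 w5 w3 (.cons w5 w3 w3 (.last w2 w1 w1)))))
) (.ny 89149 (.nx 95545 (.lf (.cons w3 w2 w3 (.cons w3 w5 w3 (.cons w5 w3 w3 (.last w2 w1 w1)))))
 (.lf (.cons w3 w3 w2 (.cons w7 w6 w5 (.cons w14 w12 w10 (.cons w8 w7 w7 (.cons w5 w3 w3 (.last w2 w1 w1)))))))
) (.lf (.cons w2 w3 w3 (.cons w5 w3 w3 (.last w2 w1 w1))))
)))))

theorem c1 : Cov false false 58824 102400 33792 102400 3660 4227 3660 4227 3660 4227 :=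
  Cov.chk t1 (by decide +kernel)

noncomputable def t11 : Tr :=
(.nx 40885 (.nx 40532 (.lf (.cons w3 w1 w2 (.cons w7 w8 w5 (.cons w16 w7 w7 (.cons w32 w14 w14 (.cons w65 w28 w29 (.cons w37 w13 w18 (.cons w18 w13 w9 (.cons w9 w6 w9 (.last w2 w1 w1))))))))))
 (.lf (.cons w3 w2 w1 (.cons w7 w5 w8 (.cons w32 w7 w7 (.cons w32 w14 w14 (.cons w65 w29 w28 (.cons w37 w37 w26 (.cons w37 w18 w13 (.cons w18 w9 w13 (.cons w9 w9 w6 (.last w2 w1 w1)))))))))))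
) (.ny 40885 (.n1 6934 (.nx 41241 (.n2 3943 (.n1 6740 (.lf (.cons w3 w2 w1 (.cons w7 w5 w8 (.cons w14 w10 w17 (.cons w37 w13 w18 (.cons w18 w13 w9 (.cons w9 w6 w9 (.last w2 w1 w1))))))))
 (.lf (.cons w3 w2 w1 (.cons w7 w5 w8 (.cons w14 w10 w17 (.cons w117 w81 w69 (.cons w119 w86 w71 (.cons w37 w26 w18 (.cons w18 w13 w9 (.cons w9 w6 w9 (.last w2 w1 w1))))))))))
) (.lf (.cons w3 w2 w1 (.cons w7 w5 w8 (.cons w14 w10 w17 (.cons w117 w81 w69 (.cons w37 w13 w18 (.cons w18 w13 w9 (.cons w9 w6 w9 (.last w2 w1 w1)))))))))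
) (.n2 3943 (.lf (.cons w3 w2 w1 (.cons w7 w5 w8 (.cons w14 w10 w17 (.cons w18 w13 w18 (.cons w9 w6 w9 (.last w2 w1 w1)))))))
 (.lf (.cons w3 w2 w1 (.cons w7 w5 w8 (.cons w14 w10 w17 (.cons w18 w13 w9 (.cons w9 w6 w9 (.last w2 w1 w1)))))))
)) (.nx 41241 (.ny 40532 (.lf (.cons w3 w2 w1 (.cons w7 w5 w8 (.cons w32 w14 w7 (.cons w65 w29 w28 (.cons w37 w13 w18 (.cons w18 w13 w9 (.cons w9 w6 w9 (.last w2 w1 w1)))))))))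
 (.n1 7127 (.n2 3943 (.n2 3801 (.lf (.cons w3 w2 w1 (.cons w7 w5 w8 (.cons w14 w10 w17 (.cons w117 w81 w69 (.cons w37 w13 w18 (.cons w18 w13 w9 (.cons w9 w9 w6 (.last w2 w1 w1)))))))))
 (.lf (.cons w3 w2 w1 (.cons w7 w5 w8 (.cons w14 w10 w17 (.cons w37 w13 w18 (.cons w18 w13 w9 (.cons w9 w9 w6 (.last w2 w1 w1))))))))
) (.lf (.cons w3 w2 w1 (.cons w7 w5 w8 (.cons w14 w10 w17 (.cons w118 w43 w71 (.cons w37 w13 w18 (.cons w18 w13 w9 (.cons w9 w9 w6 (.last w2 w1 w1)))))))))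
) (.n2 3943 (.nx 41063 (.nx 40974 (.ny 40708 (.lf (.cons w3 w2 w1 (.cons w7 w5 w8 (.cons w14 w17 w10 (.cons w32 w14 w14 (.cons w65 w29 w28 (.cons w37 w13 w18 (.cons w18 w13 w9 (.cons w9 w9 w6 (.last w2 w1 w1))))))))))
 (.n2 3801 (.lf (.cons w3 w2 w1 (.cons w7 w5 w8 (.cons w14 w17 w10 (.cons w118 w71 w43 (.cons w37 w26 w37 (.cons w37 w13 w18 (.cons w18 w9 w13 (.cons w9 w9 w6 (.last w2 w1 w1))))))))))
 (.lf (.cons w3 w2 w1 (.cons w7 w5 w8 (.cons w14 w10 w17 (.cons w117 w81 w69 (.cons w37 w13 w18 (.cons w18 w9 w13 (.cons w9 w9 w6 (.last w2 w1 w1)))))))))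
)) (.lf (.cons w3 w2 w1 (.cons w7 w5 w8 (.cons w14 w10 w17 (.cons w117 w81 w69 (.cons w37 w26 w18 (.cons w18 w13 w9 (.cons w9 w9 w6 (.last w2 w1 w1)))))))))
) (.lf (.cons w3 w2 w1 (.cons w7 w5 w8 (.cons w14 w10 w17 (.cons w37 w13 w18 (.cons w18 w13 w9 (.cons w9 w9 w6 (.last w2 w1 w1))))))))
) (.n2 4085 (.lf (.cons w3 w2 w1 (.cons w7 w5 w8 (.cons w14 w10 w17 (.cons w118 w43 w71 (.cons w37 w26 w18 (.cons w18 w13 w9 (.cons w9 w9 w6 (.last w2 w1 w1)))))))))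
 (.lf (.cons w3 w2 w1 (.cons w7 w5 w8 (.cons w14 w10 w17 (.cons w37 w26 w18 (.cons w18 w13 w9 (.cons w9 w9 w6 (.last w2 w1 w1))))))))
)))) (.n2 3943 (.lf (.cons w3 w2 w1 (.cons w7 w5 w4 (.cons w14 w17 w10 (.cons w29 w40 w17 (.cons w37 w13 w18 (.cons w18 w13 w9 (.cons w9 w6 w9 (.last w2 w1 w1)))))))))
 (.lf (.cons w3 w2 w1 (.cons w7 w8 w5 (.cons w14 w17 w10 (.cons w29 w40 w34 (.cons w37 w13 w18 (.cons w18 w13 w9 (.cons w9 w6 w9 (.last w2 w1 w1)))))))))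
))) (.ny 41241 (.n1 6934 (.lf (.cons w3 w2 w1 (.cons w7 w5 w8 (.cons w14 w10 w17 (.cons w37 w18 w13 (.cons w18 w9 w13 (.cons w9 w9 w6 (.last w2 w1 w1))))))))
 (.nx 41241 (.n2 3943 (.n3 3943 (.lf (.cons w3 w1 w2 (.cons w7 w8 w5 (.cons w14 w17 w10 (.cons w118 w71 w43 (.cons w117 w69 w81 (.cons w37 w26 w18 (.cons w18 w13 w9 (.cons w9 w9 w6 (.last w2 w1 w1))))))))))
 (.lf (.cons w3 w2 w1 (.cons w7 w5 w8 (.cons w14 w10 w17 (.cons w37 w18 w13 (.cons w18 w9 w13 (.cons w9 w6 w9 (.last w2 w1 w1))))))))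
) (.lf (.cons w3 w1 w2 (.cons w7 w8 w5 (.cons w14 w17 w10 (.cons w37 w26 w18 (.cons w18 w13 w9 (.cons w9 w9 w6 (.last w2 w1 w1))))))))
) (.lf (.cons w3 w2 w1 (.cons w7 w5 w8 (.cons w14 w10 w17 (.cons w37 w18 w13 (.cons w18 w9 w13 (.cons w9 w9 w6 (.last w2 w1 w1))))))))
)) (.lf (.cons w3 w1 w2 (.cons w7 w8 w5 (.cons w14 w17 w10 (.cons w117 w69 w81 (.cons w18 w13 w18 (.cons w9 w6 w9 (.last w2 w1 w1))))))))
)))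

theorem c11 : Cov false false 40183 41600 40183 102400 6547 7321 3660 4227 3660 4227 :=
  Cov.chk t11 (by decide +kernel)

noncomputable def t14 : Tr :=
(.ny 58824 (.nx 77612 (.ny 44585 (.lf (.cons w12 w8 w3 (.cons w3 w2 w1 (.cons w4 w3 w2 (.last w2 w1 w1)))))
 (.lf (.cons w3 w4 w3 (.cons w7 w8 w6 (.cons w6 w5 w3 (.cons w12 w10 w7 (.cons w4 w3 w3 (.cons w3 w4 w2 (.cons w3 w2 w2 (.last w2 w1 w1)))))))))
) (.ny 44585 (.nx 89149 (.lf (.cons w6 w4 w3 (.cons w3 w2 w1 (.last w2 w1 w1))))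
 (.nx 95545 (.lf (.cons w6 w4 w3 (.cons w3 w2 w1 (.last w2 w1 w1))))
 (.lf (.cons w13 w9 w7 (.cons w6 w4 w3 (.cons w3 w2 w1 (.cons w5 w3 w2 (.cons w8 w4 w3 (.last w2 w2 w1)))))))
)) (.nx 89149 (.lf (.cons w3 w4 w3 (.cons w4 w3 w3 (.cons w6 w5 w3 (.cons w12 w10 w7 (.cons w3 w4 w2 (.last w2 w1 w1)))))))
 (.ny 51212 (.lf (.cons w3 w4 w3 (.cons w3 w2 w1 (.last w2 w1 w1))))
 (.lf (.cons w3 w4 w3 (.cons w4 w3 w3 (.cons w8 w7 w6 (.cons w17 w14 w12 (.cons w16 w14 w7 (.cons w64 w29 w29 (.cons w34 w15 w15 (.cons w11 w13 w12 (.cons w23 w52 w25 (.cons w20 w13 w13 (.cons w5 w3 w3 (.last w2 w1 w1)))))))))))))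
)))) (.nx 77612 (.nx 67568 (.lf (.cons w3 w2 w3 (.cons w4 w3 w3 (.cons w3 w2 w2 (.last w2 w1 w1)))))
 (.ny 67568 (.lf (.cons w3 w3 w2 (.cons w4 w3 w3 (.cons w17 w14 w12 (.cons w32 w15 w15 (.cons w16 w7 w7 (.cons w3 w4 w2 (.last w2 w1 w1))))))))
 (.lf (.cons w3 w2 w3 (.cons w8 w3 w3 (.cons w17 w12 w14 (.cons w34 w25 w14 (.cons w33 w15 w14 (.cons w8 w7 w7 (.cons w17 w7 w14 (.cons w3 w4 w4 (.last w2 w1 w1))))))))))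
)) (.ny 77612 (.nx 89149 (.ny 67568 (.lf (.cons w3 w4 w3 (.cons w4 w3 w3 (.cons w17 w7 w12 (.cons w16 w7 w7 (.cons w32 w14 w14 (.cons w65 w29 w28 (.cons w34 w15 w15 (.cons w35 w15 w28 (.cons w17 w7 w7 (.cons w6 w4 w4 (.cons w3 w2 w2 (.last w2 w1 w1)))))))))))))
 (.lf (.cons w3 w3 w2 (.cons w8 w3 w3 (.cons w6 w5 w3 (.cons w12 w10 w7 (.cons w7 w10 w6 (.cons w14 w10 w12 (.cons w29 w21 w48 (.cons w56 w21 w25 (.cons w15 w11 w14 (.cons w30 w23 w29 (.cons w14 w11 w7 (.cons w6 w4 w4 (.last w2 w1 w1))))))))))))))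
) (.ny 67568 (.lf (.cons w3 w4 w3 (.cons w4 w3 w3 (.cons w17 w7 w12 (.cons w16 w7 w7 (.cons w6 w5 w3 (.cons w3 w5 w3 (.cons w3 w2 w2 (.last w2 w1 w1)))))))))
 (.lf (.cons w4 w3 w3 (.cons w17 w7 w12 (.cons w34 w56 w25 (.cons w32 w15 w15 (.cons w8 w7 w7 (.cons w5 w3 w3 (.last w2 w1 w1))))))))
)) (.nx 89149 (.lf (.cons w4 w3 w3 (.cons w2 w3 w3 (.cons w5 w3 w3 (.last w2 w1 w1)))))
 (.ny 89149 (.lf (.cons w2 w3 w3 (.cons w5 w3 w3 (.last w2 w1 w1))))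
 (.lf (.cons w2 w3 w3 (.cons w5 w3 w3 (.cons w11 w7 w7 (.last w2 w1 w1)))))
)))))

theorem c14 : Cov false false 58824 102400 33792 102400 5773 7321 3660 4227 3660 4227 :=
  Cov.chk t14 (by decide +kernel)

noncomputable def t23 : Tr :=
(.nx 58824 (.nx 44585 (.lf (.cons w3 w1 w1 (.cons w3 w3 w2 (.cons w4 w2 w3 (.last w2 w1 w1)))))
 (.ny 44585 (.nx 51212 (.lf (.cons w3 w1 w1 (.cons w3 w3 w2 (.last w2 w1 w1))))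
 (.ny 38815 (.nx 54886 (.lf (.cons w3 w4 w2 (.cons w14 w9 w8 (.cons w7 w8 w5 (.cons w9 w5 w3 (.cons w7 w6 w3 (.cons w15 w26 w14 (.cons w6 w3 w4 (.cons w3 w3 w2 (.last w2 w1 w1))))))))))
 (.lf (.cons w3 w4 w2 (.cons w12 w6 w3 (.cons w14 w7 w12 (.cons w9 w5 w3 (.cons w19 w20 w7 (.cons w18 w11 w14 (.cons w39 w23 w15 (.cons w7 w12 w6 (.cons w7 w6 w3 (.cons w6 w3 w4 (.cons w2 w2 w1 (.last w2 w1 w1)))))))))))))
) (.nx 54886 (.lf (.cons w3 w4 w2 (.cons w3 w3 w3 (.cons w7 w6 w3 (.cons w7 w4 w5 (.cons w14 w9 w5 (.cons w6 w3 w4 (.cons w4 w2 w1 (.last w2 w1 w1)))))))))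
 (.lf (.cons w3 w4 w2 (.cons w3 w3 w3 (.cons w7 w6 w3 (.cons w8 w5 w3 (.cons w4 w4 w3 (.last w2 w1 w1)))))))
))) (.nx 51212 (.lf (.cons w3 w1 w2 (.cons w3 w3 w2 (.last w2 w1 w1))))
 (.lf (.cons w3 w2 w2 (.cons w12 w9 w10 (.cons w25 w18 w20 (.cons w50 w37 w40 (.cons w15 w16 w11 (.cons w7 w4 w5 (.cons w4 w2 w3 (.last w2 w1 w1)))))))))
))) (.ny 58824 (.nx 77612 (.ny 44585 (.nx 67568 (.lf (.cons w3 w4 w2 (.cons w6 w3 w3 (.cons w12 w6 w3 (.cons w25 w24 w7 (.cons w24 w13 w7 (.cons w48 w26 w14 (.cons w97 w52 w29 (.cons w50 w27 w15 (.cons w51 w52 w15 (.cons w25 w13 w7 (.cons w14 w7 w7 (.cons w7 w6 w6 (.cons w7 w6 w3 (.cons w9 w8 w3 (.cons w4 w2 w1 (.last w2 w1 w1)))))))))))))))))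
 (.lf (.cons w3 w4 w2 (.cons w7 w8 w5 (.cons w6 w3 w3 (.cons w8 w5 w3 (.cons w9 w8 w3 (.cons w2 w2 w1 (.last w2 w1 w1))))))))
) (.nx 67568 (.ny 51212 (.lf (.cons w3 w2 w2 (.cons w3 w3 w3 (.cons w7 w6 w3 (.cons w15 w13 w7 (.cons w31 w53 w56 (.cons w56 w27 w15 (.cons w57 w52 w30 (.cons w28 w26 w15 (.cons w14 w13 w7 (.cons w4 w4 w3 (.last w2 w1 w1))))))))))))
 (.lf (.cons w3 w2 w2 (.cons w4 w2 w3 (.last w2 w1 w1))))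
) (.lf (.cons w3 w2 w2 (.cons w3 w3 w3 (.cons w7 w6 w6 (.cons w4 w4 w3 (.last w2 w1 w1))))))
)) (.ny 44585 (.nx 89149 (.lf (.cons w3 w2 w2 (.cons w7 w8 w5 (.cons w4 w5 w3 (.cons w6 w3 w3 (.cons w25 w24 w7 (.cons w4 w2 w1 (.last w2 w1 w1))))))))
 (.nx 95545 (.lf (.cons w3 w2 w2 (.cons w4 w5 w3 (.cons w16 w11 w7 (.cons w6 w7 w3 (.cons w12 w7 w7 (.cons w9 w8 w3 (.last w2 w1 w1))))))))
 (.ny 38815 (.ny 36217 (.ny 34983 (.lf (.cons w3 w4 w2 (.cons w8 w5 w3 (.cons w17 w22 w12 (.cons w18 w20 w9 (.cons w9 w5 w4 (.cons w2 w2 w1 (.cons w5 w4 w2 (.cons w4 w6 w3 (.last w2 w3 w1))))))))))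
 (.lf (.cons w3 w4 w2 (.cons w8 w5 w3 (.cons w32 w22 w7 (.cons w9 w10 w9 (.cons w4 w2 w1 (.last w2 w1 w1)))))))
) (.lf (.cons w3 w2 w2 (.cons w8 w5 w3 (.cons w32 w22 w7 (.cons w18 w21 w9 (.cons w9 w10 w9 (.cons w4 w2 w1 (.last w2 w1 w1))))))))
) (.nx 98913 (.ny 41600 (.lf (.cons w3 w2 w2 (.cons w8 w5 w3 (.cons w32 w11 w7 (.cons w18 w17 w13 (.cons w6 w7 w3 (.cons w2 w2 w1 (.last w2 w1 w1))))))))
 (.lf (.cons w3 w2 w2 (.cons w7 w8 w5 (.cons w6 w7 w6 (.cons w3 w3 w3 (.last w2 w1 w1))))))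
) (.ny 41600 (.nx 100641 (.lf (.cons w3 w2 w2 (.cons w8 w5 w3 (.cons w32 w11 w7 (.cons w13 w7 w6 (.cons w6 w7 w3 (.last w2 w1 w1)))))))
 (.ny 40183 (.lf (.cons w3 w2 w2 (.cons w8 w5 w3 (.cons w32 w11 w7 (.cons w37 w21 w18 (.cons w18 w21 w9 (.cons w9 w10 w9 (.cons w2 w2 w1 (.last w2 w1 w1)))))))))
 (.lf (.cons w3 w2 w2 (.cons w7 w8 w5 (.cons w16 w11 w7 (.cons w32 w22 w14 (.cons w65 w44 w29 (.cons w18 w17 w13 (.cons w9 w17 w6 (.cons w2 w2 w1 (.last w2 w1 w1))))))))))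
)) (.lf (.cons w3 w2 w2 (.cons w7 w8 w5 (.cons w13 w7 w6 (.cons w6 w7 w3 (.cons w2 w2 w1 (.last w2 w1 w1)))))))
))))) (.nx 89149 (.lf (.cons w3 w2 w2 (.cons w12 w9 w5 (.cons w3 w3 w3 (.cons w2 w2 w1 (.last w2 w1 w1))))))
 (.ny 51212 (.lf (.cons w3 w2 w2 (.cons w7 w8 w5 (.cons w9 w8 w6 (.cons w2 w2 w1 (.last w2 w1 w1))))))
 (.lf (.cons w3 w2 w2 (.cons w12 w9 w5 (.cons w3 w3 w3 (.last w2 w1 w1)))))
)))) (.nx 77612 (.lf (.cons w6 w5 w8 (.cons w3 w2 w2 (.cons w4 w4 w3 (.last w2 w1 w1)))))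
 (.ny 77612 (.nx 89149 (.lf (.cons w12 w5 w8 (.cons w3 w2 w2 (.cons w4 w4 w3 (.last w2 w1 w1)))))
 (.lf (.cons w3 w5 w4 (.cons w3 w2 w2 (.cons w4 w4 w3 (.last w2 w1 w1)))))
) (.nx 89149 (.lf (.cons w6 w5 w4 (.cons w3 w2 w2 (.last w2 w1 w1))))
 (.ny 89149 (.lf (.cons w3 w5 w4 (.cons w3 w2 w2 (.last w2 w1 w1))))
 (.lf (.cons w3 w5 w4 (.cons w2 w2 w3 (.last w2 w1 w1))))
))))))

theorem c23 : Cov true false 33792 102400 33792 102400 3660 4227 5773 7321 3660 4227 :=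
  Cov.chk t23 (by decide +kernel)

noncomputable def t34 : Tr :=
(.ny 58824 (.nx 77612 (.ny 44585 (.lf (.cons w6 w8 w3 (.cons w3 w2 w1 (.cons w4 w3 w2 (.last w2 w1 w1)))))
 (.lf (.cons w3 w4 w3 (.cons w7 w8 w6 (.cons w6 w5 w3 (.cons w12 w10 w7 (.cons w4 w3 w3 (.cons w3 w4 w4 (.cons w3 w2 w2 (.last w2 w1 w1)))))))))
) (.ny 44585 (.nx 89149 (.lf (.cons w6 w4 w3 (.cons w3 w2 w1 (.last w2 w1 w1))))
 (.nx 95545 (.lf (.cons w6 w4 w3 (.cons w3 w2 w1 (.last w2 w1 w1))))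
 (.ny 38815 (.lf (.cons w6 w9 w3 (.cons w6 w4 w3 (.cons w3 w2 w1 (.cons w5 w3 w2 (.cons w8 w4 w3 (.last w2 w2 w1)))))))
 (.lf (.cons w9 w6 w3 (.cons w4 w3 w3 (.cons w2 w3 w1 (.last w2 w1 w1)))))
))) (.nx 89149 (.lf (.cons w3 w4 w3 (.cons w4 w3 w3 (.cons w6 w5 w3 (.cons w12 w10 w7 (.cons w3 w4 w2 (.last w2 w1 w1)))))))
 (.ny 51212 (.lf (.cons w6 w4 w3 (.cons w3 w2 w1 (.last w2 w1 w1))))
 (.nx 95545 (.lf (.cons w3 w4 w3 (.cons w4 w3 w3 (.cons w8 w7 w6 (.cons w6 w5 w3 (.cons w3 w4 w2 (.last w2 w1 w1)))))))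
 (.lf (.cons w3 w4 w3 (.cons w4 w3 w3 (.cons w8 w7 w6 (.cons w17 w14 w12 (.cons w16 w14 w7 (.cons w64 w29 w29 (.cons w65 w29 w56 (.cons w17 w15 w14 (.cons w5 w6 w3 (.cons w2 w3 w2 (.last w2 w1 w1))))))))))))
))))) (.nx 77612 (.nx 67568 (.lf (.cons w3 w2 w3 (.cons w4 w3 w3 (.cons w3 w4 w4 (.cons w3 w2 w2 (.last w2 w1 w1))))))
 (.ny 67568 (.lf (.cons w3 w2 w3 (.cons w8 w3 w3 (.cons w17 w14 w12 (.cons w16 w7 w7 (.cons w3 w4 w4 (.last w2 w1 w1)))))))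
 (.lf (.cons w3 w2 w3 (.cons w8 w3 w3 (.cons w17 w14 w12 (.cons w34 w28 w25 (.cons w69 w56 w50 (.cons w34 w29 w25 (.cons w33 w14 w15 (.cons w8 w7 w7 (.cons w17 w14 w7 (.cons w5 w6 w3 (.last w2 w1 w1))))))))))))
)) (.ny 77612 (.nx 89149 (.ny 67568 (.lf (.cons w3 w4 w3 (.cons w4 w3 w3 (.cons w17 w7 w12 (.cons w16 w7 w7 (.cons w32 w14 w14 (.cons w34 w15 w15 (.cons w35 w15 w28 (.cons w17 w7 w7 (.cons w5 w6 w3 (.last w2 w1 w1)))))))))))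
 (.nx 83181 (.lf (.cons w3 w2 w3 (.cons w12 w5 w7 (.cons w7 w10 w6 (.cons w8 w7 w7 (.cons w5 w6 w3 (.last w2 w1 w1)))))))
 (.lf (.cons w3 w2 w3 (.cons w6 w5 w3 (.cons w12 w10 w7 (.cons w7 w10 w6 (.cons w5 w3 w3 (.last w2 w1 w1)))))))
)) (.ny 67568 (.lf (.cons w3 w4 w3 (.cons w4 w3 w3 (.cons w8 w7 w6 (.cons w17 w14 w12 (.cons w16 w7 w7 (.cons w34 w15 w15 (.cons w35 w30 w28 (.cons w17 w15 w14 (.cons w5 w6 w3 (.cons w4 w3 w4 (.last w2 w1 w1))))))))))))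
 (.lf (.cons w4 w3 w3 (.cons w8 w7 w6 (.cons w17 w14 w12 (.cons w34 w56 w25 (.cons w32 w15 w15 (.cons w8 w7 w7 (.cons w5 w3 w3 (.last w2 w1 w1)))))))))
)) (.nx 89149 (.lf (.cons w2 w3 w3 (.cons w5 w3 w3 (.last w2 w1 w1))))
 (.ny 89149 (.lf (.cons w2 w3 w3 (.cons w5 w3 w3 (.last w2 w1 w1))))
 (.nx 95545 (.lf (.cons w2 w3 w3 (.cons w5 w3 w3 (.last w2 w1 w1))))
 (.ny 95545 (.lf (.cons w2 w3 w3 (.cons w5 w3 w3 (.last w2 w1 w1))))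
 (.lf (.cons w2 w3 w3 (.cons w5 w3 w3 (.cons w21 w14 w25 (.cons w42 w29 w25 (.cons w11 w7 w7 (.last w2 w1 w1)))))))
)))))))

theorem c34 : Cov false false 58824 102400 33792 102400 5773 7321 5773 7321 3660 4227 :=
  Cov.chk t34 (by decide +kernel)

noncomputable def t38 : Tr :=
(.ny 38815 (.nx 83181 (.lf (.cons w12 w9 w5 (.cons w13 w16 w5 (.cons w3 w4 w2 (.cons w2 w3 w1 (.last w2 w1 w1))))))
 (.nx 86113 (.lf (.cons w12 w9 w5 (.cons w13 w16 w5 (.cons w3 w4 w2 (.cons w2 w3 w1 (.last w2 w1 w1))))))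
 (.ny 36217 (.lf (.cons w14 w15 w7 (.cons w7 w7 w3 (.cons w6 w4 w2 (.cons w2 w3 w1 (.last w2 w1 w1))))))
 (.lf (.cons w12 w9 w10 (.cons w7 w7 w7 (.cons w7 w7 w3 (.cons w3 w2 w2 (.last w2 w1 w1))))))
))) (.lf (.cons w7 w6 w3 (.cons w14 w12 w6 (.cons w29 w48 w26 (.cons w28 w25 w13 (.cons w56 w50 w26 (.cons w113 w100 w53 (.cons w58 w51 w54 (.cons w58 w51 w27 (.cons w59 w100 w27 (.cons w7 w7 w7 (.cons w28 w29 w15 (.cons w6 w4 w2 (.cons w3 w2 w1 (.last w2 w1 w1)))))))))))))))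
)

theorem c38 : Cov false true 77612 89149 33792 44585 5773 7321 5773 7321 3660 4227 :=
  Cov.chk t38 (by decide +kernel)

noncomputable def t43 : Tr :=
(.ny 38815 (.lf (.cons w3 w1 w1 (.cons w7 w6 w4 (.cons w12 w7 w7 (.cons w6 w3 w3 (.cons w12 w6 w6 (.cons w4 w2 w2 (.last w2 w1 w1))))))))
 (.lf (.cons w3 w1 w1 (.cons w7 w6 w4 (.cons w14 w12 w9 (.cons w29 w24 w18 (.cons w59 w49 w37 (.cons w28 w13 w9 (.cons w14 w13 w9 (.cons w13 w6 w7 (.cons w3 w3 w3 (.last w2 w1 w1)))))))))))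
)

theorem c43 : Cov true true 38815 44585 33792 102400 5773 7321 5773 7321 3660 4227 :=
  Cov.chk t43 (by decide +kernel)

noncomputable def t44 : Tr :=
(.ny 44585 (.nx 51212 (.ny 38815 (.lf (.cons w3 w1 w1 (.cons w7 w6 w4 (.cons w14 w24 w9 (.cons w6 w3 w3 (.last w2 w1 w1))))))
 (.lf (.cons w3 w1 w1 (.cons w7 w6 w4 (.cons w14 w24 w9 (.cons w29 w24 w18 (.cons w9 w5 w4 (.cons w2 w2 w1 (.last w2 w1 w1))))))))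
) (.lf (.cons w3 w2 w1 (.cons w6 w4 w3 (.cons w3 w3 w2 (.cons w7 w6 w4 (.cons w2 w2 w2 (.last w2 w1 w1)))))))
) (.nx 51212 (.lf (.cons w3 w1 w1 (.cons w9 w4 w5 (.cons w2 w1 w2 (.last w2 w1 w1)))))
 (.lf (.cons w7 w4 w4 (.cons w6 w5 w3 (.cons w3 w2 w3 (.cons w7 w4 w6 (.cons w7 w9 w6 (.cons w4 w2 w2 (.last w2 w1 w1))))))))
))

theorem c44 : Cov true true 44585 58824 33792 102400 5773 7321 5773 7321 3660 4227 :=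
  Cov.chk t44 (by decide +kernel)

noncomputable def t48 : Tr :=
(.ny 58824 (.nx 77612 (.ny 44585 (.lf (.cons w3 w4 w3 (.cons w3 w2 w1 (.cons w4 w3 w2 (.last w2 w1 w1)))))
 (.lf (.cons w3 w4 w3 (.cons w7 w8 w6 (.cons w6 w5 w6 (.cons w6 w5 w3 (.cons w12 w10 w7 (.cons w4 w3 w3 (.cons w8 w3 w3 (.cons w6 w4 w4 (.cons w3 w2 w2 (.last w2 w1 w1)))))))))))
) (.ny 44585 (.nx 89149 (.lf (.cons w3 w4 w3 (.cons w3 w2 w1 (.last w2 w1 w1))))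
 (.lf (.cons w6 w9 w6 (.cons w3 w4 w3 (.cons w3 w2 w1 (.cons w3 w5 w2 (.cons w4 w8 w3 (.last w2 w2 w1)))))))
) (.nx 89149 (.lf (.cons w3 w4 w3 (.cons w4 w3 w3 (.cons w6 w5 w3 (.cons w12 w10 w7 (.cons w3 w4 w4 (.cons w3 w2 w2 (.last w2 w1 w1))))))))
 (.ny 51212 (.lf (.cons w6 w4 w3 (.cons w3 w2 w1 (.last w2 w1 w1))))
 (.lf (.cons w3 w4 w3 (.cons w4 w3 w3 (.cons w8 w7 w6 (.cons w17 w14 w12 (.cons w16 w7 w7 (.cons w32 w14 w14 (.cons w34 w15 w15 (.cons w35 w15 w28 (.cons w17 w7 w7 (.cons w3 w5 w3 (.cons w3 w2 w2 (.last w2 w1 w1)))))))))))))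
)))) (.nx 77612 (.nx 67568 (.lf (.cons w3 w3 w2 (.cons w4 w3 w3 (.cons w6 w4 w4 (.cons w3 w2 w2 (.last w2 w1 w1))))))
 (.ny 67568 (.lf (.cons w3 w2 w3 (.cons w8 w3 w3 (.cons w17 w14 w12 (.cons w33 w14 w15 (.cons w16 w7 w7 (.cons w32 w14 w14 (.cons w6 w4 w4 (.cons w3 w2 w2 (.last w2 w1 w1))))))))))
 (.lf (.cons w3 w3 w2 (.cons w8 w3 w3 (.cons w17 w12 w14 (.cons w34 w25 w28 (.cons w69 w50 w56 (.cons w34 w25 w29 (.cons w16 w7 w7 (.cons w8 w7 w7 (.cons w17 w7 w14 (.cons w5 w6 w6 (.cons w3 w2 w2 (.last w2 w1 w1)))))))))))))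
)) (.ny 77612 (.nx 89149 (.ny 67568 (.lf (.cons w3 w4 w3 (.cons w8 w3 w3 (.cons w6 w5 w3 (.cons w12 w10 w7 (.cons w7 w10 w6 (.cons w14 w10 w12 (.cons w6 w4 w4 (.cons w3 w2 w2 (.last w2 w1 w1))))))))))
 (.nx 83181 (.lf (.cons w3 w2 w3 (.cons w12 w5 w7 (.cons w7 w10 w12 (.cons w8 w7 w7 (.cons w5 w6 w6 (.cons w3 w4 w4 (.last w2 w1 w1))))))))
 (.lf (.cons w3 w2 w3 (.cons w3 w5 w3 (.cons w5 w3 w3 (.last w2 w1 w1)))))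
)) (.ny 67568 (.lf (.cons w4 w3 w3 (.cons w17 w7 w12 (.cons w34 w56 w25 (.cons w16 w7 w7 (.cons w34 w15 w15 (.cons w35 w15 w28 (.cons w6 w5 w6 (.cons w3 w5 w3 (.cons w3 w2 w2 (.last w2 w1 w1)))))))))))
 (.nx 95545 (.lf (.cons w4 w3 w3 (.cons w6 w5 w3 (.cons w5 w3 w3 (.last w2 w1 w1)))))
 (.lf (.cons w4 w3 w3 (.cons w17 w14 w12 (.cons w34 w56 w25 (.cons w69 w56 w50 (.cons w64 w15 w15 (.cons w16 w7 w7 (.cons w6 w5 w3 (.cons w5 w3 w3 (.last w2 w1 w1))))))))))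
))) (.nx 89149 (.nx 83181 (.lf (.cons w4 w3 w3 (.cons w6 w7 w5 (.cons w7 w12 w10 (.cons w8 w7 w7 (.cons w5 w3 w3 (.last w2 w1 w1)))))))
 (.lf (.cons w2 w3 w3 (.cons w5 w3 w3 (.last w2 w1 w1))))
) (.ny 89149 (.lf (.cons w2 w3 w3 (.cons w5 w3 w3 (.last w2 w1 w1))))
 (.lf (.cons w2 w3 w3 (.cons w5 w3 w3 (.last w2 w1 w1))))
)))))

theorem c48 : Cov false false 58824 102400 33792 102400 3660 4227 3660 4227 5773 7321 :=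
  Cov.chk t48 (by decide +kernel)

noncomputable def t51 : Tr :=
(.nx 44585 (.nx 38815 (.lf (.cons w3 w1 w1 (.cons w7 w4 w6 (.cons w14 w9 w12 (.cons w13 w7 w12 (.cons w6 w3 w3 (.cons w12 w6 w6 (.cons w9 w4 w5 (.cons w4 w1 w1 (.last w2 w1 w1))))))))))
 (.ny 38815 (.lf (.cons w3 w1 w1 (.cons w7 w6 w4 (.cons w14 w12 w9 (.cons w29 w24 w18 (.cons w13 w12 w7 (.cons w3 w3 w3 (.last w2 w1 w1))))))))
 (.nx 41600 (.lf (.cons w3 w1 w1 (.cons w7 w9 w6 (.cons w14 w18 w13 (.cons w13 w7 w6 (.cons w3 w3 w3 (.last w2 w1 w1)))))))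
 (.lf (.cons w3 w1 w1 (.cons w7 w6 w9 (.cons w14 w13 w18 (.cons w9 w5 w4 (.cons w4 w1 w1 (.last w2 w1 w1)))))))
))) (.ny 44585 (.nx 51212 (.lf (.cons w3 w1 w1 (.cons w7 w6 w4 (.cons w9 w5 w4 (.cons w4 w2 w1 (.last w2 w1 w1))))))
 (.lf (.cons w3 w2 w1 (.cons w3 w4 w3 (.cons w3 w3 w2 (.cons w7 w6 w4 (.cons w4 w2 w1 (.last w2 w1 w1)))))))
) (.nx 51212 (.lf (.cons w3 w1 w1 (.cons w9 w4 w5 (.cons w2 w2 w1 (.last w2 w1 w1)))))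
 (.lf (.cons w7 w8 w4 (.cons w7 w4 w4 (.cons w6 w5 w3 (.cons w3 w2 w3 (.cons w7 w4 w6 (.cons w4 w2 w2 (.last w2 w1 w1))))))))
)))

theorem c51 : Cov true true 33792 58824 33792 102400 3660 4227 3660 4227 5773 7321 :=
  Cov.chk t51 (by decide +kernel)

noncomputable def t53 : Tr :=
(.ny 36217 (.lf (.cons w3 w2 w1 (.cons w4 w3 w3 (.cons w16 w7 w7 (.cons w65 w14 w14 (.cons w18 w13 w9 (.cons w18 w6 w9 (.cons w9 w3 w4 (.last w2 w1 w1)))))))))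
 (.lf (.cons w3 w2 w1 (.cons w4 w3 w3 (.cons w16 w7 w7 (.cons w65 w14 w28 (.cons w18 w9 w13 (.cons w9 w9 w6 (.cons w4 w1 w1 (.last w2 w2 w2)))))))))
)

theorem c53 : Cov false false 33792 38815 33792 102400 5773 7321 3660 4227 5773 7321 :=
  Cov.chk t53 (by decide +kernel)

noncomputable def t55 : Tr :=
(.nx 40183 (.lf (.cons w3 w2 w1 (.cons w8 w3 w3 (.cons w32 w7 w7 (.cons w32 w14 w14 (.cons w65 w28 w29 (.cons w65 w56 w29 (.cons w18 w18 w13 (.cons w9 w9 w6 (.cons w4 w1 w1 (.last w2 w2 w2)))))))))))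
 (.ny 40183 (.ny 39493 (.lf (.cons w3 w2 w1 (.cons w7 w5 w4 (.cons w28 w10 w17 (.cons w16 w7 w7 (.cons w32 w14 w14 (.cons w65 w28 w29 (.cons w37 w13 w18 (.cons w18 w13 w9 (.cons w9 w6 w9 (.last w2 w1 w1)))))))))))
 (.nx 40885 (.lf (.cons w3 w2 w1 (.cons w7 w5 w4 (.cons w16 w7 w7 (.cons w32 w14 w14 (.cons w65 w28 w29 (.cons w37 w18 w13 (.cons w18 w9 w13 (.cons w9 w9 w6 (.last w2 w1 w1))))))))))
 (.n1 6547 (.n1 6160 (.nx 41241 (.n2 3943 (.lf (.cons w3 w2 w1 (.cons w7 w5 w4 (.cons w28 w10 w17 (.cons w29 w40 w17 (.cons w29 w17 w21 (.cons w58 w69 w42 (.cons w37 w13 w18 (.cons w18 w13 w9 (.cons w9 w6 w9 (.last w2 w1 w1)))))))))))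
 (.lf (.cons w3 w2 w1 (.cons w7 w5 w4 (.cons w28 w10 w17 (.cons w29 w40 w17 (.cons w37 w13 w18 (.cons w18 w13 w9 (.cons w9 w9 w6 (.last w2 w1 w1)))))))))
) (.lf (.cons w3 w2 w1 (.cons w7 w5 w4 (.cons w28 w10 w17 (.cons w29 w40 w17 (.cons w29 w34 w21 (.cons w58 w69 w42 (.cons w18 w13 w18 (.cons w9 w6 w9 (.last w2 w1 w1))))))))))
) (.n3 6547 (.ny 39837 (.lf (.cons w3 w2 w1 (.cons w7 w5 w4 (.cons w32 w7 w7 (.cons w32 w14 w14 (.cons w65 w28 w29 (.cons w37 w13 w18 (.cons w18 w13 w9 (.cons w9 w6 w9 (.last w2 w1 w1))))))))))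
 (.nx 41241 (.lf (.cons w3 w2 w1 (.cons w7 w5 w4 (.cons w32 w7 w14 (.cons w65 w28 w29 (.cons w37 w18 w13 (.cons w18 w9 w13 (.cons w9 w9 w6 (.last w2 w1 w1)))))))))
 (.lf (.cons w3 w2 w1 (.cons w7 w5 w4 (.cons w28 w10 w17 (.cons w29 w40 w17 (.cons w29 w34 w21 (.cons w18 w13 w18 (.cons w9 w6 w9 (.last w2 w1 w1)))))))))
)) (.nx 41241 (.lf (.cons w3 w2 w1 (.cons w7 w5 w4 (.cons w32 w7 w14 (.cons w65 w28 w29 (.cons w37 w18 w13 (.cons w18 w9 w13 (.cons w9 w9 w6 (.last w2 w1 w1)))))))))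
 (.ny 39837 (.lf (.cons w3 w2 w1 (.cons w7 w5 w4 (.cons w28 w10 w17 (.cons w29 w40 w17 (.cons w113 w42 w69 (.cons w37 w18 w13 (.cons w18 w9 w13 (.cons w9 w9 w6 (.last w2 w1 w1))))))))))
 (.lf (.cons w3 w2 w1 (.cons w7 w5 w4 (.cons w28 w10 w17 (.cons w29 w40 w17 (.cons w113 w42 w69 (.cons w18 w18 w13 (.cons w9 w9 w6 (.last w2 w1 w1)))))))))
)))) (.ny 39837 (.lf (.cons w3 w2 w1 (.cons w7 w5 w4 (.cons w32 w7 w7 (.cons w32 w14 w14 (.cons w65 w28 w29 (.cons w65 w56 w29 (.cons w37 w26 w18 (.cons w18 w13 w9 (.cons w9 w6 w9 (.last w2 w1 w1)))))))))))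
 (.nx 41241 (.lf (.cons w3 w2 w1 (.cons w7 w5 w4 (.cons w32 w7 w7 (.cons w32 w14 w14 (.cons w65 w28 w29 (.cons w37 w18 w26 (.cons w18 w9 w13 (.cons w9 w9 w6 (.last w2 w1 w1))))))))))
 (.lf (.cons w3 w2 w1 (.cons w7 w5 w4 (.cons w28 w10 w17 (.cons w29 w40 w17 (.cons w29 w34 w21 (.cons w58 w69 w42 (.cons w37 w13 w18 (.cons w18 w13 w9 (.cons w9 w9 w6 (.last w2 w1 w1)))))))))))
))))) (.nx 40885 (.lf (.cons w3 w2 w1 (.cons w7 w5 w4 (.cons w16 w7 w7 (.cons w32 w14 w14 (.cons w37 w18 w13 (.cons w18 w9 w13 (.cons w9 w9 w6 (.last w2 w1 w1)))))))))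
 (.ny 40885 (.n1 6547 (.n3 6547 (.lf (.cons w3 w2 w1 (.cons w7 w5 w4 (.cons w14 w17 w10 (.cons w29 w20 w17 (.cons w58 w40 w34 (.cons w113 w42 w69 (.cons w29 w17 w21 (.cons w18 w9 w13 (.cons w9 w9 w6 (.last w2 w1 w1)))))))))))
 (.lf (.cons w3 w2 w1 (.cons w7 w5 w4 (.cons w28 w10 w17 (.cons w29 w40 w17 (.cons w18 w9 w13 (.cons w9 w9 w6 (.last w2 w1 w1))))))))
) (.n1 6934 (.n3 6547 (.n3 6160 (.lf (.cons w3 w2 w1 (.cons w7 w5 w4 (.cons w14 w17 w10 (.cons w29 w20 w17 (.cons w58 w40 w34 (.cons w113 w42 w69 (.cons w59 w43 w35 (.cons w29 w17 w21 (.cons w18 w18 w13 (.cons w9 w9 w6 (.last w2 w1 w1))))))))))))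
 (.lf (.cons w3 w2 w1 (.cons w7 w5 w4 (.cons w14 w17 w10 (.cons w29 w20 w17 (.cons w58 w40 w34 (.cons w29 w17 w21 (.cons w18 w9 w13 (.cons w9 w9 w6 (.last w2 w1 w1))))))))))
) (.lf (.cons w3 w2 w1 (.cons w7 w5 w4 (.cons w28 w10 w17 (.cons w29 w40 w17 (.cons w29 w17 w21 (.cons w18 w9 w13 (.cons w9 w9 w6 (.last w2 w1 w1)))))))))
) (.n3 6547 (.ny 40532 (.nx 41241 (.lf (.cons w3 w2 w1 (.cons w7 w5 w4 (.cons w32 w7 w14 (.cons w65 w28 w29 (.cons w37 w18 w13 (.cons w18 w9 w13 (.cons w9 w9 w6 (.last w2 w1 w1)))))))))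
 (.lf (.cons w3 w2 w1 (.cons w7 w5 w4 (.cons w28 w10 w17 (.cons w29 w40 w17 (.cons w37 w18 w13 (.cons w18 w9 w13 (.cons w9 w9 w6 (.last w2 w1 w1)))))))))
) (.lf (.cons w3 w2 w1 (.cons w7 w5 w4 (.cons w14 w17 w10 (.cons w29 w20 w17 (.cons w58 w40 w34 (.cons w113 w42 w69 (.cons w59 w43 w35 (.cons w29 w17 w21 (.cons w18 w9 w13 (.cons w9 w9 w6 (.last w2 w1 w1))))))))))))
) (.n3 6934 (.lf (.cons w3 w2 w1 (.cons w7 w5 w4 (.cons w28 w10 w17 (.cons w29 w40 w17 (.cons w29 w17 w21 (.cons w18 w18 w13 (.cons w9 w9 w6 (.last w2 w1 w1)))))))))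
 (.lf (.cons w3 w2 w1 (.cons w7 w5 w4 (.cons w28 w10 w17 (.cons w29 w40 w17 (.cons w29 w17 w21 (.cons w18 w9 w13 (.cons w9 w9 w6 (.last w2 w1 w1)))))))))
)))) (.lf (.cons w3 w2 w1 (.cons w7 w5 w4 (.cons w14 w17 w10 (.cons w29 w20 w17 (.cons w58 w40 w34 (.cons w18 w9 w13 (.cons w9 w9 w6 (.last w2 w1 w1)))))))))
))))

theorem c55 : Cov false false 38815 41600 38815 41600 5773 7321 3660 4227 5773 7321 :=
  Cov.chk t55 (by decide +kernel)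

noncomputable def t57 : Tr :=
(.lf (.cons w3 w2 w1 (.cons w7 w5 w4 (.cons w14 w10 w17 (.cons w9 w9 w6 (.cons w4 w1 w1 (.last w2 w2 w2)))))))


theorem c57 : Cov false false 38815 44585 41600 102400 5773 7321 3660 4227 5773 7321 :=
  Cov.chk t57 (by decide +kernel)

noncomputable def t61 : Tr :=
(.nx 58824 (.nx 44585 (.lf (.cons w3 w1 w1 (.cons w6 w2 w3 (.cons w7 w4 w3 (.cons w4 w3 w2 (.last w2 w1 w1))))))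
 (.ny 44585 (.lf (.cons w3 w2 w1 (.cons w4 w3 w2 (.last w2 w1 w1))))
 (.nx 51212 (.lf (.cons w3 w2 w1 (.cons w3 w2 w3 (.last w2 w1 w1))))
 (.ny 51212 (.lf (.cons w3 w2 w1 (.cons w3 w2 w3 (.last w2 w1 w1))))
 (.lf (.cons w3 w2 w2 (.cons w12 w10 w9 (.cons w4 w3 w2 (.last w2 w1 w1)))))
)))) (.ny 58824 (.nx 77612 (.ny 44585 (.lf (.cons w6 w4 w2 (.cons w3 w2 w1 (.cons w7 w8 w3 (.last w2 w1 w1)))))
 (.lf (.cons w6 w8 w5 (.cons w3 w2 w2 (.cons w4 w3 w2 (.last w2 w1 w1)))))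
) (.ny 44585 (.nx 89149 (.ny 38815 (.lf (.cons w24 w9 w5 (.cons w12 w9 w5 (.cons w13 w16 w5 (.cons w3 w4 w2 (.cons w2 w3 w1 (.last w2 w1 w1)))))))
 (.lf (.cons w3 w3 w3 (.cons w7 w7 w7 (.cons w3 w4 w2 (.cons w3 w2 w1 (.last w2 w1 w1))))))
) (.nx 95545 (.ny 38815 (.nx 92292 (.ny 36217 (.ny 34983 (.nx 90707 (.lf (.cons w14 w15 w7 (.cons w7 w7 w3 (.cons w3 w4 w2 (.cons w2 w3 w1 (.last w2 w1 w1))))))
 (.lf (.cons w14 w7 w7 (.cons w7 w7 w3 (.cons w6 w4 w2 (.cons w2 w3 w1 (.last w2 w1 w1))))))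
) (.lf (.cons w7 w7 w7 (.cons w7 w7 w3 (.cons w3 w4 w2 (.cons w2 w3 w1 (.last w2 w1 w1))))))
) (.lf (.cons w3 w3 w3 (.cons w28 w25 w26 (.cons w112 w101 w53 (.cons w58 w51 w54 (.cons w7 w7 w7 (.cons w7 w7 w3 (.cons w3 w4 w1 (.last w2 w1 w1)))))))))
) (.ny 36217 (.ny 34983 (.lf (.cons w14 w7 w7 (.cons w7 w7 w3 (.cons w14 w14 w13 (.cons w9 w6 w5 (.cons w3 w2 w1 (.last w2 w1 w1)))))))
 (.lf (.cons w7 w7 w7 (.cons w7 w7 w3 (.cons w9 w6 w5 (.cons w3 w2 w1 (.last w2 w1 w1))))))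
) (.lf (.cons w6 w9 w5 (.cons w7 w7 w3 (.cons w6 w4 w2 (.cons w2 w3 w1 (.last w2 w1 w1))))))
)) (.nx 92292 (.lf (.cons w3 w3 w3 (.cons w7 w7 w7 (.cons w28 w29 w15 (.cons w58 w56 w15 (.cons w117 w113 w60 (.cons w13 w9 w8 (.cons w3 w2 w2 (.last w2 w1 w1)))))))))
 (.lf (.cons w6 w9 w5 (.cons w18 w13 w5 (.cons w9 w6 w5 (.cons w3 w2 w1 (.last w2 w1 w1))))))
)) (.ny 38815 (.ny 36217 (.lf (.cons w13 w9 w5 (.cons w52 w39 w23 (.cons w26 w19 w11 (.cons w55 w39 w23 (.cons w7 w7 w3 (.cons w14 w14 w13 (.cons w9 w6 w5 (.cons w6 w4 w2 (.cons w2 w3 w1 (.cons w10 w7 w4 (.cons w40 w14 w9 (.cons w11 w24 w7 (.cons w5 w3 w3 (.last w2 w2 w1)))))))))))))))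
 (.lf (.cons w13 w9 w5 (.cons w6 w9 w5 (.cons w9 w6 w5 (.cons w6 w4 w2 (.cons w2 w3 w1 (.last w2 w1 w1)))))))
) (.lf (.cons w3 w3 w3 (.cons w14 w25 w13 (.cons w29 w25 w26 (.cons w7 w7 w7 (.cons w7 w7 w3 (.cons w14 w14 w13 (.cons w6 w4 w2 (.cons w2 w3 w1 (.last w2 w1 w1))))))))))
))) (.nx 89149 (.lf (.cons w3 w3 w3 (.cons w3 w2 w2 (.cons w2 w3 w2 (.last w2 w1 w1)))))
 (.ny 51212 (.nx 95545 (.lf (.cons w3 w3 w3 (.cons w7 w7 w7 (.cons w3 w2 w2 (.last w2 w1 w1)))))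
 (.ny 47784 (.lf (.cons w3 w3 w3 (.cons w9 w6 w5 (.cons w19 w24 w11 (.cons w6 w4 w2 (.cons w2 w3 w1 (.last w2 w1 w1)))))))
 (.lf (.cons w3 w3 w3 (.cons w14 w7 w7 (.cons w3 w4 w2 (.cons w3 w2 w1 (.last w2 w1 w1))))))
)) (.lf (.cons w3 w3 w3 (.cons w3 w4 w2 (.cons w2 w3 w2 (.last w2 w1 w1)))))
)))) (.nx 77612 (.lf (.cons w6 w8 w5 (.cons w3 w2 w2 (.cons w4 w3 w2 (.last w2 w1 w1)))))
 (.ny 77612 (.nx 89149 (.ny 67568 (.nx 83181 (.lf (.cons w6 w8 w5 (.cons w3 w2 w2 (.last w2 w1 w1))))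
 (.ny 63045 (.lf (.cons w3 w3 w3 (.cons w2 w3 w2 (.last w2 w1 w1))))
 (.lf (.cons w13 w16 w10 (.cons w6 w8 w5 (.cons w3 w2 w2 (.last w2 w1 w1)))))
)) (.lf (.cons w6 w4 w5 (.cons w3 w2 w2 (.last w2 w1 w1))))
) (.ny 67568 (.lf (.cons w6 w3 w3 (.cons w3 w3 w3 (.cons w2 w3 w2 (.last w2 w1 w1)))))
 (.lf (.cons w12 w9 w5 (.cons w13 w32 w10 (.cons w6 w8 w5 (.cons w3 w2 w2 (.last w2 w1 w1))))))
)) (.nx 89149 (.lf (.cons w6 w8 w5 (.cons w3 w2 w2 (.last w2 w1 w1))))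
 (.ny 89149 (.lf (.cons w6 w4 w5 (.cons w3 w2 w2 (.last w2 w1 w1))))
 (.lf (.cons w6 w4 w5 (.cons w3 w2 w2 (.last w2 w1 w1))))
))))))

theorem c61 : Cov false true 33792 102400 33792 102400 5773 7321 3660 4227 5773 7321 :=
  Cov.chk t61 (by decide +kernel)

noncomputable def t62 : Tr :=
(.nx 44585 (.nx 38815 (.ny 36217 (.nx 36217 (.nx 34983 (.ny 34382 (.n1 6547 (.n1 6160 (.lf (.cons w3 w1 w1 (.cons w12 w7 w7 (.cons w6 w3 w3 (.cons w24 w13 w13 (.cons w50 w24 w26 (.cons w18 w10 w8 (.cons w8 w5 w5 (.last w2 w1 w1)))))))))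
 (.nx 34382 (.nx 34086 (.lf (.cons w3 w1 w1 (.cons w6 w3 w3 (.cons w24 w13 w13 (.cons w50 w24 w26 (.cons w101 w49 w52 (.cons w101 w53 w49 (.cons w36 w10 w17 (.cons w9 w4 w5 (.cons w2 w2 w1 (.last w2 w1 w1)))))))))))
 (.lf (.cons w3 w1 w1 (.cons w12 w7 w7 (.cons w6 w3 w3 (.cons w24 w13 w13 (.cons w50 w24 w26 (.cons w9 w10 w8 (.cons w4 w2 w2 (.last w2 w1 w1)))))))))
) (.lf (.cons w3 w1 w1 (.cons w12 w7 w7 (.cons w6 w3 w3 (.cons w24 w13 w13 (.cons w18 w10 w8 (.cons w8 w5 w5 (.last w2 w1 w1))))))))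
)) (.nx 34382 (.ny 34086 (.n1 6934 (.n3 6547 (.nx 34086 (.n2 3943 (.lf (.cons w3 w1 w1 (.cons w6 w3 w3 (.cons w15 w7 w7 (.cons w30 w15 w15 (.cons w63 w31 w31 (.cons w36 w10 w17 (.cons w9 w4 w5 (.cons w2 w2 w1 (.last w2 w1 w1))))))))))
 (.n1 6740 (.lf (.cons w3 w1 w1 (.cons w6 w3 w3 (.cons w15 w7 w7 (.cons w50 w24 w13 (.cons w100 w49 w53 (.cons w36 w10 w17 (.cons w9 w4 w5 (.cons w2 w2 w1 (.last w2 w1 w1))))))))))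
 (.lf (.cons w3 w1 w1 (.cons w6 w3 w3 (.cons w15 w7 w7 (.cons w30 w15 w15 (.cons w63 w31 w31 (.cons w36 w10 w17 (.cons w9 w4 w5 (.cons w2 w2 w1 (.last w2 w1 w1))))))))))
)) (.lf (.cons w3 w1 w1 (.cons w6 w3 w3 (.cons w15 w7 w7 (.cons w50 w24 w13 (.cons w18 w17 w10 (.cons w9 w4 w5 (.cons w2 w2 w1 (.last w2 w1 w1)))))))))
) (.lf (.cons w3 w1 w1 (.cons w6 w3 w3 (.cons w24 w13 w13 (.cons w50 w24 w13 (.cons w101 w49 w52 (.cons w36 w10 w17 (.cons w9 w5 w4 (.cons w2 w2 w1 (.last w2 w1 w1))))))))))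
) (.n3 6547 (.nx 34086 (.nx 33939 (.lf (.cons w3 w1 w1 (.cons w6 w3 w3 (.cons w15 w7 w7 (.cons w30 w15 w15 (.cons w63 w31 w31 (.cons w36 w21 w17 (.cons w9 w10 w8 (.cons w4 w2 w2 (.last w2 w1 w1))))))))))
 (.lf (.cons w3 w1 w1 (.cons w6 w3 w3 (.cons w15 w7 w7 (.cons w30 w15 w15 (.cons w18 w17 w10 (.cons w9 w4 w5 (.cons w2 w2 w1 (.last w2 w1 w1)))))))))
) (.lf (.cons w3 w1 w1 (.cons w6 w3 w3 (.cons w15 w7 w7 (.cons w30 w15 w15 (.cons w18 w17 w10 (.cons w9 w4 w5 (.cons w2 w2 w1 (.last w2 w1 w1)))))))))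
) (.nx 34086 (.nx 33939 (.n3 6934 (.lf (.cons w3 w1 w1 (.cons w6 w3 w3 (.cons w15 w7 w7 (.cons w30 w15 w15 (.cons w63 w31 w31 (.cons w37 w17 w20 (.cons w9 w5 w8 (.cons w4 w2 w2 (.last w2 w1 w1))))))))))
 (.n2 3943 (.lf (.cons w3 w1 w1 (.cons w6 w3 w3 (.cons w15 w7 w7 (.cons w50 w24 w13 (.cons w101 w49 w52 (.cons w37 w17 w20 (.cons w9 w5 w8 (.cons w4 w2 w2 (.last w2 w1 w1))))))))))
 (.lf (.cons w3 w1 w1 (.cons w6 w3 w3 (.cons w15 w7 w7 (.cons w50 w24 w13 (.cons w101 w49 w52 (.cons w36 w10 w17 (.cons w9 w4 w5 (.cons w2 w2 w1 (.last w2 w1 w1))))))))))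
)) (.lf (.cons w3 w1 w1 (.cons w6 w3 w3 (.cons w15 w7 w7 (.cons w50 w24 w13 (.cons w101 w49 w52 (.cons w101 w53 w98 (.cons w18 w17 w10 (.cons w9 w4 w5 (.cons w2 w2 w1 (.last w2 w1 w1)))))))))))
) (.lf (.cons w3 w1 w1 (.cons w6 w3 w3 (.cons w24 w13 w13 (.cons w50 w24 w13 (.cons w18 w17 w10 (.cons w9 w4 w5 (.cons w2 w2 w1 (.last w2 w1 w1)))))))))
))) (.lf (.cons w3 w1 w1 (.cons w6 w3 w3 (.cons w24 w13 w13 (.cons w50 w24 w13 (.cons w100 w49 w53 (.cons w18 w17 w10 (.cons w9 w4 w5 (.cons w2 w2 w1 (.last w2 w1 w1))))))))))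
) (.lf (.cons w3 w1 w1 (.cons w12 w7 w7 (.cons w6 w3 w3 (.cons w24 w13 w13 (.cons w50 w24 w26 (.cons w101 w49 w52 (.cons w18 w10 w8 (.cons w8 w5 w5 (.last w2 w1 w1))))))))))
)) (.lf (.cons w3 w1 w1 (.cons w12 w7 w7 (.cons w6 w3 w3 (.cons w24 w13 w13 (.cons w50 w24 w26 (.cons w9 w5 w8 (.cons w4 w2 w2 (.last w2 w1 w1)))))))))
) (.lf (.cons w3 w1 w1 (.cons w13 w7 w6 (.cons w6 w3 w3 (.cons w24 w13 w13 (.cons w9 w10 w8 (.cons w4 w2 w2 (.last w2 w1 w1))))))))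
) (.lf (.cons w3 w1 w1 (.cons w7 w6 w4 (.cons w14 w6 w9 (.cons w6 w3 w3 (.cons w9 w5 w4 (.cons w2 w2 w1 (.last w2 w1 w1))))))))
) (.lf (.cons w3 w1 w1 (.cons w7 w4 w6 (.cons w13 w7 w6 (.cons w6 w3 w3 (.cons w7 w7 w7 (.cons w2 w2 w2 (.last w2 w1 w1))))))))
) (.ny 38815 (.lf (.cons w3 w1 w1 (.cons w7 w6 w4 (.cons w14 w12 w9 (.cons w13 w6 w7 (.cons w6 w3 w3 (.cons w12 w6 w6 (.cons w4 w2 w2 (.last w2 w1 w1)))))))))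
 (.lf (.cons w3 w1 w1 (.cons w7 w4 w6 (.cons w14 w9 w12 (.cons w29 w18 w24 (.cons w59 w37 w49 (.cons w28 w9 w13 (.cons w14 w9 w13 (.cons w13 w7 w6 (.cons w3 w3 w3 (.last w2 w1 w1)))))))))))
)) (.ny 44585 (.nx 51212 (.ny 38815 (.lf (.cons w3 w1 w1 (.cons w7 w6 w4 (.cons w12 w7 w7 (.cons w6 w3 w3 (.cons w2 w2 w1 (.last w2 w1 w1)))))))
 (.lf (.cons w3 w1 w1 (.cons w7 w6 w4 (.cons w14 w24 w9 (.cons w9 w5 w8 (.cons w4 w2 w2 (.last w2 w1 w1)))))))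
) (.lf (.cons w3 w2 w1 (.cons w6 w4 w3 (.cons w3 w3 w2 (.cons w7 w6 w4 (.cons w4 w2 w2 (.last w2 w1 w1)))))))
) (.nx 51212 (.lf (.cons w3 w1 w1 (.cons w9 w5 w4 (.cons w2 w2 w1 (.last w2 w1 w1)))))
 (.lf (.cons w7 w4 w4 (.cons w6 w5 w3 (.cons w3 w2 w3 (.cons w7 w4 w6 (.cons w15 w9 w13 (.cons w4 w2 w2 (.last w2 w1 w1))))))))
)))

theorem c62 : Cov true true 33792 58824 33792 102400 5773 7321 3660 4227 5773 7321 :=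
  Cov.chk t62 (by decide +kernel)

noncomputable def t71 : Tr :=
(.ny 44585 (.nx 51212 (.lf (.cons w3 w2 w1 (.cons w7 w5 w4 (.cons w9 w6 w4 (.cons w4 w3 w2 (.last w2 w1 w1))))))
 (.lf (.cons w3 w2 w1 (.cons w7 w5 w4 (.last w2 w1 w1))))
) (.nx 51212 (.lf (.cons w3 w1 w1 (.cons w6 w5 w5 (.cons w9 w4 w6 (.last w2 w1 w1)))))
 (.lf (.cons w3 w2 w3 (.cons w12 w10 w7 (.cons w25 w20 w14 (.cons w50 w40 w29 (.cons w7 w5 w6 (.cons w4 w3 w3 (.cons w3 w2 w2 (.last w2 w1 w1)))))))))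
))

theorem c71 : Cov false false 44585 58824 33792 102400 3660 4227 5773 7321 5773 7321 :=
  Cov.chk t71 (by decide +kernel)

noncomputable def t74 : Tr :=
(.nx 58824 (.nx 44585 (.lf (.cons w3 w1 w1 (.cons w3 w2 w3 (.cons w4 w3 w2 (.last w2 w1 w1)))))
 (.ny 44585 (.lf (.cons w3 w2 w1 (.cons w4 w3 w2 (.last w2 w1 w1))))
 (.nx 51212 (.lf (.cons w3 w1 w1 (.cons w3 w2 w3 (.last w2 w1 w1))))
 (.lf (.cons w3 w2 w2 (.cons w12 w10 w9 (.cons w4 w3 w2 (.last w2 w1 w1)))))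
))) (.ny 58824 (.nx 77612 (.ny 44585 (.lf (.cons w3 w3 w3 (.cons w14 w24 w13 (.cons w29 w48 w13 (.cons w28 w25 w13 (.cons w7 w7 w7 (.cons w3 w4 w2 (.cons w3 w2 w1 (.cons w13 w10 w7 (.cons w7 w8 w3 (.last w2 w1 w1)))))))))))
 (.nx 67568 (.lf (.cons w3 w2 w2 (.cons w4 w3 w2 (.last w2 w1 w1))))
 (.lf (.cons w3 w3 w3 (.cons w3 w2 w2 (.cons w8 w3 w4 (.last w2 w1 w1)))))
)) (.ny 44585 (.nx 89149 (.ny 38815 (.nx 83181 (.lf (.cons w12 w9 w5 (.cons w13 w16 w5 (.cons w3 w4 w2 (.cons w2 w3 w1 (.last w2 w1 w1))))))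
 (.nx 86113 (.lf (.cons w3 w3 w3 (.cons w14 w25 w13 (.cons w29 w25 w26 (.cons w7 w7 w7 (.cons w7 w7 w3 (.cons w3 w4 w2 (.cons w2 w3 w1 (.last w2 w1 w1)))))))))
 (.lf (.cons w6 w9 w5 (.cons w13 w16 w10 (.cons w3 w4 w2 (.cons w2 w3 w1 (.last w2 w1 w1))))))
)) (.nx 83181 (.lf (.cons w3 w3 w3 (.cons w7 w7 w7 (.cons w3 w2 w2 (.cons w3 w2 w1 (.last w2 w1 w1))))))
 (.nx 86113 (.lf (.cons w3 w3 w3 (.cons w7 w7 w7 (.cons w6 w4 w2 (.cons w2 w3 w1 (.last w2 w1 w1))))))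
 (.lf (.cons w3 w3 w3 (.cons w7 w7 w7 (.cons w15 w15 w12 (.cons w31 w31 w48 (.cons w9 w6 w5 (.cons w3 w2 w1 (.last w2 w1 w1))))))))
))) (.nx 95545 (.lf (.cons w13 w9 w5 (.cons w6 w9 w5 (.cons w25 w18 w11 (.cons w9 w6 w5 (.cons w6 w4 w2 (.cons w2 w3 w1 (.last w2 w1 w1))))))))
 (.ny 38815 (.nx 98913 (.ny 36217 (.lf (.cons w7 w7 w7 (.cons w7 w7 w3 (.cons w6 w9 w5 (.cons w9 w12 w5 (.cons w19 w25 w20 (.cons w9 w13 w8 (.cons w4 w3 w1 (.last w2 w1 w1)))))))))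
 (.lf (.cons w13 w18 w10 (.cons w13 w9 w5 (.cons w6 w9 w5 (.cons w9 w12 w5 (.cons w18 w26 w17 (.cons w9 w13 w8 (.cons w2 w3 w2 (.last w2 w1 w1)))))))))
) (.ny 36217 (.lf (.cons w7 w14 w7 (.cons w7 w7 w3 (.cons w6 w9 w5 (.cons w25 w19 w10 (.cons w13 w9 w8 (.cons w3 w4 w1 (.cons w2 w3 w1 (.cons w10 w7 w4 (.cons w10 w13 w7 (.cons w5 w6 w3 (.cons w4 w4 w2 (.last w2 w2 w1)))))))))))))
 (.ny 37494 (.lf (.cons w7 w7 w7 (.cons w7 w7 w3 (.cons w12 w9 w5 (.cons w26 w18 w17 (.cons w13 w9 w8 (.cons w3 w2 w2 (.last w2 w1 w1))))))))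
 (.lf (.cons w18 w26 w10 (.cons w9 w13 w5 (.cons w7 w7 w3 (.cons w14 w14 w13 (.cons w113 w58 w53 (.cons w29 w29 w27 (.cons w18 w13 w8 (.cons w4 w3 w2 (.cons w2 w3 w1 (.last w2 w1 w1)))))))))))
))) (.lf (.cons w3 w3 w3 (.cons w25 w29 w13 (.cons w7 w7 w7 (.cons w7 w7 w3 (.cons w14 w14 w13 (.cons w29 w29 w27 (.cons w29 w29 w13 (.cons w4 w6 w2 (.cons w2 w3 w1 (.last w2 w1 w1)))))))))))
))) (.nx 89149 (.lf (.cons w3 w3 w3 (.cons w14 w7 w7 (.cons w3 w2 w2 (.cons w2 w3 w2 (.last w2 w1 w1))))))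
 (.ny 51212 (.nx 95545 (.lf (.cons w3 w3 w3 (.cons w7 w7 w7 (.cons w6 w4 w2 (.cons w3 w2 w1 (.last w2 w1 w1))))))
 (.lf (.cons w3 w3 w3 (.cons w7 w7 w7 (.cons w28 w29 w15 (.cons w15 w15 w12 (.cons w31 w31 w48 (.cons w62 w62 w96 (.cons w57 w61 w50 (.cons w57 w30 w50 (.cons w28 w15 w25 (.cons w7 w7 w6 (.cons w2 w3 w1 (.last w2 w1 w1)))))))))))))
) (.lf (.cons w3 w3 w3 (.cons w14 w7 w7 (.cons w4 w3 w2 (.cons w2 w3 w2 (.last w2 w1 w1))))))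
)))) (.nx 77612 (.lf (.cons w6 w8 w5 (.cons w3 w2 w2 (.cons w4 w3 w4 (.last w2 w1 w1)))))
 (.ny 77612 (.nx 89149 (.ny 67568 (.lf (.cons w12 w9 w5 (.cons w25 w18 w11 (.cons w50 w36 w22 (.cons w6 w8 w5 (.cons w3 w2 w2 (.last w2 w1 w1)))))))
 (.lf (.cons w6 w4 w5 (.cons w3 w2 w2 (.last w2 w1 w1))))
) (.ny 67568 (.lf (.cons w6 w6 w3 (.cons w3 w3 w3 (.cons w2 w3 w2 (.last w2 w1 w1)))))
 (.lf (.cons w6 w9 w5 (.cons w9 w6 w5 (.cons w18 w25 w11 (.cons w3 w6 w3 (.cons w2 w3 w2 (.last w2 w1 w1)))))))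
)) (.nx 89149 (.lf (.cons w6 w4 w5 (.cons w3 w2 w2 (.last w2 w1 w1))))
 (.ny 89149 (.lf (.cons w9 w6 w5 (.cons w4 w6 w5 (.cons w2 w3 w2 (.last w2 w1 w1)))))
 (.lf (.cons w6 w4 w5 (.cons w3 w2 w2 (.last w2 w1 w1))))
))))))

theorem c74 : Cov false true 33792 102400 33792 102400 3660 4227 5773 7321 5773 7321 :=
  Cov.chk t74 (by decide +kernel)

noncomputable def t75 : Tr :=
(.nx 44585 (.nx 38815 (.lf (.cons w3 w1 w1 (.cons w7 w4 w6 (.cons w14 w9 w12 (.cons w29 w18 w24 (.cons w28 w9 w13 (.cons w12 w7 w7 (.cons w3 w3 w3 (.last w2 w1 w1)))))))))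
 (.ny 38815 (.lf (.cons w3 w1 w1 (.cons w7 w6 w4 (.cons w14 w24 w9 (.cons w29 w24 w18 (.cons w13 w12 w7 (.cons w3 w3 w3 (.last w2 w1 w1))))))))
 (.nx 41600 (.lf (.cons w3 w1 w1 (.cons w7 w9 w6 (.cons w14 w18 w13 (.cons w13 w7 w6 (.cons w3 w3 w3 (.last w2 w1 w1)))))))
 (.ny 41600 (.lf (.cons w3 w1 w1 (.cons w7 w12 w9 (.cons w29 w24 w18 (.cons w57 w26 w19 (.cons w14 w13 w9 (.cons w9 w5 w4 (.cons w4 w1 w1 (.last w2 w1 w1)))))))))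
 (.lf (.cons w3 w1 w1 (.cons w14 w9 w6 (.cons w8 w5 w5 (.cons w4 w1 w1 (.last w2 w1 w1))))))
)))) (.ny 44585 (.nx 51212 (.lf (.cons w3 w1 w1 (.cons w7 w6 w4 (.cons w9 w5 w4 (.cons w4 w2 w1 (.last w2 w1 w1))))))
 (.lf (.cons w3 w2 w1 (.cons w3 w4 w3 (.cons w3 w3 w2 (.cons w7 w6 w4 (.cons w4 w2 w1 (.last w2 w1 w1)))))))
) (.nx 51212 (.lf (.cons w3 w1 w1 (.cons w9 w4 w5 (.cons w2 w2 w2 (.last w2 w1 w1)))))
 (.ny 51212 (.lf (.cons w3 w2 w1 (.cons w3 w3 w2 (.cons w7 w6 w4 (.last w2 w1 w1)))))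
 (.lf (.cons w7 w4 w4 (.cons w31 w19 w19 (.cons w12 w5 w7 (.cons w6 w5 w6 (.cons w3 w2 w3 (.cons w4 w2 w2 (.last w2 w1 w1))))))))
))))

theorem c75 : Cov true true 33792 58824 33792 102400 3660 4227 5773 7321 5773 7321 :=
  Cov.chk t75 (by decide +kernel)

noncomputable def t76 : Tr :=
(.nx 77612 (.ny 44585 (.lf (.cons w3 w2 w1 (.cons w3 w4 w3 (.cons w7 w9 w7 (.cons w6 w3 w2 (.cons w3 w3 w2 (.cons w2 w2 w1 (.last w2 w1 w1))))))))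
 (.nx 67568 (.lf (.cons w3 w4 w4 (.cons w7 w8 w4 (.cons w7 w9 w8 (.cons w6 w5 w3 (.cons w25 w20 w13 (.cons w24 w11 w13 (.cons w7 w10 w7 (.cons w13 w16 w7 (.cons w52 w33 w15 (.cons w24 w17 w14 (.cons w12 w8 w7 (.cons w3 w4 w3 (.cons w3 w3 w4 (.last w2 w1 w1)))))))))))))))
 (.ny 51212 (.lf (.cons w3 w2 w1 (.cons w3 w4 w3 (.cons w3 w3 w2 (.last w2 w1 w1)))))
 (.nx 72416 (.ny 54886 (.lf (.cons w3 w4 w4 (.cons w6 w5 w3 (.cons w7 w10 w7 (.cons w15 w22 w28 (.cons w30 w23 w15 (.cons w25 w11 w13 (.cons w13 w16 w7 (.cons w24 w17 w7 (.cons w6 w4 w3 (.cons w3 w3 w4 (.last w2 w1 w1))))))))))))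
 (.lf (.cons w3 w4 w4 (.cons w6 w5 w3 (.cons w3 w2 w3 (.last w2 w1 w1)))))
) (.lf (.cons w3 w4 w4 (.cons w6 w5 w3 (.cons w7 w10 w7 (.cons w15 w22 w14 (.cons w7 w9 w9 (.cons w9 w10 w5 (.cons w9 w5 w5 (.cons w18 w11 w11 (.cons w12 w7 w5 (.cons w13 w12 w10 (.cons w6 w6 w5 (.cons w3 w3 w2 (.last w2 w1 w1))))))))))))))
)))) (.ny 44585 (.nx 89149 (.ny 38815 (.lf (.cons w3 w2 w1 (.cons w3 w4 w3 (.cons w4 w5 w2 (.last w2 w1 w1)))))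
 (.lf (.cons w3 w2 w1 (.cons w3 w4 w3 (.cons w7 w9 w7 (.cons w4 w5 w4 (.last w2 w1 w1))))))
) (.nx 95545 (.lf (.cons w3 w2 w1 (.cons w3 w4 w3 (.cons w4 w5 w2 (.last w2 w1 w1)))))
 (.ny 38815 (.ny 36217 (.lf (.cons w3 w4 w1 (.cons w3 w4 w3 (.cons w8 w5 w2 (.cons w2 w2 w1 (.cons w10 w9 w4 (.cons w40 w18 w9 (.cons w40 w37 w18 (.cons w43 w72 w19 (.cons w42 w36 w19 (.cons w21 w18 w9 (.cons w11 w16 w7 (.cons w5 w4 w3 (.last w2 w3 w1))))))))))))))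
 (.lf (.cons w3 w4 w1 (.cons w3 w4 w3 (.cons w8 w5 w2 (.last w2 w1 w1)))))
) (.lf (.cons w3 w2 w1 (.cons w3 w4 w3 (.cons w4 w2 w2 (.last w2 w1 w1)))))
))) (.nx 89149 (.ny 51212 (.lf (.cons w3 w2 w1 (.cons w3 w4 w3 (.cons w2 w2 w2 (.last w2 w1 w1)))))
 (.nx 83181 (.ny 54886 (.lf (.cons w3 w4 w4 (.cons w6 w5 w6 (.cons w14 w10 w7 (.cons w15 w22 w14 (.cons w13 w17 w7 (.cons w7 w9 w9 (.cons w9 w5 w5 (.cons w7 w5 w6 (.cons w3 w4 w3 (.last w2 w1 w1)))))))))))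
 (.n3 6547 (.lf (.cons w3 w4 w4 (.cons w6 w5 w6 (.cons w14 w20 w7 (.cons w9 w5 w5 (.cons w18 w11 w11 (.cons w36 w22 w22 (.cons w39 w23 w23 (.cons w7 w10 w12 (.cons w6 w8 w3 (.cons w3 w3 w2 (.last w2 w1 w1))))))))))))
 (.lf (.cons w3 w4 w4 (.cons w6 w5 w3 (.cons w14 w10 w7 (.cons w9 w5 w5 (.cons w18 w11 w11 (.cons w36 w22 w22 (.cons w39 w23 w23 (.cons w78 w47 w47 (.cons w7 w10 w12 (.cons w6 w8 w3 (.cons w4 w2 w2 (.last w2 w1 w1)))))))))))))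
)) (.ny 54886 (.lf (.cons w3 w4 w4 (.cons w12 w5 w6 (.cons w14 w10 w7 (.cons w15 w11 w14 (.cons w30 w23 w30 (.cons w25 w11 w13 (.cons w15 w21 w24 (.cons w9 w10 w10 (.cons w9 w5 w5 (.cons w7 w5 w6 (.cons w3 w4 w3 (.last w2 w1 w1)))))))))))))
 (.lf (.cons w3 w4 w4 (.cons w6 w5 w6 (.cons w14 w20 w7 (.cons w9 w5 w5 (.cons w18 w11 w11 (.cons w36 w22 w22 (.cons w73 w45 w44 (.cons w73 w90 w88 (.cons w7 w10 w12 (.cons w7 w5 w6 (.cons w3 w4 w3 (.last w2 w1 w1)))))))))))))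
))) (.lf (.cons w3 w4 w4 (.cons w3 w5 w3 (.cons w7 w5 w6 (.cons w15 w22 w13 (.cons w12 w17 w7 (.cons w3 w4 w3 (.cons w2 w2 w1 (.last w2 w1 w1)))))))))
)))

theorem c76 : Cov true true 58824 102400 33792 58824 3660 4227 5773 7321 5773 7321 :=
  Cov.chk t76 (by decide +kernel)

noncomputable def t82 : Tr :=
(.nx 42327 (.ny 36850 (.n2 6547 (.n3 6547 (.lf (.cons w3 w2 w1 (.cons w8 w3 w3 (.cons w32 w7 w7 (.cons w65 w28 w14 (.cons w65 w29 w28 (.cons w37 w24 w18 (.cons w9 w12 w9 (.cons w4 w1 w1 (.last w2 w2 w2))))))))))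
 (.nx 41962 (.ny 36532 (.lf (.cons w3 w2 w1 (.cons w8 w3 w3 (.cons w32 w7 w7 (.cons w65 w28 w14 (.cons w65 w29 w56 (.cons w37 w24 w18 (.cons w9 w12 w9 (.cons w4 w1 w1 (.last w2 w2 w2))))))))))
 (.n2 6160 (.lf (.cons w3 w2 w1 (.cons w8 w3 w3 (.cons w32 w7 w7 (.cons w65 w28 w14 (.cons w65 w29 w28 (.cons w72 w27 w19 (.cons w37 w24 w18 (.cons w9 w12 w9 (.cons w4 w1 w1 (.last w2 w2 w2)))))))))))
 (.lf (.cons w3 w2 w1 (.cons w8 w3 w3 (.cons w32 w7 w7 (.cons w65 w28 w14 (.cons w65 w29 w56 (.cons w37 w24 w18 (.cons w9 w12 w9 (.cons w4 w1 w1 (.last w2 w2 w2))))))))))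
)) (.lf (.cons w3 w2 w1 (.cons w8 w3 w3 (.cons w32 w7 w7 (.cons w65 w28 w14 (.cons w65 w29 w56 (.cons w37 w24 w18 (.cons w9 w12 w9 (.cons w4 w1 w1 (.last w2 w2 w2))))))))))
)) (.lf (.cons w3 w2 w1 (.cons w8 w3 w3 (.cons w32 w7 w7 (.cons w65 w28 w29 (.cons w65 w29 w56 (.cons w37 w24 w18 (.cons w9 w12 w9 (.cons w4 w1 w1 (.last w2 w2 w2))))))))))
) (.lf (.cons w3 w2 w1 (.cons w8 w3 w3 (.cons w32 w7 w7 (.cons w36 w13 w9 (.cons w73 w52 w19 (.cons w72 w27 w38 (.cons w37 w24 w18 (.cons w9 w12 w9 (.cons w4 w1 w1 (.last w2 w2 w2)))))))))))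
) (.ny 36850 (.lf (.cons w3 w2 w1 (.cons w7 w5 w4 (.cons w16 w7 w7 (.cons w65 w28 w14 (.cons w65 w29 w28 (.cons w37 w24 w18 (.cons w9 w12 w9 (.cons w4 w1 w1 (.last w2 w2 w2))))))))))
 (.ny 37171 (.n3 6547 (.lf (.cons w3 w2 w1 (.cons w7 w5 w4 (.cons w16 w7 w7 (.cons w65 w28 w14 (.cons w65 w29 w28 (.cons w37 w24 w18 (.cons w9 w12 w9 (.cons w4 w1 w1 (.last w2 w2 w2))))))))))
 (.n1 6934 (.n2 6547 (.ny 37010 (.nx 42695 (.n1 6740 (.lf (.cons w3 w2 w1 (.cons w7 w5 w4 (.cons w32 w7 w7 (.cons w65 w28 w29 (.cons w65 w29 w56 (.cons w37 w24 w18 (.cons w9 w12 w9 (.cons w4 w1 w1 (.last w2 w2 w2))))))))))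
 (.n2 6160 (.lf (.cons w3 w2 w1 (.cons w7 w5 w4 (.cons w32 w7 w7 (.cons w65 w28 w29 (.cons w65 w29 w28 (.cons w72 w27 w38 (.cons w37 w24 w18 (.cons w9 w12 w9 (.cons w4 w1 w1 (.last w2 w2 w2)))))))))))
 (.lf (.cons w3 w2 w1 (.cons w7 w5 w4 (.cons w32 w7 w7 (.cons w65 w28 w29 (.cons w65 w29 w56 (.cons w37 w24 w18 (.cons w9 w12 w9 (.cons w4 w1 w1 (.last w2 w2 w2))))))))))
)) (.lf (.cons w3 w2 w1 (.cons w7 w5 w4 (.cons w32 w7 w7 (.cons w65 w28 w29 (.cons w65 w29 w56 (.cons w37 w24 w18 (.cons w9 w12 w9 (.cons w4 w1 w1 (.last w2 w2 w2))))))))))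
) (.lf (.cons w3 w2 w1 (.cons w7 w5 w4 (.cons w32 w7 w7 (.cons w65 w28 w14 (.cons w65 w29 w56 (.cons w72 w27 w19 (.cons w37 w24 w18 (.cons w9 w12 w9 (.cons w4 w1 w1 (.last w2 w2 w2)))))))))))
) (.lf (.cons w3 w2 w1 (.cons w7 w5 w4 (.cons w32 w7 w7 (.cons w65 w28 w29 (.cons w65 w29 w56 (.cons w37 w24 w18 (.cons w9 w12 w9 (.cons w4 w1 w1 (.last w2 w2 w2))))))))))
) (.n2 6547 (.nx 42695 (.lf (.cons w3 w2 w1 (.cons w7 w5 w4 (.cons w16 w7 w7 (.cons w36 w26 w19 (.cons w72 w27 w19 (.cons w37 w24 w18 (.cons w9 w12 w9 (.cons w4 w1 w1 (.last w2 w2 w2))))))))))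
 (.n1 7127 (.lf (.cons w3 w2 w1 (.cons w7 w5 w4 (.cons w18 w13 w9 (.cons w37 w49 w37 (.cons w72 w27 w38 (.cons w37 w24 w18 (.cons w9 w12 w9 (.cons w4 w1 w1 (.last w2 w2 w2))))))))))
 (.lf (.cons w3 w2 w1 (.cons w7 w5 w4 (.cons w18 w13 w9 (.cons w37 w49 w37 (.cons w72 w27 w38 (.cons w37 w24 w18 (.cons w9 w12 w9 (.cons w4 w1 w1 (.last w2 w2 w2))))))))))
)) (.nx 42695 (.n2 6934 (.n3 6934 (.lf (.cons w3 w2 w1 (.cons w7 w5 w4 (.cons w32 w7 w7 (.cons w65 w28 w29 (.cons w37 w24 w18 (.cons w9 w12 w9 (.cons w4 w1 w1 (.last w2 w2 w2)))))))))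
 (.ny 37010 (.lf (.cons w3 w2 w1 (.cons w7 w5 w4 (.cons w32 w7 w7 (.cons w65 w28 w29 (.cons w37 w24 w18 (.cons w9 w12 w9 (.cons w4 w1 w1 (.last w2 w2 w2)))))))))
 (.lf (.cons w3 w2 w1 (.cons w7 w5 w4 (.cons w32 w7 w7 (.cons w65 w28 w29 (.cons w72 w27 w38 (.cons w37 w24 w18 (.cons w9 w12 w9 (.cons w4 w1 w1 (.last w2 w2 w2))))))))))
)) (.lf (.cons w3 w2 w1 (.cons w7 w5 w4 (.cons w32 w7 w7 (.cons w65 w28 w29 (.cons w65 w29 w56 (.cons w37 w24 w18 (.cons w9 w12 w9 (.cons w4 w1 w1 (.last w2 w2 w2))))))))))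
) (.lf (.cons w3 w2 w1 (.cons w7 w5 w4 (.cons w32 w7 w7 (.cons w65 w28 w29 (.cons w65 w29 w56 (.cons w37 w24 w18 (.cons w9 w12 w9 (.cons w4 w1 w1 (.last w2 w2 w2))))))))))
)))) (.lf (.cons w3 w2 w1 (.cons w7 w5 w4 (.cons w16 w7 w7 (.cons w36 w13 w9 (.cons w73 w52 w19 (.cons w72 w27 w38 (.cons w37 w24 w18 (.cons w9 w12 w9 (.cons w4 w1 w1 (.last w2 w2 w2)))))))))))
)))

theorem c82 : Cov false false 41600 43067 36217 37494 6547 7321 5773 7321 5773 7321 :=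
  Cov.chk t82 (by decide +kernel)

noncomputable def t87 : Tr :=
(.n1 6934 (.n2 6547 (.nx 43441 (.n2 6160 (.lf (.cons w3 w2 w1 (.cons w7 w5 w4 (.cons w14 w10 w8 (.cons w29 w20 w17 (.cons w58 w40 w34 (.cons w37 w24 w18 (.cons w9 w12 w9 (.cons w4 w1 w1 (.last w2 w2 w2))))))))))
 (.lf (.cons w3 w2 w1 (.cons w7 w5 w4 (.cons w14 w10 w8 (.cons w29 w20 w17 (.cons w37 w24 w18 (.cons w9 w12 w9 (.cons w4 w1 w1 (.last w2 w2 w2)))))))))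
) (.lf (.cons w3 w2 w1 (.cons w7 w5 w4 (.cons w14 w10 w8 (.cons w29 w20 w17 (.cons w58 w40 w34 (.cons w113 w84 w69 (.cons w116 w81 w69 (.cons w18 w24 w18 (.cons w9 w3 w4 (.last w2 w1 w1)))))))))))
) (.nx 43441 (.nx 43254 (.lf (.cons w3 w2 w1 (.cons w7 w5 w4 (.cons w14 w10 w8 (.cons w29 w20 w17 (.cons w113 w84 w69 (.cons w37 w24 w18 (.cons w9 w12 w9 (.cons w4 w1 w1 (.last w2 w2 w2))))))))))
 (.lf (.cons w3 w2 w1 (.cons w7 w5 w4 (.cons w14 w10 w8 (.cons w29 w20 w17 (.cons w58 w40 w34 (.cons w116 w81 w69 (.cons w113 w85 w69 (.cons w59 w43 w70 (.cons w18 w24 w18 (.cons w9 w3 w4 (.last w2 w1 w1))))))))))))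
) (.lf (.cons w3 w2 w1 (.cons w7 w5 w4 (.cons w14 w10 w8 (.cons w29 w20 w17 (.cons w18 w24 w9 (.cons w9 w3 w4 (.last w2 w1 w1))))))))
)) (.n2 6547 (.n3 6547 (.nx 43441 (.n2 6160 (.lf (.cons w3 w2 w1 (.cons w7 w5 w4 (.cons w36 w13 w9 (.cons w73 w52 w19 (.cons w37 w24 w18 (.cons w9 w12 w9 (.cons w4 w1 w1 (.last w2 w2 w2)))))))))
 (.lf (.cons w3 w2 w1 (.cons w7 w5 w4 (.cons w14 w10 w8 (.cons w29 w20 w17 (.cons w58 w40 w34 (.cons w116 w81 w69 (.cons w37 w24 w18 (.cons w9 w12 w9 (.cons w4 w1 w1 (.last w2 w2 w2)))))))))))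
) (.n2 6160 (.lf (.cons w3 w2 w1 (.cons w7 w5 w4 (.cons w14 w10 w8 (.cons w29 w20 w17 (.cons w58 w40 w34 (.cons w116 w81 w69 (.cons w18 w24 w18 (.cons w9 w3 w4 (.last w2 w1 w1))))))))))
 (.lf (.cons w3 w2 w1 (.cons w7 w5 w4 (.cons w14 w10 w8 (.cons w29 w20 w17 (.cons w58 w40 w34 (.cons w18 w24 w18 (.cons w9 w3 w4 (.last w2 w1 w1)))))))))
)) (.nx 43441 (.n2 6160 (.lf (.cons w3 w2 w1 (.cons w7 w5 w4 (.cons w36 w13 w9 (.cons w73 w52 w19 (.cons w37 w24 w18 (.cons w9 w12 w9 (.cons w4 w1 w1 (.last w2 w2 w2)))))))))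
 (.lf (.cons w3 w2 w1 (.cons w7 w5 w4 (.cons w14 w10 w8 (.cons w29 w20 w17 (.cons w58 w40 w34 (.cons w116 w81 w69 (.cons w113 w85 w69 (.cons w59 w86 w70 (.cons w37 w24 w18 (.cons w9 w12 w9 (.cons w4 w1 w1 (.last w2 w2 w2)))))))))))))
) (.n2 6160 (.lf (.cons w3 w2 w1 (.cons w7 w5 w4 (.cons w14 w10 w8 (.cons w29 w20 w17 (.cons w58 w40 w34 (.cons w116 w81 w69 (.cons w113 w85 w69 (.cons w18 w24 w18 (.cons w9 w3 w4 (.last w2 w1 w1)))))))))))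
 (.lf (.cons w3 w2 w1 (.cons w7 w5 w4 (.cons w14 w10 w8 (.cons w29 w20 w17 (.cons w58 w40 w34 (.cons w18 w24 w18 (.cons w9 w3 w4 (.last w2 w1 w1)))))))))
))) (.nx 43441 (.n2 6934 (.lf (.cons w3 w2 w1 (.cons w7 w5 w4 (.cons w14 w10 w8 (.cons w29 w20 w17 (.cons w58 w40 w34 (.cons w116 w81 w69 (.cons w37 w24 w18 (.cons w9 w12 w9 (.cons w4 w1 w1 (.last w2 w2 w2)))))))))))
 (.lf (.cons w3 w2 w1 (.cons w7 w5 w4 (.cons w14 w10 w8 (.cons w29 w20 w17 (.cons w37 w24 w18 (.cons w9 w12 w9 (.cons w4 w1 w1 (.last w2 w2 w2)))))))))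
) (.lf (.cons w3 w2 w1 (.cons w7 w5 w4 (.cons w14 w10 w8 (.cons w29 w20 w17 (.cons w58 w40 w34 (.cons w116 w81 w69 (.cons w113 w85 w69 (.cons w118 w86 w70 (.cons w18 w24 w18 (.cons w9 w3 w4 (.last w2 w1 w1))))))))))))
)))

theorem c87 : Cov false false 43067 43819 37494 38149 6547 7321 5773 7321 5773 7321 :=
  Cov.chk t87 (by decide +kernel)

noncomputable def t88 : Tr :=
(.n1 6934 (.n2 6547 (.nx 43441 (.n2 6160 (.lf (.cons w3 w2 w1 (.cons w7 w5 w4 (.cons w14 w10 w8 (.cons w29 w20 w17 (.cons w37 w24 w18 (.cons w9 w12 w9 (.cons w4 w1 w1 (.last w2 w2 w2)))))))))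
 (.lf (.cons w3 w2 w1 (.cons w7 w5 w4 (.cons w14 w10 w8 (.cons w29 w20 w17 (.cons w58 w40 w34 (.cons w113 w84 w69 (.cons w116 w81 w69 (.cons w113 w85 w69 (.cons w59 w43 w35 (.cons w18 w24 w18 (.cons w9 w3 w4 (.last w2 w1 w1)))))))))))))
) (.lf (.cons w3 w2 w1 (.cons w7 w5 w4 (.cons w14 w10 w8 (.cons w29 w20 w17 (.cons w18 w24 w18 (.cons w9 w3 w4 (.last w2 w1 w1))))))))
) (.nx 43441 (.n2 6934 (.lf (.cons w3 w2 w1 (.cons w7 w5 w4 (.cons w14 w10 w8 (.cons w29 w20 w17 (.cons w58 w40 w34 (.cons w116 w81 w69 (.cons w118 w86 w70 (.cons w18 w24 w18 (.cons w9 w3 w4 (.last w2 w1 w1)))))))))))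
 (.lf (.cons w3 w2 w1 (.cons w7 w5 w4 (.cons w28 w10 w17 (.cons w29 w40 w17 (.cons w113 w42 w69 (.cons w18 w24 w18 (.cons w9 w3 w4 (.last w2 w1 w1)))))))))
) (.lf (.cons w3 w2 w1 (.cons w7 w5 w4 (.cons w14 w10 w8 (.cons w29 w20 w17 (.cons w18 w12 w9 (.cons w9 w3 w4 (.last w2 w1 w1))))))))
)) (.n2 6547 (.nx 43441 (.n2 6160 (.lf (.cons w3 w2 w1 (.cons w7 w5 w4 (.cons w14 w10 w8 (.cons w29 w20 w17 (.cons w58 w40 w34 (.cons w116 w81 w69 (.cons w37 w24 w18 (.cons w9 w12 w9 (.cons w4 w1 w1 (.last w2 w2 w2)))))))))))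
 (.lf (.cons w3 w2 w1 (.cons w7 w5 w4 (.cons w14 w10 w8 (.cons w29 w20 w17 (.cons w113 w84 w69 (.cons w37 w24 w18 (.cons w9 w12 w9 (.cons w4 w1 w1 (.last w2 w2 w2))))))))))
) (.lf (.cons w3 w2 w1 (.cons w7 w5 w4 (.cons w14 w10 w8 (.cons w29 w20 w17 (.cons w58 w40 w34 (.cons w113 w84 w69 (.cons w116 w81 w69 (.cons w113 w85 w69 (.cons w59 w43 w35 (.cons w18 w12 w18 (.cons w9 w3 w4 (.last w2 w1 w1)))))))))))))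
) (.nx 43441 (.n2 6934 (.lf (.cons w3 w2 w1 (.cons w7 w5 w4 (.cons w14 w10 w8 (.cons w29 w20 w17 (.cons w37 w24 w18 (.cons w9 w12 w9 (.cons w4 w1 w1 (.last w2 w2 w2)))))))))
 (.nx 43254 (.lf (.cons w3 w2 w1 (.cons w7 w5 w4 (.cons w28 w10 w17 (.cons w29 w40 w17 (.cons w37 w24 w18 (.cons w9 w12 w9 (.cons w4 w1 w1 (.last w2 w2 w2)))))))))
 (.lf (.cons w3 w2 w1 (.cons w7 w5 w4 (.cons w28 w10 w17 (.cons w29 w40 w17 (.cons w18 w24 w18 (.cons w9 w3 w4 (.last w2 w1 w1))))))))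
)) (.lf (.cons w3 w2 w1 (.cons w7 w5 w4 (.cons w14 w10 w8 (.cons w29 w20 w17 (.cons w18 w24 w18 (.cons w9 w3 w4 (.last w2 w1 w1))))))))
)))

theorem c88 : Cov false false 43067 43819 38149 38815 6547 7321 5773 7321 5773 7321 :=
  Cov.chk t88 (by decide +kernel)

noncomputable def t93 : Tr :=
(.n1 6934 (.n2 6547 (.nx 40532 (.lf (.cons w3 w2 w1 (.cons w7 w5 w8 (.cons w32 w7 w7 (.cons w32 w14 w14 (.cons w65 w29 w56 (.cons w37 w18 w13 (.cons w18 w9 w13 (.cons w9 w9 w6 (.last w2 w1 w1))))))))))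
 (.n3 6547 (.ny 40532 (.lf (.cons w3 w2 w1 (.cons w7 w5 w8 (.cons w32 w14 w7 (.cons w65 w29 w28 (.cons w37 w13 w18 (.cons w18 w13 w9 (.cons w9 w6 w9 (.last w2 w1 w1)))))))))
 (.n2 6160 (.lf (.cons w3 w2 w1 (.cons w7 w5 w8 (.cons w32 w14 w14 (.cons w65 w56 w29 (.cons w37 w26 w37 (.cons w37 w13 w18 (.cons w18 w13 w9 (.cons w9 w6 w9 (.last w2 w1 w1))))))))))
 (.lf (.cons w3 w1 w2 (.cons w7 w8 w5 (.cons w32 w14 w14 (.cons w65 w29 w56 (.cons w37 w37 w26 (.cons w37 w18 w13 (.cons w18 w9 w13 (.cons w9 w9 w6 (.last w2 w1 w1))))))))))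
)) (.ny 40532 (.n2 6160 (.lf (.cons w3 w2 w1 (.cons w7 w8 w5 (.cons w32 w7 w14 (.cons w65 w28 w29 (.cons w37 w18 w13 (.cons w18 w9 w13 (.cons w9 w6 w9 (.last w2 w1 w1)))))))))
 (.lf (.cons w3 w2 w1 (.cons w7 w5 w8 (.cons w32 w7 w14 (.cons w65 w28 w29 (.cons w37 w13 w18 (.cons w18 w13 w9 (.cons w9 w9 w6 (.last w2 w1 w1)))))))))
) (.lf (.cons w3 w2 w1 (.cons w7 w5 w8 (.cons w28 w10 w17 (.cons w29 w20 w34 (.cons w37 w18 w13 (.cons w18 w9 w13 (.cons w9 w9 w6 (.last w2 w1 w1)))))))))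
))) (.ny 40532 (.lf (.cons w3 w2 w1 (.cons w7 w5 w8 (.cons w32 w7 w7 (.cons w32 w14 w14 (.cons w65 w56 w29 (.cons w37 w13 w18 (.cons w18 w13 w9 (.cons w9 w6 w9 (.last w2 w1 w1))))))))))
 (.lf (.cons w3 w1 w2 (.cons w7 w8 w5 (.cons w28 w17 w10 (.cons w29 w34 w20 (.cons w58 w34 w40 (.cons w116 w69 w81 (.cons w37 w13 w18 (.cons w18 w13 w9 (.cons w9 w6 w9 (.last w2 w1 w1)))))))))))
)) (.n2 6547 (.nx 40532 (.lf (.cons w3 w2 w1 (.cons w7 w8 w5 (.cons w32 w7 w7 (.cons w32 w14 w14 (.cons w65 w29 w56 (.cons w37 w18 w13 (.cons w18 w9 w13 (.cons w9 w9 w6 (.last w2 w1 w1))))))))))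
 (.n3 6547 (.ny 40532 (.lf (.cons w3 w2 w1 (.cons w7 w5 w8 (.cons w32 w14 w7 (.cons w65 w29 w28 (.cons w37 w13 w18 (.cons w18 w13 w9 (.cons w9 w6 w9 (.last w2 w1 w1)))))))))
 (.n2 6160 (.lf (.cons w3 w2 w1 (.cons w7 w5 w8 (.cons w32 w7 w14 (.cons w65 w28 w29 (.cons w37 w26 w37 (.cons w37 w13 w18 (.cons w18 w13 w9 (.cons w9 w6 w9 (.last w2 w1 w1))))))))))
 (.lf (.cons w3 w1 w2 (.cons w7 w8 w5 (.cons w32 w14 w7 (.cons w65 w29 w28 (.cons w37 w37 w26 (.cons w37 w18 w13 (.cons w18 w9 w13 (.cons w9 w9 w6 (.last w2 w1 w1))))))))))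
)) (.ny 40532 (.n2 6160 (.lf (.cons w3 w2 w1 (.cons w7 w8 w5 (.cons w32 w7 w14 (.cons w65 w28 w29 (.cons w37 w18 w13 (.cons w18 w9 w13 (.cons w9 w6 w9 (.last w2 w1 w1)))))))))
 (.lf (.cons w3 w2 w1 (.cons w7 w8 w5 (.cons w32 w7 w14 (.cons w65 w28 w29 (.cons w37 w13 w18 (.cons w18 w13 w9 (.cons w9 w9 w6 (.last w2 w1 w1)))))))))
) (.lf (.cons w3 w2 w1 (.cons w7 w5 w8 (.cons w32 w7 w14 (.cons w65 w28 w29 (.cons w37 w18 w13 (.cons w18 w9 w13 (.cons w9 w9 w6 (.last w2 w1 w1)))))))))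
))) (.nx 40532 (.lf (.cons w3 w1 w2 (.cons w7 w5 w8 (.cons w32 w7 w7 (.cons w32 w14 w14 (.cons w65 w56 w29 (.cons w37 w26 w18 (.cons w18 w13 w9 (.cons w9 w6 w9 (.last w2 w1 w1))))))))))
 (.n3 6547 (.lf (.cons w3 w1 w2 (.cons w7 w8 w5 (.cons w32 w14 w7 (.cons w65 w29 w28 (.cons w37 w13 w18 (.cons w18 w13 w9 (.cons w9 w6 w9 (.last w2 w1 w1)))))))))
 (.ny 40532 (.lf (.cons w3 w2 w1 (.cons w7 w5 w8 (.cons w32 w14 w7 (.cons w65 w29 w28 (.cons w37 w13 w18 (.cons w18 w13 w9 (.cons w9 w6 w9 (.last w2 w1 w1)))))))))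
 (.lf (.cons w3 w2 w1 (.cons w7 w8 w5 (.cons w32 w7 w14 (.cons w65 w28 w29 (.cons w37 w37 w26 (.cons w37 w18 w13 (.cons w18 w9 w13 (.cons w9 w9 w6 (.last w2 w1 w1))))))))))
)))))

theorem c93 : Cov false false 40183 40885 40183 102400 6547 7321 5773 7321 5773 7321 :=
  Cov.chk t93 (by decide +kernel)

noncomputable def t95 : Tr :=
(.ny 41600 (.nx 43067 (.ny 40183 (.nx 42327 (.lf (.cons w3 w2 w1 (.cons w7 w5 w4 (.cons w28 w10 w17 (.cons w29 w40 w17 (.cons w113 w42 w69 (.cons w113 w85 w69 (.cons w59 w43 w70 (.cons w29 w17 w21 (.cons w18 w13 w9 (.cons w9 w6 w9 (.cons w4 w1 w1 (.last w2 w2 w2)))))))))))))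
 (.ny 39493 (.n2 6547 (.lf (.cons w3 w2 w1 (.cons w7 w5 w4 (.cons w28 w10 w17 (.cons w29 w40 w17 (.cons w113 w84 w69 (.cons w113 w42 w69 (.cons w18 w6 w9 (.cons w9 w3 w4 (.last w2 w1 w1))))))))))
 (.n1 6547 (.nx 42695 (.lf (.cons w3 w2 w1 (.cons w7 w5 w4 (.cons w28 w10 w17 (.cons w18 w6 w9 (.cons w9 w3 w4 (.last w2 w1 w1)))))))
 (.nx 42881 (.lf (.cons w3 w2 w1 (.cons w7 w5 w4 (.cons w28 w10 w17 (.cons w9 w6 w9 (.cons w4 w1 w1 (.last w2 w2 w2)))))))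
 (.lf (.cons w3 w2 w1 (.cons w7 w5 w4 (.cons w28 w10 w17 (.cons w29 w40 w17 (.cons w113 w42 w69 (.cons w113 w85 w69 (.cons w59 w43 w35 (.cons w119 w86 w71 (.cons w18 w24 w18 (.cons w9 w3 w4 (.last w2 w1 w1))))))))))))
)) (.lf (.cons w3 w2 w1 (.cons w7 w5 w4 (.cons w18 w13 w9 (.cons w37 w49 w37 (.cons w72 w27 w19 (.cons w37 w24 w18 (.cons w9 w12 w9 (.cons w4 w1 w1 (.last w2 w2 w2))))))))))
)) (.lf (.cons w3 w2 w1 (.cons w7 w5 w4 (.cons w28 w10 w17 (.cons w29 w40 w17 (.cons w29 w17 w21 (.cons w18 w6 w9 (.cons w4 w1 w1 (.last w2 w2 w2)))))))))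
)) (.nx 42327 (.lf (.cons w3 w2 w1 (.cons w7 w5 w4 (.cons w14 w17 w10 (.cons w29 w20 w17 (.cons w58 w40 w34 (.cons w18 w13 w9 (.cons w9 w6 w9 (.last w2 w1 w1)))))))))
 (.lf (.cons w3 w2 w1 (.cons w7 w5 w4 (.cons w28 w10 w17 (.cons w29 w40 w17 (.cons w113 w84 w69 (.cons w113 w42 w69 (.cons w113 w85 w69 (.cons w59 w43 w35 (.cons w18 w6 w9 (.cons w4 w1 w1 (.last w2 w2 w2))))))))))))
)) (.nx 43819 (.ny 40183 (.n1 6547 (.n2 6547 (.lf (.cons w3 w2 w1 (.cons w7 w5 w4 (.cons w14 w10 w8 (.cons w29 w20 w17 (.cons w58 w40 w34 (.cons w113 w84 w69 (.cons w116 w81 w69 (.cons w113 w85 w69 (.cons w59 w43 w35 (.cons w18 w12 w18 (.cons w9 w3 w4 (.last w2 w1 w1)))))))))))))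
 (.lf (.cons w3 w2 w1 (.cons w7 w5 w4 (.cons w28 w10 w17 (.cons w29 w40 w17 (.cons w18 w24 w18 (.cons w9 w3 w4 (.last w2 w1 w1))))))))
) (.ny 39493 (.n1 6934 (.n2 6547 (.nx 43441 (.lf (.cons w3 w2 w1 (.cons w7 w5 w4 (.cons w28 w10 w17 (.cons w9 w6 w9 (.cons w4 w1 w1 (.last w2 w2 w2)))))))
 (.lf (.cons w3 w2 w1 (.cons w7 w5 w4 (.cons w14 w10 w8 (.cons w29 w20 w17 (.cons w18 w12 w9 (.cons w9 w3 w4 (.last w2 w1 w1))))))))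
) (.lf (.cons w3 w2 w1 (.cons w7 w5 w4 (.cons w28 w10 w17 (.cons w29 w40 w17 (.cons w113 w42 w69 (.cons w113 w85 w69 (.cons w59 w43 w35 (.cons w18 w24 w18 (.cons w9 w3 w4 (.last w2 w1 w1)))))))))))
) (.n2 6547 (.nx 43441 (.lf (.cons w3 w2 w1 (.cons w7 w5 w4 (.cons w28 w10 w17 (.cons w9 w6 w9 (.cons w4 w1 w1 (.last w2 w2 w2)))))))
 (.lf (.cons w3 w2 w1 (.cons w7 w5 w4 (.cons w14 w10 w8 (.cons w29 w20 w17 (.cons w58 w40 w34 (.cons w18 w24 w18 (.cons w9 w3 w4 (.last w2 w1 w1)))))))))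
) (.n2 6934 (.lf (.cons w3 w2 w1 (.cons w7 w5 w4 (.cons w28 w10 w17 (.cons w29 w40 w17 (.cons w113 w42 w69 (.cons w113 w85 w69 (.cons w59 w43 w35 (.cons w18 w24 w18 (.cons w9 w3 w4 (.last w2 w1 w1)))))))))))
 (.lf (.cons w3 w2 w1 (.cons w7 w5 w4 (.cons w28 w10 w17 (.cons w29 w40 w17 (.cons w113 w42 w69 (.cons w113 w85 w69 (.cons w59 w43 w35 (.cons w18 w12 w18 (.cons w9 w3 w4 (.last w2 w1 w1)))))))))))
))) (.n2 6547 (.lf (.cons w3 w2 w1 (.cons w7 w5 w4 (.cons w28 w10 w17 (.cons w9 w6 w9 (.cons w4 w1 w1 (.last w2 w2 w2)))))))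
 (.n1 6934 (.lf (.cons w3 w2 w1 (.cons w7 w5 w4 (.cons w28 w10 w17 (.cons w29 w40 w17 (.cons w113 w42 w69 (.cons w18 w24 w18 (.cons w9 w3 w4 (.last w2 w1 w1)))))))))
 (.lf (.cons w3 w2 w1 (.cons w7 w5 w4 (.cons w28 w10 w17 (.cons w29 w40 w17 (.cons w113 w42 w69 (.cons w113 w85 w69 (.cons w59 w43 w35 (.cons w119 w86 w71 (.cons w18 w24 w18 (.cons w9 w3 w4 (.last w2 w1 w1))))))))))))
)))) (.lf (.cons w3 w2 w1 (.cons w7 w5 w4 (.cons w28 w10 w17 (.cons w9 w6 w9 (.cons w4 w1 w1 (.last w2 w2 w2)))))))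
) (.lf (.cons w3 w2 w1 (.cons w7 w5 w4 (.cons w14 w10 w8 (.cons w29 w20 w17 (.cons w58 w40 w34 (.cons w18 w12 w9 (.cons w9 w6 w4 (.last w2 w1 w1)))))))))
)) (.nx 43067 (.n1 6547 (.lf (.cons w3 w1 w2 (.cons w7 w8 w5 (.cons w14 w10 w17 (.cons w118 w43 w71 (.cons w18 w9 w6 (.cons w4 w1 w1 (.last w2 w2 w2))))))))
 (.nx 42327 (.lf (.cons w3 w1 w2 (.cons w7 w8 w5 (.cons w14 w17 w10 (.cons w36 w13 w9 (.cons w9 w6 w9 (.last w2 w1 w1)))))))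
 (.lf (.cons w3 w2 w1 (.cons w7 w5 w8 (.cons w14 w10 w17 (.cons w9 w6 w9 (.last w2 w1 w1))))))
)) (.lf (.cons w3 w2 w1 (.cons w7 w8 w5 (.cons w14 w17 w10 (.cons w9 w6 w9 (.last w2 w1 w1))))))
))

theorem c95 : Cov false false 41600 44585 38815 102400 5773 7321 5773 7321 5773 7321 :=
  Cov.chk t95 (by decide +kernel)

noncomputable def t100 : Tr :=
(.lf (.cons w2 w3 w3 (.cons w5 w3 w3 (.last w2 w1 w1))))


theorem c100 : Cov false false 77612 89149 77612 102400 5773 7321 5773 7321 5773 7321 :=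
  Cov.chk t100 (by decide +kernel)

noncomputable def t101 : Tr :=
(.lf (.cons w2 w3 w3 (.cons w5 w3 w3 (.last w2 w1 w1))))


theorem c101 : Cov false false 89149 102400 77612 89149 5773 7321 5773 7321 5773 7321 :=
  Cov.chk t101 (by decide +kernel)

noncomputable def t110 : Tr :=
(.nx 101517 (.lf (.cons w2 w3 w3 (.cons w5 w3 w3 (.cons w18 w13 w18 (.cons w7 w7 w5 (.last w2 w1 w1))))))
 (.ny 101517 (.lf (.cons w2 w3 w3 (.cons w5 w3 w3 (.cons w9 w13 w18 (.last w2 w1 w1)))))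
 (.n2 6934 (.n3 6160 (.n1 6934 (.lf (.cons w2 w3 w3 (.cons w5 w3 w3 (.cons w18 w26 w18 (.cons w11 w7 w7 (.last w2 w1 w1))))))
 (.lf (.cons w2 w3 w3 (.cons w5 w3 w3 (.cons w42 w58 w50 (.cons w13 w18 w18 (.cons w11 w7 w7 (.last w2 w1 w1)))))))
) (.nx 101958 (.n1 6934 (.lf (.cons w2 w3 w3 (.cons w5 w3 w3 (.cons w18 w13 w18 (.last w2 w1 w1)))))
 (.lf (.cons w2 w3 w3 (.cons w5 w3 w3 (.cons w13 w18 w9 (.last w2 w1 w1)))))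
) (.lf (.cons w2 w3 w3 (.cons w3 w5 w3 (.cons w58 w42 w50 (.cons w37 w37 w26 (.cons w75 w74 w105 (.cons w72 w37 w53 (.cons w7 w11 w7 (.last w2 w1 w1)))))))))
)) (.lf (.cons w2 w3 w3 (.cons w5 w3 w3 (.cons w42 w29 w50 (.cons w37 w37 w26 (.cons w75 w74 w105 (.cons w72 w37 w53 (.cons w7 w11 w7 (.last w2 w1 w1)))))))))
)))

theorem c110 : Cov false false 100641 102400 100641 102400 6547 7321 6547 7321 5773 6547 :=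
  Cov.chk t110 (by decide +kernel)

noncomputable def t114 : Tr :=
(.ny 44585 (.nx 67568 (.lf (.cons w3 w2 w1 (.cons w8 w3 w4 (.last w2 w1 w1))))
 (.ny 38815 (.lf (.cons w7 w6 w6 (.cons w14 w12 w6 (.cons w29 w48 w13 (.cons w28 w25 w26 (.cons w15 w14 w7 (.cons w14 w7 w7 (.cons w3 w2 w2 (.cons w3 w2 w1 (.last w2 w1 w1))))))))))
 (.lf (.cons w3 w3 w3 (.cons w3 w2 w2 (.cons w3 w4 w3 (.last w2 w1 w1)))))
)) (.lf (.cons w6 w8 w5 (.cons w3 w2 w2 (.cons w4 w3 w2 (.last w2 w1 w1)))))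
)

theorem c114 : Cov false true 58824 77612 33792 58824 5773 7321 5773 7321 5773 7321 :=
  Cov.chk t114 (by decide +kernel)

noncomputable def t115 : Tr :=
(.ny 44585 (.nx 89149 (.ny 38815 (.nx 83181 (.lf (.cons w12 w9 w5 (.cons w13 w16 w5 (.cons w3 w4 w2 (.cons w2 w3 w1 (.last w2 w1 w1))))))
 (.nx 86113 (.lf (.cons w12 w9 w5 (.cons w13 w16 w5 (.cons w3 w4 w2 (.cons w2 w3 w1 (.last w2 w1 w1))))))
 (.ny 36217 (.nx 87618 (.lf (.cons w24 w9 w5 (.cons w7 w7 w3 (.cons w3 w4 w2 (.cons w2 w3 w1 (.last w2 w1 w1))))))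
 (.ny 34983 (.lf (.cons w14 w7 w7 (.cons w7 w7 w3 (.cons w6 w4 w2 (.cons w2 w3 w1 (.last w2 w1 w1))))))
 (.lf (.cons w7 w7 w7 (.cons w7 w7 w3 (.cons w3 w4 w2 (.cons w2 w3 w1 (.last w2 w1 w1))))))
)) (.lf (.cons w24 w18 w10 (.cons w12 w9 w5 (.cons w13 w16 w5 (.cons w3 w2 w2 (.last w2 w1 w1))))))
))) (.lf (.cons w3 w3 w3 (.cons w7 w7 w7 (.cons w28 w29 w15 (.cons w6 w4 w2 (.cons w3 w2 w1 (.last w2 w1 w1)))))))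
) (.nx 95545 (.ny 38815 (.nx 92292 (.ny 36217 (.ny 34983 (.lf (.cons w14 w7 w7 (.cons w7 w7 w3 (.cons w14 w14 w13 (.cons w9 w6 w5 (.cons w3 w2 w1 (.last w2 w1 w1)))))))
 (.lf (.cons w7 w7 w7 (.cons w7 w7 w3 (.cons w9 w6 w5 (.cons w3 w2 w1 (.last w2 w1 w1))))))
) (.ny 37494 (.ny 36850 (.lf (.cons w7 w7 w7 (.cons w7 w7 w3 (.cons w3 w4 w2 (.cons w2 w3 w1 (.last w2 w1 w1))))))
 (.nx 90707 (.n1 6547 (.n2 6547 (.lf (.cons w14 w25 w13 (.cons w7 w7 w7 (.cons w7 w7 w3 (.cons w3 w4 w1 (.last w2 w1 w1))))))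
 (.n3 6547 (.lf (.cons w7 w7 w7 (.cons w7 w7 w3 (.cons w3 w4 w1 (.last w2 w1 w1)))))
 (.n3 6934 (.lf (.cons w7 w7 w7 (.cons w7 w7 w3 (.cons w3 w4 w1 (.last w2 w1 w1)))))
 (.lf (.cons w7 w7 w7 (.cons w7 w7 w3 (.cons w3 w4 w1 (.last w2 w1 w1)))))
))) (.n2 6547 (.lf (.cons w24 w18 w10 (.cons w12 w9 w5 (.cons w7 w7 w3 (.cons w3 w4 w1 (.last w2 w1 w1))))))
 (.lf (.cons w7 w7 w7 (.cons w7 w7 w3 (.cons w3 w4 w1 (.last w2 w1 w1)))))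
)) (.n3 6547 (.lf (.cons w7 w7 w7 (.cons w7 w7 w3 (.cons w3 w4 w2 (.cons w2 w3 w1 (.last w2 w1 w1))))))
 (.lf (.cons w7 w7 w7 (.cons w7 w7 w3 (.cons w3 w4 w2 (.cons w2 w3 w1 (.last w2 w1 w1))))))
))) (.lf (.cons w3 w3 w3 (.cons w14 w25 w13 (.cons w7 w7 w7 (.cons w7 w7 w3 (.cons w3 w4 w1 (.last w2 w1 w1)))))))
)) (.ny 36217 (.ny 34983 (.lf (.cons w7 w7 w3 (.cons w14 w14 w13 (.cons w9 w6 w5 (.cons w3 w2 w2 (.last w2 w1 w1))))))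
 (.lf (.cons w7 w7 w7 (.cons w7 w7 w3 (.cons w9 w6 w5 (.cons w3 w2 w2 (.last w2 w1 w1))))))
) (.nx 93904 (.ny 37494 (.lf (.cons w7 w7 w7 (.cons w7 w7 w3 (.cons w6 w4 w2 (.cons w2 w3 w1 (.last w2 w1 w1))))))
 (.n1 6547 (.lf (.cons w6 w9 w5 (.cons w9 w6 w5 (.cons w3 w4 w1 (.last w2 w1 w1)))))
 (.nx 93095 (.lf (.cons w26 w19 w11 (.cons w55 w39 w23 (.cons w49 w36 w21 (.cons w12 w18 w5 (.cons w7 w7 w3 (.cons w3 w4 w2 (.cons w2 w3 w1 (.last w2 w1 w1)))))))))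
 (.lf (.cons w6 w9 w5 (.cons w9 w6 w5 (.cons w3 w2 w1 (.last w2 w1 w1)))))
))) (.lf (.cons w6 w9 w5 (.cons w9 w6 w5 (.cons w3 w4 w1 (.last w2 w1 w1)))))
))) (.ny 41600 (.lf (.cons w3 w3 w3 (.cons w14 w25 w13 (.cons w29 w25 w26 (.cons w7 w7 w7 (.cons w7 w7 w3 (.cons w3 w4 w2 (.cons w2 w3 w1 (.last w2 w1 w1)))))))))
 (.lf (.cons w3 w3 w3 (.cons w7 w7 w7 (.cons w9 w6 w5 (.cons w3 w4 w2 (.cons w2 w3 w1 (.last w2 w1 w1)))))))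
)) (.ny 38815 (.ny 36217 (.nx 98913 (.lf (.cons w13 w9 w5 (.cons w7 w7 w3 (.cons w12 w9 w5 (.cons w13 w9 w8 (.cons w3 w2 w2 (.last w2 w1 w1)))))))
 (.nx 100641 (.lf (.cons w7 w7 w3 (.cons w14 w14 w13 (.cons w12 w9 w5 (.cons w13 w9 w8 (.cons w3 w2 w2 (.last w2 w1 w1)))))))
 (.n2 6547 (.lf (.cons w7 w7 w3 (.cons w14 w14 w13 (.cons w24 w9 w10 (.cons w9 w12 w5 (.cons w9 w13 w8 (.cons w4 w3 w1 (.cons w2 w3 w1 (.cons w10 w7 w4 (.cons w11 w12 w7 (.cons w5 w6 w3 (.cons w4 w4 w2 (.last w2 w2 w1)))))))))))))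
 (.n1 6547 (.lf (.cons w7 w7 w3 (.cons w14 w14 w13 (.cons w18 w24 w5 (.cons w9 w12 w5 (.cons w9 w13 w8 (.cons w4 w3 w1 (.cons w2 w3 w1 (.cons w10 w7 w4 (.cons w5 w6 w3 (.cons w4 w4 w2 (.last w2 w2 w1))))))))))))
 (.n3 6547 (.lf (.cons w7 w7 w3 (.cons w14 w14 w13 (.cons w12 w18 w5 (.cons w9 w12 w5 (.cons w9 w13 w8 (.cons w4 w3 w1 (.cons w2 w3 w1 (.cons w10 w7 w4 (.cons w5 w6 w3 (.cons w4 w4 w2 (.last w2 w2 w1))))))))))))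
 (.lf (.cons w7 w7 w3 (.cons w14 w14 w13 (.cons w12 w9 w5 (.cons w13 w9 w8 (.cons w3 w4 w1 (.cons w2 w3 w1 (.cons w10 w7 w4 (.cons w5 w6 w3 (.cons w4 w4 w2 (.last w2 w2 w1)))))))))))
))))) (.lf (.cons w13 w9 w10 (.cons w6 w9 w5 (.cons w9 w6 w5 (.cons w19 w25 w10 (.cons w33 w26 w10 (.cons w16 w13 w5 (.cons w2 w3 w2 (.last w2 w1 w1)))))))))
) (.lf (.cons w13 w9 w5 (.cons w6 w9 w5 (.cons w9 w6 w5 (.cons w7 w7 w3 (.cons w14 w14 w13 (.cons w58 w113 w53 (.cons w117 w113 w106 (.cons w29 w29 w27 (.cons w29 w29 w13 (.cons w6 w4 w2 (.cons w2 w3 w1 (.last w2 w1 w1)))))))))))))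
))) (.nx 89149 (.lf (.cons w3 w3 w3 (.cons w3 w4 w2 (.cons w2 w3 w2 (.last w2 w1 w1)))))
 (.ny 51212 (.nx 95545 (.lf (.cons w3 w3 w3 (.cons w7 w7 w7 (.cons w3 w4 w2 (.cons w3 w2 w1 (.last w2 w1 w1))))))
 (.ny 47784 (.nx 98913 (.lf (.cons w3 w3 w3 (.cons w7 w7 w7 (.cons w15 w15 w12 (.cons w31 w31 w48 (.cons w62 w62 w96 (.cons w61 w57 w50 (.cons w30 w57 w50 (.cons w15 w28 w25 (.cons w6 w4 w2 (.cons w2 w3 w1 (.last w2 w1 w1))))))))))))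
 (.lf (.cons w3 w3 w3 (.cons w7 w7 w7 (.cons w7 w7 w3 (.cons w2 w3 w2 (.last w2 w1 w1))))))
) (.lf (.cons w3 w3 w3 (.cons w7 w7 w7 (.cons w28 w29 w15 (.cons w6 w4 w2 (.cons w2 w3 w1 (.last w2 w1 w1)))))))
)) (.lf (.cons w3 w3 w3 (.cons w14 w7 w7 (.cons w3 w2 w2 (.last w2 w1 w1)))))
)))

theorem c115 : Cov false true 77612 102400 33792 58824 5773 7321 5773 7321 5773 7321 :=
  Cov.chk t115 (by decide +kernel)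

noncomputable def t116 : Tr :=
(.nx 77612 (.lf (.cons w6 w8 w5 (.cons w3 w2 w2 (.cons w4 w3 w2 (.last w2 w1 w1)))))
 (.ny 77612 (.nx 89149 (.ny 67568 (.nx 83181 (.ny 63045 (.lf (.cons w3 w3 w3 (.cons w2 w3 w2 (.last w2 w1 w1))))
 (.lf (.cons w6 w8 w5 (.cons w3 w2 w2 (.last w2 w1 w1))))
) (.lf (.cons w6 w6 w3 (.cons w3 w3 w3 (.cons w2 w3 w2 (.last w2 w1 w1)))))
) (.lf (.cons w6 w4 w5 (.cons w3 w2 w2 (.last w2 w1 w1))))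
) (.ny 67568 (.lf (.cons w3 w3 w3 (.cons w2 w3 w2 (.last w2 w1 w1))))
 (.nx 95545 (.lf (.cons w12 w9 w5 (.cons w25 w18 w11 (.cons w6 w8 w5 (.cons w3 w2 w2 (.last w2 w1 w1))))))
 (.lf (.cons w9 w6 w5 (.cons w3 w3 w3 (.cons w2 w3 w2 (.last w2 w1 w1)))))
))) (.nx 89149 (.lf (.cons w6 w4 w5 (.cons w3 w2 w2 (.last w2 w1 w1))))
 (.ny 89149 (.lf (.cons w9 w6 w5 (.cons w4 w6 w5 (.cons w2 w3 w2 (.last w2 w1 w1)))))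
 (.lf (.cons w6 w4 w5 (.cons w3 w2 w2 (.last w2 w1 w1))))
))))

theorem c116 : Cov false true 58824 102400 58824 102400 5773 7321 5773 7321 5773 7321 :=
  Cov.chk t116 (by decide +kernel)

end Pool.Agent.MP_a07d0e_nt
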