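import Pool.Agent.MP_a07d0e_nt.Top
import Pool.Agent.MP_a07d0e_nt.Cantor

namespace Pool.Agent.MP_a07d0e_nt

def Apx (u1 u2 u3 : St) (τ ε : ℝ) : Prop :=
  ∃ t1 ∈ E, ∃ t2 ∈ E, ∃ t3 ∈ E, |u1.f t1 + u2.f t2 + u3.f t3 - τ| ≤ ε

lemma f_close {s : St} (h : InI s.r) {p q : ℝ} (hp : InI p) (hq : InI q) :
    |s.f p - s.f q| ≤ s.L := by
  have hr := h.nonneg
  have hp0 := hp.nonneg
  have hq0 := hq.nonneg
  rw [f_sub hr hp0 hq0, abs_div, abs_mul,
    abs_of_pos (by positivity : 0 < (1 + s.r * p) * (1 + s.r * q))]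
  simp only [St.L, St.D]
  have h1 : |p - q| ≤ 38 / 100 := by
    have := hp.1; have := hp.2; have := hq.1; have := hq.2
    rw [abs_le]; constructor <;> linarith
  have h2 : 1 ≤ (1 + s.r * p) * (1 + s.r * q) := by
    nlinarith [mul_nonneg hr hp0, mul_nonneg hr hq0, mul_nonneg (mul_nonneg hr hp0) (mul_nonneg hr hq0)]
  have h3 : (1 + s.r * (57 / 100)) ^ 2 ≤ 5 / 2 := by have := h.2; nlinarith
  have hW := abs_nonneg s.W
  calc |s.W| * |p - q| / ((1 + s.r * p) * (1 + s.r * q)) ≤ |s.W| * |p - q| :=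
        div_le_self (by positivity) h2
    _ ≤ |s.W| * (38 / 100) := mul_le_mul_of_nonneg_left h1 hW
    _ ≤ |s.W| / (5 / 2) := by linarith
    _ ≤ _ := div_le_div_of_nonneg_left hW (by positivity) h3

lemma lo_close {s : St} (h : InI s.r) {p : ℝ} (hp : InI p) :
    s.f p - s.lo ≤ s.L ∧ s.hi - s.f p ≤ s.L := by
  have hA : InI (46 / 100) := by constructor <;> norm_num
  have hB : InI (67 / 100) := by constructor <;> norm_num
  have h1 := abs_le.1 (f_close h hp hA)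
  have h2 := abs_le.1 (f_close h hp hB)
  simp only [St.lo, St.hi]
  split_ifs <;> constructor <;> linarith [h1.1, h1.2, h2.1, h2.2]

lemma apx_base {u1 u2 u3 : St} {τ : ℝ} (G : Good u1 u2 u3 τ) :
    Apx u1 u2 u3 τ (u1.L + u2.L + u3.L) := by
  obtain ⟨t, ht⟩ := E_nonempty
  have h1 := lo_close G.x1.1 (E_InI ht)
  have h2 := lo_close G.x2.1 (E_InI ht)
  have h3 := lo_close G.x3.1 (E_InI ht)
  refine ⟨t, ht, t, ht, t, ht, ?_⟩
  have := G.lo; have := G.hi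
  rw [abs_le]; constructor <;> linarith [h1.1, h1.2, h2.1, h2.2, h3.1, h3.2]

def St.neg (s : St) : St := ⟨-s.c, -s.W, s.r⟩

lemma neg_f (s : St) (t : ℝ) : s.neg.f t = -s.f t := by simp only [St.neg, St.f]; ring

lemma neg_L (s : St) : s.neg.L = s.L := by simp only [St.neg, St.L, St.D, abs_neg]

lemma neg_lo {s : St} (h : s.W ≠ 0) : s.neg.lo = -s.hi ∧ s.neg.hi = -s.lo := by
  simp only [St.lo, St.hi, neg_f]
  have e : s.neg.W = -s.W := rfl
  rw [e]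
  rcases lt_or_gt_of_ne h with h | h
  · simp [h, not_lt.2 h.le]
  · simp [h, not_lt.2 h.le]

lemma Good.neg {u1 u2 u3 : St} {τ : ℝ} (G : Good u1 u2 u3 τ) :
    Good u1.neg u2.neg u3.neg (-τ) := by
  refine ⟨G.x1, G.x2, G.x3, neg_ne_zero.2 G.w1, neg_ne_zero.2 G.w2, neg_ne_zero.2 G.w3,
    ?_, ?_, ?_, ?_, ?_, ?_, ?_, ?_⟩
  · simpa only [neg_L] using G.r12
  · simpa only [neg_L] using G.r21
  · simpa only [neg_L] using G.r13
  · simpa only [neg_L] using G.r31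
  · simpa only [neg_L] using G.r23
  · simpa only [neg_L] using G.r32
  · rw [(neg_lo G.w1).1, (neg_lo G.w2).1, (neg_lo G.w3).1]; have := G.hi; linarith
  · rw [(neg_lo G.w1).2, (neg_lo G.w2).2, (neg_lo G.w3).2]; have := G.lo; linarith

lemma Apx.of_neg {u1 u2 u3 : St} {τ ε : ℝ} (h : Apx u1.neg u2.neg u3.neg (-τ) ε) :
    Apx u1 u2 u3 τ ε := by
  obtain ⟨t1, h1, t2, h2, t3, h3, h⟩ := h
  refine ⟨t1, h1, t2, h2, t3, h3, ?_⟩
  simp only [neg_f] at h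
  rw [← abs_neg]; convert h using 2; ring

lemma Good.s12 {u1 u2 u3 : St} {τ : ℝ} (G : Good u1 u2 u3 τ) : Good u2 u1 u3 τ :=
  ⟨G.x2, G.x1, G.x3, G.w2, G.w1, G.w3, G.r21, G.r12, G.r23, G.r32, G.r13, G.r31,
    by have := G.lo; linarith, by have := G.hi; linarith⟩

lemma Good.s23 {u1 u2 u3 : St} {τ : ℝ} (G : Good u1 u2 u3 τ) : Good u1 u3 u2 τ :=
  ⟨G.x1, G.x3, G.x2, G.w1, G.w3, G.w2, G.r13, G.r31, G.r12, G.r21, G.r32, G.r23,
    by have := G.lo; linarith, by have := G.hi; linarith⟩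

lemma Apx.s12 {u1 u2 u3 : St} {τ ε : ℝ} (h : Apx u2 u1 u3 τ ε) : Apx u1 u2 u3 τ ε := by
  obtain ⟨t1, h1, t2, h2, t3, h3, h⟩ := h
  exact ⟨t2, h2, t1, h1, t3, h3, by convert h using 2; ring⟩

lemma Apx.s23 {u1 u2 u3 : St} {τ ε : ℝ} (h : Apx u1 u3 u2 τ ε) : Apx u1 u2 u3 τ ε := by
  obtain ⟨t1, h1, t2, h2, t3, h3, h⟩ := h
  exact ⟨t1, h1, t3, h3, t2, h2, by convert h using 2; ring⟩

lemma exists_Sg {s : St} (h : s.W ≠ 0) : ∃ b, Sg b s := by
  rcases lt_or_gt_of_ne h with h | h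
  · exact ⟨true, by simpa [Sg] using h⟩
  · exact ⟨false, by simpa [Sg] using h⟩

lemma exists_cls {r : ℝ} (h : InX r) : ∃ k, (aa k : ℝ) ≤ 10000 * r ∧ 10000 * r ≤ bb k := by
  obtain ⟨⟨h1, h2⟩, h | h⟩ := h
  · exact ⟨false, by simp only [aa, bb, cond_false]; push_cast; constructor <;> linarith⟩
  · exact ⟨true, by simp only [aa, bb, cond_true]; push_cast; constructor <;> linarith⟩

lemma next_sorted {u1 u2 u3 : St} {τ : ℝ} (G : Good u1 u2 u3 τ) (hW : 0 < u1.W)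
    (h21 : u2.L ≤ u1.L) (h32 : u3.L ≤ u2.L) : Next u1 u2 u3 τ := by
  obtain ⟨s2, g2⟩ := exists_Sg G.w2
  obtain ⟨s3, g3⟩ := exists_Sg G.w3
  obtain ⟨k1, a1, b1⟩ := exists_cls G.x1
  obtain ⟨k2, a2, b2⟩ := exists_cls G.x2
  obtain ⟨k3, a3, b3⟩ := exists_cls G.x3
  refine top_all s2 s3 k1 k2 k3 u1 u2 u3 τ G h32
    ⟨by simpa [Sg] using hW, g2, g3, ?_, ?_, ?_, ?_, a1, b1, a2, b2, a3, b3⟩
  · have := G.r12; push_cast; linarith
  · push_cast; linarith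
  · have := G.r13; push_cast; linarith
  · push_cast; linarith

theorem apx (n : ℕ) : ∀ (u1 u2 u3 : St) (τ : ℝ), Good u1 u2 u3 τ →
    Apx u1 u2 u3 τ ((5 / 6) ^ n * (u1.L + u2.L + u3.L)) := by
  induction n with
  | zero => intro u1 u2 u3 τ G; simpa using apx_base G
  | succ n ih =>
    have key : ∀ (u1 u2 u3 : St) (τ : ℝ), Good u1 u2 u3 τ → 0 < u1.W → u2.L ≤ u1.L →
        u3.L ≤ u2.L → Apx u1 u2 u3 τ ((5 / 6) ^ (n + 1) * (u1.L + u2.L + u3.L)) := by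
      intro u1 u2 u3 τ G hW h21 h32
      obtain ⟨l1, l2, l3, hl, G'⟩ := next_sorted G hW h21 h32
      obtain ⟨t1, h1, t2, h2, t3, h3, h⟩ := ih _ _ _ _ G'
      rw [f_child l1 G.x1.1.nonneg (E_InI h1).nonneg, f_child l2 G.x2.1.nonneg (E_InI h2).nonneg,
        f_child l3 G.x3.1.nonneg (E_InI h3).nonneg] at h
      refine ⟨_, wd_mem l1 h1, _, wd_mem l2 h2, _, wd_mem l3 h3, h.trans ?_⟩
      have m1 := L_child_ne hl G.x1.1
      have m2 := L_child l2 G.x2.1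
      have m3 := L_child l3 G.x3.1
      rw [pow_succ, mul_assoc]
      apply mul_le_mul_of_nonneg_left _ (by positivity)
      linarith
    have key2 : ∀ (u1 u2 u3 : St) (τ : ℝ), Good u1 u2 u3 τ → u2.L ≤ u1.L →
        u3.L ≤ u2.L → Apx u1 u2 u3 τ ((5 / 6) ^ (n + 1) * (u1.L + u2.L + u3.L)) := by
      intro u1 u2 u3 τ G h21 h32
      rcases lt_or_gt_of_ne G.w1 with h | h
      · have := key _ _ _ _ G.neg (neg_pos.2 h) (by simpa only [neg_L] using h21)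
          (by simpa only [neg_L] using h32)
        simp only [neg_L] at this
        exact this.of_neg
      · exact key _ _ _ _ G h h21 h32
    have key3 : ∀ (u1 u2 u3 : St) (τ : ℝ), Good u1 u2 u3 τ → u2.L ≤ u1.L →
        u3.L ≤ u1.L → Apx u1 u2 u3 τ ((5 / 6) ^ (n + 1) * (u1.L + u2.L + u3.L)) := by
      intro u1 u2 u3 τ G h21 h31
      rcases le_total u3.L u2.L with h | h
      · exact key2 _ _ _ _ G h21 h
      · have := (key2 _ _ _ _ G.s23 h31 h).s23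
        rwa [show u1.L + u3.L + u2.L = u1.L + u2.L + u3.L by ring] at this
    intro u1 u2 u3 τ G
    by_cases c1 : u2.L ≤ u1.L ∧ u3.L ≤ u1.L
    · exact key3 _ _ _ _ G c1.1 c1.2
    by_cases c2 : u1.L ≤ u2.L ∧ u3.L ≤ u2.L
    · have := (key3 _ _ _ _ G.s12 c2.1 c2.2).s12
      rwa [show u2.L + u1.L + u3.L = u1.L + u2.L + u3.L by ring] at this
    · have c3 : u1.L ≤ u3.L ∧ u2.L ≤ u3.L := by
        rw [not_and_or, not_le, not_le] at c1 c2
        rcases c1 with c1 | c1 <;> rcases c2 with c2 | c2 <;> constructor <;> linarith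
      have := (key3 _ _ _ _ G.s23.s12 c3.1 c3.2).s12.s23
      rwa [show u3.L + u1.L + u2.L = u1.L + u2.L + u3.L by ring] at this

lemma f_contOn {s : St} (hr : 0 ≤ s.r) : ContinuousOn s.f E := by
  apply ContinuousOn.add continuousOn_const
  apply ContinuousOn.div (by fun_prop) (by fun_prop)
  intro t ht
  have := (E_InI ht).nonneg
  positivity

theorem exists_sol {u1 u2 u3 : St} {τ : ℝ} (G : Good u1 u2 u3 τ) :
    ∃ t1 ∈ E, ∃ t2 ∈ E, ∃ t3 ∈ E, u1.f t1 + u2.f t2 + u3.f t3 = τ := by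
  have c1 := E_compact.image_of_continuousOn (f_contOn G.x1.1.nonneg)
  have c2 := E_compact.image_of_continuousOn (f_contOn G.x2.1.nonneg)
  have c3 := E_compact.image_of_continuousOn (f_contOn G.x3.1.nonneg)
  have hK := ((c1.add c2).add c3).isClosed
  have hmem := hK.closure_subset (a := τ) (by
    rw [Metric.mem_closure_iff]
    intro ε hε
    have hC : 0 ≤ u1.L + u2.L + u3.L := by
      have := L_nonneg u1; have := L_nonneg u2; have := L_nonneg u3; linarith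
    obtain ⟨n, hn⟩ := exists_pow_lt_of_lt_one (x := ε / (u1.L + u2.L + u3.L + 1))
      (y := (5 / 6 : ℝ)) (by positivity) (by norm_num)
    obtain ⟨t1, h1, t2, h2, t3, h3, h⟩ := apx n _ _ _ _ G
    refine ⟨u1.f t1 + u2.f t2 + u3.f t3, Set.add_mem_add (Set.add_mem_add ⟨t1, h1, rfl⟩
      ⟨t2, h2, rfl⟩) ⟨t3, h3, rfl⟩, ?_⟩
    rw [dist_comm, Real.dist_eq]
    rw [lt_div_iff₀ (by positivity)] at hn
    have : (0 : ℝ) < (5 / 6) ^ n := by positivity
    nlinarith)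
  obtain ⟨_, ⟨_, ⟨t1, h1, rfl⟩, _, ⟨t2, h2, rfl⟩, rfl⟩, _, ⟨t3, h3, rfl⟩, h⟩ := hmem
  exact ⟨t1, h1, t2, h2, t3, h3, h⟩

end Pool.Agent.MP_a07d0e_nt
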