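import Pool.Agent.MP_a07d0e_nt.Exist

namespace Pool.Agent.MP_a07d0e_nt

noncomputable def ts : ℝ := (Real.sqrt 10 - 2) / 3
noncomputable def tp : ℝ := (Real.sqrt 10 - 2) / 2
noncomputable def ta : ℝ := (Real.sqrt 10 - 1) / 3

lemma sq10 : Real.sqrt 10 * Real.sqrt 10 = 10 := Real.mul_self_sqrt (by norm_num)

lemma sq10_bd : 3162 / 1000 ≤ Real.sqrt 10 ∧ Real.sqrt 10 ≤ 3163 / 1000 := by
  have h := sq10
  have h0 := Real.sqrt_nonneg 10
  constructor <;> nlinarith

lemma ts_bd : 387 / 1000 ≤ ts ∧ ts ≤ 388 / 1000 := by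
  have := sq10_bd; simp only [ts]; constructor <;> linarith [this.1, this.2]

lemma tp_bd : 581 / 1000 ≤ tp ∧ tp ≤ 582 / 1000 := by
  have := sq10_bd; simp only [tp]; constructor <;> linarith [this.1, this.2]

lemma ta_bd : 72 / 100 ≤ ta ∧ ta ≤ 73 / 100 := by
  have := sq10_bd; simp only [ta]; constructor <;> linarith [this.1, this.2]

lemma e1 : 1 / (dg false + ts) = ta := by
  have := ts_bd.1; have h := sq10
  simp only [dg, Bool.false_eq_true, if_false]
  rw [div_eq_iff (by linarith)]; simp only [ts, ta]; nlinarith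

lemma e2 : 1 / (dg false + ta) = tp := by
  have := ta_bd.1; have h := sq10
  simp only [dg, Bool.false_eq_true, if_false]
  rw [div_eq_iff (by linarith)]; simp only [tp, ta]; nlinarith

lemma e3 : 1 / (dg true + tp) = ts := by
  have := tp_bd.1; have h := sq10
  simp only [dg, if_true]
  rw [div_eq_iff (by linarith)]; simp only [ts, tp]; nlinarith

def PP : List Bool := [true, false, false, true, false, false]
def QQ : List Bool := [false, false, true, false, false, true]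

noncomputable def lam : ℝ := ((2 + tp) * (1 + ta) * (1 + ts)) ^ 2

lemma wd_PP : wd PP ts = ts ∧ den PP ts = lam := by
  simp only [PP, wd, den, e1, e2, e3, true_and]
  simp only [lam, dg, Bool.false_eq_true, if_false, if_true]; ring

lemma wd_QQ : wd QQ tp = tp ∧ den QQ tp = lam := by
  simp only [QQ, wd, den, e1, e2, e3, true_and]
  simp only [lam, dg, Bool.false_eq_true, if_false, if_true]; ring

lemma lam_ge : 2 ≤ lam ^ 2 := by
  have h1 := tp_bd.1; have h2 := ta_bd.1; have h3 := ts_bd.1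
  have : 2 ≤ (2 + tp) * (1 + ta) * (1 + ts) := by
    have : 2 ≤ (2 + tp) * (1 + ta) := by nlinarith
    nlinarith
  have : 2 ≤ lam := by simp only [lam]; nlinarith
  nlinarith

structure J (u1 u2 u3 : St) (y δ : ℝ) : Prop where
  r1 : 0 ≤ u1.r
  r2 : 0 ≤ u2.r
  r3 : 0 ≤ u3.r
  g1 : Sg false u1
  g2 : Sg false u2
  g3 : Sg false u3
  sum : u1.f ts + u2.f ts + u3.f tp = 1
  d2 : 5 * u2.D ts = 2 * u1.D ts
  d3 : 5 * u3.D tp = 2 * u1.D ts
  c1 : ∀ t ∈ E, ∃ t' ∈ E, u1.f t = 1 / ((3 : ℤ) + 1 / ((1 : ℤ) + t'))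
  c2 : ∀ t ∈ E, ∃ t' ∈ E, u2.f t = 1 / ((3 : ℤ) + 1 / ((2 : ℤ) + t'))
  c3 : ∀ t ∈ E, ∃ t' ∈ E, u3.f t = 1 / ((2 : ℤ) + 1 / ((3 : ℤ) + t'))
  hy : u2.f ts = y
  hδ : u2.D ts ≤ δ

lemma D_nonneg (s : St) (t : ℝ) : 0 ≤ s.D t := by simp only [St.D]; positivity

lemma J.next {u1 u2 u3 : St} {y δ : ℝ} (h : J u1 u2 u3 y δ) :
    J (child PP u1) (child PP u2) (child QQ u3) y (δ / 2) := by
  have hs : 0 ≤ ts := by have := ts_bd.1; linarith
  have hp : 0 ≤ tp := by have := tp_bd.1; linarith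
  have hl := lam_ge
  refine ⟨child_r_nonneg _ h.r1, child_r_nonneg _ h.r2, child_r_nonneg _ h.r3,
    Sg_child PP h.r1 h.g1, Sg_child PP h.r2 h.g2, Sg_child QQ h.r3 h.g3, ?_, ?_, ?_, ?_, ?_, ?_,
    ?_, ?_⟩
  · rw [f_child _ h.r1 hs, f_child _ h.r2 hs, f_child _ h.r3 hp, wd_PP.1, wd_QQ.1]; exact h.sum
  · rw [D_child _ h.r1 hs, D_child _ h.r2 hs, wd_PP.1, wd_PP.2, ← mul_div_assoc, h.d2,
      mul_div_assoc]
  · rw [D_child _ h.r1 hs, D_child _ h.r3 hp, wd_PP.1, wd_PP.2, wd_QQ.1, wd_QQ.2,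
      ← mul_div_assoc, h.d3, mul_div_assoc]
  · intro t ht; rw [f_child _ h.r1 (E_InI ht).nonneg]; exact h.c1 _ (wd_mem _ ht)
  · intro t ht; rw [f_child _ h.r2 (E_InI ht).nonneg]; exact h.c2 _ (wd_mem _ ht)
  · intro t ht; rw [f_child _ h.r3 (E_InI ht).nonneg]; exact h.c3 _ (wd_mem _ ht)
  · rw [f_child _ h.r2 hs, wd_PP.1]; exact h.hy
  · rw [D_child _ h.r2 hs, wd_PP.1, wd_PP.2]
    have h0 := D_nonneg u2 ts
    have := h.hδ
    calc u2.D ts / lam ^ 2 ≤ u2.D ts / 2 := div_le_div_of_nonneg_left h0 (by norm_num) hl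
      _ ≤ δ / 2 := by linarith

noncomputable def v0 : St := ⟨0, 1, 0⟩
noncomputable def v1 : St := step 1 (step 3 v0)
noncomputable def v2 : St := step 2 (step 3 v0)
noncomputable def v3 : St := step 3 (step 2 v0)

lemma v_f {d e : ℝ} (hd : 1 ≤ d) (he : 1 ≤ e) {t : ℝ} (ht : 0 ≤ t) :
    (step e (step d v0)).f t = 1 / (d + 1 / (e + t)) ∧
      (step e (step d v0)).D t = 1 / (d * (e + t) + 1) ^ 2 := by
  have h0 : 0 ≤ v0.r := le_rfl
  have h1 := step_r_nonneg hd h0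
  have h2 : 0 ≤ 1 / (e + t) := by positivity
  rw [f_step he h1 ht, f_step hd h0 h2, D_step he h1 ht, D_step hd h0 h2]
  simp only [v0, St.f, St.D]
  have : e + t ≠ 0 := by positivity
  have : d * (e + t) + 1 ≠ 0 := by positivity
  constructor
  · simp
  · simp only [abs_one, zero_mul, add_zero, one_pow]
    field_simp

lemma J_base : J v1 v2 v3 (v2.f ts) (v2.D ts) := by
  have hs : 0 ≤ ts := by have := ts_bd.1; linarith
  have hp : 0 ≤ tp := by have := tp_bd.1; linarith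
  have h0 : 0 ≤ v0.r := le_rfl
  have g0 : Sg false v0 := by simp [Sg, v0]
  have n3 : (1 : ℝ) ≤ 3 := by norm_num
  have n2 : (1 : ℝ) ≤ 2 := by norm_num
  have n1 : (1 : ℝ) ≤ 1 := le_rfl
  have h := sq10
  have hb := sq10_bd.1
  have a1 : 3 * (1 + ts) + 1 = 2 + Real.sqrt 10 := by simp only [ts]; ring
  have a2 : 3 * (2 + ts) + 1 = 5 + Real.sqrt 10 := by simp only [ts]; ring
  have a3 : 2 * (3 + tp) + 1 = 5 + Real.sqrt 10 := by simp only [tp]; ring
  have dd : 5 * (1 / (5 + Real.sqrt 10) ^ 2) = 2 * (1 / (2 + Real.sqrt 10) ^ 2) := by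
    field_simp; nlinarith
  refine ⟨step_r_nonneg n1 (step_r_nonneg n3 h0), step_r_nonneg n2 (step_r_nonneg n3 h0),
    step_r_nonneg n3 (step_r_nonneg n2 h0),
    Sg_step n1 (step_r_nonneg n3 h0) (Sg_step n3 h0 g0),
    Sg_step n2 (step_r_nonneg n3 h0) (Sg_step n3 h0 g0),
    Sg_step n3 (step_r_nonneg n2 h0) (Sg_step n2 h0 g0), ?_, ?_, ?_, ?_, ?_, ?_, rfl, le_rfl⟩
  · rw [v1, v2, v3, (v_f n3 n1 hs).1, (v_f n3 n2 hs).1, (v_f n2 n3 hp).1]
    have b1 : 1 / (3 + 1 / (1 + ts)) = (8 - Real.sqrt 10) / 18 := by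
      have : 1 / (3 + 1 / (1 + ts)) = (1 + ts) / (3 * (1 + ts) + 1) := by field_simp
      rw [this, a1, div_eq_iff (by linarith)]; simp only [ts]; nlinarith
    have b2 : 1 / (3 + 1 / (2 + ts)) = (10 + Real.sqrt 10) / 45 := by
      have : 1 / (3 + 1 / (2 + ts)) = (2 + ts) / (3 * (2 + ts) + 1) := by field_simp
      rw [this, a2, div_eq_iff (by linarith)]; simp only [ts]; nlinarith
    have b3 : 1 / (2 + 1 / (3 + tp)) = (10 + Real.sqrt 10) / 30 := by
      have : 1 / (2 + 1 / (3 + tp)) = (3 + tp) / (2 * (3 + tp) + 1) := by field_simp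
      rw [this, a3, div_eq_iff (by linarith)]; simp only [tp]; nlinarith
    rw [b1, b2, b3]; ring
  · rw [v1, v2, (v_f n3 n1 hs).2, (v_f n3 n2 hs).2, a1, a2]; exact dd
  · rw [v1, v3, (v_f n3 n1 hs).2, (v_f n2 n3 hp).2, a1, a3]; exact dd
  · intro t ht
    exact ⟨t, ht, by rw [v1, (v_f n3 n1 (E_InI ht).nonneg).1]; push_cast; rfl⟩
  · intro t ht
    exact ⟨t, ht, by rw [v2, (v_f n3 n2 (E_InI ht).nonneg).1]; push_cast; rfl⟩
  · intro t ht
    exact ⟨t, ht, by rw [v3, (v_f n2 n3 (E_InI ht).nonneg).1]; push_cast; rfl⟩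

lemma InI_base : InI (child PP v1).r ∧ InI (child PP v2).r ∧ InI (child QQ v3).r := by
  simp only [PP, QQ, child, v0, v1, v2, v3, step, dg, InI, Bool.false_eq_true, if_false, if_true]
  norm_num

lemma J_all (n : ℕ) : ∃ u1 u2 u3, J u1 u2 u3 (v2.f ts) (v2.D ts / 2 ^ n) ∧
    InI u1.r ∧ InI u2.r ∧ InI u3.r := by
  induction n with
  | zero =>
    refine ⟨_, _, _, { J_base.next with hδ := ?_ }, InI_base⟩
    have := J_base.next.hδ
    have := D_nonneg v2 ts
    simp only [pow_zero, div_one]; linarith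
  | succ n ih =>
    obtain ⟨u1, u2, u3, h, i1, i2, i3⟩ := ih
    refine ⟨_, _, _, ?_, InI_child PP i1, InI_child PP i2, InI_child QQ i3⟩
    have := h.next
    rwa [div_div, ← pow_succ] at this

lemma f_sub_D {s : St} (hr : 0 ≤ s.r) (h : Sg false s) {p t : ℝ} (hp : 0 ≤ p) (ht : 0 ≤ t) :
    s.f p - s.f t = s.D t * ((p - t) * ((1 + s.r * t) / (1 + s.r * p))) := by
  rw [f_sub hr hp ht]
  have hW : 0 < s.W := by simpa [Sg] using h
  simp only [St.D, abs_of_pos hW]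
  have h1 : 1 + s.r * p ≠ 0 := by positivity
  have h2 : 1 + s.r * t ≠ 0 := by positivity
  field_simp

lemma f_concave {s : St} (hr : 0 ≤ s.r) (h : Sg false s) {p t : ℝ} (hp : 0 ≤ p) (ht : 0 ≤ t) :
    s.f p - s.f t ≤ s.D t * (p - t) := by
  rw [f_sub_D hr h hp ht]
  apply mul_le_mul_of_nonneg_left _ (D_nonneg _ _)
  rw [← mul_div_assoc, div_le_iff₀ (by positivity)]
  nlinarith [mul_nonneg hr (sq_nonneg (p - t))]

lemma L_step_D {s : St} (hr : 0 ≤ s.r) {d t a b : ℝ} (hd : 1 ≤ d) (ht : 0 ≤ t) (ha : 0 ≤ a)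
    (h1 : a * (d + 57 / 100 + s.r) ≤ 1 + s.r * t) (h2 : 1 + s.r * t ≤ b * (d + 57 / 100 + s.r)) :
    a ^ 2 * s.D t ≤ (step d s).L ∧ (step d s).L ≤ b ^ 2 * s.D t := by
  have e : (step d s).L = ((1 + s.r * t) / (d + 57 / 100 + s.r)) ^ 2 * s.D t := by
    simp only [St.L]
    rw [D_step hd hr (by norm_num)]
    simp only [St.D]
    have : 1 + s.r * t ≠ 0 := by positivity
    have : d + 57 / 100 ≠ 0 := by positivity
    have : d + 57 / 100 + s.r ≠ 0 := by positivity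
    have e : (1 + s.r * (1 / (d + 57 / 100))) ^ 2 * (d + 57 / 100) ^ 2
        = (d + 57 / 100 + s.r) ^ 2 := by
      field_simp
    rw [div_div, e, div_pow, div_mul_div_comm, mul_comm ((1 + s.r * t) ^ 2),
      mul_div_mul_right _ _ (pow_ne_zero 2 ‹1 + s.r * t ≠ 0›)]
  have hp : 0 < d + 57 / 100 + s.r := by positivity
  rw [e]
  have k1 : a ≤ (1 + s.r * t) / (d + 57 / 100 + s.r) := by rwa [le_div_iff₀ hp]
  have k2 : (1 + s.r * t) / (d + 57 / 100 + s.r) ≤ b := by rwa [div_le_iff₀ hp]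
  have := D_nonneg s t
  have k3 := ha.trans k1
  constructor <;> gcongr

lemma side_good {u1 u2 u3 : St} {y δ : ℝ} (h : J u1 u2 u3 y δ) (i1 : InI u1.r) (i2 : InI u2.r)
    (i3 : InI u3.r) : Good (step (dg true) u1) (step (dg false) u2) (step (dg true) u3) 1 := by
  obtain ⟨s0, s1⟩ := ts_bd
  obtain ⟨p0, p1⟩ := tp_bd
  have hs : 0 ≤ ts := by linarith
  have hp : 0 ≤ tp := by linarith
  have g1 : (step (dg true) u1).W < 0 := by simpa [Sg] using Sg_step (dg_ge true) h.r1 h.g1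
  have g2 : (step (dg false) u2).W < 0 := by simpa [Sg] using Sg_step (dg_ge false) h.r2 h.g2
  have g3 : (step (dg true) u3).W < 0 := by simpa [Sg] using Sg_step (dg_ge true) h.r3 h.g3
  have d2 : dg true = 2 := by simp [dg]
  have d1 : dg false = 1 := by simp [dg]
  obtain ⟨a1, b1⟩ := i1
  obtain ⟨a2, b2⟩ := i2
  obtain ⟨a3, b3⟩ := i3
  obtain ⟨l1, m1⟩ := L_step_D h.r1 (dg_ge true) hs (a := 38 / 100) (b := 40 / 100) (by norm_num)
    (by rw [d2]; nlinarith) (by rw [d2]; nlinarith)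
  obtain ⟨l2, m2⟩ := L_step_D h.r2 (dg_ge false) hs (a := 55 / 100) (b := 60 / 100) (by norm_num)
    (by rw [d1]; nlinarith) (by rw [d1]; nlinarith)
  obtain ⟨l3, m3⟩ := L_step_D h.r3 (dg_ge true) hp (a := 41 / 100) (b := 44 / 100) (by norm_num)
    (by rw [d2]; nlinarith) (by rw [d2]; nlinarith)
  have hD := D_nonneg u1 ts
  have hD2 := D_nonneg u2 ts
  have hD3 := D_nonneg u3 tp
  have k2 := h.d2
  have k3 := h.d3
  have hsum := h.sum
  refine ⟨InX_T true ⟨a1, b1⟩, InX_T false ⟨a2, b2⟩, InX_T true ⟨a3, b3⟩, g1.ne, g2.ne, g3.ne,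
    by linarith, by linarith, by linarith, by linarith, by linarith, by linarith, ?_, ?_⟩
  · simp only [St.lo, g1, g2, g3, if_true]
    rw [f_step (dg_ge _) h.r1 (by norm_num), f_step (dg_ge _) h.r2 (by norm_num),
      f_step (dg_ge _) h.r3 (by norm_num), d1, d2]
    have c1 := f_concave h.r1 h.g1 (p := 1 / (2 + 67 / 100)) (by norm_num) hs
    have c2 := f_concave h.r2 h.g2 (p := 1 / (1 + 67 / 100)) (by norm_num) hs
    have c3 := f_concave h.r3 h.g3 (p := 1 / (2 + 67 / 100)) (by norm_num) hp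
    have t1 : u1.D ts * (1 / (2 + 67 / 100) - ts) ≤ u1.D ts * (-(12 / 1000)) :=
      mul_le_mul_of_nonneg_left (by norm_num; linarith) hD
    have t2 : u2.D ts * (1 / (1 + 67 / 100) - ts) ≤ u2.D ts * (212 / 1000) :=
      mul_le_mul_of_nonneg_left (by norm_num; linarith) hD2
    have t3 : u3.D tp * (1 / (2 + 67 / 100) - tp) ≤ u3.D tp * (-(206 / 1000)) :=
      mul_le_mul_of_nonneg_left (by norm_num; linarith) hD3
    linarith
  · simp only [St.hi, g1, g2, g3, if_true]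
    rw [f_step (dg_ge _) h.r1 (by norm_num), f_step (dg_ge _) h.r2 (by norm_num),
      f_step (dg_ge _) h.r3 (by norm_num), d1, d2]
    have c1 := f_sub_D h.r1 h.g1 (p := 1 / (2 + 46 / 100)) (by norm_num) hs
    have c2 := f_sub_D h.r2 h.g2 (p := 1 / (1 + 46 / 100)) (by norm_num) hs
    have c3 := f_sub_D h.r3 h.g3 (p := 1 / (2 + 46 / 100)) (by norm_num) hp
    have r1 := h.r1
    have r2 := h.r2
    have r3 := h.r3
    have t1 : u1.D ts * 0 ≤ u1.D ts * ((1 / (2 + 46 / 100) - ts) *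
        ((1 + u1.r * ts) / (1 + u1.r * (1 / (2 + 46 / 100))))) :=
      mul_le_mul_of_nonneg_left (mul_nonneg (by norm_num; linarith) (by positivity)) hD
    have t2 : u2.D ts * ((29 / 100) * (84 / 100)) ≤ u2.D ts * ((1 / (1 + 46 / 100) - ts) *
        ((1 + u2.r * ts) / (1 + u2.r * (1 / (1 + 46 / 100))))) := by
      apply mul_le_mul_of_nonneg_left _ hD2
      apply mul_le_mul (by norm_num; linarith) _ (by norm_num) (by norm_num; linarith)
      rw [le_div_iff₀ (by positivity)]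
      norm_num
      nlinarith
    have t3 : u3.D tp * (-((18 / 100) * (12 / 10))) ≤ u3.D tp * ((1 / (2 + 46 / 100) - tp) *
        ((1 + u3.r * tp) / (1 + u3.r * (1 / (2 + 46 / 100))))) := by
      apply mul_le_mul_of_nonneg_left _ hD3
      have q1 : (tp - 1 / (2 + 46 / 100)) *
          ((1 + u3.r * tp) / (1 + u3.r * (1 / (2 + 46 / 100)))) ≤ (18 / 100) * (12 / 10) := by
        apply mul_le_mul (by norm_num; linarith) _ (by positivity) (by norm_num)
        rw [div_le_iff₀ (by positivity)]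
        norm_num
        nlinarith
      linarith
    linarith

theorem near_sol {j : ℕ} (hj : 2 ≤ j) (n : ℕ) :
    ∃ p ∈ Sset j, 0 < p.2.1 - v2.f ts ∧ p.2.1 - v2.f ts ≤ v2.D ts / 2 ^ n := by
  obtain ⟨u1, u2, u3, h, i1, i2, i3⟩ := J_all n
  obtain ⟨t1, h1, t2, h2, t3, h3, hs⟩ := exists_sol (side_good h i1 i2 i3)
  rw [f_step (dg_ge _) h.r1 (E_InI h1).nonneg, f_step (dg_ge _) h.r2 (E_InI h2).nonneg,
    f_step (dg_ge _) h.r3 (E_InI h3).nonneg] at hs
  change u1.f (T true t1) + u2.f (T false t2) + u3.f (T true t3) = 1 at hs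
  obtain ⟨x, hx, ex⟩ := h.c1 _ (T_mem h1 true)
  obtain ⟨y, hy, ey⟩ := h.c2 _ (T_mem h2 false)
  obtain ⟨z, hz, ez⟩ := h.c3 _ (T_mem h3 true)
  have x0 := (E_InI hx).nonneg
  have x1 := (E_InI hx).lt_one
  have y0 := (E_InI hy).nonneg
  have z0 := (E_InI hz).nonneg
  obtain ⟨s0, s1⟩ := ts_bd
  have hs0 : 0 ≤ ts := by linarith
  have hT := E_InI (T_mem h2 false)
  have hT2 : 1 / 2 ≤ T false t2 := by
    have := (E_InI h2).lt_one
    have := (E_InI h2).nonneg
    simp only [T, dg, Bool.false_eq_true, if_false]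
    exact one_div_le_one_div_of_le (by linarith) (by linarith)
  refine ⟨(u1.f (T true t1), u2.f (T false t2), u3.f (T true t3)), ⟨?_, ?_, ?_, ?_, ?_, hs⟩, ?_, ?_⟩
  · simp only [ex]; exact mem_Bset hx 3 1 (by norm_num) (by norm_num) (by norm_num) (by norm_num) hj
  · simp only [ey]; exact mem_Bset hy 3 2 (by norm_num) (by norm_num) (by norm_num) (by norm_num) hj
  · simp only [ez]; exact mem_Bset hz 2 3 (by norm_num) (by norm_num) (by norm_num) (by norm_num) hj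
  · simp only [ex, ey]; push_cast
    apply one_div_le_one_div_of_le (by positivity)
    have : 1 / (2 + y) ≤ 1 / (1 + x) := one_div_le_one_div_of_le (by positivity) (by linarith)
    linarith
  · simp only [ey, ez]; push_cast
    apply one_div_le_one_div_of_le (by positivity)
    have : 1 / (3 + z) ≤ 1 / 1 := one_div_le_one_div_of_le (by positivity) (by linarith)
    have : 0 ≤ 1 / (2 + y) := by positivity
    linarith
  · rw [← h.hy]
    change 0 < u2.f (T false t2) - u2.f ts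
    rw [f_sub h.r2 hT.nonneg hs0]
    have hW : 0 < u2.W := by simpa [Sg] using h.g2
    have := h.r2
    have := hT.nonneg
    exact div_pos (mul_pos hW (by linarith)) (by positivity)
  · have c := f_concave h.r2 h.g2 hT.nonneg hs0
    have := hT.lt_one
    have t : u2.D ts * (T false t2 - ts) ≤ u2.D ts * 1 :=
      mul_le_mul_of_nonneg_left (by linarith) (D_nonneg _ _)
    have := h.hδ
    have := h.hy
    change u2.f (T false t2) - v2.f ts ≤ _
    linarith

theorem main {j : ℕ} (hj : 2 ≤ j) : (Sset j).Infinite := by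
  intro hfin
  obtain ⟨M, hM⟩ := (hfin.image fun p => 1 / (p.2.1 - v2.f ts)).bddAbove
  have hD := D_nonneg v2 ts
  obtain ⟨n, hn⟩ := pow_unbounded_of_one_lt (|M| * v2.D ts) (by norm_num : (1 : ℝ) < 2)
  obtain ⟨p, hp, h0, h1⟩ := near_sol hj n
  have h2 : 1 / (p.2.1 - v2.f ts) ≤ |M| := (hM ⟨p, hp, rfl⟩).trans (le_abs_self M)
  rw [div_le_iff₀ h0] at h2
  rw [le_div_iff₀ (by positivity)] at h1
  have h3 := mul_le_mul_of_nonneg_left h1 (abs_nonneg M)
  have h4 := mul_le_mul_of_nonneg_right h2 (by positivity : (0 : ℝ) ≤ 2 ^ n)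
  nlinarith

end Pool.Agent.MP_a07d0e_nt
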