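import Pool.Agent.MP_a07d0e_nt.Data0
import Pool.Agent.MP_a07d0e_nt.Data1
import Pool.Agent.MP_a07d0e_nt.Data2
import Pool.Agent.MP_a07d0e_nt.Data3

namespace Pool.Agent.MP_a07d0e_nt

theorem top0 : Cov false false 33792 102400 33792 102400 3660 4227 3660 4227 3660 4227 :=
  (Cov.nx 58824 c0 c1)

theorem top1 : Cov true false 33792 102400 33792 102400 3660 4227 3660 4227 3660 4227 :=
  c2

theorem top2 : Cov false true 33792 102400 33792 102400 3660 4227 3660 4227 3660 4227 :=
  c3

theorem top3 : Cov true true 33792 102400 33792 102400 3660 4227 3660 4227 3660 4227 :=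
  (Cov.nx 58824 c4 c5)

theorem top4 : Cov false false 33792 102400 33792 102400 5773 7321 3660 4227 3660 4227 :=
  (Cov.nx 58824 (Cov.nx 44585 (Cov.nx 38815 c6 (Cov.ny 38815 c7 (Cov.nx 41600 (Cov.nx 40183 c8 (Cov.ny 40183 c9 (Cov.n1 6547 c10 c11))) c12))) c13) c14)

theorem top5 : Cov true false 33792 102400 33792 102400 5773 7321 3660 4227 3660 4227 :=
  c15

theorem top6 : Cov false true 33792 102400 33792 102400 5773 7321 3660 4227 3660 4227 :=
  c16

theorem top7 : Cov true true 33792 102400 33792 102400 5773 7321 3660 4227 3660 4227 :=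
  (Cov.nx 58824 (Cov.nx 44585 c17 c18) (Cov.ny 58824 c19 c20))

theorem top8 : Cov false false 33792 102400 33792 102400 3660 4227 5773 7321 3660 4227 :=
  (Cov.nx 58824 c21 c22)

theorem top9 : Cov true false 33792 102400 33792 102400 3660 4227 5773 7321 3660 4227 :=
  c23

theorem top10 : Cov false true 33792 102400 33792 102400 3660 4227 5773 7321 3660 4227 :=
  c24

theorem top11 : Cov true true 33792 102400 33792 102400 3660 4227 5773 7321 3660 4227 :=
  (Cov.nx 58824 c25 c26)

theorem top12 : Cov false false 33792 102400 33792 102400 5773 7321 5773 7321 3660 4227 :=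
  (Cov.nx 58824 (Cov.nx 44585 (Cov.nx 38815 c27 (Cov.ny 38815 (Cov.ny 36217 c28 (Cov.nx 41600 c29 (Cov.nx 43067 c30 c31))) c32)) c33) c34)

theorem top13 : Cov true false 33792 102400 33792 102400 5773 7321 5773 7321 3660 4227 :=
  c35

theorem top14 : Cov false true 33792 102400 33792 102400 5773 7321 5773 7321 3660 4227 :=
  (Cov.nx 58824 c36 (Cov.ny 58824 (Cov.nx 77612 c37 (Cov.ny 44585 (Cov.nx 89149 c38 c39) c40)) c41))

theorem top15 : Cov true true 33792 102400 33792 102400 5773 7321 5773 7321 3660 4227 :=
  (Cov.nx 58824 (Cov.nx 44585 (Cov.nx 38815 c42 c43) c44) (Cov.ny 58824 c45 c46))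

theorem top16 : Cov false false 33792 102400 33792 102400 3660 4227 3660 4227 5773 7321 :=
  (Cov.nx 58824 c47 c48)

theorem top17 : Cov true false 33792 102400 33792 102400 3660 4227 3660 4227 5773 7321 :=
  c49

theorem top18 : Cov false true 33792 102400 33792 102400 3660 4227 3660 4227 5773 7321 :=
  c50

theorem top19 : Cov true true 33792 102400 33792 102400 3660 4227 3660 4227 5773 7321 :=
  (Cov.nx 58824 c51 c52)

theorem top20 : Cov false false 33792 102400 33792 102400 5773 7321 3660 4227 5773 7321 :=
  (Cov.nx 58824 (Cov.nx 44585 (Cov.nx 38815 c53 (Cov.ny 38815 c54 (Cov.ny 41600 (Cov.nx 41600 c55 c56) c57))) c58) c59)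

theorem top21 : Cov true false 33792 102400 33792 102400 5773 7321 3660 4227 5773 7321 :=
  c60

theorem top22 : Cov false true 33792 102400 33792 102400 5773 7321 3660 4227 5773 7321 :=
  c61

theorem top23 : Cov true true 33792 102400 33792 102400 5773 7321 3660 4227 5773 7321 :=
  (Cov.nx 58824 c62 c63)

theorem top24 : Cov false false 33792 102400 33792 102400 3660 4227 5773 7321 5773 7321 :=
  (Cov.nx 58824 (Cov.nx 44585 (Cov.nx 38815 c64 (Cov.ny 38815 (Cov.nx 41600 c65 (Cov.ny 36217 c66 (Cov.nx 43067 (Cov.ny 37494 c67 c68) c69))) c70)) c71) c72)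

theorem top25 : Cov true false 33792 102400 33792 102400 3660 4227 5773 7321 5773 7321 :=
  c73

theorem top26 : Cov false true 33792 102400 33792 102400 3660 4227 5773 7321 5773 7321 :=
  c74

theorem top27 : Cov true true 33792 102400 33792 102400 3660 4227 5773 7321 5773 7321 :=
  (Cov.nx 58824 c75 (Cov.ny 58824 c76 c77))

theorem top28 : Cov false false 33792 102400 33792 102400 5773 7321 5773 7321 5773 7321 :=
  (Cov.nx 58824 (Cov.nx 44585 (Cov.nx 38815 c78 (Cov.ny 38815 (Cov.nx 41600 c79 (Cov.ny 36217 c80 (Cov.nx 43067 (Cov.ny 37494 (Cov.n1 6547 c81 c82) c83) (Cov.ny 37494 (Cov.n1 6547 c84 c85) (Cov.n1 6547 c86 (Cov.nx 43819 (Cov.ny 38149 c87 c88) c89)))))) (Cov.nx 41600 (Cov.nx 40183 c90 (Cov.ny 40183 c91 (Cov.n1 6547 c92 (Cov.nx 40885 c93 c94)))) c95))) c96) (Cov.ny 58824 c97 (Cov.nx 77612 c98 (Cov.ny 77612 c99 (Cov.nx 89149 c100 (Cov.ny 89149 c101 (Cov.nx 95545 c102 (Cov.ny 95545 c103 (Cov.nx 98913 c104 (Cov.ny 98913 c105 (Cov.nx 100641 c106 (Cov.ny 100641 c107 (Cov.n1 6547 c108 (Cov.n2 6547 c109 (Cov.n3 6547 c110 c111)))))))))))))))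

theorem top29 : Cov true false 33792 102400 33792 102400 5773 7321 5773 7321 5773 7321 :=
  c112

theorem top30 : Cov false true 33792 102400 33792 102400 5773 7321 5773 7321 5773 7321 :=
  (Cov.nx 58824 c113 (Cov.ny 58824 (Cov.nx 77612 c114 c115) c116))

theorem top31 : Cov true true 33792 102400 33792 102400 5773 7321 5773 7321 5773 7321 :=
  (Cov.nx 58824 c117 (Cov.ny 58824 c118 c119))

def aa (b : Bool) : ℕ := cond b 5773 3660
def bb (b : Bool) : ℕ := cond b 7321 4227

theorem top_all (s2 s3 k1 k2 k3 : Bool) :
    Cov s2 s3 33792 102400 33792 102400 (aa k1) (bb k1) (aa k2) (bb k2) (aa k3) (bb k3) :=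
  match s2, s3, k1, k2, k3 with
  | false, false, false, false, false => top0
  | true, false, false, false, false => top1
  | false, true, false, false, false => top2
  | true, true, false, false, false => top3
  | false, false, true, false, false => top4
  | true, false, true, false, false => top5
  | false, true, true, false, false => top6
  | true, true, true, false, false => top7
  | false, false, false, true, false => top8
  | true, false, false, true, false => top9
  | false, true, false, true, false => top10
  | true, true, false, true, false => top11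
  | false, false, true, true, false => top12
  | true, false, true, true, false => top13
  | false, true, true, true, false => top14
  | true, true, true, true, false => top15
  | false, false, false, false, true => top16
  | true, false, false, false, true => top17
  | false, true, false, false, true => top18
  | true, true, false, false, true => top19
  | false, false, true, false, true => top20
  | true, false, true, false, true => top21
  | false, true, true, false, true => top22
  | true, true, true, false, true => top23
  | false, false, false, true, true => top24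
  | true, false, false, true, true => top25
  | false, true, false, true, true => top26
  | true, true, false, true, true => top27
  | false, false, true, true, true => top28
  | true, false, true, true, true => top29
  | false, true, true, true, true => top30
  | true, true, true, true, true => top31

end Pool.Agent.MP_a07d0e_nt
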