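import Pool.Agent.MP_a07d0e_nt.Check

namespace Pool.Agent.MP_a07d0e_nt

def w1 : Wd := ⟨⟨46, 100⟩, ⟨67, 100⟩, ⟨57, 100⟩, false, [],
  ⟨rfl, rfl, rfl, rfl⟩⟩
def w2 : Wd := ⟨⟨100, 146⟩, ⟨100, 167⟩, ⟨100, 157⟩, true, [false],
  ⟨rfl, rfl, rfl, rfl⟩⟩
def w3 : Wd := ⟨⟨100, 246⟩, ⟨100, 267⟩, ⟨100, 257⟩, true, [true],
  ⟨rfl, rfl, rfl, rfl⟩⟩
def w4 : Wd := ⟨⟨146, 246⟩, ⟨167, 267⟩, ⟨157, 257⟩, false, [false, false],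
  ⟨rfl, rfl, rfl, rfl⟩⟩
def w5 : Wd := ⟨⟨246, 346⟩, ⟨267, 367⟩, ⟨257, 357⟩, false, [false, true],
  ⟨rfl, rfl, rfl, rfl⟩⟩
def w6 : Wd := ⟨⟨146, 392⟩, ⟨167, 434⟩, ⟨157, 414⟩, false, [true, false],
  ⟨rfl, rfl, rfl, rfl⟩⟩
def w7 : Wd := ⟨⟨246, 592⟩, ⟨267, 634⟩, ⟨257, 614⟩, false, [true, true],
  ⟨rfl, rfl, rfl, rfl⟩⟩
def w8 : Wd := ⟨⟨246, 392⟩, ⟨267, 434⟩, ⟨257, 414⟩, true, [false, false, false],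
  ⟨rfl, rfl, rfl, rfl⟩⟩
def w9 : Wd := ⟨⟨346, 592⟩, ⟨367, 634⟩, ⟨357, 614⟩, true, [false, false, true],
  ⟨rfl, rfl, rfl, rfl⟩⟩
def w10 : Wd := ⟨⟨392, 538⟩, ⟨434, 601⟩, ⟨414, 571⟩, true, [false, true, false],
  ⟨rfl, rfl, rfl, rfl⟩⟩
def w11 : Wd := ⟨⟨592, 838⟩, ⟨634, 901⟩, ⟨614, 871⟩, true, [false, true, true],
  ⟨rfl, rfl, rfl, rfl⟩⟩
def w12 : Wd := ⟨⟨246, 638⟩, ⟨267, 701⟩, ⟨257, 671⟩, true, [true, false, false],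
  ⟨rfl, rfl, rfl, rfl⟩⟩
def w13 : Wd := ⟨⟨346, 938⟩, ⟨367, 1001⟩, ⟨357, 971⟩, true, [true, false, true],
  ⟨rfl, rfl, rfl, rfl⟩⟩
def w14 : Wd := ⟨⟨392, 930⟩, ⟨434, 1035⟩, ⟨414, 985⟩, true, [true, true, false],
  ⟨rfl, rfl, rfl, rfl⟩⟩
def w15 : Wd := ⟨⟨592, 1430⟩, ⟨634, 1535⟩, ⟨614, 1485⟩, true, [true, true, true],
  ⟨rfl, rfl, rfl, rfl⟩⟩
def w16 : Wd := ⟨⟨392, 638⟩, ⟨434, 701⟩, ⟨414, 671⟩, false, [false, false, false, false],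
  ⟨rfl, rfl, rfl, rfl⟩⟩
def w17 : Wd := ⟨⟨592, 938⟩, ⟨634, 1001⟩, ⟨614, 971⟩, false, [false, false, false, true],
  ⟨rfl, rfl, rfl, rfl⟩⟩
def w18 : Wd := ⟨⟨538, 930⟩, ⟨601, 1035⟩, ⟨571, 985⟩, false, [false, false, true, false],
  ⟨rfl, rfl, rfl, rfl⟩⟩
def w19 : Wd := ⟨⟨838, 1430⟩, ⟨901, 1535⟩, ⟨871, 1485⟩, false, [false, false, true, true],
  ⟨rfl, rfl, rfl, rfl⟩⟩
def w20 : Wd := ⟨⟨638, 884⟩, ⟨701, 968⟩, ⟨671, 928⟩, false, [false, true, false, false],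
  ⟨rfl, rfl, rfl, rfl⟩⟩
def w21 : Wd := ⟨⟨938, 1284⟩, ⟨1001, 1368⟩, ⟨971, 1328⟩, false, [false, true, false, true],
  ⟨rfl, rfl, rfl, rfl⟩⟩
def w22 : Wd := ⟨⟨930, 1322⟩, ⟨1035, 1469⟩, ⟨985, 1399⟩, false, [false, true, true, false],
  ⟨rfl, rfl, rfl, rfl⟩⟩
def w23 : Wd := ⟨⟨1430, 2022⟩, ⟨1535, 2169⟩, ⟨1485, 2099⟩, false, [false, true, true, true],
  ⟨rfl, rfl, rfl, rfl⟩⟩
def w24 : Wd := ⟨⟨392, 1030⟩, ⟨434, 1135⟩, ⟨414, 1085⟩, false, [true, false, false, false],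
  ⟨rfl, rfl, rfl, rfl⟩⟩
def w25 : Wd := ⟨⟨592, 1530⟩, ⟨634, 1635⟩, ⟨614, 1585⟩, false, [true, false, false, true],
  ⟨rfl, rfl, rfl, rfl⟩⟩
def w26 : Wd := ⟨⟨538, 1468⟩, ⟨601, 1636⟩, ⟨571, 1556⟩, false, [true, false, true, false],
  ⟨rfl, rfl, rfl, rfl⟩⟩
def w27 : Wd := ⟨⟨838, 2268⟩, ⟨901, 2436⟩, ⟨871, 2356⟩, false, [true, false, true, true],
  ⟨rfl, rfl, rfl, rfl⟩⟩
def w28 : Wd := ⟨⟨638, 1522⟩, ⟨701, 1669⟩, ⟨671, 1599⟩, false, [true, true, false, false],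
  ⟨rfl, rfl, rfl, rfl⟩⟩
def w29 : Wd := ⟨⟨938, 2222⟩, ⟨1001, 2369⟩, ⟨971, 2299⟩, false, [true, true, false, true],
  ⟨rfl, rfl, rfl, rfl⟩⟩
def w30 : Wd := ⟨⟨930, 2252⟩, ⟨1035, 2504⟩, ⟨985, 2384⟩, false, [true, true, true, false],
  ⟨rfl, rfl, rfl, rfl⟩⟩
def w31 : Wd := ⟨⟨1430, 3452⟩, ⟨1535, 3704⟩, ⟨1485, 3584⟩, false, [true, true, true, true],
  ⟨rfl, rfl, rfl, rfl⟩⟩
def w32 : Wd := ⟨⟨638, 1030⟩, ⟨701, 1135⟩, ⟨671, 1085⟩, true, [false, false, false, false, false],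
  ⟨rfl, rfl, rfl, rfl⟩⟩
def w33 : Wd := ⟨⟨938, 1530⟩, ⟨1001, 1635⟩, ⟨971, 1585⟩, true, [false, false, false, false, true],
  ⟨rfl, rfl, rfl, rfl⟩⟩
def w34 : Wd := ⟨⟨930, 1468⟩, ⟨1035, 1636⟩, ⟨985, 1556⟩, true, [false, false, false, true, false],
  ⟨rfl, rfl, rfl, rfl⟩⟩
def w35 : Wd := ⟨⟨1430, 2268⟩, ⟨1535, 2436⟩, ⟨1485, 2356⟩, true, [false, false, false, true, true],
  ⟨rfl, rfl, rfl, rfl⟩⟩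
def w36 : Wd := ⟨⟨884, 1522⟩, ⟨968, 1669⟩, ⟨928, 1599⟩, true, [false, false, true, false, false],
  ⟨rfl, rfl, rfl, rfl⟩⟩
def w37 : Wd := ⟨⟨1284, 2222⟩, ⟨1368, 2369⟩, ⟨1328, 2299⟩, true, [false, false, true, false, true],
  ⟨rfl, rfl, rfl, rfl⟩⟩
def w38 : Wd := ⟨⟨1322, 2252⟩, ⟨1469, 2504⟩, ⟨1399, 2384⟩, true, [false, false, true, true, false],
  ⟨rfl, rfl, rfl, rfl⟩⟩
def w39 : Wd := ⟨⟨2022, 3452⟩, ⟨2169, 3704⟩, ⟨2099, 3584⟩, true, [false, false, true, true, true],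
  ⟨rfl, rfl, rfl, rfl⟩⟩
def w40 : Wd := ⟨⟨1030, 1422⟩, ⟨1135, 1569⟩, ⟨1085, 1499⟩, true, [false, true, false, false, false],
  ⟨rfl, rfl, rfl, rfl⟩⟩
def w41 : Wd := ⟨⟨1530, 2122⟩, ⟨1635, 2269⟩, ⟨1585, 2199⟩, true, [false, true, false, false, true],
  ⟨rfl, rfl, rfl, rfl⟩⟩
def w42 : Wd := ⟨⟨1468, 2006⟩, ⟨1636, 2237⟩, ⟨1556, 2127⟩, true, [false, true, false, true, false],
  ⟨rfl, rfl, rfl, rfl⟩⟩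
def w43 : Wd := ⟨⟨2268, 3106⟩, ⟨2436, 3337⟩, ⟨2356, 3227⟩, true, [false, true, false, true, true],
  ⟨rfl, rfl, rfl, rfl⟩⟩
def w44 : Wd := ⟨⟨1522, 2160⟩, ⟨1669, 2370⟩, ⟨1599, 2270⟩, true, [false, true, true, false, false],
  ⟨rfl, rfl, rfl, rfl⟩⟩
def w45 : Wd := ⟨⟨2222, 3160⟩, ⟨2369, 3370⟩, ⟨2299, 3270⟩, true, [false, true, true, false, true],
  ⟨rfl, rfl, rfl, rfl⟩⟩
def w46 : Wd := ⟨⟨2252, 3182⟩, ⟨2504, 3539⟩, ⟨2384, 3369⟩, true, [false, true, true, true, false],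
  ⟨rfl, rfl, rfl, rfl⟩⟩
def w47 : Wd := ⟨⟨3452, 4882⟩, ⟨3704, 5239⟩, ⟨3584, 5069⟩, true, [false, true, true, true, true],
  ⟨rfl, rfl, rfl, rfl⟩⟩
def w48 : Wd := ⟨⟨638, 1668⟩, ⟨701, 1836⟩, ⟨671, 1756⟩, true, [true, false, false, false, false],
  ⟨rfl, rfl, rfl, rfl⟩⟩
def w49 : Wd := ⟨⟨938, 2468⟩, ⟨1001, 2636⟩, ⟨971, 2556⟩, true, [true, false, false, false, true],
  ⟨rfl, rfl, rfl, rfl⟩⟩
def w50 : Wd := ⟨⟨930, 2398⟩, ⟨1035, 2671⟩, ⟨985, 2541⟩, true, [true, false, false, true, false],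
  ⟨rfl, rfl, rfl, rfl⟩⟩
def w51 : Wd := ⟨⟨1430, 3698⟩, ⟨1535, 3971⟩, ⟨1485, 3841⟩, true, [true, false, false, true, true],
  ⟨rfl, rfl, rfl, rfl⟩⟩
def w52 : Wd := ⟨⟨884, 2406⟩, ⟨968, 2637⟩, ⟨928, 2527⟩, true, [true, false, true, false, false],
  ⟨rfl, rfl, rfl, rfl⟩⟩
def w53 : Wd := ⟨⟨1284, 3506⟩, ⟨1368, 3737⟩, ⟨1328, 3627⟩, true, [true, false, true, false, true],
  ⟨rfl, rfl, rfl, rfl⟩⟩
def w54 : Wd := ⟨⟨1322, 3574⟩, ⟨1469, 3973⟩, ⟨1399, 3783⟩, true, [true, false, true, true, false],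
  ⟨rfl, rfl, rfl, rfl⟩⟩
def w55 : Wd := ⟨⟨2022, 5474⟩, ⟨2169, 5873⟩, ⟨2099, 5683⟩, true, [true, false, true, true, true],
  ⟨rfl, rfl, rfl, rfl⟩⟩
def w56 : Wd := ⟨⟨1030, 2452⟩, ⟨1135, 2704⟩, ⟨1085, 2584⟩, true, [true, true, false, false, false],
  ⟨rfl, rfl, rfl, rfl⟩⟩
def w57 : Wd := ⟨⟨1530, 3652⟩, ⟨1635, 3904⟩, ⟨1585, 3784⟩, true, [true, true, false, false, true],
  ⟨rfl, rfl, rfl, rfl⟩⟩
def w58 : Wd := ⟨⟨1468, 3474⟩, ⟨1636, 3873⟩, ⟨1556, 3683⟩, true, [true, true, false, true, false],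
  ⟨rfl, rfl, rfl, rfl⟩⟩
def w59 : Wd := ⟨⟨2268, 5374⟩, ⟨2436, 5773⟩, ⟨2356, 5583⟩, true, [true, true, false, true, true],
  ⟨rfl, rfl, rfl, rfl⟩⟩
def w60 : Wd := ⟨⟨1522, 3682⟩, ⟨1669, 4039⟩, ⟨1599, 3869⟩, true, [true, true, true, false, false],
  ⟨rfl, rfl, rfl, rfl⟩⟩
def w61 : Wd := ⟨⟨2222, 5382⟩, ⟨2369, 5739⟩, ⟨2299, 5569⟩, true, [true, true, true, false, true],
  ⟨rfl, rfl, rfl, rfl⟩⟩
def w62 : Wd := ⟨⟨2252, 5434⟩, ⟨2504, 6043⟩, ⟨2384, 5753⟩, true, [true, true, true, true, false],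
  ⟨rfl, rfl, rfl, rfl⟩⟩
def w63 : Wd := ⟨⟨3452, 8334⟩, ⟨3704, 8943⟩, ⟨3584, 8653⟩, true, [true, true, true, true, true],
  ⟨rfl, rfl, rfl, rfl⟩⟩
def w64 : Wd := ⟨⟨1030, 1668⟩, ⟨1135, 1836⟩, ⟨1085, 1756⟩, false, [false, false, false, false, false, false],
  ⟨rfl, rfl, rfl, rfl⟩⟩
def w65 : Wd := ⟨⟨1530, 2468⟩, ⟨1635, 2636⟩, ⟨1585, 2556⟩, false, [false, false, false, false, false, true],
  ⟨rfl, rfl, rfl, rfl⟩⟩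
def w66 : Wd := ⟨⟨1468, 2398⟩, ⟨1636, 2671⟩, ⟨1556, 2541⟩, false, [false, false, false, false, true, false],
  ⟨rfl, rfl, rfl, rfl⟩⟩
def w67 : Wd := ⟨⟨2268, 3698⟩, ⟨2436, 3971⟩, ⟨2356, 3841⟩, false, [false, false, false, false, true, true],
  ⟨rfl, rfl, rfl, rfl⟩⟩
def w68 : Wd := ⟨⟨1522, 2406⟩, ⟨1669, 2637⟩, ⟨1599, 2527⟩, false, [false, false, false, true, false, false],
  ⟨rfl, rfl, rfl, rfl⟩⟩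
def w69 : Wd := ⟨⟨2222, 3506⟩, ⟨2369, 3737⟩, ⟨2299, 3627⟩, false, [false, false, false, true, false, true],
  ⟨rfl, rfl, rfl, rfl⟩⟩
def w70 : Wd := ⟨⟨2252, 3574⟩, ⟨2504, 3973⟩, ⟨2384, 3783⟩, false, [false, false, false, true, true, false],
  ⟨rfl, rfl, rfl, rfl⟩⟩
def w71 : Wd := ⟨⟨3452, 5474⟩, ⟨3704, 5873⟩, ⟨3584, 5683⟩, false, [false, false, false, true, true, true],
  ⟨rfl, rfl, rfl, rfl⟩⟩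
def w72 : Wd := ⟨⟨1422, 2452⟩, ⟨1569, 2704⟩, ⟨1499, 2584⟩, false, [false, false, true, false, false, false],
  ⟨rfl, rfl, rfl, rfl⟩⟩
def w73 : Wd := ⟨⟨2122, 3652⟩, ⟨2269, 3904⟩, ⟨2199, 3784⟩, false, [false, false, true, false, false, true],
  ⟨rfl, rfl, rfl, rfl⟩⟩
def w74 : Wd := ⟨⟨2006, 3474⟩, ⟨2237, 3873⟩, ⟨2127, 3683⟩, false, [false, false, true, false, true, false],
  ⟨rfl, rfl, rfl, rfl⟩⟩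
def w75 : Wd := ⟨⟨3106, 5374⟩, ⟨3337, 5773⟩, ⟨3227, 5583⟩, false, [false, false, true, false, true, true],
  ⟨rfl, rfl, rfl, rfl⟩⟩
def w76 : Wd := ⟨⟨2160, 3682⟩, ⟨2370, 4039⟩, ⟨2270, 3869⟩, false, [false, false, true, true, false, false],
  ⟨rfl, rfl, rfl, rfl⟩⟩
def w77 : Wd := ⟨⟨3160, 5382⟩, ⟨3370, 5739⟩, ⟨3270, 5569⟩, false, [false, false, true, true, false, true],
  ⟨rfl, rfl, rfl, rfl⟩⟩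
def w78 : Wd := ⟨⟨3182, 5434⟩, ⟨3539, 6043⟩, ⟨3369, 5753⟩, false, [false, false, true, true, true, false],
  ⟨rfl, rfl, rfl, rfl⟩⟩
def w80 : Wd := ⟨⟨1668, 2306⟩, ⟨1836, 2537⟩, ⟨1756, 2427⟩, false, [false, true, false, false, false, false],
  ⟨rfl, rfl, rfl, rfl⟩⟩
def w81 : Wd := ⟨⟨2468, 3406⟩, ⟨2636, 3637⟩, ⟨2556, 3527⟩, false, [false, true, false, false, false, true],
  ⟨rfl, rfl, rfl, rfl⟩⟩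
def w82 : Wd := ⟨⟨2398, 3328⟩, ⟨2671, 3706⟩, ⟨2541, 3526⟩, false, [false, true, false, false, true, false],
  ⟨rfl, rfl, rfl, rfl⟩⟩
def w84 : Wd := ⟨⟨2406, 3290⟩, ⟨2637, 3605⟩, ⟨2527, 3455⟩, false, [false, true, false, true, false, false],
  ⟨rfl, rfl, rfl, rfl⟩⟩
def w85 : Wd := ⟨⟨3506, 4790⟩, ⟨3737, 5105⟩, ⟨3627, 4955⟩, false, [false, true, false, true, false, true],
  ⟨rfl, rfl, rfl, rfl⟩⟩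
def w86 : Wd := ⟨⟨3574, 4896⟩, ⟨3973, 5442⟩, ⟨3783, 5182⟩, false, [false, true, false, true, true, false],
  ⟨rfl, rfl, rfl, rfl⟩⟩
def w88 : Wd := ⟨⟨2452, 3482⟩, ⟨2704, 3839⟩, ⟨2584, 3669⟩, false, [false, true, true, false, false, false],
  ⟨rfl, rfl, rfl, rfl⟩⟩
def w90 : Wd := ⟨⟨3474, 4942⟩, ⟨3873, 5509⟩, ⟨3683, 5239⟩, false, [false, true, true, false, true, false],
  ⟨rfl, rfl, rfl, rfl⟩⟩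
def w96 : Wd := ⟨⟨1030, 2698⟩, ⟨1135, 2971⟩, ⟨1085, 2841⟩, false, [true, false, false, false, false, false],
  ⟨rfl, rfl, rfl, rfl⟩⟩
def w97 : Wd := ⟨⟨1530, 3998⟩, ⟨1635, 4271⟩, ⟨1585, 4141⟩, false, [true, false, false, false, false, true],
  ⟨rfl, rfl, rfl, rfl⟩⟩
def w98 : Wd := ⟨⟨1468, 3866⟩, ⟨1636, 4307⟩, ⟨1556, 4097⟩, false, [true, false, false, false, true, false],
  ⟨rfl, rfl, rfl, rfl⟩⟩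
def w100 : Wd := ⟨⟨1522, 3928⟩, ⟨1669, 4306⟩, ⟨1599, 4126⟩, false, [true, false, false, true, false, false],
  ⟨rfl, rfl, rfl, rfl⟩⟩
def w101 : Wd := ⟨⟨2222, 5728⟩, ⟨2369, 6106⟩, ⟨2299, 5926⟩, false, [true, false, false, true, false, true],
  ⟨rfl, rfl, rfl, rfl⟩⟩
def w102 : Wd := ⟨⟨2252, 5826⟩, ⟨2504, 6477⟩, ⟨2384, 6167⟩, false, [true, false, false, true, true, false],
  ⟨rfl, rfl, rfl, rfl⟩⟩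
def w103 : Wd := ⟨⟨3452, 8926⟩, ⟨3704, 9577⟩, ⟨3584, 9267⟩, false, [true, false, false, true, true, true],
  ⟨rfl, rfl, rfl, rfl⟩⟩
def w104 : Wd := ⟨⟨1422, 3874⟩, ⟨1569, 4273⟩, ⟨1499, 4083⟩, false, [true, false, true, false, false, false],
  ⟨rfl, rfl, rfl, rfl⟩⟩
def w105 : Wd := ⟨⟨2122, 5774⟩, ⟨2269, 6173⟩, ⟨2199, 5983⟩, false, [true, false, true, false, false, true],
  ⟨rfl, rfl, rfl, rfl⟩⟩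
def w106 : Wd := ⟨⟨2006, 5480⟩, ⟨2237, 6110⟩, ⟨2127, 5810⟩, false, [true, false, true, false, true, false],
  ⟨rfl, rfl, rfl, rfl⟩⟩
def w108 : Wd := ⟨⟨2160, 5842⟩, ⟨2370, 6409⟩, ⟨2270, 6139⟩, false, [true, false, true, true, false, false],
  ⟨rfl, rfl, rfl, rfl⟩⟩
def w112 : Wd := ⟨⟨1668, 3974⟩, ⟨1836, 4373⟩, ⟨1756, 4183⟩, false, [true, true, false, false, false, false],
  ⟨rfl, rfl, rfl, rfl⟩⟩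
def w113 : Wd := ⟨⟨2468, 5874⟩, ⟨2636, 6273⟩, ⟨2556, 6083⟩, false, [true, true, false, false, false, true],
  ⟨rfl, rfl, rfl, rfl⟩⟩
def w115 : Wd := ⟨⟨3698, 8826⟩, ⟨3971, 9477⟩, ⟨3841, 9167⟩, false, [true, true, false, false, true, true],
  ⟨rfl, rfl, rfl, rfl⟩⟩
def w116 : Wd := ⟨⟨2406, 5696⟩, ⟨2637, 6242⟩, ⟨2527, 5982⟩, false, [true, true, false, true, false, false],
  ⟨rfl, rfl, rfl, rfl⟩⟩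
def w117 : Wd := ⟨⟨3506, 8296⟩, ⟨3737, 8842⟩, ⟨3627, 8582⟩, false, [true, true, false, true, false, true],
  ⟨rfl, rfl, rfl, rfl⟩⟩
def w118 : Wd := ⟨⟨3574, 8470⟩, ⟨3973, 9415⟩, ⟨3783, 8965⟩, false, [true, true, false, true, true, false],
  ⟨rfl, rfl, rfl, rfl⟩⟩
def w119 : Wd := ⟨⟨5474, 12970⟩, ⟨5873, 13915⟩, ⟨5683, 13465⟩, false, [true, true, false, true, true, true],
  ⟨rfl, rfl, rfl, rfl⟩⟩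
def w121 : Wd := ⟨⟨3652, 8834⟩, ⟨3904, 9443⟩, ⟨3784, 9153⟩, false, [true, true, true, false, false, true],
  ⟨rfl, rfl, rfl, rfl⟩⟩
def w126 : Wd := ⟨⟨5434, 13120⟩, ⟨6043, 14590⟩, ⟨5753, 13890⟩, false, [true, true, true, true, true, false],
  ⟨rfl, rfl, rfl, rfl⟩⟩

end Pool.Agent.MP_a07d0e_nt
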